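import Pool.Agent.Lib.BLP.Rec

/-!
# Chunk W: concatenation of chain-decomposed types

`K` blocks, the states of each block form a type `X` with chain decompositions `C g`.  The word of
the first `G` blocks again has a chain decomposition.
-/

namespace BLP

open Finset

variable {X : Type*} {K : ℕ}

/-- positions of the blocks, extended by `0` -/
def ys (C : ℕ → Chain X) (x : Fin K → X) (g : ℕ) : ℕ := if h : g < K then (C g).y (x ⟨g, h⟩) else 0
/-- lengths of the blocks, extended by `0` -/
def ls (C : ℕ → Chain X) (x : Fin K → X) (g : ℕ) : ℕ := if h : g < K then (C g).l (x ⟨g, h⟩) else 0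

theorem ys_le (C : ℕ → Chain X) (x : Fin K → X) (g : ℕ) : ys C x g ≤ ls C x g := by
  unfold ys ls
  split_ifs with h
  · exact (C g).y_le _
  · exact le_rfl

/-- decoding of the first `G` blocks with target `T` -/
def pdec (C : ℕ → Chain X) (G : ℕ) (x : Fin K → X) (T : ℕ) : Fin K → X := fun g =>
  if (g : ℕ) < G then
    (C g).dec (x g) (dcd (ys C x) (ls C x) G
      (min T (PP (ys C x) (ls C x) G + QQ (ys C x) (ls C x) G)) g)
  else x g

theorem dec_min (C : Chain X) (x : X) (t : ℕ) : C.dec x t = C.dec x (min t (C.l x)) := by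
  have h := C.dec_y (C.dec x t)
  rw [C.y_dec, C.dec_dec] at h
  exact h.symm

/-- W1: the positions of the decoded state -/
theorem ys_pdec (C : ℕ → Chain X) (G : ℕ) (hG : G ≤ K) (x : Fin K → X) (T : ℕ) (g : ℕ)
    (hg : g < G) :
    ys C (pdec C G x T) g = dcd (ys C x) (ls C x) G
      (min T (PP (ys C x) (ls C x) G + QQ (ys C x) (ls C x) G)) g := by
  have hgK : g < K := by omega
  have h1 := dcd_le (ys C x) (ls C x) G
    (min T (PP (ys C x) (ls C x) G + QQ (ys C x) (ls C x) G))
    (fun j _ => ys_le C x j) (min_le_right _ _) g hg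
  have h2 : ls C x g = (C g).l (x ⟨g, hgK⟩) := by simp [ls, hgK]
  rw [h2] at h1
  have h3 : ys C (pdec C G x T) g = (C g).y (pdec C G x T ⟨g, hgK⟩) := by simp [ys, hgK]
  rw [h3]
  unfold pdec
  simp only [hg, if_true]
  rw [(C g).y_dec]
  exact min_eq_left h1

theorem ls_pdec (C : ℕ → Chain X) (G : ℕ) (x : Fin K → X) (T : ℕ) (g : ℕ) :
    ls C (pdec C G x T) g = ls C x g := by
  unfold ls
  split_ifs with h
  · unfold pdec
    dsimp only
    split_ifs with h1
    · exact (C g).l_dec _ _
    · rfl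
  · rfl

theorem PP_pdec (C : ℕ → Chain X) (G : ℕ) (hG : G ≤ K) (x : Fin K → X) (T : ℕ) :
    PP (ys C (pdec C G x T)) (ls C (pdec C G x T)) G =
      min T (PP (ys C x) (ls C x) G + QQ (ys C x) (ls C x) G) := by
  rw [PP_congr (fun g hg => ys_pdec C G hG x T g hg) (fun g _ => ls_pdec C G x T g)]
  exact (dcd_inv (ys C x) (ls C x) G _ (fun j _ => ys_le C x j) (min_le_right _ _)).2.2.2

theorem PQ_pdec (C : ℕ → Chain X) (G : ℕ) (hG : G ≤ K) (x : Fin K → X) (T : ℕ) :
    PP (ys C (pdec C G x T)) (ls C (pdec C G x T)) G +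
      QQ (ys C (pdec C G x T)) (ls C (pdec C G x T)) G =
      PP (ys C x) (ls C x) G + QQ (ys C x) (ls C x) G := by
  rw [PP_congr (fun g hg => ys_pdec C G hG x T g hg) (fun g _ => ls_pdec C G x T g),
    QQ_congr (fun g hg => ys_pdec C G hG x T g hg) (fun g _ => ls_pdec C G x T g)]
  exact (dcd_inv (ys C x) (ls C x) G _ (fun j _ => ys_le C x j) (min_le_right _ _)).1 G le_rfl

theorem pdec_pdec (C : ℕ → Chain X) (G : ℕ) (hG : G ≤ K) (x : Fin K → X) (T T' : ℕ) :
    pdec C G (pdec C G x T) T' = pdec C G x T' := by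
  have e := PQ_pdec C G hG x T
  funext g
  by_cases hg : (g : ℕ) < G
  · have h1 : dcd (ys C (pdec C G x T)) (ls C (pdec C G x T)) G
        (min T' (PP (ys C x) (ls C x) G + QQ (ys C x) (ls C x) G)) g =
        dcd (ys C x) (ls C x) G (min T' (PP (ys C x) (ls C x) G + QQ (ys C x) (ls C x) G)) g := by
      rw [dcd_congr (fun g hg => ys_pdec C G hG x T g hg) (fun g _ => ls_pdec C G x T g) _ _ hg]
      exact dcd_dcd (ys C x) (ls C x) G _ _ (fun j _ => ys_le C x j) (min_le_right _ _)
        (min_le_right _ _) g hg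
    have h3 : ∀ (z : Fin K → X) (S : ℕ), pdec C G z S g = (C g).dec (z g)
        (dcd (ys C z) (ls C z) G (min S (PP (ys C z) (ls C z) G + QQ (ys C z) (ls C z) G)) g) := by
      intro z S
      unfold pdec
      simp only [hg, if_true]
    rw [h3, e, h1, h3 x T, h3 x T', (C g).dec_dec]
  · unfold pdec
    simp only [hg, if_false]

theorem pdec_self (C : ℕ → Chain X) (G : ℕ) (x : Fin K → X) :
    pdec C G x (PP (ys C x) (ls C x) G) = x := by
  funext g
  unfold pdec
  split_ifs with hg
  · rw [min_eq_left (Nat.le_add_right _ _),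
      dcd_self (ys C x) (ls C x) G (fun j _ => ys_le C x j) g hg]
    have : ys C x g = (C g).y (x g) := by simp [ys]
    rw [this, (C g).dec_y]
  · rfl

/-- W2: the chain decomposition given by the first `G` blocks -/
def preChain (C : ℕ → Chain X) (G : ℕ) (hG : G ≤ K) : Chain (Fin K → X) where
  y x := PP (ys C x) (ls C x) G
  l x := PP (ys C x) (ls C x) G + QQ (ys C x) (ls C x) G
  dec x T := pdec C G x T
  y_le x := Nat.le_add_right _ _
  y_dec := by
    intro x T
    exact PP_pdec C G hG x T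
  l_dec := by
    intro x T
    exact PQ_pdec C G hG x T
  dec_dec := by
    intro x T T'
    exact pdec_pdec C G hG x T T'
  dec_y := by
    intro x
    exact pdec_self C G x

/-- W3: uniformity on the chains, in the form that is used -/
theorem Chain.fiber {Y : Type*} [Fintype Y] [DecidableEq Y] (C : Chain Y) (e : Y → ℤ)
    (he : ∀ x t, e (C.dec x t) = e x) (η : ℕ) :
    (univ.filter fun x => |((C.l x : ℤ) - C.y x) - e x| ≤ η).card ≤
      (2 * η + 1) * (univ.filter fun x =>
        (C.l x : ℤ) - 2 * C.y x = 0 ∨ (C.l x : ℤ) - 2 * C.y x = 1).card := by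
  have hc : (Finset.Icc (-(η : ℤ)) η).card = 2 * η + 1 := by
    rw [Int.card_Icc]
    omega
  rw [← hc, ← Finset.card_product]
  refine Finset.card_le_card_of_injOn
    (fun x => (((C.l x : ℤ) - C.y x) - e x, C.dec x (C.l x / 2))) ?_ ?_
  · intro x hx
    simp only [Finset.coe_filter, Finset.mem_univ, true_and, Set.mem_ofPred_eq, abs_le] at hx
    simp only [Finset.coe_product, Set.mem_prod, Finset.coe_Icc, Set.mem_Icc, Finset.coe_filter,
      Finset.mem_univ, true_and, Set.mem_ofPred_eq]
    refine ⟨⟨hx.1, hx.2⟩, ?_⟩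
    rw [C.y_dec, C.l_dec, min_eq_left (Nat.div_le_self _ _)]
    omega
  · intro x hx x' hx' h
    simp only [Prod.mk.injEq] at h
    obtain ⟨h1, h2⟩ := h
    have hl : C.l x = C.l x' := by
      rw [← C.l_dec x (C.l x / 2), h2, C.l_dec]
    have he' : e x = e x' := by
      rw [← he x (C.l x / 2), h2, he]
    have hy : C.y x = C.y x' := by
      have := C.y_le x
      have := C.y_le x'
      omega
    calc x = C.dec x (C.y x) := (C.dec_y x).symm
      _ = C.dec (C.dec x (C.l x / 2)) (C.y x) := (C.dec_dec _ _ _).symm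
      _ = C.dec (C.dec x' (C.l x' / 2)) (C.y x') := by rw [h2, hy]
      _ = C.dec x' (C.y x') := C.dec_dec _ _ _
      _ = x' := C.dec_y x'

/-- the reversal of the word of all `K` blocks -/
def rev (C : ℕ → Chain X) (x : Fin K → X) : Fin K → X := pdec C K x (QQ (ys C x) (ls C x) K)

/-- the value of the word -/
def zz (C : ℕ → Chain X) (x : Fin K → X) : ℤ := (QQ (ys C x) (ls C x) K : ℤ) - PP (ys C x) (ls C x) K

/-- W4 -/
theorem zz_eq (C : ℕ → Chain X) (x : Fin K → X) :
    zz C x = ∑ g : Fin K, (((C g).l (x g) : ℤ) - 2 * (C g).y (x g)) := by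
  unfold zz
  rw [QQ_sub_PP _ _ _ (fun j _ => ys_le C x j), Finset.sum_range]
  refine Finset.sum_congr rfl fun g _ => ?_
  simp [ys, ls]

theorem PP_rev (C : ℕ → Chain X) (x : Fin K → X) :
    PP (ys C (rev C x)) (ls C (rev C x)) K = QQ (ys C x) (ls C x) K := by
  unfold rev
  rw [PP_pdec C K le_rfl]
  exact min_eq_left (Nat.le_add_left _ _)

theorem QQ_rev (C : ℕ → Chain X) (x : Fin K → X) :
    QQ (ys C (rev C x)) (ls C (rev C x)) K = PP (ys C x) (ls C x) K := by
  have h1 := PP_rev C x
  have h2 := PQ_pdec C K le_rfl x (QQ (ys C x) (ls C x) K)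
  change PP (ys C (rev C x)) (ls C (rev C x)) K + QQ (ys C (rev C x)) (ls C (rev C x)) K = _ at h2
  omega

theorem rev_rev (C : ℕ → Chain X) (x : Fin K → X) : rev C (rev C x) = x := by
  have h : rev C (rev C x) = pdec C K (pdec C K x (QQ (ys C x) (ls C x) K))
      (QQ (ys C (rev C x)) (ls C (rev C x)) K) := rfl
  rw [h, QQ_rev, pdec_pdec C K le_rfl, pdec_self C K]

theorem zz_rev (C : ℕ → Chain X) (x : Fin K → X) : zz C (rev C x) = - zz C x := by
  unfold zz
  rw [PP_rev, QQ_rev]
  ring

end BLP
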