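import Pool.Agent.Lib.BLP.Defs
import Pool.Agent.Lib.BL.Conc
import Pool.Agent.Lib.BL.LO

/-!
# Chunk C1: concentration and anticoncentration on the cube (uses BL/Conc, BL/LO)
-/

namespace BLP

open Finset

variable {ι : Type*} [Fintype ι] [DecidableEq ι]

/-- the Hamming distance bounds the variation of a Lipschitz function -/
theorem c1_lip_dist (h : (ι → Bool) → ℝ) (hh : Lip 1 h) :
    ∀ (n : ℕ) (x y : ι → Bool), hammingDist x y = n → |h x - h y| ≤ n := by
  intro n
  induction n with
  | zero =>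
    intro x y hxy
    rw [hammingDist_eq_zero] at hxy
    subst hxy
    simp
  | succ n ih =>
    intro x y hxy
    have hne : x ≠ y := by
      intro h0
      rw [h0, hammingDist_self] at hxy
      omega
    obtain ⟨i, hi⟩ := Function.ne_iff.mp hne
    have h1 : hammingDist (flp x i) y = n := by
      have h2 : (univ.filter fun j => x j ≠ y j) =
          insert i (univ.filter fun j => flp x i j ≠ y j) := by
        ext j
        simp only [Finset.mem_filter, Finset.mem_univ, true_and, Finset.mem_insert]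
        by_cases hj : j = i
        · subst hj
          simp [hi]
        · simp [flp_ne x hj, hj]
      have h3 : i ∉ (univ.filter fun j => flp x i j ≠ y j) := by
        simp only [Finset.mem_filter, Finset.mem_univ, true_and, not_not, flp_same]
        revert hi
        cases x i <;> cases y i <;> simp
      have h4 : (univ.filter fun j => x j ≠ y j).card = n + 1 := hxy
      rw [h2, Finset.card_insert_of_notMem h3] at h4
      have : (univ.filter fun j => flp x i j ≠ y j).card = n := by omega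
      exact this
    have h5 := ih _ _ h1
    have h6 := hh x i
    push_cast
    calc |h x - h y| = |(h (flp x i) - h y) - (h (flp x i) - h x)| := by congr 1; ring
      _ ≤ |h (flp x i) - h y| + |h (flp x i) - h x| := abs_sub _ _
      _ ≤ n + 1 := by linarith

/-- the median -/
theorem c1_median {Ω : Type*} [Fintype Ω] [Nonempty Ω] (h : Ω → ℝ) :
    ∃ z, (Fintype.card Ω : ℝ) ≤ 2 * ((univ.filter fun x => h x ≤ h z).card : ℝ) ∧
      (Fintype.card Ω : ℝ) ≤ 2 * ((univ.filter fun x => h z ≤ h x).card : ℝ) := by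
  classical
  set G : Finset Ω := univ.filter fun z => Fintype.card Ω ≤ 2 * (univ.filter fun x => h x ≤ h z).card
    with hG
  have hGne : G.Nonempty := by
    obtain ⟨m, -, hm⟩ := Finset.exists_max_image (univ : Finset Ω) h ⟨Classical.arbitrary Ω, mem_univ _⟩
    refine ⟨m, ?_⟩
    rw [hG, Finset.mem_filter]
    refine ⟨mem_univ _, ?_⟩
    have h1 : (univ.filter fun x => h x ≤ h m) = univ := by
      rw [Finset.filter_eq_self]
      exact fun x hx => hm x hx
    rw [h1, Finset.card_univ]
    omega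
  obtain ⟨z, hz, hzmin⟩ := Finset.exists_min_image G h hGne
  rw [hG, Finset.mem_filter] at hz
  refine ⟨z, by exact_mod_cast hz.2, ?_⟩
  by_contra hcon
  push Not at hcon
  have hcon' : 2 * (univ.filter fun x => h z ≤ h x).card < Fintype.card Ω := by exact_mod_cast hcon
  have h1 : (univ.filter fun x => h x < h z).card + (univ.filter fun x => h z ≤ h x).card =
      Fintype.card Ω := by
    have := Finset.card_filter_add_card_filter_not (s := (univ : Finset Ω)) (fun x => h x < h z)
    simp only [not_lt] at this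
    rw [this, Finset.card_univ]
  have h2 : (univ.filter fun x => h x < h z).Nonempty := by
    rw [← Finset.card_pos]
    omega
  obtain ⟨w, hw, hwmax⟩ := Finset.exists_max_image _ h h2
  rw [Finset.mem_filter] at hw
  have h3 : (univ.filter fun x => h x < h z) = (univ.filter fun x => h x ≤ h w) := by
    ext x
    simp only [Finset.mem_filter, Finset.mem_univ, true_and]
    constructor
    · intro hx
      exact hwmax x (by simp [hx])
    · intro hx
      exact lt_of_le_of_lt hx hw.2
  have h4 : w ∈ G := by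
    rw [hG, Finset.mem_filter]
    refine ⟨mem_univ _, ?_⟩
    rw [← h3]
    omega
  have h5 := hzmin w h4
  exact absurd hw.2 (not_lt.mpr h5)

omit [DecidableEq ι] in
/-- the Hamming distance and relabelling -/
theorem c1_dist_equiv {κ : Type*} [Fintype κ] [DecidableEq κ] (e : κ ≃ ι) (x y : ι → Bool) :
    hammingDist (fun i => x (e i)) (fun i => y (e i)) = hammingDist x y := by
  unfold hammingDist
  apply Finset.card_bij (fun i _ => e i)
  · intro i hi
    simpa using hi
  · intro i _ j _ h
    exact e.injective h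
  · intro j hj
    refine ⟨e.symm j, ?_, by simp⟩
    simpa using hj

/-- `two_sets` for a general index set -/
theorem c1_two_sets (r : ℕ) (A B : Finset (ι → Bool))
    (hAB : ∀ a ∈ A, ∀ b ∈ B, r ≤ hammingDist a b) (t : ℝ) (ht : 0 ≤ t) :
    (A.card : ℝ) * B.card * Real.exp (t * r) ≤
      (2 + Real.exp t + Real.exp (-t)) ^ Fintype.card ι := by
  classical
  set e := (Fintype.equivFin ι).symm with he
  set F : (ι → Bool) ↪ (Fin (Fintype.card ι) → Bool) :=
    ⟨fun x i => x (e i), fun x y h => by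
      funext j
      have := congrFun h (e.symm j)
      simpa using this⟩ with hF
  have h1 := Pool.Agent.Lib.BL.two_sets (Fintype.card ι) r (A.map F) (B.map F) (by
    intro a ha b hb
    rw [Finset.mem_map] at ha hb
    obtain ⟨a', ha', rfl⟩ := ha
    obtain ⟨b', hb', rfl⟩ := hb
    have h2 : hammingDist (F a') (F b') = hammingDist a' b' := c1_dist_equiv e a' b'
    rw [h2]
    exact hAB a' ha' b' hb') t ht
  rwa [Finset.card_map, Finset.card_map] at h1

/-- one-sided concentration -/
theorem c1_one_side (h : (ι → Bool) → ℝ) (hh : Lip 1 h) (m s : ℝ) (hs : 0 ≤ s)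
    (hN : 0 < Fintype.card ι)
    (hm : (2 : ℝ) ^ Fintype.card ι ≤ 2 * ((univ.filter fun x => h x ≤ m).card : ℝ)) :
    ((univ.filter fun x => m + s ≤ h x).card : ℝ) ≤
      2 * Real.exp (-(s ^ 2 / Fintype.card ι)) * 2 ^ Fintype.card ι := by
  classical
  set N := Fintype.card ι with hNdef
  have hN' : (0 : ℝ) < N := by exact_mod_cast hN
  set A := univ.filter fun x => h x ≤ m with hA
  set B := univ.filter fun x => m + s ≤ h x with hB
  have hd : ∀ a ∈ A, ∀ b ∈ B, ⌈s⌉₊ ≤ hammingDist a b := by
    intro a ha b hb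
    rw [hA, Finset.mem_filter] at ha
    rw [hB, Finset.mem_filter] at hb
    rw [Nat.ceil_le]
    have h1 := c1_lip_dist h hh _ a b rfl
    have h2 := neg_abs_le (h a - h b)
    linarith [ha.2, hb.2]
  set t : ℝ := 2 * s / N with ht
  have ht0 : 0 ≤ t := by positivity
  have h1 := c1_two_sets ⌈s⌉₊ A B hd t ht0
  have h2 : (2 + Real.exp t + Real.exp (-t)) ^ N ≤ (4 * Real.exp (t ^ 2 / 4)) ^ N :=
    pow_le_pow_left₀ (by positivity) (Pool.Agent.Lib.BL.cosh_bound t) N
  have h3 : (4 * Real.exp (t ^ 2 / 4)) ^ N = 4 ^ N * Real.exp (s ^ 2 / N) := by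
    rw [mul_pow, ← Real.exp_nat_mul]
    congr 2
    rw [ht]
    field_simp
    ring
  have h4 : Real.exp (s ^ 2 / N) * Real.exp (s ^ 2 / N) ≤ Real.exp (t * ⌈s⌉₊) := by
    rw [← Real.exp_add]
    apply Real.exp_le_exp.mpr
    have h5 : s ^ 2 / N + s ^ 2 / N = t * s := by rw [ht]; ring
    rw [h5]
    exact mul_le_mul_of_nonneg_left (Nat.le_ceil s) ht0
  have hE : 0 < Real.exp (s ^ 2 / N) := Real.exp_pos _
  set E := Real.exp (s ^ 2 / N) with hEdef
  have hEinv : Real.exp (-(s ^ 2 / N)) * E = 1 := by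
    rw [hEdef, ← Real.exp_add, neg_add_cancel, Real.exp_zero]
  have h6 : (A.card : ℝ) * B.card * E ≤ 4 ^ N := by
    have h7 : (A.card : ℝ) * B.card * E * E ≤ 4 ^ N * E := by
      calc (A.card : ℝ) * B.card * E * E = (A.card : ℝ) * B.card * (E * E) := by ring
        _ ≤ (A.card : ℝ) * B.card * Real.exp (t * ⌈s⌉₊) := by gcongr
        _ ≤ _ := h1.trans (h2.trans (le_of_eq h3))
    exact le_of_mul_le_mul_right h7 hE
  have h8 : (2 : ℝ) ^ N * (B.card * E) ≤ 2 ^ N * (2 * 2 ^ N) := by
    calc (2 : ℝ) ^ N * (B.card * E) ≤ (2 * (A.card : ℝ)) * (B.card * E) := by gcongr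
      _ = 2 * ((A.card : ℝ) * B.card * E) := by ring
      _ ≤ 2 * 4 ^ N := by gcongr
      _ = 2 ^ N * (2 * 2 ^ N) := by
        rw [show (4 : ℝ) = 2 * 2 by norm_num, mul_pow]
        ring
  have h9 : (B.card : ℝ) * E ≤ 2 * 2 ^ N := le_of_mul_le_mul_left h8 (by positivity)
  calc (B.card : ℝ) = Real.exp (-(s ^ 2 / N)) * (B.card * E) := by
        rw [mul_comm (B.card : ℝ) E, ← mul_assoc, hEinv, one_mul]
    _ ≤ Real.exp (-(s ^ 2 / N)) * (2 * 2 ^ N) := by gcongr
    _ = _ := by ring

/-- C1: a 1-Lipschitz function is concentrated around its median `h z`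
(from `two_sets`, `cosh_bound`: if `|A|, |B| ≥ ...`, take `t = 2 s / N`). -/
theorem lip_conc (h : (ι → Bool) → ℝ) (hh : Lip 1 h) :
    ∃ z, (∀ s : ℝ, 0 ≤ s → ∑ x, ind (s ≤ |h x - h z|) ≤
      4 * Real.exp (-(s ^ 2 / Fintype.card ι)) * 2 ^ Fintype.card ι) ∧
      ∀ x, |h x - h z| ≤ Fintype.card ι := by
  classical
  obtain ⟨z, hz1, hz2⟩ := c1_median h
  have hcard : (Fintype.card (ι → Bool) : ℝ) = 2 ^ Fintype.card ι := by
    rw [Fintype.card_fun, Fintype.card_bool]
    push_cast
    rfl
  rw [hcard] at hz1 hz2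
  refine ⟨z, ?_, ?_⟩
  · intro s hs
    rcases Nat.eq_zero_or_pos (Fintype.card ι) with h0 | h0
    · calc ∑ x, ind (s ≤ |h x - h z|) ≤ ∑ x : ι → Bool, (1 : ℝ) :=
          Finset.sum_le_sum fun x _ => ind_le_one _
        _ = 2 ^ Fintype.card ι := by
          rw [Finset.sum_const, Finset.card_univ, nsmul_eq_mul, mul_one, hcard]
        _ ≤ _ := by
          rw [h0]
          simp
    · have h1 := c1_one_side h hh (h z) s hs h0 hz1
      have hh' : Lip 1 (fun x => - h x) := by
        intro x i
        have := hh x i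
        rw [show -h (flp x i) - -h x = -(h (flp x i) - h x) by ring, abs_neg]
        exact this
      have h2 := c1_one_side (fun x => - h x) hh' (- h z) s hs h0 (by
        simpa using hz2)
      have h3 : ∑ x, ind (s ≤ |h x - h z|) ≤
          ∑ x, (ind (h z + s ≤ h x) + ind (-h z + s ≤ - h x)) := by
        refine Finset.sum_le_sum fun x _ => ?_
        refine le_trans (ind_mono ?_) (ind_or_le _ _)
        intro h4
        rcases le_abs.mp h4 with h5 | h5
        · left; linarith
        · right; linarith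
      rw [Finset.sum_add_distrib, sum_ind (univ : Finset (ι → Bool)) (fun x => h z + s ≤ h x),
        sum_ind (univ : Finset (ι → Bool)) (fun x => -h z + s ≤ - h x)] at h3
      linarith
  · intro x
    refine (c1_lip_dist h hh _ x z rfl).trans ?_
    exact_mod_cast hammingDist_le_card_fintype

theorem c1_sg (b : Bool) : sg b = Pool.Agent.H99.Bracket.sg b := by
  cases b <;> simp [sg]

omit [DecidableEq ι] in
/-- relabelling a linear form -/
theorem c1_lin_equiv {κ : Type*} [Fintype κ] (e : κ ≃ ι) (a : ι → ℝ) (x : ι → Bool) :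
    lin a x = ∑ i, a (e i) * sg (x (e i)) :=
  (Equiv.sum_comp e (fun i => a i * sg (x i))).symm

/-- relabelling a sum over the cube -/
theorem c1_sum_equiv {κ : Type*} [Fintype κ] [DecidableEq κ] (e : κ ≃ ι) (f : (ι → Bool) → ℝ) :
    ∑ x, f x = ∑ y : κ → Bool, f (fun i => y (e.symm i)) := by
  have h := Equiv.sum_comp (Equiv.arrowCongr e (Equiv.refl Bool)) f
  rw [← h]
  rfl

/-- C2: Hoeffding for linear forms -/
theorem lin_tail (a : ι → ℝ) (ha : ∀ i, |a i| ≤ 2) (s : ℝ) (hs : 0 ≤ s) :
    ∑ x : ι → Bool, ind (s ≤ |lin a x|) ≤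
      2 * Real.exp (-(s ^ 2 / (8 * (Fintype.card ι + 1)))) * 2 ^ Fintype.card ι := by
  classical
  set e := (Fintype.equivFin ι).symm with he
  have h1 : ∑ i, a (e i) ^ 2 ≤ 4 * (Fintype.card ι + 1) := by
    calc ∑ i, a (e i) ^ 2 ≤ ∑ i : Fin (Fintype.card ι), (4 : ℝ) := by
          refine Finset.sum_le_sum fun i _ => ?_
          have h2 := ha (e i)
          rw [← sq_abs]
          nlinarith [abs_nonneg (a (e i))]
      _ = 4 * Fintype.card ι := by
          rw [Finset.sum_const, Finset.card_univ, Fintype.card_fin, nsmul_eq_mul]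
          ring
      _ ≤ _ := by linarith
  have h2 := Pool.Agent.Lib.BL.card_large (fun i => a (e i)) h1 (by positivity) hs
  have h3 : ∑ x : ι → Bool, ind (s ≤ |lin a x|) =
      ((univ.filter fun x : Fin (Fintype.card ι) → Bool =>
        s ≤ |∑ i, a (e i) * Pool.Agent.H99.Bracket.sg (x i)|).card : ℝ) := by
    rw [c1_sum_equiv e, ← sum_ind]
    refine Finset.sum_congr rfl fun y _ => ?_
    rw [c1_lin_equiv e]
    simp only [Equiv.symm_apply_apply, c1_sg]
  rw [h3]
  refine h2.trans (le_of_eq ?_)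
  rw [show 2 * (4 * ((Fintype.card ι : ℝ) + 1)) = 8 * (Fintype.card ι + 1) by ring]
  ring

/-- C3: Littlewood-Offord (Erdos) for linear forms with many large weights -/
theorem lin_window (u : ι → ℝ) (s : Finset ι) {δ : ℝ} (hδ : 0 < δ) (hs : ∀ i ∈ s, δ ≤ |u i|)
    (hs0 : s.Nonempty) (c v : ℝ) (hv : 0 ≤ v) :
    ∑ x : ι → Bool, ind (|lin u x - c| ≤ v) ≤
      2 ^ Fintype.card ι * ((v / δ + 1) / Real.sqrt s.card) := by
  classical
  set e := (Fintype.equivFin ι).symm with he
  set k := (univ.filter fun i => δ ≤ |u (e i)|).card with hk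
  have hsk : s.card ≤ k := by
    rw [hk]
    apply Finset.card_le_card_of_injOn (fun i => e.symm i)
    · intro i hi
      simp only [Finset.coe_filter, Finset.mem_univ, true_and, Set.mem_ofPred_eq,
        Equiv.apply_symm_apply]
      exact hs i hi
    · intro i _ j _ h
      exact e.symm.injective h
  have hs1 : 0 < s.card := Finset.card_pos.mpr hs0
  have hk0 : 0 < k := by omega
  have h1 : ∀ c' : ℝ, ∑ x : ι → Bool, ind (c' ≤ lin u x ∧ lin u x < c' + 2 * δ) ≤
      2 ^ Fintype.card ι / Real.sqrt k := by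
    intro c'
    have h2 := Pool.Agent.Lib.BL.card_window_all (fun i => u (e i)) hδ c' (k := k) hk.symm hk0
    refine le_trans (le_of_eq ?_) h2
    rw [c1_sum_equiv e, ← sum_ind]
    refine Finset.sum_congr rfl fun y _ => ?_
    rw [c1_lin_equiv e]
    simp only [Equiv.symm_apply_apply, c1_sg]
  have h3 : ∀ x : ι → Bool, ind (|lin u x - c| ≤ v) ≤
      ∑ j ∈ range (⌊v / δ⌋₊ + 1), ind ((c - v + 2 * δ * j) ≤ lin u x ∧
        lin u x < (c - v + 2 * δ * j) + 2 * δ) := by
    intro x
    by_cases hx : |lin u x - c| ≤ v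
    · rw [ind_true hx]
      obtain ⟨h4, h5⟩ := abs_le.mp hx
      have h0 : 0 ≤ (lin u x - c + v) / (2 * δ) := by
        apply div_nonneg <;> linarith
      have h6 : ⌊(lin u x - c + v) / (2 * δ)⌋₊ ∈ range (⌊v / δ⌋₊ + 1) := by
        rw [Finset.mem_range, Nat.lt_succ_iff]
        apply Nat.floor_le_floor
        rw [div_le_div_iff₀ (by positivity) hδ]
        nlinarith
      refine le_trans (le_of_eq ?_) (Finset.single_le_sum (fun j _ => ind_nonneg _) h6)
      rw [ind_true]
      have h7 := Nat.floor_le h0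
      have h8 := Nat.lt_floor_add_one ((lin u x - c + v) / (2 * δ))
      rw [le_div_iff₀ (by positivity)] at h7
      rw [div_lt_iff₀ (by positivity)] at h8
      refine ⟨?_, ?_⟩ <;> nlinarith
    · rw [ind_false hx]
      exact Finset.sum_nonneg fun j _ => ind_nonneg _
  calc ∑ x : ι → Bool, ind (|lin u x - c| ≤ v)
      ≤ ∑ x : ι → Bool, ∑ j ∈ range (⌊v / δ⌋₊ + 1), ind ((c - v + 2 * δ * j) ≤ lin u x ∧
        lin u x < (c - v + 2 * δ * j) + 2 * δ) := Finset.sum_le_sum fun x _ => h3 x
    _ = ∑ j ∈ range (⌊v / δ⌋₊ + 1), ∑ x : ι → Bool, ind ((c - v + 2 * δ * j) ≤ lin u x ∧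
        lin u x < (c - v + 2 * δ * j) + 2 * δ) := Finset.sum_comm
    _ ≤ ∑ j ∈ range (⌊v / δ⌋₊ + 1), (2 : ℝ) ^ Fintype.card ι / Real.sqrt k :=
        Finset.sum_le_sum fun j _ => h1 _
    _ = ((⌊v / δ⌋₊ + 1 : ℕ) : ℝ) * (2 ^ Fintype.card ι / Real.sqrt k) := by
        rw [Finset.sum_const, Finset.card_range, nsmul_eq_mul]
    _ ≤ (v / δ + 1) * (2 ^ Fintype.card ι / Real.sqrt s.card) := by
        have h9 : (0 : ℝ) < s.card := by exact_mod_cast hs1
        have h10 : (s.card : ℝ) ≤ k := by exact_mod_cast hsk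
        gcongr
        · push_cast
          gcongr
          exact Nat.floor_le (by positivity)
    _ = _ := by ring

end BLP
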