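import Pool.Agent.Lib.BLP.Defs

/-!
# Chunk O: optimal transport duality for bijections (Kantorovich/Hall)

`d` is a pseudometric on a finite type.  If `∑_A h - ∑_B h ≤ D` for all 1-Lipschitz `h`, then there
is a bijection `A → B` of total displacement `≤ D`.

Proof: let `h` be a maximiser of `∑_A h - ∑_B h` over the 1-Lipschitz functions with `h z0 = 0`
(compactness), and take the bipartite graph of the tight pairs `h x - h y = d x y` (`x ∈ A, y ∈ B`).
Hall's condition holds, since otherwise for some `A' ⊆ A` with less than `|A'|` tight neighbours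
one could raise `h` on `Z = {z | ∃ x ∈ A', h x - h z = d x z}` (a set containing `A'`) by a small `ε`:
the new function is 1-Lipschitz (if `z ∈ Z`, `w ∉ Z` then `h z - h w < d z w`, since
otherwise `h x - h w = d x z + d z w ≥ d x w`), and `|Z ∩ A| ≥ |A'| > |Z ∩ B|`.
A perfect matching in the tight graph has total displacement `∑_A h - ∑_B h ≤ D`.
-/

namespace BLP

open Finset

/-- a positive lower bound of finitely many positive numbers -/
theorem ot_exists_pos_le {α : Type*} (s : Finset α) (f : α → ℝ) (hf : ∀ x ∈ s, 0 < f x) :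
    ∃ ε : ℝ, 0 < ε ∧ ∀ x ∈ s, ε ≤ f x := by
  classical
  induction s using Finset.induction_on with
  | empty => exact ⟨1, one_pos, by simp⟩
  | insert a s ha ih =>
    obtain ⟨ε, h1, h2⟩ := ih fun x hx => hf x (Finset.mem_insert_of_mem hx)
    refine ⟨min ε (f a), lt_min h1 (hf a (Finset.mem_insert_self a s)), fun x hx => ?_⟩
    rcases Finset.mem_insert.mp hx with rfl | hx
    · exact min_le_right _ _
    · exact (min_le_left _ _).trans (h2 x hx)

/-- existence of an optimal potential -/
theorem ot_exists_max {Z : Type*} [Fintype Z] [DecidableEq Z] (d : Z → Z → ℝ)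
    (h0 : ∀ x, d x x = 0) (hs : ∀ x y, d x y = d y x) (ht : ∀ x y z, d x z ≤ d x y + d y z)
    (A B : Finset Z) (hc : A.card = B.card) (z0 : Z) :
    ∃ h : Z → ℝ, (∀ x y, |h x - h y| ≤ d x y) ∧
      ∀ g : Z → ℝ, (∀ x y, |g x - g y| ≤ d x y) →
        ∑ x ∈ A, g x - ∑ x ∈ B, g x ≤ ∑ x ∈ A, h x - ∑ x ∈ B, h x := by
  have hnn : ∀ x y, 0 ≤ d x y := by
    intro x y
    have := ht x y x
    rw [h0, hs y x] at this
    linarith
  let L : Set (Z → ℝ) := {h | (∀ x y, |h x - h y| ≤ d x y) ∧ h z0 = 0}
  have hLc : IsCompact L := by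
    have hbox : IsCompact (Set.pi Set.univ fun x : Z => Set.Icc (-d x z0) (d x z0)) :=
      isCompact_univ_pi fun x => isCompact_Icc
    refine hbox.of_isClosed_subset ?_ ?_
    · have e : L = (⋂ x, ⋂ y, {h : Z → ℝ | |h x - h y| ≤ d x y}) ∩ {h | h z0 = 0} := by
        ext h
        simp [L]
      rw [e]
      refine IsClosed.inter ?_ ?_
      · refine isClosed_iInter fun x => isClosed_iInter fun y => ?_
        exact isClosed_le (by fun_prop) continuous_const
      · exact isClosed_eq (continuous_apply z0) continuous_const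
    · intro h hh x _
      have := hh.1 x z0
      rw [hh.2, sub_zero] at this
      exact abs_le.mp this
  have hLne : L.Nonempty := ⟨fun _ => 0, fun x y => by simpa using hnn x y, rfl⟩
  have hcont : ContinuousOn (fun h : Z → ℝ => ∑ x ∈ A, h x - ∑ x ∈ B, h x) L := by
    apply Continuous.continuousOn
    exact (continuous_finsetSum _ fun x _ => continuous_apply x).sub
      (continuous_finsetSum _ fun x _ => continuous_apply x)
  obtain ⟨h, hL, hmax⟩ := hLc.exists_isMaxOn hLne hcont
  refine ⟨h, hL.1, fun g hg => ?_⟩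
  have hg' : (fun x => g x - g z0) ∈ L := by
    refine ⟨fun x y => ?_, sub_self _⟩
    have : g x - g z0 - (g y - g z0) = g x - g y := by ring
    rw [this]
    exact hg x y
  have := hmax hg'
  simp only [Set.mem_ofPred_eq] at this
  rw [Finset.sum_sub_distrib, Finset.sum_sub_distrib, Finset.sum_const, Finset.sum_const, hc] at this
  linarith

theorem ot_bijection {Z : Type*} [Fintype Z] [DecidableEq Z] (d : Z → Z → ℝ)
    (h0 : ∀ x, d x x = 0) (hs : ∀ x y, d x y = d y x) (ht : ∀ x y z, d x z ≤ d x y + d y z)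
    (A B : Finset Z) (hc : A.card = B.card) (D : ℝ)
    (hD : ∀ h : Z → ℝ, (∀ x y, |h x - h y| ≤ d x y) → ∑ x ∈ A, h x - ∑ x ∈ B, h x ≤ D) :
    ∃ σ : {x // x ∈ A} ≃ {x // x ∈ B}, ∑ x : {x // x ∈ A}, d x (σ x) ≤ D := by
  classical
  rcases isEmpty_or_nonempty Z with hZ | ⟨⟨z0⟩⟩
  · have e1 : IsEmpty {x // x ∈ A} := ⟨fun x => hZ.elim x.1⟩
    have e2 : IsEmpty {x // x ∈ B} := ⟨fun x => hZ.elim x.1⟩
    refine ⟨Equiv.equivOfIsEmpty _ _, ?_⟩
    have := hD (fun _ => 0) fun x _ => hZ.elim x
    simpa using this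
  obtain ⟨h, hL, hmax⟩ := ot_exists_max d h0 hs ht A B hc z0
  -- the tight graph
  let t : {x // x ∈ A} → Finset Z := fun x => B.filter fun y => h x - h y = d x y
  have hall : ∀ s : Finset {x // x ∈ A}, s.card ≤ (s.biUnion t).card := by
    intro s
    by_contra hlt
    rw [not_le] at hlt
    let Z' : Finset Z := Finset.univ.filter fun z => ∃ x ∈ s, h x.1 - h z = d x.1 z
    have hsZ : s.card ≤ (Z' ∩ A).card := by
      refine Finset.card_le_card_of_injOn (fun x => x.1) ?_ fun x _ y _ e => Subtype.ext e
      intro x hx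
      simp only [Finset.coe_inter, Set.mem_inter_iff, Finset.mem_coe]
      refine ⟨?_, x.2⟩
      simp only [Z', Finset.mem_filter, Finset.mem_univ, true_and]
      exact ⟨x, hx, by rw [sub_self, h0]⟩
    have hZB : (Z' ∩ B).card ≤ (s.biUnion t).card := by
      refine Finset.card_le_card ?_
      intro z hz
      rw [Finset.mem_inter] at hz
      simp only [Z', Finset.mem_filter, Finset.mem_univ, true_and] at hz
      obtain ⟨⟨x, hx, e⟩, hzB⟩ := hz
      rw [Finset.mem_biUnion]
      exact ⟨x, hx, by simp [t, hzB, e]⟩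
    -- strictness across the boundary
    have hstrict : ∀ z w, z ∈ Z' → w ∉ Z' → 0 < d z w - (h z - h w) := by
      intro z w hz hw
      by_contra hle
      rw [not_lt] at hle
      simp only [Z', Finset.mem_filter, Finset.mem_univ, true_and] at hz hw
      obtain ⟨x, hx, e⟩ := hz
      apply hw
      refine ⟨x, hx, le_antisymm ((abs_le.mp (hL x.1 w)).2) ?_⟩
      have := ht x.1 z w
      linarith
    obtain ⟨ε, hε, hεle⟩ := ot_exists_pos_le
      ((Finset.univ : Finset (Z × Z)).filter fun p => p.1 ∈ Z' ∧ p.2 ∉ Z')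
      (fun p => d p.1 p.2 - (h p.1 - h p.2)) (by
        intro p hp
        simp only [Finset.mem_filter, Finset.mem_univ, true_and] at hp
        exact hstrict _ _ hp.1 hp.2)
    have hεle' : ∀ z w, z ∈ Z' → w ∉ Z' → ε ≤ d z w - (h z - h w) := by
      intro z w hz hw
      exact hεle (z, w) (by simp [hz, hw])
    let g : Z → ℝ := fun z => h z + if z ∈ Z' then ε else 0
    have hg : ∀ x y, |g x - g y| ≤ d x y := by
      have key : ∀ x y, g x - g y ≤ d x y := by
        intro x y
        have hxy := (abs_le.mp (hL x y)).2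
        by_cases hx : x ∈ Z' <;> by_cases hy : y ∈ Z'
        · simp only [g, if_pos hx, if_pos hy]
          linarith
        · simp only [g, if_pos hx, if_neg hy]
          have := hεle' x y hx hy
          linarith
        · simp only [g, if_neg hx, if_pos hy]
          linarith
        · simp only [g, if_neg hx, if_neg hy]
          linarith
      intro x y
      rw [abs_le]
      constructor
      · have := key y x
        rw [hs y x] at this
        linarith
      · exact key x y
    have hle := hmax g hg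
    have e1 : ∀ S : Finset Z, ∑ x ∈ S, g x = ∑ x ∈ S, h x + ε * (Z' ∩ S).card := by
      intro S
      simp only [g, Finset.sum_add_distrib]
      congr 1
      rw [← Finset.sum_filter, Finset.sum_const, nsmul_eq_mul, mul_comm]
      congr 2
      rw [Finset.inter_comm, Finset.filter_mem_eq_inter]
    rw [e1, e1] at hle
    have hcard : ((Z' ∩ B).card : ℝ) < (Z' ∩ A).card := by
      exact_mod_cast lt_of_le_of_lt hZB (lt_of_lt_of_le hlt hsZ)
    nlinarith
  obtain ⟨f, hfinj, hft⟩ := (Finset.all_card_le_biUnion_card_iff_exists_injective t).mp hall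
  have hfB : ∀ x, f x ∈ B := fun x => (Finset.mem_filter.mp (hft x)).1
  have hfd : ∀ x : {x // x ∈ A}, h x.1 - h (f x) = d x.1 (f x) :=
    fun x => (Finset.mem_filter.mp (hft x)).2
  let F : {x // x ∈ A} → {x // x ∈ B} := fun x => ⟨f x, hfB x⟩
  have hFinj : Function.Injective F := by
    intro x y e
    exact hfinj (congrArg Subtype.val e)
  have hFbij : Function.Bijective F := by
    rw [Fintype.bijective_iff_injective_and_card]
    exact ⟨hFinj, by simpa using hc⟩
  refine ⟨Equiv.ofBijective F hFbij, ?_⟩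
  have e1 : ∑ x : {x // x ∈ A}, d x (Equiv.ofBijective F hFbij x) =
      ∑ x : {x // x ∈ A}, (h x - h (Equiv.ofBijective F hFbij x)) := by
    refine Finset.sum_congr rfl fun x _ => ?_
    exact (hfd x).symm
  rw [e1, Finset.sum_sub_distrib, Equiv.sum_comp (Equiv.ofBijective F hFbij)
    (fun y : {x // x ∈ B} => h y)]
  have e2 : ∑ x : {x // x ∈ A}, h x = ∑ x ∈ A, h x := Finset.sum_coe_sort A h
  have e3 : ∑ x : {x // x ∈ B}, h x = ∑ x ∈ B, h x := Finset.sum_coe_sort B h
  rw [e2, e3]
  exact hD h hL

/-- A function which is 1-Lipschitz along the edges is 1-Lipschitz for the Hamming distance,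
and conversely. -/
theorem ot_lip_of_hamming {ι : Type*} [Fintype ι] [DecidableEq ι] (h : (ι → Bool) → ℝ)
    (hh : ∀ x y, |h x - h y| ≤ (hammingDist x y : ℝ)) : Lip 1 h := by
  intro x i
  refine (hh _ _).trans ?_
  have : hammingDist (flp x i) x ≤ 1 := by
    rw [hammingDist, Finset.card_le_one]
    intro a ha b hb
    simp only [Finset.mem_filter, Finset.mem_univ, true_and] at ha hb
    have ha' : a = i := by
      by_contra hne
      exact ha (flp_ne x hne)
    have hb' : b = i := by
      by_contra hne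
      exact hb (flp_ne x hne)
    rw [ha', hb']
  exact_mod_cast this

/-- the version for the cube -/
theorem ot_cube {ι : Type*} [Fintype ι] [DecidableEq ι] (A B : Finset (ι → Bool))
    (hc : A.card = B.card) (D : ℝ)
    (hD : ∀ h : (ι → Bool) → ℝ, Lip 1 h → ∑ x ∈ A, h x - ∑ x ∈ B, h x ≤ D) :
    ∃ σ : {x // x ∈ A} ≃ {x // x ∈ B}, ∑ x : {x // x ∈ A}, (hammingDist x.1 (σ x).1 : ℝ) ≤ D := by
  refine ot_bijection (fun x y : ι → Bool => (hammingDist x y : ℝ)) (by simp) ?_ ?_ A B hc D ?_
  · intro x y
    rw [hammingDist_comm]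
  · intro x y z
    exact_mod_cast hammingDist_triangle x y z
  · intro h hh
    exact hD h (ot_lip_of_hamming h hh)

end BLP
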