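import Pool.Agent.Lib.BLP.Defs
import Pool.Agent.Lib.BLP.OT
import Pool.Agent.Lib.BLP.Conc1

/-!
# Chunk F1: from a component to a bijection

`f_c x = (x, +)` if `0 ≤ S' x`, else `(ρ x, -)`; image `H_c`; compose with the bijection `H_c → H` of
`ot_cube`.
-/

namespace BLP

open Finset

/-! ### The cube `Fin (n + 1) → Bool` as a product -/

/-- append a last coordinate -/
def f1_sn {n : ℕ} (x : Fin n → Bool) (b : Bool) : Fin (n + 1) → Bool := Fin.snoc x b

theorem f1_sn_castSucc {n : ℕ} (x : Fin n → Bool) (b : Bool) (i : Fin n) :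
    f1_sn x b i.castSucc = x i := by
  simp [f1_sn]

theorem f1_sn_last {n : ℕ} (x : Fin n → Bool) (b : Bool) : f1_sn x b (Fin.last n) = b := by
  simp [f1_sn]

theorem f1_sn_init {n : ℕ} (x : Fin n → Bool) (b : Bool) :
    (fun i => f1_sn x b (Fin.castSucc i)) = x := by
  funext i
  exact f1_sn_castSucc x b i

/-- the equivalence -/
def f1_E (n : ℕ) : (Fin n → Bool) × Bool ≃ (Fin (n + 1) → Bool) where
  toFun p := f1_sn p.1 p.2
  invFun z := (fun i => z i.castSucc, z (Fin.last n))
  left_inv p := by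
    rcases p with ⟨x, b⟩
    simp only [f1_sn_init, f1_sn_last]
  right_inv z := by
    funext i
    beta_reduce
    refine Fin.lastCases ?_ (fun j => ?_) i
    · rw [f1_sn_last]
    · rw [f1_sn_castSucc]

theorem f1_sum {n : ℕ} (g : (Fin (n + 1) → Bool) → ℝ) :
    ∑ z, g z = ∑ x : Fin n → Bool, (g (f1_sn x true) + g (f1_sn x false)) := by
  rw [← (f1_E n).sum_comp, Fintype.sum_prod_type]
  refine Finset.sum_congr rfl fun x _ => ?_
  rw [Fintype.sum_bool]
  rfl

theorem f1_sn_inj {n : ℕ} {x y : Fin n → Bool} {b c : Bool} (h : f1_sn x b = f1_sn y c) :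
    x = y ∧ b = c := by
  have := (f1_E n).injective (a₁ := (x, b)) (a₂ := (y, c)) h
  exact Prod.mk.injEq _ _ _ _ ▸ this

theorem f1_flp {n : ℕ} (x : Fin n → Bool) (b : Bool) (i : Fin n) :
    flp (f1_sn x b) i.castSucc = f1_sn (flp x i) b := by
  funext j
  refine Fin.lastCases ?_ (fun j => ?_) j
  · rw [flp_ne _ (Fin.castSucc_lt_last i).ne', f1_sn_last, f1_sn_last]
  · rw [f1_sn_castSucc]
    by_cases h : j = i
    · subst h
      rw [flp_same, flp_same, f1_sn_castSucc]
    · rw [flp_ne _ h, flp_ne, f1_sn_castSucc]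
      intro hc
      exact h (Fin.castSucc_injective n hc)

theorem f1_flp_last {n : ℕ} (x : Fin n → Bool) (b : Bool) :
    flp (f1_sn x b) (Fin.last n) = f1_sn x (!b) := by
  funext j
  refine Fin.lastCases ?_ (fun j => ?_) j
  · rw [flp_same, f1_sn_last, f1_sn_last]
  · rw [flp_ne _ (Fin.castSucc_lt_last j).ne, f1_sn_castSucc, f1_sn_castSucc]

theorem f1_hd {n : ℕ} (x y : Fin n → Bool) (b c : Bool) :
    hammingDist (f1_sn x b) (f1_sn y c) = hammingDist x y + if b = c then 0 else 1 := by
  simp only [hammingDist, Finset.card_filter, Fin.sum_univ_castSucc, f1_sn_castSucc, f1_sn_last]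
  congr 1
  by_cases h : b = c
  · simp [h]
  · simp [h]

theorem f1_hd_flp {n : ℕ} (x : Fin n → Bool) (i : Fin n) : hammingDist x (flp x i) = 1 := by
  rw [hammingDist, Finset.card_eq_one]
  refine ⟨i, ?_⟩
  ext j
  simp only [Finset.mem_filter, Finset.mem_univ, true_and, Finset.mem_singleton]
  constructor
  · intro h
    by_contra hne
    exact h (flp_ne x hne).symm
  · rintro rfl
    rw [flp_same]
    cases x j <;> simp

/-- a threshold just below `0` -/
theorem f1_threshold {X : Type*} [Fintype X] (F G : X → ℝ) :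
    ∃ θ : ℝ, θ < 0 ∧ (∀ x, θ < F x ↔ 0 ≤ F x) ∧ ∀ x, θ < G x ↔ 0 ≤ G x := by
  classical
  obtain ⟨ε, h1, h2⟩ := ot_exists_pos_le
    ((Finset.univ : Finset (X ⊕ X)).filter fun x => Sum.elim F G x < 0)
    (fun x => - Sum.elim F G x) (by
      intro x hx
      simp only [Finset.mem_filter, Finset.mem_univ, true_and] at hx
      linarith)
  have key : ∀ x : X ⊕ X, -ε < Sum.elim F G x ↔ 0 ≤ Sum.elim F G x := by
    intro x
    constructor
    · intro h
      by_contra hc
      rw [not_le] at hc
      have := h2 x (by simp [hc])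
      linarith
    · intro h
      linarith
  exact ⟨-ε, by linarith, fun x => key (Sum.inl x), fun x => key (Sum.inr x)⟩

/-! ### The first map -/

/-- stretch of the map `x ↦ (x, +)` if `0 ≤ S x`, `(ρ x, -)` otherwise -/
theorem f1_stretch {n : ℕ} (S : (Fin n → Bool) → ℝ) (ρ : (Fin n → Bool) → (Fin n → Bool))
    {A I D β : ℝ} (hD0 : 0 ≤ D)
    (h3 : (∑ x, ∑ i, (hammingDist (ρ x) (ρ (flp x i)) : ℝ)) ≤ A * 2 ^ n)
    (h5 : ∀ θ : ℝ, (∑ x, ∑ i, |ind (θ < S x) - ind (θ < S (flp x i))|) ≤ I * 2 ^ n)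
    (h6 : (∑ x, ind (D < hammingDist x (ρ x))) ≤ β * 2 ^ n) :
    ∑ x, ∑ i, (hammingDist (if 0 ≤ S x then f1_sn x true else f1_sn (ρ x) false)
      (if 0 ≤ S (flp x i) then f1_sn (flp x i) true else f1_sn (ρ (flp x i)) false) : ℝ) ≤
      2 ^ n * (n + A + (D + 2) * I + 2 * n * (n + 2) * β) := by
  obtain ⟨θ, hθ, hθS, -⟩ := f1_threshold S S
  have hpt : ∀ x i, (hammingDist (if 0 ≤ S x then f1_sn x true else f1_sn (ρ x) false)
      (if 0 ≤ S (flp x i) then f1_sn (flp x i) true else f1_sn (ρ (flp x i)) false) : ℝ) ≤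
      1 + hammingDist (ρ x) (ρ (flp x i)) +
        (D + 2) * |ind (θ < S x) - ind (θ < S (flp x i))| +
        (n + 2) * (ind (D < hammingDist x (ρ x)) +
          ind (D < hammingDist (flp x i) (ρ (flp x i)))) := by
    intro x i
    have hn : (0 : ℝ) ≤ n := Nat.cast_nonneg n
    have hi1 := ind_nonneg (D < hammingDist x (ρ x))
    have hi2 := ind_nonneg (D < hammingDist (flp x i) (ρ (flp x i)))
    have hρρ : (0 : ℝ) ≤ hammingDist (ρ x) (ρ (flp x i)) := Nat.cast_nonneg _
    have hff : hammingDist x (flp x i) = 1 := f1_hd_flp x i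
    by_cases hx : 0 ≤ S x <;> by_cases hy : 0 ≤ S (flp x i)
    · rw [if_pos hx, if_pos hy, f1_hd, hff, ind_true ((hθS x).mpr hx),
        ind_true ((hθS _).mpr hy)]
      simp only [if_true, add_zero, sub_self, abs_zero, mul_zero, Nat.cast_one]
      nlinarith
    · rw [if_pos hx, if_neg hy, f1_hd, ind_true ((hθS x).mpr hx),
        ind_false (fun h => hy ((hθS _).mp h))]
      have ht : (hammingDist x (ρ (flp x i)) : ℝ) ≤
          1 + hammingDist (flp x i) (ρ (flp x i)) := by
        have := hammingDist_triangle x (flp x i) (ρ (flp x i))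
        rw [hff] at this
        exact_mod_cast this
      have hle : (hammingDist (flp x i) (ρ (flp x i)) : ℝ) ≤ n := by
        have := hammingDist_le_card_fintype (x := flp x i) (y := ρ (flp x i))
        rw [Fintype.card_fin] at this
        exact_mod_cast this
      simp only [if_neg (show ¬ (true = false) by decide), sub_zero, abs_one, mul_one,
        Nat.cast_add, Nat.cast_one]
      by_cases hd : D < hammingDist (flp x i) (ρ (flp x i))
      · rw [ind_true hd]
        nlinarith
      · rw [ind_false hd]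
        rw [not_lt] at hd
        nlinarith
    · rw [if_neg hx, if_pos hy, f1_hd, ind_false (fun h => hx ((hθS _).mp h)),
        ind_true ((hθS _).mpr hy)]
      have ht : (hammingDist (ρ x) (flp x i) : ℝ) ≤ 1 + hammingDist x (ρ x) := by
        have := hammingDist_triangle (ρ x) x (flp x i)
        rw [hff, hammingDist_comm (ρ x) x] at this
        have h2 : ((hammingDist (ρ x) (flp x i) : ℕ) : ℝ) ≤ ((hammingDist x (ρ x) + 1 : ℕ) : ℝ) := by
          exact_mod_cast this
        push_cast at h2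
        linarith
      have hle : (hammingDist x (ρ x) : ℝ) ≤ n := by
        have := hammingDist_le_card_fintype (x := x) (y := ρ x)
        rw [Fintype.card_fin] at this
        exact_mod_cast this
      simp only [if_neg (show ¬ (false = true) by decide), zero_sub, abs_neg, abs_one, mul_one,
        Nat.cast_add, Nat.cast_one]
      by_cases hd : D < hammingDist x (ρ x)
      · rw [ind_true hd]
        nlinarith
      · rw [ind_false hd]
        rw [not_lt] at hd
        nlinarith
    · rw [if_neg hx, if_neg hy, f1_hd, ind_false (fun h => hx ((hθS _).mp h)),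
        ind_false (fun h => hy ((hθS _).mp h))]
      simp only [if_true, add_zero, sub_self, abs_zero, mul_zero]
      nlinarith
  refine (Finset.sum_le_sum fun x _ => Finset.sum_le_sum fun i _ => hpt x i).trans ?_
  have hc : Fintype.card (Fin n → Bool) = 2 ^ n := by simp
  have e1 : ∑ _x : Fin n → Bool, ∑ _i : Fin n, (1 : ℝ) = 2 ^ n * n := by
    simp only [Finset.sum_const, Finset.card_univ, hc, nsmul_eq_mul, mul_one, Fintype.card_fin]
    push_cast
    ring
  have e2 : ∑ x : Fin n → Bool, ∑ _i : Fin n, ind (D < hammingDist x (ρ x)) =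
      n * ∑ x, ind (D < hammingDist x (ρ x)) := by
    rw [Finset.mul_sum]
    refine Finset.sum_congr rfl fun x _ => ?_
    rw [Finset.sum_const, Finset.card_univ, Fintype.card_fin, nsmul_eq_mul]
  have e3 : ∑ x : Fin n → Bool, ∑ i : Fin n, ind (D < hammingDist (flp x i) (ρ (flp x i))) =
      n * ∑ x, ind (D < hammingDist x (ρ x)) := by
    rw [Finset.sum_comm]
    have : ∀ i : Fin n, ∑ x : Fin n → Bool, ind (D < hammingDist (flp x i) (ρ (flp x i))) =
        ∑ x, ind (D < hammingDist x (ρ x)) := by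
      intro i
      let E : (Fin n → Bool) ≃ (Fin n → Bool) :=
        ⟨fun x => flp x i, fun x => flp x i, fun x => flp_flp x i, fun x => flp_flp x i⟩
      exact E.sum_comp fun x => ind (D < hammingDist x (ρ x))
    rw [Finset.sum_congr rfl fun i _ => this i, Finset.sum_const, Finset.card_univ,
      Fintype.card_fin, nsmul_eq_mul]
  simp only [Finset.sum_add_distrib, ← Finset.mul_sum, e1, e2, e3]
  have h5' := mul_le_mul_of_nonneg_left (h5 θ) (show (0 : ℝ) ≤ D + 2 by linarith)
  have hn : (0 : ℝ) ≤ n := Nat.cast_nonneg n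
  have h6' := mul_le_mul_of_nonneg_left h6 (show (0 : ℝ) ≤ 2 * n * (n + 2) by positivity)
  linarith

/-! ### The transport estimate -/

theorem f1_transport {n : ℕ} (hn : 0 < n) (a a' : Fin n → ℝ) (a0 v κ : ℝ) (ha0 : 0 ≤ a0)
    (hv : ∀ x, |lin a x - lin a' x| + a0 ≤ v)
    (hκ : (∑ x : Fin n → Bool, ind (|lin a' x| ≤ v)) ≤ 2 ^ n * κ) {B : ℝ}
    (S : (Fin n → Bool) → ℝ)
    (h4 : ∀ h : (Fin n → Bool) → ℝ, Lip 1 h → ∀ c : ℝ,
       |∑ x, h x * (ind (c < lin a' x) - ind (c < S x))| ≤ B * 2 ^ n)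
    (hcard : ∑ x : Fin n → Bool, (ind (0 ≤ lin a x + a0) + ind (0 ≤ lin a x - a0)) = 2 ^ n)
    (u : (Fin (n + 1) → Bool) → ℝ) (hu : Lip 1 u) :
    ∑ x : Fin n → Bool, (u (f1_sn x true) * ind (0 ≤ S x) + u (f1_sn x false) * ind (0 < S x)) -
      ∑ x : Fin n → Bool, (u (f1_sn x true) * ind (0 ≤ lin a x + a0) +
        u (f1_sn x false) * ind (0 ≤ lin a x - a0)) ≤
      2 ^ n * (2 * B + 8 * Real.sqrt (n * (1 + Real.log (n + 1))) * κ + 8 / n) := by
  have hup : ∀ b : Bool, Lip 1 fun x : Fin n → Bool => u (f1_sn x b) := by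
    intro b x i
    beta_reduce
    rw [← f1_flp]
    exact hu _ _
  have hpm : ∀ x : Fin n → Bool, |u (f1_sn x false) - u (f1_sn x true)| ≤ 1 := by
    intro x
    have := hu (f1_sn x true) (Fin.last n)
    rw [f1_flp_last] at this
    exact this
  -- the first step: from `S` to `T = lin a'`
  obtain ⟨θ, hθ, hθS, hθT⟩ := f1_threshold S (lin a')
  have b1 := h4 _ (hup true) θ
  have b2 := h4 _ (hup false) 0
  have c1 : ∀ x, ind (θ < S x) = ind (0 ≤ S x) := fun x => ind_congr (hθS x)
  have c2 : ∀ x, ind (θ < lin a' x) = ind (0 ≤ lin a' x) := fun x => ind_congr (hθT x)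
  simp only [c1, c2] at b1
  have b1' := (abs_le.mp b1).1
  have b2' := (abs_le.mp b2).1
  -- the second step
  obtain ⟨z, hz, hzn⟩ := lip_conc (fun x : Fin n → Bool => u (f1_sn x true)) (hup true)
  rw [Fintype.card_fin] at hz hzn
  set w0 := u (f1_sn z true) with hw0
  -- the differences of indicators
  set dp : (Fin n → Bool) → ℝ := fun x => ind (0 ≤ lin a' x) - ind (0 ≤ lin a x + a0) with hdp
  set dm : (Fin n → Bool) → ℝ := fun x => ind (0 < lin a' x) - ind (0 ≤ lin a x - a0) with hdm
  have hdp_le : ∀ x, |dp x| ≤ ind (|lin a' x| ≤ v) := by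
    intro x
    have h1 := hv x
    have h2 := abs_le.mp (le_refl |lin a x - lin a' x|)
    by_cases hb : |lin a' x| ≤ v
    · rw [ind_true hb, hdp]
      beta_reduce
      rw [abs_le]
      constructor
      · linarith [ind_nonneg (0 ≤ lin a' x), ind_le_one (0 ≤ lin a x + a0)]
      · linarith [ind_nonneg (0 ≤ lin a x + a0), ind_le_one (0 ≤ lin a' x)]
    · rw [ind_false hb, hdp]
      beta_reduce
      have : (0 ≤ lin a' x) ↔ (0 ≤ lin a x + a0) := by
        constructor
        · intro hc
          by_contra hd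
          rw [not_le] at hd
          apply hb
          rw [abs_le]
          constructor <;> linarith
        · intro hc
          by_contra hd
          rw [not_le] at hd
          apply hb
          rw [abs_le]
          constructor <;> linarith
      rw [ind_congr this, sub_self, abs_zero]
  have hdm_le : ∀ x, |dm x| ≤ ind (|lin a' x| ≤ v) := by
    intro x
    have h1 := hv x
    have h2 := abs_le.mp (le_refl |lin a x - lin a' x|)
    by_cases hb : |lin a' x| ≤ v
    · rw [ind_true hb, hdm]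
      beta_reduce
      rw [abs_le]
      constructor
      · linarith [ind_nonneg (0 < lin a' x), ind_le_one (0 ≤ lin a x - a0)]
      · linarith [ind_nonneg (0 ≤ lin a x - a0), ind_le_one (0 < lin a' x)]
    · rw [ind_false hb, hdm]
      beta_reduce
      have : (0 < lin a' x) ↔ (0 ≤ lin a x - a0) := by
        constructor
        · intro hc
          by_contra hd
          rw [not_le] at hd
          apply hb
          rw [abs_le]
          constructor <;> linarith
        · intro hc
          by_contra hd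
          rw [not_lt] at hd
          apply hb
          rw [abs_le]
          constructor <;> linarith
      rw [ind_congr this, sub_self, abs_zero]
  -- total mass zero
  have hodd : ∑ x : Fin n → Bool, (ind (0 ≤ lin a' x) + ind (0 < lin a' x)) = 2 ^ n := by
    let N : (Fin n → Bool) ≃ (Fin n → Bool) :=
      ⟨fun x i => !(x i), fun x i => !(x i), fun x => by funext i; simp,
        fun x => by funext i; simp⟩
    have hN : ∀ x, lin a' (N x) = - lin a' x := by
      intro x
      simp only [lin, ← Finset.sum_neg_distrib]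
      refine Finset.sum_congr rfl fun i _ => ?_
      show a' i * sg (!(x i)) = _
      cases x i <;> simp [sg]
    rw [Finset.sum_add_distrib, ← N.sum_comp fun x => ind (0 < lin a' x),
      ← Finset.sum_add_distrib]
    have : ∀ x, ind (0 ≤ lin a' x) + ind (0 < lin a' (N x)) = 1 := by
      intro x
      rw [hN]
      by_cases h : 0 ≤ lin a' x
      · rw [ind_true h, ind_false (by linarith)]
        ring
      · rw [ind_false h, ind_true (by linarith)]
        ring
    rw [Finset.sum_congr rfl fun x _ => this x]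
    simp
  have hmass : ∑ x : Fin n → Bool, (dp x + dm x) = 0 := by
    have : ∀ x, dp x + dm x = (ind (0 ≤ lin a' x) + ind (0 < lin a' x)) -
        (ind (0 ≤ lin a x + a0) + ind (0 ≤ lin a x - a0)) := by
      intro x
      simp only [hdp, hdm]
      ring
    rw [Finset.sum_congr rfl fun x _ => this x, Finset.sum_sub_distrib, hodd, hcard, sub_self]
  -- numbers
  have hn1 : (1 : ℝ) ≤ n := by exact_mod_cast hn
  have hlog : 0 ≤ Real.log (n + 1) := Real.log_nonneg (by linarith)
  set q := Real.sqrt (n * (1 + Real.log (n + 1))) with hq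
  have hq2 : q ^ 2 = n * (1 + Real.log (n + 1)) := Real.sq_sqrt (by positivity)
  have hq0 : 0 ≤ q := Real.sqrt_nonneg _
  have hq1 : 1 ≤ q := by nlinarith
  have hκ0 : 0 ≤ κ := by
    have h1 : 0 ≤ ∑ x : Fin n → Bool, ind (|lin a' x| ≤ v) :=
      Finset.sum_nonneg fun x _ => ind_nonneg _
    have h2 : (0 : ℝ) < 2 ^ n := by positivity
    by_contra hc
    rw [not_le] at hc
    nlinarith
  have hexp : 4 * Real.exp (-((2 * q) ^ 2 / n)) * n ≤ 4 / n := by
    have e1 : (2 * q) ^ 2 / n = 4 * (1 + Real.log (n + 1)) := by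
      rw [mul_pow, hq2]
      field_simp
      ring
    rw [e1]
    have e2 : Real.exp (-(4 * (1 + Real.log (n + 1)))) ≤ Real.exp (-(2 * Real.log (n + 1))) :=
      Real.exp_le_exp.mpr (by linarith)
    have e3 : Real.exp (-(2 * Real.log (n + 1))) = 1 / ((n : ℝ) + 1) ^ 2 := by
      rw [Real.exp_neg, show (2 : ℝ) * Real.log (n + 1) = Real.log (n + 1) + Real.log (n + 1) by
        ring, Real.exp_add, Real.exp_log (by linarith)]
      rw [one_div]
      ring_nf
    rw [e3] at e2
    have e4 : 1 / ((n : ℝ) + 1) ^ 2 * n ≤ 1 / n := by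
      rw [div_mul_eq_mul_div, div_le_div_iff₀ (by positivity) (by linarith)]
      nlinarith
    have e5 : 4 * Real.exp (-(4 * (1 + Real.log (n + 1)))) * n ≤ 4 * (1 / ((n : ℝ) + 1) ^ 2 * n) := by
      nlinarith
    calc 4 * Real.exp (-(4 * (1 + Real.log (n + 1)))) * n ≤ 4 * (1 / ((n : ℝ) + 1) ^ 2 * n) := e5
      _ ≤ 4 * (1 / n) := by linarith
      _ = 4 / n := by ring
  -- the concentration bound
  have hpt : ∀ x : Fin n → Bool, (1 + 2 * |u (f1_sn x true) - w0|) * ind (|lin a' x| ≤ v) ≤
      (1 + 4 * q) * ind (|lin a' x| ≤ v) + 2 * n * ind (2 * q ≤ |u (f1_sn x true) - w0|) := by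
    intro x
    have hi := ind_nonneg (|lin a' x| ≤ v)
    have hi' := ind_le_one (|lin a' x| ≤ v)
    have hj := ind_nonneg (2 * q ≤ |u (f1_sn x true) - w0|)
    by_cases hc : 2 * q ≤ |u (f1_sn x true) - w0|
    · rw [ind_true hc]
      have h1 := hzn x
      have h2 : 0 ≤ |u (f1_sn x true) - w0| := abs_nonneg _
      have h3 : |u (f1_sn x true) - w0| * ind (|lin a' x| ≤ v) ≤ n := by nlinarith
      nlinarith
    · rw [ind_false hc]
      rw [not_le] at hc
      nlinarith
  have hsum : ∑ x : Fin n → Bool, (u (f1_sn x true) * dp x + u (f1_sn x false) * dm x) ≤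
      2 ^ n * (8 * q * κ + 8 / n) := by
    have e1 : ∑ x : Fin n → Bool, (u (f1_sn x true) * dp x + u (f1_sn x false) * dm x) =
        ∑ x : Fin n → Bool, ((u (f1_sn x true) - w0) * dp x + (u (f1_sn x false) - w0) * dm x) := by
      have e2 : ∀ x : Fin n → Bool, (u (f1_sn x true) - w0) * dp x +
          (u (f1_sn x false) - w0) * dm x =
          (u (f1_sn x true) * dp x + u (f1_sn x false) * dm x) - w0 * (dp x + dm x) := by
        intro x
        ring
      rw [Finset.sum_congr rfl fun x _ => e2 x, Finset.sum_sub_distrib, ← Finset.mul_sum, hmass]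
      ring
    rw [e1]
    have e3 : ∀ x : Fin n → Bool, (u (f1_sn x true) - w0) * dp x +
        (u (f1_sn x false) - w0) * dm x ≤
        (1 + 2 * |u (f1_sn x true) - w0|) * ind (|lin a' x| ≤ v) := by
      intro x
      have g1 : (u (f1_sn x true) - w0) * dp x ≤
          |u (f1_sn x true) - w0| * ind (|lin a' x| ≤ v) := by
        refine (le_abs_self _).trans ?_
        rw [abs_mul]
        exact mul_le_mul_of_nonneg_left (hdp_le x) (abs_nonneg _)
      have g2 : (u (f1_sn x false) - w0) * dm x ≤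
          (1 + |u (f1_sn x true) - w0|) * ind (|lin a' x| ≤ v) := by
        refine (le_abs_self _).trans ?_
        rw [abs_mul]
        have g3 : |u (f1_sn x false) - w0| ≤ 1 + |u (f1_sn x true) - w0| := by
          have : u (f1_sn x false) - w0 = (u (f1_sn x false) - u (f1_sn x true)) +
            (u (f1_sn x true) - w0) := by ring
          rw [this]
          refine (abs_add_le _ _).trans ?_
          linarith [hpm x]
        refine (mul_le_mul g3 (hdm_le x) (abs_nonneg _) (by positivity)).trans le_rfl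
      linarith
    refine (Finset.sum_le_sum fun x _ => (e3 x).trans (hpt x)).trans ?_
    rw [Finset.sum_add_distrib, ← Finset.mul_sum, ← Finset.mul_sum]
    have h2 := hz (2 * q) (by positivity)
    have h3 : (1 + 4 * q) * ∑ x : Fin n → Bool, ind (|lin a' x| ≤ v) ≤
        (1 + 4 * q) * (2 ^ n * κ) := mul_le_mul_of_nonneg_left hκ (by positivity)
    have h4' : 2 * (n : ℝ) * ∑ x : Fin n → Bool, ind (2 * q ≤ |u (f1_sn x true) - w0|) ≤
        2 * n * (4 * Real.exp (-((2 * q) ^ 2 / n)) * 2 ^ n) :=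
      mul_le_mul_of_nonneg_left h2 (by positivity)
    have h5 : 2 * (n : ℝ) * (4 * Real.exp (-((2 * q) ^ 2 / n)) * 2 ^ n) ≤ 2 ^ n * (8 / n) := by
      have : (0 : ℝ) < 2 ^ n := by positivity
      have e : 2 * (n : ℝ) * (4 * Real.exp (-((2 * q) ^ 2 / n)) * 2 ^ n) =
        2 ^ n * (2 * (4 * Real.exp (-((2 * q) ^ 2 / n)) * n)) := by ring
      rw [e]
      refine mul_le_mul_of_nonneg_left ?_ this.le
      calc 2 * (4 * Real.exp (-((2 * q) ^ 2 / n)) * n) ≤ 2 * (4 / n) := by linarith
        _ = 8 / n := by ring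
    have h6 : (1 + 4 * q) * (2 ^ n * κ) ≤ 2 ^ n * (8 * q * κ) := by
      have : (0 : ℝ) ≤ 2 ^ n * κ := by positivity
      nlinarith
    calc _ ≤ 2 ^ n * (8 * q * κ) + 2 ^ n * (8 / n) := by linarith
      _ = 2 ^ n * (8 * q * κ + 8 / n) := by ring
  -- put together
  have hfin : ∑ x : Fin n → Bool, (u (f1_sn x true) * ind (0 ≤ S x) +
      u (f1_sn x false) * ind (0 < S x)) -
      ∑ x : Fin n → Bool, (u (f1_sn x true) * ind (0 ≤ lin a x + a0) +
        u (f1_sn x false) * ind (0 ≤ lin a x - a0)) =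
      -(∑ x : Fin n → Bool, u (f1_sn x true) * (ind (0 ≤ lin a' x) - ind (0 ≤ S x))) -
      (∑ x : Fin n → Bool, u (f1_sn x false) * (ind (0 < lin a' x) - ind (0 < S x))) +
      ∑ x : Fin n → Bool, (u (f1_sn x true) * dp x + u (f1_sn x false) * dm x) := by
    rw [← Finset.sum_sub_distrib, ← Finset.sum_neg_distrib, ← Finset.sum_sub_distrib,
      ← Finset.sum_add_distrib]
    refine Finset.sum_congr rfl fun x _ => ?_
    simp only [hdp, hdm]
    ring
  rw [hfin]
  calc _ ≤ B * 2 ^ n + B * 2 ^ n + 2 ^ n * (8 * q * κ + 8 / n) := by linarith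
    _ = _ := by ring

/-- F1: from a component to a bijection onto the halfspace.
`H = {(x, s) | 0 ≤ lin a x + a0 * sg s}` in the cube `Fin (n + 1) → Bool` (last coordinate `s`). -/
theorem final_of_comp {n : ℕ} (hn : 0 < n) (a a' : Fin n → ℝ) (a0 v κ : ℝ) (ha0 : 0 ≤ a0)
    (hv : ∀ x, |lin a x - lin a' x| + a0 ≤ v)
    (hκ : (∑ x : Fin n → Bool, ind (|lin a' x| ≤ v)) ≤ 2 ^ n * κ)
    {A B I D β : ℝ} (hC : Comp a' A B I D β)
    (hD0 : 0 ≤ D) (H : Finset (Fin (n + 1) → Bool))
    (hH : ∀ z, z ∈ H ↔ 0 ≤ lin a (fun i => z i.castSucc) + a0 * sg (z (Fin.last n)))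
    (hcard : H.card = 2 ^ n) :
    ∃ f : (Fin n → Bool) → (Fin (n + 1) → Bool), Function.Injective f ∧
      (∀ z, z ∈ Set.range f ↔ z ∈ H) ∧
      ∑ x, ∑ i, (hammingDist (f x) (f (flp x i)) : ℝ) ≤
        2 ^ n * (n + A + (D + 2) * I + 2 * n * (n + 2) * β +
          2 * n * (2 * B + 8 * Real.sqrt (n * (1 + Real.log (n + 1))) * κ + 8 / n)) := by
  classical
  obtain ⟨S, ρ, h1, h2, h3, h4, h5, h6⟩ := hC
  rw [Fintype.card_fin] at h3 h4 h5 h6
  -- the sum over `H`
  have hHt : ∀ x : Fin n → Bool, f1_sn x true ∈ H ↔ 0 ≤ lin a x + a0 := by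
    intro x
    rw [hH, f1_sn_init, f1_sn_last]
    simp [sg]
  have hHf : ∀ x : Fin n → Bool, f1_sn x false ∈ H ↔ 0 ≤ lin a x - a0 := by
    intro x
    rw [hH, f1_sn_init, f1_sn_last]
    simp [sg, sub_eq_add_neg]
  have hsumH : ∀ u : (Fin (n + 1) → Bool) → ℝ, ∑ z ∈ H, u z =
      ∑ x : Fin n → Bool, (u (f1_sn x true) * ind (0 ≤ lin a x + a0) +
        u (f1_sn x false) * ind (0 ≤ lin a x - a0)) := by
    intro u
    have e1 : ∑ z ∈ H, u z = ∑ z, u z * ind (z ∈ H) := by
      rw [← Finset.sum_filter_add_sum_filter_not Finset.univ (fun z => z ∈ H)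
        (fun z => u z * ind (z ∈ H))]
      rw [Finset.sum_eq_zero (s := Finset.univ.filter fun z => ¬ z ∈ H), add_zero]
      · rw [Finset.filter_mem_eq_inter, Finset.univ_inter]
        refine Finset.sum_congr rfl fun z hz => ?_
        rw [ind_true hz, mul_one]
      · intro z hz
        rw [ind_false (Finset.mem_filter.mp hz).2, mul_zero]
    rw [e1, f1_sum]
    refine Finset.sum_congr rfl fun x _ => ?_
    rw [ind_congr (hHt x), ind_congr (hHf x)]
  have hcard' : ∑ x : Fin n → Bool, (ind (0 ≤ lin a x + a0) + ind (0 ≤ lin a x - a0)) = 2 ^ n := by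
    have := hsumH fun _ => 1
    simp only [Finset.sum_const, nsmul_eq_mul, mul_one, one_mul, hcard] at this
    rw [← this]
    push_cast
    rfl
  -- the first map
  let fc : (Fin n → Bool) → (Fin (n + 1) → Bool) := fun x =>
    if 0 ≤ S x then f1_sn x true else f1_sn (ρ x) false
  have hfc : Function.Injective fc := by
    intro x y h
    simp only [fc] at h
    split_ifs at h with hx hy hy
    · exact (f1_sn_inj h).1
    · exact absurd (f1_sn_inj h).2 (by decide)
    · exact absurd (f1_sn_inj h).2 (by decide)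
    · rw [← h1 x, (f1_sn_inj h).1, h1]
  let Hc : Finset (Fin (n + 1) → Bool) := Finset.univ.image fc
  have hHc : Hc.card = H.card := by
    rw [Finset.card_image_of_injective _ hfc, hcard]
    simp
  have hsumHc : ∀ u : (Fin (n + 1) → Bool) → ℝ, ∑ z ∈ Hc, u z =
      ∑ x : Fin n → Bool, (u (f1_sn x true) * ind (0 ≤ S x) + u (f1_sn x false) * ind (0 < S x)) := by
    intro u
    rw [Finset.sum_image fun x _ y _ h => hfc h, Finset.sum_add_distrib]
    let R : (Fin n → Bool) ≃ (Fin n → Bool) := ⟨ρ, ρ, h1, h1⟩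
    rw [← R.sum_comp fun x => u (f1_sn x false) * ind (0 < S x), ← Finset.sum_add_distrib]
    refine Finset.sum_congr rfl fun x _ => ?_
    show u (fc x) = _ + u (f1_sn (ρ x) false) * ind (0 < S (ρ x))
    rw [h2]
    simp only [fc]
    by_cases hx : 0 ≤ S x
    · rw [if_pos hx, ind_true hx, ind_false (by linarith)]
      ring
    · rw [if_neg hx, ind_false hx, ind_true (by linarith)]
      ring
  obtain ⟨σ, hσ⟩ := ot_cube Hc H hHc
    (2 ^ n * (2 * B + 8 * Real.sqrt (n * (1 + Real.log (n + 1))) * κ + 8 / n)) (by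
      intro u hu
      rw [hsumHc, hsumH]
      exact f1_transport hn a a' a0 v κ ha0 hv hκ S h4 hcard' u hu)
  have hmem : ∀ x, fc x ∈ Hc := fun x => Finset.mem_image_of_mem _ (Finset.mem_univ x)
  let e : (Fin n → Bool) ≃ {z // z ∈ Hc} := Equiv.ofBijective (fun x => ⟨fc x, hmem x⟩) ⟨
    fun x y h => hfc (congrArg Subtype.val h), by
      rintro ⟨z, hz⟩
      obtain ⟨x, -, rfl⟩ := Finset.mem_image.mp hz
      exact ⟨x, rfl⟩⟩
  have he : ∀ x, (e x).1 = fc x := fun x => rfl
  refine ⟨fun x => (σ (e x)).1, ?_, ?_, ?_⟩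
  · intro x y h
    exact e.injective (σ.injective (Subtype.ext h))
  · intro z
    constructor
    · rintro ⟨x, rfl⟩
      exact (σ (e x)).2
    · intro hz
      refine ⟨e.symm (σ.symm ⟨z, hz⟩), ?_⟩
      simp
  · have hdisp : ∑ x, (hammingDist (fc x) (σ (e x)).1 : ℝ) ≤
        2 ^ n * (2 * B + 8 * Real.sqrt (n * (1 + Real.log (n + 1))) * κ + 8 / n) := by
      refine le_trans (le_of_eq ?_) hσ
      rw [← e.sum_comp]
      rfl
    have htri : ∀ x i, (hammingDist (σ (e x)).1 (σ (e (flp x i))).1 : ℝ) ≤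
        hammingDist (fc x) (fc (flp x i)) + (hammingDist (fc x) (σ (e x)).1 +
          hammingDist (fc (flp x i)) (σ (e (flp x i))).1) := by
      intro x i
      have t1 := hammingDist_triangle (σ (e x)).1 (fc x) (σ (e (flp x i))).1
      have t2 := hammingDist_triangle (fc x) (fc (flp x i)) (σ (e (flp x i))).1
      rw [hammingDist_comm (σ (e x)).1 (fc x)] at t1
      have : hammingDist (σ (e x)).1 (σ (e (flp x i))).1 ≤
        hammingDist (fc x) (fc (flp x i)) + (hammingDist (fc x) (σ (e x)).1 +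
          hammingDist (fc (flp x i)) (σ (e (flp x i))).1) := by omega
      exact_mod_cast this
    refine (Finset.sum_le_sum fun x _ => Finset.sum_le_sum fun i _ => htri x i).trans ?_
    simp only [Finset.sum_add_distrib]
    have s1 : ∑ x : Fin n → Bool, ∑ _i : Fin n, (hammingDist (fc x) (σ (e x)).1 : ℝ) =
        n * ∑ x, (hammingDist (fc x) (σ (e x)).1 : ℝ) := by
      rw [Finset.mul_sum]
      refine Finset.sum_congr rfl fun x _ => ?_
      rw [Finset.sum_const, Finset.card_univ, Fintype.card_fin, nsmul_eq_mul]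
    have s2 : ∑ x : Fin n → Bool, ∑ i : Fin n,
        (hammingDist (fc (flp x i)) (σ (e (flp x i))).1 : ℝ) =
        n * ∑ x, (hammingDist (fc x) (σ (e x)).1 : ℝ) := by
      rw [Finset.sum_comm]
      have : ∀ i : Fin n, ∑ x : Fin n → Bool,
          (hammingDist (fc (flp x i)) (σ (e (flp x i))).1 : ℝ) =
          ∑ x, (hammingDist (fc x) (σ (e x)).1 : ℝ) := by
        intro i
        let E : (Fin n → Bool) ≃ (Fin n → Bool) :=
          ⟨fun x => flp x i, fun x => flp x i, fun x => flp_flp x i, fun x => flp_flp x i⟩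
        exact E.sum_comp fun x => (hammingDist (fc x) (σ (e x)).1 : ℝ)
      rw [Finset.sum_congr rfl fun i _ => this i, Finset.sum_const, Finset.card_univ,
        Fintype.card_fin, nsmul_eq_mul]
    rw [s1, s2]
    have hst := f1_stretch S ρ hD0 h3 h5 h6
    have hn' : (0 : ℝ) ≤ n := Nat.cast_nonneg n
    have hdisp' := mul_le_mul_of_nonneg_left hdisp (show (0 : ℝ) ≤ 2 * n by positivity)
    have hst' : ∑ x : Fin n → Bool, ∑ i : Fin n, (hammingDist (fc x) (fc (flp x i)) : ℝ) ≤
        2 ^ n * (n + A + (D + 2) * I + 2 * n * (n + 2) * β) := hst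
    calc _ ≤ 2 ^ n * (n + A + (D + 2) * I + 2 * n * (n + 2) * β) +
          2 * n * (2 ^ n * (2 * B + 8 * Real.sqrt (n * (1 + Real.log (n + 1))) * κ + 8 / n)) := by
            linarith
      _ = _ := by ring

end BLP
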