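import Pool.Agent.Lib.BLP.Conc1

/-!
# Chunk C2: Littlewood-Offord for letters of random type; Gaussian weights

C4: fix the types and the values of the letters of type `false`; with `s` letters of type `true`
the Littlewood-Offord bound (see `lin_window`, or BL/LO `card_window'`) is `(u / α0 + 1) / √s` if `s > 0`
and `1` if `s = 0`; and `1 / √(max s 1) ≤ √2 / √(s + 1)`, `E √(1/(s+1)) ≤ √(E (1/(s+1)))`,
`E (1/(s+1)) ≤ 2 / (n + 1)` for `s` binomial `(n, 1/2)`.
C5: cut the line in intervals `[c + 2 j - 1, c + 2 j + 1)`.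
-/

namespace BLP

open Finset

/-- the mean of `1 / (s + 1)` for a binomial -/
theorem c2_sum_choose (n : ℕ) :
    ∑ s ∈ range (n + 1), (n.choose s : ℝ) * (1 / (s + 1)) ≤ 2 ^ (n + 1) / (n + 1) := by
  have h1 : ∀ s ∈ range (n + 1), (n.choose s : ℝ) * (1 / (s + 1)) =
      ((n + 1).choose (s + 1) : ℝ) / (n + 1) := by
    intro s _
    have h2 := Nat.add_one_mul_choose_eq n s
    have h3 : ((n : ℝ) + 1) * (n.choose s : ℝ) = ((n + 1).choose (s + 1) : ℝ) * (s + 1) := by
      exact_mod_cast h2
    have h4 : (0 : ℝ) < (n : ℝ) + 1 := by positivity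
    have h5 : (0 : ℝ) < (s : ℝ) + 1 := by positivity
    field_simp
    linarith
  rw [Finset.sum_congr rfl h1, ← Finset.sum_div]
  gcongr
  have h6 := Nat.sum_range_choose (n + 1)
  rw [Finset.sum_range_succ'] at h6
  have h7 : ∑ s ∈ range (n + 1), (n + 1).choose (s + 1) ≤ 2 ^ (n + 1) := by omega
  exact_mod_cast h7

/-- summing a function of the number of `true` coordinates -/
theorem c2_sum_types {κ : Type*} [Fintype κ] [DecidableEq κ] (f : ℕ → ℝ) :
    ∑ τ : κ → Bool, f (univ.filter fun k => τ k = true).card =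
      ∑ s ∈ range (Fintype.card κ + 1), ((Fintype.card κ).choose s : ℝ) * f s := by
  classical
  have h1 : ∑ τ : κ → Bool, f (univ.filter fun k => τ k = true).card =
      ∑ S ∈ (univ : Finset κ).powerset, f S.card := by
    apply Finset.sum_bij (fun τ _ => univ.filter fun k => τ k = true)
    · intro τ _
      rw [Finset.mem_powerset]
      exact Finset.subset_univ _
    · intro x _ y _ h
      funext k
      have h2 : k ∈ (univ.filter fun k => x k = true) ↔ k ∈ (univ.filter fun k => y k = true) := by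
        rw [h]
      simp only [Finset.mem_filter, Finset.mem_univ, true_and] at h2
      cases hx : x k <;> cases hy : y k <;> simp_all
    · intro S _
      refine ⟨fun k => decide (k ∈ S), Finset.mem_univ _, ?_⟩
      ext k
      simp
    · intro τ _
      rfl
  rw [h1, Finset.sum_powerset_apply_card, Finset.card_univ]
  simp only [nsmul_eq_mul]

/-- the window bound for fixed types -/
theorem c2_fixed {κ : Type*} [Fintype κ] [DecidableEq κ] (α : κ → ℝ) {α0 : ℝ}
    (h0 : 0 < α0) (hα : ∀ k, α0 ≤ |α k|) (τ : κ → Bool) (N : (κ → Bool) → ℝ)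
    (hN : ∀ y y' : κ → Bool, (∀ k, τ k = false → y k = y' k) → N y = N y') (c u : ℝ)
    (hu : 0 ≤ u) :
    ∑ y : κ → Bool, ind (|(∑ k, if τ k = true then α k * sg (y k) else 0) + N y - c| ≤ u) ≤
      2 ^ Fintype.card κ * ((u / α0 + 1) *
        (Real.sqrt 2 * Real.sqrt (1 / ((univ.filter fun k => τ k = true).card + 1)))) := by
  classical
  set s := (univ.filter fun k => τ k = true).card with hs
  have hone : 0 ≤ u / α0 := by positivity
  rcases Nat.eq_zero_or_pos s with h1 | h1
  · have h2 : (1 : ℝ) ≤ Real.sqrt 2 * Real.sqrt (1 / ((s : ℝ) + 1)) := by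
      rw [h1]
      simp
    calc ∑ y : κ → Bool, ind (|(∑ k, if τ k = true then α k * sg (y k) else 0) + N y - c| ≤ u)
        ≤ ∑ y : κ → Bool, (1 : ℝ) := Finset.sum_le_sum fun y _ => ind_le_one _
      _ = 2 ^ Fintype.card κ * (1 * 1) := by
        rw [Finset.sum_const, Finset.card_univ, nsmul_eq_mul, Fintype.card_fun, Fintype.card_bool]
        push_cast
        ring
      _ ≤ _ := by
        gcongr
        linarith
  · have hsk : Fintype.card {k // τ k = true} = s := by
      rw [Fintype.card_subtype]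
    have hsk' : Fintype.card {k // ¬ τ k = true} + s = Fintype.card κ := by
      rw [Fintype.card_subtype_compl, hsk]
      have : s ≤ Fintype.card κ := by
        rw [hs, ← Finset.card_univ]
        exact Finset.card_filter_le _ _
      omega
    set E := Equiv.piEquivPiSubtypeProd (fun k => τ k = true) (fun _ => Bool) with hE
    have hE1 : ∀ (z : ({k // τ k = true} → Bool) × ({k // ¬ τ k = true} → Bool))
        (k : {k // τ k = true}), E.symm z k = z.1 k := by
      intro z k
      have : (E (E.symm z)).1 k = z.1 k := by rw [Equiv.apply_symm_apply]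
      exact this
    have hE2 : ∀ (z : ({k // τ k = true} → Bool) × ({k // ¬ τ k = true} → Bool))
        (k : {k // ¬ τ k = true}), E.symm z k = z.2 k := by
      intro z k
      have : (E (E.symm z)).2 k = z.2 k := by rw [Equiv.apply_symm_apply]
      exact this
    have h2 : ∀ z2 : {k // ¬ τ k = true} → Bool, ∑ z1 : {k // τ k = true} → Bool,
        ind (|(∑ k, if τ k = true then α k * sg (E.symm (z1, z2) k) else 0) +
          N (E.symm (z1, z2)) - c| ≤ u) ≤ 2 ^ s * ((u / α0 + 1) / Real.sqrt s) := by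
      intro z2
      set c' := c - N (E.symm (fun _ => true, z2)) with hc'
      have h3 : ∀ z1 : {k // τ k = true} → Bool,
          (∑ k, if τ k = true then α k * sg (E.symm (z1, z2) k) else 0) +
          N (E.symm (z1, z2)) - c = lin (fun k : {k // τ k = true} => α k) z1 - c' := by
        intro z1
        have h4 : N (E.symm (z1, z2)) = N (E.symm (fun _ => true, z2)) := by
          apply hN
          intro k hk
          have hk' : ¬ τ k = true := by simp [hk]
          have e1 := hE2 (z1, z2) ⟨k, hk'⟩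
          have e2 := hE2 (fun _ => true, z2) ⟨k, hk'⟩
          simp only at e1 e2
          rw [e1, e2]
        have h5 : (∑ k, if τ k = true then α k * sg (E.symm (z1, z2) k) else 0) =
            lin (fun k : {k // τ k = true} => α k) z1 := by
          rw [← Finset.sum_filter]
          unfold lin
          rw [← Finset.sum_subtype_eq_sum_filter]
          rw [Finset.subtype_univ]
          refine Finset.sum_congr rfl fun k _ => ?_
          rw [hE1 (z1, z2) k]
        rw [h4, h5, hc']
        ring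
      have h4 := lin_window (fun k : {k // τ k = true} => α k) univ h0 (fun k _ => hα k)
        (by
          rw [← Finset.card_pos, Finset.card_univ, hsk]
          exact h1) c' u hu
      rw [Finset.card_univ, hsk] at h4
      refine le_trans (le_of_eq ?_) h4
      refine Finset.sum_congr rfl fun z1 _ => ?_
      rw [h3 z1]
    have h3 : (1 : ℝ) / Real.sqrt s ≤ Real.sqrt 2 * Real.sqrt (1 / ((s : ℝ) + 1)) := by
      have hs0 : (1 : ℝ) ≤ s := by exact_mod_cast h1
      have hs1 : (0 : ℝ) < s := by linarith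
      have h1s : (1 : ℝ) / Real.sqrt s = Real.sqrt (1 / s) := by
        rw [Real.sqrt_div (by norm_num), Real.sqrt_one]
      rw [← Real.sqrt_mul (by norm_num), h1s]
      apply Real.sqrt_le_sqrt
      rw [div_le_iff₀ hs1]
      have : (2 : ℝ) * (1 / ((s : ℝ) + 1)) * s = 2 * s / (s + 1) := by ring
      rw [this, le_div_iff₀ (by positivity)]
      linarith
    calc ∑ y : κ → Bool, ind (|(∑ k, if τ k = true then α k * sg (y k) else 0) + N y - c| ≤ u)
        = ∑ z2 : {k // ¬ τ k = true} → Bool, ∑ z1 : {k // τ k = true} → Bool,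
          ind (|(∑ k, if τ k = true then α k * sg (E.symm (z1, z2) k) else 0) +
          N (E.symm (z1, z2)) - c| ≤ u) := by
          rw [← Equiv.sum_comp E.symm, Fintype.sum_prod_type_right]
      _ ≤ ∑ z2 : {k // ¬ τ k = true} → Bool, 2 ^ s * ((u / α0 + 1) / Real.sqrt s) :=
          Finset.sum_le_sum fun z2 _ => h2 z2
      _ = 2 ^ Fintype.card κ * ((u / α0 + 1) * (1 / Real.sqrt s)) := by
          rw [Finset.sum_const, Finset.card_univ, nsmul_eq_mul, Fintype.card_fun,
            Fintype.card_bool, ← hsk', pow_add]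
          push_cast
          ring
      _ ≤ _ := by gcongr

/-- C4: the same for sums over the letters of type `true` of random (type, value) pairs, plus any
function of the types and of the values of the letters of type `false`. -/
theorem ac_window {κ : Type*} [Fintype κ] [DecidableEq κ] [Nonempty κ] (α : κ → ℝ) {α0 : ℝ}
    (h0 : 0 < α0) (hα : ∀ k, α0 ≤ |α k|) (N : (κ → Bool × Bool) → ℝ)
    (hN : ∀ x x' : κ → Bool × Bool, (∀ k, (x k).1 = (x' k).1) →
      (∀ k, (x k).1 = false → x k = x' k) → N x = N x') (c u : ℝ) (hu : 0 ≤ u) :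
    ∑ x : κ → Bool × Bool,
        ind (|(∑ k, if (x k).1 = true then α k * sg (x k).2 else 0) + N x - c| ≤ u) ≤
      4 ^ Fintype.card κ * ((u / α0 + 1) * (2 / Real.sqrt (Fintype.card κ))) := by
  classical
  set n := Fintype.card κ with hn
  have hn0 : 0 < n := Fintype.card_pos
  set E := (Equiv.arrowProdEquivProdArrow κ (fun _ => Bool) (fun _ => Bool)) with hE
  have hEs : ∀ (τ y : κ → Bool) (k : κ), E.symm (τ, y) k = (τ k, y k) := fun τ y k => rfl
  have h1 : ∑ x : κ → Bool × Bool,
        ind (|(∑ k, if (x k).1 = true then α k * sg (x k).2 else 0) + N x - c| ≤ u) =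
      ∑ τ : κ → Bool, ∑ y : κ → Bool, ind (|(∑ k, if τ k = true then α k * sg (y k) else 0) +
        N (E.symm (τ, y)) - c| ≤ u) := by
    rw [← Equiv.sum_comp E.symm, Fintype.sum_prod_type]
    rfl
  set g : ℕ → ℝ := fun s => 1 / ((s : ℝ) + 1) with hg
  have hg0 : ∀ s, 0 ≤ g s := fun s => by positivity
  have h2 : ∀ τ : κ → Bool, ∑ y : κ → Bool, ind (|(∑ k, if τ k = true then α k * sg (y k) else 0) +
        N (E.symm (τ, y)) - c| ≤ u) ≤
      2 ^ n * (u / α0 + 1) * Real.sqrt 2 *
        Real.sqrt (g (univ.filter fun k => τ k = true).card) := by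
    intro τ
    have h3 := c2_fixed α h0 hα τ (fun y => N (E.symm (τ, y))) (by
      intro y y' hyy
      apply hN
      · intro k
        rfl
      · intro k hk
        have hk' : τ k = false := hk
        rw [hEs, hEs, hyy k hk']) c u hu
    refine h3.trans (le_of_eq ?_)
    ring
  have h3 : ∑ τ : κ → Bool, Real.sqrt (g (univ.filter fun k => τ k = true).card) ≤
      2 ^ n * (Real.sqrt 2 / Real.sqrt n) := by
    have h4 : (∑ τ : κ → Bool, Real.sqrt (g (univ.filter fun k => τ k = true).card)) ^ 2 ≤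
        2 ^ n * ∑ τ : κ → Bool, g (univ.filter fun k => τ k = true).card := by
      have h5 := sq_sum_le_card_mul_sum_sq (s := (univ : Finset (κ → Bool)))
        (f := fun τ => Real.sqrt (g (univ.filter fun k => τ k = true).card))
      refine h5.trans (le_of_eq ?_)
      rw [Finset.card_univ, Fintype.card_fun, Fintype.card_bool]
      push_cast
      congr 1
      refine Finset.sum_congr rfl fun τ _ => ?_
      rw [Real.sq_sqrt (hg0 _)]
    have h6 : ∑ τ : κ → Bool, g (univ.filter fun k => τ k = true).card ≤ 2 ^ (n + 1) / (n + 1) := by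
      rw [c2_sum_types g]
      exact c2_sum_choose n
    have h7 : (∑ τ : κ → Bool, Real.sqrt (g (univ.filter fun k => τ k = true).card)) ^ 2 ≤
        (2 ^ n * (Real.sqrt 2 / Real.sqrt n)) ^ 2 := by
      have hn' : (0 : ℝ) < n := by exact_mod_cast hn0
      calc _ ≤ 2 ^ n * (2 ^ (n + 1) / ((n : ℝ) + 1)) :=
            h4.trans (mul_le_mul_of_nonneg_left h6 (by positivity))
        _ ≤ 2 ^ n * (2 ^ (n + 1) / (n : ℝ)) := by
            gcongr
            linarith
        _ = _ := by
            rw [mul_pow, div_pow, Real.sq_sqrt (by norm_num), Real.sq_sqrt hn'.le]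
            ring
    exact le_of_sq_le_sq h7 (by positivity)
  rw [h1]
  calc _ ≤ ∑ τ : κ → Bool, 2 ^ n * (u / α0 + 1) * Real.sqrt 2 *
        Real.sqrt (g (univ.filter fun k => τ k = true).card) := Finset.sum_le_sum fun τ _ => h2 τ
    _ = 2 ^ n * (u / α0 + 1) * Real.sqrt 2 *
        ∑ τ : κ → Bool, Real.sqrt (g (univ.filter fun k => τ k = true).card) := by
        rw [Finset.mul_sum]
    _ ≤ 2 ^ n * (u / α0 + 1) * Real.sqrt 2 * (2 ^ n * (Real.sqrt 2 / Real.sqrt n)) := by
        gcongr
    _ = 4 ^ n * ((u / α0 + 1) * ((Real.sqrt 2 * Real.sqrt 2) / Real.sqrt n)) := by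
        rw [show (4 : ℝ) = 2 * 2 by norm_num, mul_pow]
        ring
    _ = _ := by rw [Real.mul_self_sqrt (by norm_num)]

/-- weights of the shells -/
noncomputable def c2w (t : ℝ) (J j : ℕ) : ℝ := if j ≤ J then 1 else 2 * t / (j * (j - 1))

theorem c2_tele (t : ℝ) (J : ℕ) (hJ : 1 ≤ J) (m : ℕ) :
    ∑ j ∈ range (J + 1 + m), c2w t J j = J + 1 + 2 * t / J - 2 * t / (J + m) := by
  induction m with
  | zero =>
    have h1 : ∀ j ∈ range (J + 1), c2w t J j = 1 := by
      intro j hj
      rw [Finset.mem_range] at hj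
      rw [c2w, if_pos (by omega)]
    rw [add_zero, Finset.sum_congr rfl h1, Finset.sum_const, Finset.card_range]
    simp
  | succ m ih =>
    rw [← add_assoc, Finset.sum_range_succ, ih]
    have h1 : c2w t J (J + 1 + m) = 2 * t / (((J : ℝ) + 1 + m) * (J + m)) := by
      rw [c2w, if_neg (by omega)]
      push_cast
      congr 2
      ring
    rw [h1]
    have hJ' : (1 : ℝ) ≤ J := by exact_mod_cast hJ
    have h2 : (0 : ℝ) < (J : ℝ) + m := by positivity
    have h3 : (0 : ℝ) < (J : ℝ) + 1 + m := by positivity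
    have h4 : (0 : ℝ) < (J : ℝ) := by linarith
    push_cast
    have h5 : (0 : ℝ) < (J : ℝ) + (m + 1) := by positivity
    field_simp
    ring

theorem c2w_nonneg {t : ℝ} (ht : 0 ≤ t) (J j : ℕ) (hJ : 1 ≤ J) : 0 ≤ c2w t J j := by
  unfold c2w
  split_ifs with h
  · norm_num
  · have h1 : (1 : ℝ) ≤ j := by
      have : 1 ≤ j := by omega
      exact_mod_cast this
    apply div_nonneg (by linarith)
    apply mul_nonneg <;> linarith

/-- C5: from windows to Gaussian weights -/
theorem exp_of_window {Ω : Type*} [Fintype Ω] (R : Ω → ℝ) (E : ℝ)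
    (hE : ∀ c, ∑ x, ind (|R x - c| ≤ 1) ≤ E) (c t : ℝ) (ht : 1 ≤ t) :
    ∑ x, Real.exp (-((R x - c) ^ 2 / (8 * t))) ≤ 20 * Real.sqrt t * E := by
  classical
  have hE0 : 0 ≤ E := (Finset.sum_nonneg fun x _ => ind_nonneg _).trans (hE 0)
  set J := ⌈Real.sqrt t⌉₊ with hJ
  have hst : 1 ≤ Real.sqrt t := by
    rw [← Real.sqrt_one]
    exact Real.sqrt_le_sqrt ht
  have hJ1 : Real.sqrt t ≤ J := Nat.le_ceil _
  have hJ2 : (J : ℝ) < Real.sqrt t + 1 := Nat.ceil_lt_add_one (by linarith)
  have hJ3 : 1 ≤ J := by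
    have : (1 : ℝ) ≤ J := by linarith
    exact_mod_cast this
  have ht0 : 0 < t := by linarith
  -- a uniform bound
  obtain ⟨M, hM⟩ : ∃ M : ℕ, ∀ x, ⌊(|R x - c| + 1) / 2⌋₊ < J + 1 + M := by
    refine ⟨∑ x, ⌊(|R x - c| + 1) / 2⌋₊, fun x => ?_⟩
    have := Finset.single_le_sum (f := fun x => ⌊(|R x - c| + 1) / 2⌋₊)
      (fun i _ => Nat.zero_le _) (Finset.mem_univ x)
    omega
  have hpt : ∀ x, Real.exp (-((R x - c) ^ 2 / (8 * t))) ≤
      ∑ j ∈ range (J + 1 + M), c2w t J j *
        (ind (|R x - (c + 2 * j)| ≤ 1) + ind (|R x - (c - 2 * j)| ≤ 1)) := by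
    intro x
    set j := ⌊(|R x - c| + 1) / 2⌋₊ with hj
    have h0 : 0 ≤ (|R x - c| + 1) / 2 := by positivity
    have h1 := Nat.floor_le h0
    have h2 := Nat.lt_floor_add_one ((|R x - c| + 1) / 2)
    rw [← hj] at h1 h2
    have h3 : 1 ≤ ind (|R x - (c + 2 * j)| ≤ 1) + ind (|R x - (c - 2 * j)| ≤ 1) := by
      rcases le_total 0 (R x - c) with h | h
      · rw [abs_of_nonneg h] at h1 h2
        rw [ind_true (p := |R x - (c + 2 * j)| ≤ 1) (by rw [abs_le]; constructor <;> linarith)]
        linarith [ind_nonneg (|R x - (c - 2 * j)| ≤ 1)]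
      · rw [abs_of_nonpos h] at h1 h2
        rw [ind_true (p := |R x - (c - 2 * j)| ≤ 1) (by rw [abs_le]; constructor <;> linarith)]
        linarith [ind_nonneg (|R x - (c + 2 * j)| ≤ 1)]
    have h4 : Real.exp (-((R x - c) ^ 2 / (8 * t))) ≤ c2w t J j := by
      unfold c2w
      split_ifs with hjJ
      · rw [Real.exp_le_one_iff]
        have : 0 ≤ (R x - c) ^ 2 / (8 * t) := by positivity
        linarith
      · have h5 : (2 : ℝ) ≤ j := by
          have : 2 ≤ j := by omega
          exact_mod_cast this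
        have h6 : 2 * (j : ℝ) - 1 ≤ |R x - c| := by linarith
        have h7 : 4 * ((j : ℝ) * (j - 1)) ≤ (R x - c) ^ 2 := by
          rw [← sq_abs (R x - c)]
          nlinarith
        have h8 : 0 < (j : ℝ) * (j - 1) := by
          apply mul_pos <;> linarith
        have h9 : (j : ℝ) * (j - 1) / (2 * t) ≤ (R x - c) ^ 2 / (8 * t) := by
          rw [div_le_div_iff₀ (by positivity) (by positivity)]
          nlinarith
        have h10 : (j : ℝ) * (j - 1) / (2 * t) ≤ Real.exp ((R x - c) ^ 2 / (8 * t)) := by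
          have := Real.add_one_le_exp ((R x - c) ^ 2 / (8 * t))
          linarith
        rw [Real.exp_neg, inv_le_comm₀ (Real.exp_pos _) (by positivity), inv_div]
        exact h10
    have h5 : c2w t J j * (ind (|R x - (c + 2 * j)| ≤ 1) + ind (|R x - (c - 2 * j)| ≤ 1)) ≤
        ∑ j ∈ range (J + 1 + M), c2w t J j *
        (ind (|R x - (c + 2 * j)| ≤ 1) + ind (|R x - (c - 2 * j)| ≤ 1)) :=
      Finset.single_le_sum (f := fun j : ℕ => c2w t J j *
        (ind (|R x - (c + 2 * j)| ≤ 1) + ind (|R x - (c - 2 * j)| ≤ 1)))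
        (fun i _ => mul_nonneg (c2w_nonneg ht0.le J i hJ3)
          (add_nonneg (ind_nonneg _) (ind_nonneg _))) (Finset.mem_range.mpr (hM x))
    refine h4.trans (le_trans ?_ h5)
    have := c2w_nonneg ht0.le J j hJ3
    nlinarith
  calc ∑ x, Real.exp (-((R x - c) ^ 2 / (8 * t)))
      ≤ ∑ x, ∑ j ∈ range (J + 1 + M), c2w t J j *
        (ind (|R x - (c + 2 * j)| ≤ 1) + ind (|R x - (c - 2 * j)| ≤ 1)) :=
        Finset.sum_le_sum fun x _ => hpt x
    _ = ∑ j ∈ range (J + 1 + M), c2w t J j *
        (∑ x, ind (|R x - (c + 2 * j)| ≤ 1) + ∑ x, ind (|R x - (c - 2 * j)| ≤ 1)) := by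
        rw [Finset.sum_comm]
        refine Finset.sum_congr rfl fun j _ => ?_
        rw [← Finset.mul_sum, Finset.sum_add_distrib]
    _ ≤ ∑ j ∈ range (J + 1 + M), c2w t J j * (E + E) := by
        refine Finset.sum_le_sum fun j _ => ?_
        exact mul_le_mul_of_nonneg_left (add_le_add (hE _) (hE _)) (c2w_nonneg ht0.le J j hJ3)
    _ = (J + 1 + 2 * t / J - 2 * t / (J + M)) * (2 * E) := by
        rw [← Finset.sum_mul, c2_tele t J hJ3 M]
        ring
    _ ≤ (10 * Real.sqrt t) * (2 * E) := by
        apply mul_le_mul_of_nonneg_right _ (by positivity)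
        have h1 : 0 ≤ 2 * t / ((J : ℝ) + M) := by positivity
        have h2 : 2 * t / (J : ℝ) ≤ 2 * Real.sqrt t := by
          rw [div_le_iff₀ (by linarith)]
          have := Real.mul_self_sqrt ht0.le
          nlinarith
        linarith
    _ = _ := by ring

end BLP
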