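import Pool.Agent.Lib.BLP.Defs

/-!
# Chunk K: monotone matching of two odd functions

`F : X → ℝ` odd for the fixed point free involution `ρ`, `G` odd for the fixed point free
involution `σ`.  Then there is a permutation `τ` with `τ ∘ ρ = σ ∘ τ`, monotone:
`F x < F y → G (τ x) ≤ G (τ y)`.

Proof: `ε x = sign (idx x - idx (ρ x)) * (1 + min (idx x) (idx (ρ x)))` is odd and injective; so
`x ↦ (F x, ε x)` in the lexicographic order is injective and odd; `rank x = #{y | (F y, ε y) <
(F x, ε x)}` satisfies `rank (ρ x) = |X| - 1 - rank x`.  The same for `G, σ`; `τ` matches the ranks.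
-/

namespace BLP

open Finset

/-- an odd injective integer valued function -/
theorem rk_exists_odd {X : Type*} [Fintype X] [DecidableEq X] (ρ : X → X)
    (hρ : ∀ x, ρ (ρ x) = x) (hρ' : ∀ x, ρ x ≠ x) :
    ∃ ε : X → ℤ, Function.Injective ε ∧ ∀ x, ε (ρ x) = - ε x := by
  classical
  let idx : X → ℕ := fun x => (Fintype.equivFin X x : ℕ)
  have hidx : Function.Injective idx := fun x y h =>
    (Fintype.equivFin X).injective (Fin.ext h)
  have hne : ∀ x, idx x ≠ idx (ρ x) := fun x h => hρ' x (hidx h).symm
  refine ⟨fun x => if idx x < idx (ρ x) then -(1 + (idx x : ℤ)) else 1 + (idx (ρ x) : ℤ), ?_, ?_⟩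
  · intro x y h
    simp only at h
    split_ifs at h with h1 h2 h2
    · exact hidx (by omega)
    · omega
    · omega
    · have : ρ x = ρ y := hidx (by omega)
      rw [← hρ x, this, hρ]
  · intro x
    simp only [hρ]
    have := hne x
    split_ifs with h1 h2 h2
    · omega
    · rfl
    · ring
    · omega

/-- the rank function of an odd function -/
theorem rk_exists_rank {X : Type*} [Fintype X] [DecidableEq X] (F : X → ℝ) (ρ : X → X)
    (hρ : ∀ x, ρ (ρ x) = x) (hρ' : ∀ x, ρ x ≠ x) (hF : ∀ x, F (ρ x) = - F x) :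
    ∃ e : X ≃ Fin (Fintype.card X), (∀ x, (e x : ℕ) + (e (ρ x) : ℕ) + 1 = Fintype.card X) ∧
      (∀ x y, F x < F y → e x < e y) ∧ ∀ x y, e x < e y → F x ≤ F y := by
  classical
  obtain ⟨ε, hinj, hodd⟩ := rk_exists_odd ρ hρ hρ'
  let lt' : X → X → Prop := fun x y => F x < F y ∨ (F x = F y ∧ ε x < ε y)
  have hirr : ∀ x, ¬ lt' x x := by
    intro x h
    rcases h with h | ⟨-, h⟩
    · exact lt_irrefl _ h
    · exact lt_irrefl _ h
  have htrans : ∀ x y z, lt' x y → lt' y z → lt' x z := by
    rintro x y z (h | ⟨h, h'⟩) (g | ⟨g, g'⟩)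
    · exact Or.inl (h.trans g)
    · exact Or.inl (g ▸ h)
    · exact Or.inl (h ▸ g)
    · exact Or.inr ⟨h.trans g, h'.trans g'⟩
  have htri : ∀ x y, x ≠ y → lt' x y ∨ lt' y x := by
    intro x y hne
    rcases lt_trichotomy (F x) (F y) with h | h | h
    · exact Or.inl (Or.inl h)
    · rcases lt_trichotomy (ε x) (ε y) with g | g | g
      · exact Or.inl (Or.inr ⟨h, g⟩)
      · exact absurd (hinj g) hne
      · exact Or.inr (Or.inr ⟨h.symm, g⟩)
    · exact Or.inr (Or.inl h)
  have hneg : ∀ x y, lt' (ρ x) (ρ y) ↔ lt' y x := by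
    intro x y
    simp only [lt', hF, hodd]
    constructor
    · rintro (h | ⟨h, h'⟩)
      · exact Or.inl (by linarith)
      · exact Or.inr ⟨by linarith, by omega⟩
    · rintro (h | ⟨h, h'⟩)
      · exact Or.inl (by linarith)
      · exact Or.inr ⟨by linarith, by omega⟩
  let r : X → ℕ := fun x => (Finset.univ.filter fun y => lt' y x).card
  have hrlt : ∀ x y, lt' x y → r x < r y := by
    intro x y h
    refine Finset.card_lt_card ?_
    rw [Finset.ssubset_iff_of_subset]
    · refine ⟨x, by simpa using h, by simpa using hirr x⟩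
    · intro z hz
      simp only [Finset.mem_filter, Finset.mem_univ, true_and] at hz ⊢
      exact htrans z x y hz h
  have hrinj : Function.Injective r := by
    intro x y h
    by_contra hne
    rcases htri x y hne with g | g
    · exact absurd (hrlt _ _ g) (by omega)
    · exact absurd (hrlt _ _ g) (by omega)
  have hrlt' : ∀ x y, r x < r y → lt' x y := by
    intro x y h
    have hne : x ≠ y := by
      rintro rfl
      exact lt_irrefl _ h
    rcases htri x y hne with g | g
    · exact g
    · exact absurd (hrlt _ _ g) (by omega)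
  have hrn : ∀ x, r x < Fintype.card X := by
    intro x
    have : r x < (Finset.univ : Finset X).card := by
      refine Finset.card_lt_card ?_
      rw [Finset.ssubset_iff_of_subset (Finset.filter_subset _ _)]
      exact ⟨x, Finset.mem_univ x, by simpa using hirr x⟩
    simpa using this
  have hsum : ∀ x, r x + r (ρ x) + 1 = Fintype.card X := by
    intro x
    -- `r (ρ x)` counts the elements above `x`
    have e1 : r (ρ x) = (Finset.univ.filter fun y => lt' x y).card := by
      refine Finset.card_bij (fun y _ => ρ y) ?_ ?_ ?_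
      · intro y hy
        simp only [Finset.mem_filter, Finset.mem_univ, true_and] at hy ⊢
        rw [← hneg, hρ]
        exact hy
      · intro y _ z _ h
        rw [← hρ y, h, hρ]
      · intro y hy
        simp only [Finset.mem_filter, Finset.mem_univ, true_and] at hy
        refine ⟨ρ y, ?_, hρ y⟩
        simp only [Finset.mem_filter, Finset.mem_univ, true_and]
        exact (hneg y x).mpr hy
    have e2 : (Finset.univ : Finset X) = (Finset.univ.filter fun y => lt' y x) ∪
        (Finset.univ.filter fun y => lt' x y) ∪ {x} := by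
      ext y
      simp only [Finset.mem_univ, Finset.mem_union, Finset.mem_filter, true_and,
        Finset.mem_singleton, true_iff]
      by_cases h : y = x
      · exact Or.inr h
      · exact Or.inl (htri y x h)
    have e3 : Disjoint (Finset.univ.filter fun y => lt' y x) (Finset.univ.filter fun y => lt' x y) := by
      rw [Finset.disjoint_left]
      intro y h g
      simp only [Finset.mem_filter, Finset.mem_univ, true_and] at h g
      exact hirr y (htrans y x y h g)
    have e4 : Disjoint ((Finset.univ.filter fun y => lt' y x) ∪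
        (Finset.univ.filter fun y => lt' x y)) {x} := by
      rw [Finset.disjoint_singleton_right]
      simp only [Finset.mem_union, Finset.mem_filter, Finset.mem_univ, true_and, or_self]
      exact hirr x
    have e5 := congrArg Finset.card e2
    rw [Finset.card_union_of_disjoint e4, Finset.card_union_of_disjoint e3, Finset.card_singleton,
      Finset.card_univ] at e5
    rw [e1, e5]
  let e : X → Fin (Fintype.card X) := fun x => ⟨r x, hrn x⟩
  have hebij : Function.Bijective e := by
    rw [Fintype.bijective_iff_injective_and_card]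
    refine ⟨fun x y h => hrinj (congrArg Fin.val h), by simp⟩
  refine ⟨Equiv.ofBijective e hebij, hsum, fun x y h => hrlt x y (Or.inl h), fun x y h => ?_⟩
  rcases hrlt' x y h with g | ⟨g, -⟩
  · exact g.le
  · exact g.le

theorem monotone_matching {X : Type*} [Fintype X] [DecidableEq X] (F G : X → ℝ) (ρ σ : X → X)
    (hρ : ∀ x, ρ (ρ x) = x) (hρ' : ∀ x, ρ x ≠ x) (hF : ∀ x, F (ρ x) = - F x)
    (hσ : ∀ x, σ (σ x) = x) (hσ' : ∀ x, σ x ≠ x) (hG : ∀ x, G (σ x) = - G x) :
    ∃ τ : X ≃ X, (∀ x, τ (ρ x) = σ (τ x)) ∧ ∀ x y, F x < F y → G (τ x) ≤ G (τ y) := by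
  obtain ⟨e, he1, he2, he3⟩ := rk_exists_rank F ρ hρ hρ' hF
  obtain ⟨f, hf1, hf2, hf3⟩ := rk_exists_rank G σ hσ hσ' hG
  refine ⟨e.trans f.symm, fun x => ?_, fun x y h => ?_⟩
  · apply f.injective
    apply Fin.ext
    simp only [Equiv.trans_apply, Equiv.apply_symm_apply]
    have h1 := he1 x
    have h2 := hf1 (f.symm (e x))
    rw [Equiv.apply_symm_apply] at h2
    omega
  · apply hf3
    simp only [Equiv.trans_apply, Equiv.apply_symm_apply]
    exact he2 x y h

/-- consequences: the function `S' = G ∘ τ` -/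
theorem law_matching {X : Type*} [Fintype X] [DecidableEq X] (F G : X → ℝ) (ρ σ : X → X)
    (hρ : ∀ x, ρ (ρ x) = x) (hρ' : ∀ x, ρ x ≠ x) (hF : ∀ x, F (ρ x) = - F x)
    (hσ : ∀ x, σ (σ x) = x) (hσ' : ∀ x, σ x ≠ x) (hG : ∀ x, G (σ x) = - G x) :
    ∃ S' : X → ℝ, (∀ x, S' (ρ x) = - S' x) ∧
      (∀ c, ∑ x, ind (c < S' x) = ∑ x, ind (c < G x)) ∧
      (∀ c, ∑ x, |ind (c < S' x) - ind (c < F x)| = |∑ x, ind (c < G x) - ∑ x, ind (c < F x)|) ∧
      (∀ θ, ∃ c', ∀ x y, θ < S' x → ¬ θ < S' y → F y ≤ c' ∧ c' ≤ F x) := by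
  classical
  obtain ⟨τ, h1, h2⟩ := monotone_matching F G ρ σ hρ hρ' hF hσ hσ' hG
  have hlaw : ∀ c, ∑ x, ind (c < G (τ x)) = ∑ x, ind (c < G x) := fun c =>
    Equiv.sum_comp τ fun x => ind (c < G x)
  refine ⟨fun x => G (τ x), fun x => ?_, hlaw, fun c => ?_, fun θ => ?_⟩
  · simp only [h1, hG]
  · rw [← hlaw c, ← Finset.sum_sub_distrib]
    -- the two sets are nested
    by_cases hex : ∃ x, c < G (τ x) ∧ ¬ c < F x
    · obtain ⟨x0, hx1, hx2⟩ := hex
      have hge : ∀ x, 0 ≤ ind (c < G (τ x)) - ind (c < F x) := by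
        intro x
        by_cases hFx : c < F x
        · have : c < G (τ x) := lt_of_lt_of_le hx1 (h2 x0 x (lt_of_le_of_lt (not_lt.mp hx2) hFx))
          rw [ind_true this, ind_true hFx]
          norm_num
        · rw [ind_false hFx]
          have := ind_nonneg (c < G (τ x))
          linarith
      rw [abs_of_nonneg (Finset.sum_nonneg fun x _ => hge x)]
      exact Finset.sum_congr rfl fun x _ => abs_of_nonneg (hge x)
    · have hle : ∀ x, ind (c < G (τ x)) - ind (c < F x) ≤ 0 := by
        intro x
        have : ind (c < G (τ x)) ≤ ind (c < F x) := ind_mono fun h => by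
          by_contra hc
          exact hex ⟨x, h, hc⟩
        linarith
      rw [abs_of_nonpos (Finset.sum_nonpos fun x _ => hle x), ← Finset.sum_neg_distrib]
      exact Finset.sum_congr rfl fun x _ => abs_of_nonpos (hle x)
  · -- the largest value of `F` on the complement
    by_cases hne : (Finset.univ.filter fun y => ¬ θ < G (τ y)).Nonempty
    · obtain ⟨y0, hy0, hmax⟩ := Finset.exists_max_image _ F hne
      simp only [Finset.mem_filter, Finset.mem_univ, true_and] at hy0 hmax
      refine ⟨F y0, fun x y hx hy => ⟨hmax y hy, ?_⟩⟩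
      by_contra hc
      rw [not_le] at hc
      exact hy0 (lt_of_lt_of_le hx (h2 x y0 hc))
    · refine ⟨0, fun x y hx hy => absurd ⟨y, ?_⟩ hne⟩
      simpa using hy

end BLP
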