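import Pool.Agent.Lib.BLP.Defs

/-!
# Chunk B1: the states of one block, the hash and the noise

A block of `b` pairs of coordinates; a pair is coded by `(type, value)`; type `true` (letter `N`):
the two coordinates are equal to the value; type `false` (letter `PM`): the first coordinate is
the value, the second one is the opposite.  The `N`-letters form a bracket word (`p` unmatched
minus letters, `L` unmatched letters).  The values of the first `r` `PM`-letters are the binary
digits of the number `hash`.  With `u = hash % m` the position is `p * m + u ∈ [0, m * (L + 1) - 1]`.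
The block is frozen if it has less than `r` `PM`-letters or `hash ≥ m * (2 ^ r / m)`.
-/

namespace BLP

open Finset

/-- states of a block with `b` pairs -/
abbrev BS (b : ℕ) := Fin b → Bool × Bool

variable {b : ℕ}

/-- number of `PM` letters before `k` -/
def pmRank (x : BS b) (k : Fin b) : ℕ := (univ.filter fun j => j < k ∧ (x j).1 = false).card

/-- number of `PM` letters -/
def npm (x : BS b) : ℕ := (univ.filter fun j => (x j).1 = false).card

def hash (r : ℕ) (x : BS b) : ℕ :=
  ∑ k, if (x k).1 = false ∧ pmRank x k < r ∧ (x k).2 = true then 2 ^ pmRank x k else 0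

def setHash (r U : ℕ) (x : BS b) : BS b := fun k =>
  if (x k).1 = false ∧ pmRank x k < r then (false, U.testBit (pmRank x k)) else x k

def frozen (m r : ℕ) (x : BS b) : Prop := npm x < r ∨ m * (2 ^ r / m) ≤ hash r x

instance (m r : ℕ) (x : BS b) : Decidable (frozen m r x) := by unfold frozen; infer_instance

def noise (m r : ℕ) (x : BS b) : ℕ := hash r x % m

def setNoise (m r t : ℕ) (x : BS b) : BS b := setHash r (hash r x / m * m + t) x

/-- sum of the values of the `N`-letters -/
def vsum (x : BS b) : ℤ := ∑ k, if (x k).1 = true then (if (x k).2 = true then 1 else -1) else 0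

theorem b1_pmRank_congr {x x' : BS b} (h : ∀ k, (x k).1 = (x' k).1) (k : Fin b) :
    pmRank x k = pmRank x' k := by
  unfold pmRank
  congr 1
  ext j
  simp [h j]

theorem b1_npm_congr {x x' : BS b} (h : ∀ k, (x k).1 = (x' k).1) : npm x = npm x' := by
  unfold npm
  congr 1
  ext j
  simp [h j]

theorem b1_fst (r U : ℕ) (x : BS b) (k : Fin b) : (setHash r U x k).1 = (x k).1 := by
  unfold setHash
  split_ifs with h
  · exact h.1.symm
  · rfl

theorem b1_setHash_setHash (r U U' : ℕ) (x : BS b) :
    setHash r U' (setHash r U x) = setHash r U' x := by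
  funext k
  have h1 := b1_fst r U x k
  have h2 := b1_pmRank_congr (b1_fst r U x) k
  unfold setHash at h1 h2 ⊢
  rw [h1, h2]
  split_ifs with h
  · rfl
  · rfl

/-- the rank is injective on the `PM` letters -/
theorem b1_pmRank_inj {x : BS b} {j k : Fin b} (hj : (x j).1 = false) (hk : (x k).1 = false)
    (h : pmRank x j = pmRank x k) : j = k := by
  have key : ∀ i i' : Fin b, (x i).1 = false → i < i' → pmRank x i < pmRank x i' := by
    intro i i' hi hlt
    unfold pmRank
    apply card_lt_card
    rw [ssubset_iff_of_subset]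
    · refine ⟨i, by simp [hi, hlt], by simp⟩
    · intro l hl
      simp only [mem_filter, mem_univ, true_and] at hl ⊢
      exact ⟨hl.1.trans hlt, hl.2⟩
  rcases lt_trichotomy j k with h1 | h1 | h1
  · have := key j k hj h1; omega
  · exact h1
  · have := key k j hk h1; omega

/-- every number below `npm x` is a rank -/
theorem b1_exists_rank {x : BS b} {i : ℕ} (hi : i < npm x) :
    ∃ k, (x k).1 = false ∧ pmRank x k = i := by
  have h1 : (univ.filter fun j => (x j).1 = false).image (pmRank x) = range (npm x) := by
    apply eq_of_subset_of_card_le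
    · intro l hl
      obtain ⟨k, hk, rfl⟩ := mem_image.1 hl
      rw [mem_range]
      unfold pmRank npm
      apply card_lt_card
      rw [ssubset_iff_of_subset]
      · exact ⟨k, hk, by simp⟩
      · intro l hl
        simp only [mem_filter, mem_univ, true_and] at hl ⊢
        exact hl.2
    · rw [card_range, card_image_of_injOn]
      · rfl
      · intro j hj k hk h
        simp only [coe_filter, mem_univ, true_and, Set.mem_ofPred_eq] at hj hk
        exact b1_pmRank_inj hj hk h
  have h2 : i ∈ (univ.filter fun j => (x j).1 = false).image (pmRank x) := by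
    rw [h1]; exact mem_range.2 hi
  obtain ⟨k, hk, rfl⟩ := mem_image.1 h2
  exact ⟨k, by simpa using hk, rfl⟩

/-- the `i`-th binary digit of the hash -/
def b1bit (x : BS b) (i : ℕ) : Prop := ∃ k, (x k).1 = false ∧ pmRank x k = i ∧ (x k).2 = true

instance (x : BS b) (i : ℕ) : Decidable (b1bit x i) := by unfold b1bit; infer_instance

theorem b1_hash_eq (r : ℕ) (x : BS b) :
    hash r x = ∑ i ∈ range r, if b1bit x i then 2 ^ i else 0 := by
  unfold hash
  rw [← sum_filter, ← sum_filter]
  refine sum_bij (fun k _ => pmRank x k) ?_ ?_ ?_ ?_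
  · intro k hk
    simp only [mem_filter, mem_univ, true_and] at hk
    simp only [mem_filter, mem_range]
    exact ⟨hk.2.1, k, hk.1, rfl, hk.2.2⟩
  · intro j hj k hk h
    simp only [mem_filter, mem_univ, true_and] at hj hk
    exact b1_pmRank_inj hj.1 hk.1 h
  · intro i hi
    simp only [mem_filter, mem_range] at hi
    obtain ⟨h1, k, h2, h3, h4⟩ := hi
    exact ⟨k, by simp [h2, h3, h4, h1], h3⟩
  · intro k _
    rfl

theorem b1_sum_lt (r : ℕ) (f : ℕ → Prop) [DecidablePred f] :
    (∑ i ∈ range r, if f i then 2 ^ i else 0) < 2 ^ r := by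
  induction r with
  | zero => simp
  | succ r ih =>
    rw [sum_range_succ, pow_succ]
    split_ifs <;> omega

theorem b1_hash_lt (r : ℕ) (x : BS b) : hash r x < 2 ^ r := by
  rw [b1_hash_eq]
  exact b1_sum_lt r _

theorem b1_testBit_sum (r : ℕ) (f : ℕ → Prop) [DecidablePred f] (j : ℕ) (hj : j < r) :
    (∑ i ∈ range r, if f i then 2 ^ i else 0).testBit j = decide (f j) := by
  induction r with
  | zero => omega
  | succ r ih =>
    rw [sum_range_succ]
    rcases Nat.lt_or_ge j r with h | h
    · split_ifs with h1
      · rw [Nat.add_comm, Nat.testBit_two_pow_add_gt h]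
        exact ih h
      · rw [Nat.add_zero]
        exact ih h
    · have hjr : j = r := by omega
      subst hjr
      have h2 := Nat.testBit_lt_two_pow (b1_sum_lt j f)
      split_ifs with h1
      · rw [Nat.add_comm, Nat.testBit_two_pow_add_eq, h2]
        simp [h1]
      · rw [Nat.add_zero, h2]
        simp [h1]

theorem b1_sum_testBit (r U : ℕ) (hU : U < 2 ^ r) :
    (∑ i ∈ range r, if U.testBit i = true then 2 ^ i else 0) = U := by
  apply Nat.eq_of_testBit_eq
  intro j
  rcases Nat.lt_or_ge j r with h | h
  · rw [b1_testBit_sum r (fun i => U.testBit i = true) j h]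
    simp
  · have hp : 2 ^ r ≤ 2 ^ j := Nat.pow_le_pow_right (by norm_num) h
    rw [Nat.testBit_lt_two_pow ((b1_sum_lt r _).trans_le hp),
      Nat.testBit_lt_two_pow (hU.trans_le hp)]

theorem b1_hash_setHash {r U : ℕ} {x : BS b} (hr : r ≤ npm x) (hU : U < 2 ^ r) :
    hash r (setHash r U x) = U := by
  rw [b1_hash_eq]
  conv_rhs => rw [← b1_sum_testBit r U hU]
  refine sum_congr rfl fun i hi => ?_
  have hi' := mem_range.1 hi
  obtain ⟨k, hk1, hk2⟩ := b1_exists_rank (x := x) (i := i) (by omega)
  have hbit : b1bit (setHash r U x) i ↔ U.testBit i = true := by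
    constructor
    · rintro ⟨k', h1, h2, h3⟩
      rw [b1_fst] at h1
      rw [b1_pmRank_congr (b1_fst r U x)] at h2
      have : k' = k := b1_pmRank_inj h1 hk1 (by omega)
      subst this
      unfold setHash at h3
      rw [if_pos ⟨h1, by omega⟩] at h3
      rw [← hk2]
      exact h3
    · intro h
      refine ⟨k, by rw [b1_fst]; exact hk1, by rw [b1_pmRank_congr (b1_fst r U x)]; exact hk2, ?_⟩
      unfold setHash
      rw [if_pos ⟨hk1, by omega⟩]
      show U.testBit (pmRank x k) = true
      rw [hk2]
      exact h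
  simp only [hbit]

theorem b1_setHash_hash (r : ℕ) (x : BS b) : setHash r (hash r x) x = x := by
  funext k
  unfold setHash
  split_ifs with h
  · have h1 : (hash r x).testBit (pmRank x k) = (x k).2 := by
      rw [b1_hash_eq, b1_testBit_sum r _ _ h.2, Bool.eq_iff_iff, decide_eq_true_iff]
      constructor
      · rintro ⟨k', h2, h3, h4⟩
        rw [← b1_pmRank_inj h2 h.1 h3]
        exact h4
      · intro h2
        exact ⟨k, h.1, rfl, h2⟩
    rw [h1]
    exact Prod.ext h.1.symm rfl
  · rfl

theorem b1_setNoise_lt {m r t : ℕ} {x : BS b} (hm : 0 < m) (hx : ¬ frozen m r x) (ht : t < m) :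
    hash r x / m * m + t < m * (2 ^ r / m) := by
  have h1 : hash r x < m * (2 ^ r / m) := by
    unfold frozen at hx
    omega
  have h2 : hash r x / m < 2 ^ r / m := (Nat.div_lt_iff_lt_mul hm).2 (by rw [mul_comm]; exact h1)
  calc hash r x / m * m + t < hash r x / m * m + m := by omega
    _ = m * (hash r x / m + 1) := by ring
    _ ≤ m * (2 ^ r / m) := Nat.mul_le_mul_left _ h2

/-- B1 (noise interface) -/
theorem noise_spec (b m r : ℕ) (hm : 0 < m) (x : BS b) (hx : ¬ frozen m r x) (t : ℕ) (ht : t < m) :
    ¬ frozen m r (setNoise m r t x) ∧ noise m r (setNoise m r t x) = t ∧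
    (∀ t' < m, setNoise m r t' (setNoise m r t x) = setNoise m r t' x) ∧
    setNoise m r (noise m r x) x = x ∧
    (∀ k, (setNoise m r t x k).1 = (x k).1) ∧ (∀ k, (x k).1 = true → setNoise m r t x k = x k) ∧
    (univ.filter fun k => setNoise m r t x k ≠ x k).card ≤ r := by
  have hr : r ≤ npm x := by
    unfold frozen at hx
    omega
  have hU := b1_setNoise_lt hm hx ht
  have hU2 : hash r x / m * m + t < 2 ^ r := hU.trans_le (Nat.mul_div_le _ _)
  have hh : hash r (setNoise m r t x) = hash r x / m * m + t := b1_hash_setHash hr hU2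
  have hdiv : (hash r x / m * m + t) / m = hash r x / m := by
    rw [Nat.add_comm, Nat.add_mul_div_right _ _ hm, Nat.div_eq_of_lt ht, Nat.zero_add]
  have hmod : (hash r x / m * m + t) % m = t := by
    rw [Nat.add_comm, Nat.add_mul_mod_self_right, Nat.mod_eq_of_lt ht]
  refine ⟨?_, ?_, ?_, ?_, ?_, ?_, ?_⟩
  · have h1 : npm (setNoise m r t x) = npm x := b1_npm_congr (b1_fst r _ x)
    unfold frozen
    rw [h1, hh]
    omega
  · unfold noise
    rw [hh, hmod]
  · intro t' _
    show setHash r (hash r (setNoise m r t x) / m * m + t') (setNoise m r t x) = _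
    rw [hh, hdiv]
    exact b1_setHash_setHash _ _ _ _
  · show setHash r (hash r x / m * m + hash r x % m) x = x
    rw [mul_comm, Nat.div_add_mod]
    exact b1_setHash_hash r x
  · exact b1_fst r _ x
  · intro k hk
    show setHash _ _ _ _ = _
    unfold setHash
    rw [if_neg (by simp [hk])]
  · calc (univ.filter fun k => setNoise m r t x k ≠ x k).card
        ≤ (univ.filter fun k => (x k).1 = false ∧ pmRank x k < r).card := by
          apply card_le_card
          intro k hk
          simp only [mem_filter, mem_univ, true_and] at hk ⊢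
          by_contra hc
          apply hk
          show setHash _ _ _ _ = _
          unfold setHash
          rw [if_neg hc]
      _ ≤ (range r).card := by
          refine card_le_card_of_injOn (pmRank x) ?_ ?_
          · intro k hk
            simp only [coe_filter, mem_univ, true_and, Set.mem_ofPred_eq] at hk
            simpa using hk.2
          · intro j hj k hk h
            simp only [coe_filter, mem_univ, true_and, Set.mem_ofPred_eq] at hj hk
            exact b1_pmRank_inj hj.1 hk.1 h
      _ = r := card_range r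

/-- B1: `hash` only depends on the types and on the values of the `PM`-letters -/
theorem hash_congr (r : ℕ) (x x' : BS b) (h1 : ∀ k, (x k).1 = (x' k).1)
    (h2 : ∀ k, (x k).1 = false → x k = x' k) : hash r x = hash r x' := by
  unfold hash
  refine sum_congr rfl fun k _ => ?_
  rw [b1_pmRank_congr h1 k, ← h1 k]
  by_cases h : (x k).1 = false
  · rw [h2 k h]
  · rw [if_neg (by tauto), if_neg (by tauto)]

theorem b1_card_few (b r : ℕ) (hr : 8 * r ≤ b) :
    ((univ.filter fun x : BS b => npm x < r).card : ℝ) ≤ 4 ^ b * Real.exp (-(b / 16 : ℝ)) := by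
  have h1 : ((univ.filter fun x : BS b => npm x < r).card : ℝ) ≤
      ∑ x : BS b, 2 ^ r * ∏ k, (if (x k).1 = false then (1 / 2 : ℝ) else 1) := by
    rw [card_filter]
    push_cast
    refine sum_le_sum fun x _ => ?_
    have h2 : (∏ k, (if (x k).1 = false then (1 / 2 : ℝ) else 1)) = (1 / 2) ^ npm x := by
      rw [prod_ite]
      simp [npm]
    rw [h2]
    split_ifs with h
    · have h3 : (2 : ℝ) ^ npm x * (1 / 2) ^ npm x = 1 := by
        rw [← mul_pow]; norm_num
      have h4 : (2 : ℝ) ^ npm x ≤ 2 ^ r := pow_le_pow_right₀ (by norm_num) h.le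
      have h5 := mul_le_mul_of_nonneg_right h4 (show (0 : ℝ) ≤ (1 / 2) ^ npm x by positivity)
      rw [h3] at h5
      exact h5
    · positivity
  have h2 : ∑ x : BS b, 2 ^ r * ∏ k, (if (x k).1 = false then (1 / 2 : ℝ) else 1) =
      2 ^ r * 3 ^ b := by
    rw [← mul_sum]
    congr 1
    have h3 := Finset.prod_univ_sum (fun _ : Fin b => (univ : Finset (Bool × Bool)))
      (fun _ z => if z.1 = false then (1 / 2 : ℝ) else 1)
    rw [Fintype.piFinset_univ] at h3
    rw [← h3]
    have h4 : (∑ z : Bool × Bool, if z.1 = false then (1 / 2 : ℝ) else 1) = 3 := by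
      rw [Fintype.sum_prod_type]
      norm_num
    rw [prod_congr rfl fun _ _ => h4]
    simp
  rw [h2] at h1
  refine h1.trans ?_
  have e1 : (2 : ℝ) ^ r ≤ Real.exp (b / 8) := by
    have h3 : (2 : ℝ) ≤ Real.exp 1 := by
      have := Real.add_one_le_exp (1 : ℝ)
      linarith
    calc (2 : ℝ) ^ r ≤ Real.exp 1 ^ r := pow_le_pow_left₀ (by norm_num) h3 r
      _ = Real.exp r := by rw [← Real.exp_nat_mul]; simp
      _ ≤ Real.exp (b / 8) := by
        apply Real.exp_le_exp.2
        have : (8 * r : ℝ) ≤ b := by exact_mod_cast hr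
        linarith
  have e2 : (3 : ℝ) ^ b ≤ 4 ^ b * Real.exp (-(b / 4)) := by
    have h3 : (3 : ℝ) ≤ 4 * Real.exp (-(1 / 4)) := by
      have := Real.add_one_le_exp (-(1 / 4) : ℝ)
      linarith
    calc (3 : ℝ) ^ b ≤ (4 * Real.exp (-(1 / 4))) ^ b := pow_le_pow_left₀ (by norm_num) h3 b
      _ = 4 ^ b * Real.exp (-(b / 4)) := by
        rw [mul_pow, ← Real.exp_nat_mul]
        congr 2
        ring
  calc (2 : ℝ) ^ r * 3 ^ b ≤ Real.exp (b / 8) * (4 ^ b * Real.exp (-(b / 4))) :=
        mul_le_mul e1 e2 (by positivity) (Real.exp_pos _).le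
    _ = 4 ^ b * Real.exp (b / 8 + -(b / 4)) := by rw [Real.exp_add]; ring
    _ ≤ 4 ^ b * Real.exp (-(b / 16)) := by
        apply mul_le_mul_of_nonneg_left _ (by positivity)
        apply Real.exp_le_exp.2
        have : (0 : ℝ) ≤ b := Nat.cast_nonneg b
        linarith

theorem b1_card_big (b m r : ℕ) (hm : 0 < m) :
    ((univ.filter fun x : BS b => r ≤ npm x ∧ m * (2 ^ r / m) ≤ hash r x).card : ℝ) ≤
      4 ^ b * (m / 2 ^ r) := by
  have h1 : ((univ.filter fun x : BS b => r ≤ npm x ∧ m * (2 ^ r / m) ≤ hash r x) ×ˢ
      range (2 ^ r)).card ≤ ((univ : Finset (BS b)) ×ˢ range m).card := by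
    refine card_le_card_of_injOn
      (fun z => (setHash r z.2 z.1, hash r z.1 - m * (2 ^ r / m))) ?_ ?_
    · rintro ⟨x, U⟩ hz
      simp only [coe_product, Set.mem_prod, coe_filter, mem_univ, true_and, Set.mem_ofPred_eq,
        mem_coe, mem_range] at hz
      simp only [coe_product, Set.mem_prod, mem_coe, mem_univ, true_and, mem_range]
      have h2 := b1_hash_lt r x
      have h3 := Nat.div_add_mod (2 ^ r) m
      have h4 := Nat.mod_lt (2 ^ r) hm
      omega
    · rintro ⟨x, U⟩ hz ⟨x', U'⟩ hz' h
      simp only [coe_product, Set.mem_prod, coe_filter, mem_univ, true_and, Set.mem_ofPred_eq,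
        mem_coe, mem_range] at hz hz'
      simp only [Prod.mk.injEq] at h
      have h2 : U = U' := by
        have h3 := b1_hash_setHash hz.1.1 hz.2
        have h4 := b1_hash_setHash hz'.1.1 hz'.2
        rw [← h3, ← h4, h.1]
      have h5 : hash r x = hash r x' := by omega
      have h6 : x = x' := by
        rw [← b1_setHash_hash r x, ← b1_setHash_setHash r U (hash r x) x, h.1, h5,
          b1_setHash_setHash, b1_setHash_hash]
      rw [h2, h6]
  rw [card_product, card_product, card_range, card_range, card_univ] at h1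
  have h2 : Fintype.card (BS b) = 4 ^ b := by simp [BS]
  rw [h2] at h1
  rw [← mul_div_assoc, le_div_iff₀ (by positivity)]
  exact_mod_cast h1

/-- B1: the number of frozen states -/
theorem card_frozen (b m r : ℕ) (hm : 0 < m) (hr : 8 * r ≤ b) :
    ((univ.filter fun x : BS b => frozen m r x).card : ℝ) ≤
      4 ^ b * (Real.exp (-(b / 16 : ℝ)) + m / 2 ^ r) := by
  have h1 : (univ.filter fun x : BS b => frozen m r x) ⊆
      (univ.filter fun x : BS b => npm x < r) ∪
        (univ.filter fun x : BS b => r ≤ npm x ∧ m * (2 ^ r / m) ≤ hash r x) := by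
    intro x hx
    have hx' : npm x < r ∨ m * (2 ^ r / m) ≤ hash r x := (mem_filter.1 hx).2
    simp only [mem_filter, mem_univ, true_and, mem_union]
    omega
  have h2 := (card_le_card h1).trans (card_union_le _ _)
  have h3 : ((univ.filter fun x : BS b => frozen m r x).card : ℝ) ≤
      ((univ.filter fun x : BS b => npm x < r).card : ℝ) +
        ((univ.filter fun x : BS b => r ≤ npm x ∧ m * (2 ^ r / m) ≤ hash r x).card : ℝ) := by
    exact_mod_cast h2
  rw [mul_add]
  exact h3.trans (add_le_add (b1_card_few b r hr) (b1_card_big b m r hm))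

end BLP
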