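import Pool.Agent.Lib.BLP.Word
import Pool.Agent.Lib.BLP.Hash

/-!
# Chunk B2: the chain decomposition of one block

The `N`-letters: `pdec` (file `Word`) for `K = b` one-letter chains on `Bool × Bool`:
`l (τ, v) = 1` if `τ` else `0`, `y (τ, v) = 1` if `τ ∧ ¬ v` else `0`.  With `p = PP`, `L = PP + QQ` of
this word, `u = noise`, the chain decomposition of the block has `y = p * m + u`,
`l = m * (L + 1) - 1`, `dec x t = setNoise m r (t % m) (the N-word decoded with target t / m)`
(`t` cut at `l`); for frozen blocks `y = l = 0`, `dec x t = x`.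
`lip` follows from `dcd_lip` with `η = 1` (N-letters) and at most `r` changed `PM` letters on
each side.
-/

namespace BLP

open Finset

variable {b : ℕ}

/-- the properties of the chain decomposition of a block -/
structure BlockSpec (b m r : ℕ) (C : Chain (BS b)) : Prop where
  frozen_dec : ∀ x t, frozen m r (C.dec x t) ↔ frozen m r x
  type_dec : ∀ x t k, (C.dec x t k).1 = (x k).1
  val_frozen : ∀ x, frozen m r x → C.y x = 0 ∧ C.l x = 0
  val : ∀ x, ¬ frozen m r x →
    (C.l x : ℤ) - 2 * C.y x = m * vsum x + (m - 1 - 2 * (noise m r x : ℤ))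
  pert : ∀ x x' k0, (∀ k ≠ k0, x' k = x k) → ¬ frozen m r x → ¬ frozen m r x' →
    |(C.y x' : ℤ) - C.y x| ≤ 20 * m ∧ |(C.l x' : ℤ) - C.l x| ≤ 20 * m
  lip : ∀ x x' k0 t t', (∀ k ≠ k0, x' k = x k) → ¬ frozen m r x → ¬ frozen m r x' →
    t ≤ C.l x → t' ≤ C.l x' →
    (m : ℤ) * (univ.filter fun k => C.dec x' t' k ≠ C.dec x t k).card ≤
      300 * (m * (r + 1) + |(t' : ℤ) - t|)

/-- B2: the one-letter chain -/
def b2LC : Chain (Bool × Bool) where
  y p := if p.1 = true ∧ p.2 = false then 1 else 0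
  l p := if p.1 = true then 1 else 0
  dec p t := if p.1 = true then (true, decide (t = 0)) else p
  y_le := by rintro ⟨a, c⟩; cases a <;> cases c <;> simp
  y_dec := by
    rintro ⟨a, c⟩ t
    cases a <;> cases c <;> rcases t with _ | t <;> simp
  l_dec := by
    rintro ⟨a, c⟩ t
    cases a <;> cases c <;> simp
  dec_dec := by
    rintro ⟨a, c⟩ t t'
    cases a <;> cases c <;> simp
  dec_y := by
    rintro ⟨a, c⟩
    cases a <;> cases c <;> simp

/-- B2: the chain of the `N`-word of a block -/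
noncomputable def b2NC (b : ℕ) : Chain (BS b) := preChain (fun _ => b2LC) b le_rfl

/-- B2: positions of the letters -/
noncomputable def b2y (x : BS b) : ℕ → ℕ := ys (fun _ => b2LC) x
/-- B2: lengths of the letters -/
noncomputable def b2l (x : BS b) : ℕ → ℕ := ls (fun _ => b2LC) x

theorem b2y_lt (x : BS b) {g : ℕ} (h : g < b) : b2y x g = b2LC.y (x ⟨g, h⟩) := by
  unfold b2y ys; rw [dif_pos h]

theorem b2l_lt (x : BS b) {g : ℕ} (h : g < b) : b2l x g = b2LC.l (x ⟨g, h⟩) := by
  unfold b2l ls; rw [dif_pos h]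

theorem b2y_le_l (x : BS b) (g : ℕ) : b2y x g ≤ b2l x g := ys_le _ x g

theorem b2NC_y (x : BS b) : (b2NC b).y x = PP (b2y x) (b2l x) b := rfl
theorem b2NC_l (x : BS b) : (b2NC b).l x = PP (b2y x) (b2l x) b + QQ (b2y x) (b2l x) b := rfl

theorem b2NC_dec (x : BS b) (T : ℕ) (k : Fin b) : (b2NC b).dec x T k =
    b2LC.dec (x k) (dcd (b2y x) (b2l x) b (min T ((b2NC b).l x)) k) := by
  show pdec (fun _ => b2LC) b x T k = _
  unfold pdec
  rw [if_pos k.2]
  rfl

theorem b2LC_dec_fst (p : Bool × Bool) (t : ℕ) : (b2LC.dec p t).1 = p.1 := by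
  rcases p with ⟨a, c⟩
  cases a <;> simp [b2LC]

theorem b2LC_dec_false (p : Bool × Bool) (h : p.1 = false) (t : ℕ) : b2LC.dec p t = p := by
  rcases p with ⟨a, c⟩
  simp only at h
  subst h
  simp [b2LC]

theorem b2NC_fst (x : BS b) (T : ℕ) (k : Fin b) : ((b2NC b).dec x T k).1 = (x k).1 := by
  rw [b2NC_dec, b2LC_dec_fst]

theorem b2NC_false (x : BS b) (T : ℕ) (k : Fin b) (h : (x k).1 = false) :
    (b2NC b).dec x T k = x k := by
  rw [b2NC_dec, b2LC_dec_false _ h]

theorem b2_pmRank {x x' : BS b} (h1 : ∀ k, (x k).1 = (x' k).1) (k : Fin b) :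
    pmRank x k = pmRank x' k := by
  unfold pmRank
  simp only [h1]

theorem b2_npm {x x' : BS b} (h1 : ∀ k, (x k).1 = (x' k).1) : npm x = npm x' := by
  unfold npm
  simp only [h1]

theorem b2NC_hash (r : ℕ) (x : BS b) (T : ℕ) : hash r ((b2NC b).dec x T) = hash r x :=
  hash_congr r _ _ (fun k => b2NC_fst x T k)
    (fun k hk => b2NC_false x T k (by rw [← b2NC_fst x T k]; exact hk))

theorem b2NC_frozen (m r : ℕ) (x : BS b) (T : ℕ) :
    frozen m r ((b2NC b).dec x T) ↔ frozen m r x := by
  unfold frozen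
  rw [b2NC_hash, b2_npm (fun k => b2NC_fst x T k)]

theorem b2NC_noise (m r : ℕ) (x : BS b) (T : ℕ) :
    noise m r ((b2NC b).dec x T) = noise m r x := by
  unfold noise
  rw [b2NC_hash]

/-- B2: the letters only depend on the types and on the `N`-letters -/
theorem b2_congr {x x' : BS b} (h1 : ∀ k, (x k).1 = (x' k).1)
    (h2 : ∀ k, (x k).1 = true → x k = x' k) : b2y x = b2y x' ∧ b2l x = b2l x' := by
  constructor
  · funext g
    by_cases hg : g < b
    · rw [b2y_lt _ hg, b2y_lt _ hg]
      by_cases h : (x ⟨g, hg⟩).1 = true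
      · rw [h2 _ h]
      · have h' : (x ⟨g, hg⟩).1 = false := by simpa using h
        have h'' : (x' ⟨g, hg⟩).1 = false := by rw [← h1]; exact h'
        simp [b2LC, h', h'']
    · simp [b2y, ys, hg]
  · funext g
    by_cases hg : g < b
    · rw [b2l_lt _ hg, b2l_lt _ hg]
      simp [b2LC, h1]
    · simp [b2l, ls, hg]

theorem b2_setNoise_fst (m r a : ℕ) (x : BS b) (k : Fin b) :
    (setNoise m r a x k).1 = (x k).1 := by
  unfold setNoise setHash
  by_cases h : (x k).1 = false ∧ pmRank x k < r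
  · rw [if_pos h, h.1]
  · rw [if_neg h]

theorem b2_setNoise_true (m r a : ℕ) (x : BS b) (k : Fin b) (hk : (x k).1 = true) :
    setNoise m r a x k = x k := by
  unfold setNoise setHash
  rw [if_neg]
  rintro ⟨h, _⟩
  rw [hk] at h
  exact absurd h (by simp)

theorem b2_setNoise_letters (m r a : ℕ) (x : BS b) :
    b2y (setNoise m r a x) = b2y x ∧ b2l (setNoise m r a x) = b2l x :=
  b2_congr (fun k => b2_setNoise_fst m r a x k)
    (fun k hk => b2_setNoise_true m r a x k (by rw [← b2_setNoise_fst m r a x k]; exact hk))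

theorem b2_y_setNoise (m r a : ℕ) (x : BS b) :
    (b2NC b).y (setNoise m r a x) = (b2NC b).y x := by
  rw [b2NC_y, b2NC_y, (b2_setNoise_letters m r a x).1, (b2_setNoise_letters m r a x).2]

theorem b2_l_setNoise (m r a : ℕ) (x : BS b) :
    (b2NC b).l (setNoise m r a x) = (b2NC b).l x := by
  rw [b2NC_l, b2NC_l, (b2_setNoise_letters m r a x).1, (b2_setNoise_letters m r a x).2]

/-- B2: decoding of the `N`-word commutes with setting the noise -/
theorem b2_comm (m r a : ℕ) (x : BS b) (T : ℕ) :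
    (b2NC b).dec (setNoise m r a x) T = setNoise m r a ((b2NC b).dec x T) := by
  funext k
  by_cases hk : (x k).1 = true
  · have h1 : ((b2NC b).dec x T k).1 = true := by rw [b2NC_fst]; exact hk
    rw [b2_setNoise_true m r a _ k h1, b2NC_dec, b2NC_dec, b2_l_setNoise,
      (b2_setNoise_letters m r a x).1, (b2_setNoise_letters m r a x).2,
      b2_setNoise_true m r a x k hk]
  · have hk' : (x k).1 = false := by simpa using hk
    have h1 : (setNoise m r a x k).1 = false := by rw [b2_setNoise_fst]; exact hk'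
    rw [b2NC_false _ _ _ h1]
    unfold setNoise setHash
    rw [b2NC_hash, b2_pmRank (x := (b2NC b).dec x T) (x' := x) (fun k => b2NC_fst x T k),
      b2NC_fst, b2NC_false x T k hk']

/-- B2: the length of the chain of a block -/
noncomputable def b2len (m r : ℕ) (x : BS b) : ℕ :=
  if frozen m r x then 0 else m * ((b2NC b).l x + 1) - 1

theorem b2len_of {m r : ℕ} {x : BS b} (h : ¬ frozen m r x) :
    b2len m r x = m * ((b2NC b).l x + 1) - 1 := by
  unfold b2len; rw [if_neg h]

theorem b2_div_le {m L t : ℕ} (hm : 0 < m) (ht : t ≤ m * (L + 1) - 1) : t / m ≤ L := by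
  have h1 : t < m * (L + 1) := by
    have : 0 < m * (L + 1) := Nat.mul_pos hm (Nat.succ_pos L)
    omega
  have h2 : t / m < L + 1 := Nat.div_lt_of_lt_mul h1
  omega

/-- B2: the chain of a block -/
noncomputable def b2C (b m r : ℕ) (hm : 0 < m) : Chain (BS b) where
  y x := if frozen m r x then 0 else (b2NC b).y x * m + noise m r x
  l x := b2len m r x
  dec x t := if frozen m r x then x else
    setNoise m r (min t (b2len m r x) % m) ((b2NC b).dec x (min t (b2len m r x) / m))
  y_le := by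
    intro x
    unfold b2len
    by_cases h : frozen m r x
    · simp [h]
    · rw [if_neg h, if_neg h]
      have h1 := (b2NC b).y_le x
      have h2 : noise m r x < m := Nat.mod_lt _ hm
      have h3 : (b2NC b).y x * m ≤ (b2NC b).l x * m := Nat.mul_le_mul_right m h1
      have h4 : m * ((b2NC b).l x + 1) = (b2NC b).l x * m + m := by ring
      omega
  y_dec := by
    intro x t
    by_cases h : frozen m r x
    · have h1 : b2len m r x = 0 := by unfold b2len; rw [if_pos h]
      simp [h, h1]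
    · have hlen : b2len m r x = m * ((b2NC b).l x + 1) - 1 := by unfold b2len; rw [if_neg h]
      have ht : min t (b2len m r x) ≤ m * ((b2NC b).l x + 1) - 1 := by
        rw [← hlen]; exact min_le_right _ _
      have h1 : ¬ frozen m r ((b2NC b).dec x (min t (b2len m r x) / m)) := by
        rw [b2NC_frozen]; exact h
      have h2 := noise_spec b m r hm _ h1 (min t (b2len m r x) % m) (Nat.mod_lt _ hm)
      rw [if_neg h, if_neg h2.1, b2_y_setNoise, h2.2.1, (b2NC b).y_dec,
        min_eq_left (b2_div_le hm ht)]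
      exact Nat.div_add_mod' _ _
  l_dec := by
    intro x t
    by_cases h : frozen m r x
    · simp [h]
    · have h1 : ¬ frozen m r ((b2NC b).dec x (min t (b2len m r x) / m)) := by
        rw [b2NC_frozen]; exact h
      have h2 := noise_spec b m r hm _ h1 (min t (b2len m r x) % m) (Nat.mod_lt _ hm)
      rw [if_neg h, b2len_of h2.1, b2_l_setNoise, (b2NC b).l_dec, b2len_of h]
  dec_dec := by
    intro x t t'
    by_cases h : frozen m r x
    · simp [h]
    · have h1 : ¬ frozen m r ((b2NC b).dec x (min t (b2len m r x) / m)) := by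
        rw [b2NC_frozen]; exact h
      have h2 := noise_spec b m r hm _ h1 (min t (b2len m r x) % m) (Nat.mod_lt _ hm)
      have hl : b2len m r (setNoise m r (min t (b2len m r x) % m)
          ((b2NC b).dec x (min t (b2len m r x) / m))) = b2len m r x := by
        rw [b2len_of h2.1, b2_l_setNoise, (b2NC b).l_dec, b2len_of h]
      rw [if_neg h, if_neg h2.1, if_neg h, hl, b2_comm, (b2NC b).dec_dec]
      have h3 : ¬ frozen m r ((b2NC b).dec x (min t' (b2len m r x) / m)) := by
        rw [b2NC_frozen]; exact h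
      exact (noise_spec b m r hm _ h3 (min t (b2len m r x) % m) (Nat.mod_lt _ hm)).2.2.1 _
        (Nat.mod_lt _ hm)
  dec_y := by
    intro x
    by_cases h : frozen m r x
    · simp [h]
    · have hn : noise m r x < m := Nat.mod_lt _ hm
      have hle : (b2NC b).y x * m + noise m r x ≤ b2len m r x := by
        unfold b2len
        rw [if_neg h]
        have h1 := (b2NC b).y_le x
        have h3 : (b2NC b).y x * m ≤ (b2NC b).l x * m := Nat.mul_le_mul_right m h1
        have h4 : m * ((b2NC b).l x + 1) = (b2NC b).l x * m + m := by ring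
        omega
      rw [if_neg h, if_neg h, min_eq_left hle]
      have h5 : ((b2NC b).y x * m + noise m r x) % m = noise m r x := by
        rw [Nat.add_comm, Nat.add_mul_mod_self_right, Nat.mod_eq_of_lt hn]
      have h6 : ((b2NC b).y x * m + noise m r x) / m = (b2NC b).y x := by
        rw [Nat.add_comm, Nat.add_mul_div_right _ _ hm, Nat.div_eq_of_lt hn, Nat.zero_add]
      rw [h5, h6, (b2NC b).dec_y]
      exact (noise_spec b m r hm x h 0 hm).2.2.2.1

theorem b2_vsum (x : BS b) : ((b2NC b).l x : ℤ) - 2 * (b2NC b).y x = vsum x := by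
  have h := zz_eq (K := b) (fun _ => b2LC) x
  unfold zz at h
  have h1 : ((b2NC b).l x : ℤ) - 2 * (b2NC b).y x =
      (QQ (b2y x) (b2l x) b : ℤ) - PP (b2y x) (b2l x) b := by
    rw [b2NC_l, b2NC_y]; push_cast; ring
  rw [h1]
  refine Eq.trans h ?_
  unfold vsum
  refine Finset.sum_congr rfl fun k _ => ?_
  rcases hx : x k with ⟨a, c⟩
  cases a <;> cases c <;> simp [b2LC]

/-- B2: change of the letters of the word -/
theorem b2_letters {x x' : BS b} {k0 : Fin b} (h : ∀ k ≠ k0, x' k = x k) :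
    (∀ g < b, g ≠ (k0 : ℕ) → b2y x' g = b2y x g) ∧
    (∀ g < b, g ≠ (k0 : ℕ) → b2l x' g = b2l x g) ∧
    |(b2y x' k0 : ℤ) - b2y x k0| ≤ (1 : ℕ) ∧ |(b2l x' k0 : ℤ) - b2l x k0| ≤ (1 : ℕ) := by
  refine ⟨?_, ?_, ?_, ?_⟩
  · intro g hg hne
    rw [b2y_lt _ hg, b2y_lt _ hg, h ⟨g, hg⟩ (fun e => hne (by rw [← e]))]
  · intro g hg hne
    rw [b2l_lt _ hg, b2l_lt _ hg, h ⟨g, hg⟩ (fun e => hne (by rw [← e]))]
  · rw [b2y_lt _ k0.2, b2y_lt _ k0.2]
    rcases x' ⟨k0, k0.2⟩ with ⟨a, c⟩
    rcases x ⟨k0, k0.2⟩ with ⟨a', c'⟩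
    cases a <;> cases c <;> cases a' <;> cases c' <;> simp [b2LC]
  · rw [b2l_lt _ k0.2, b2l_lt _ k0.2]
    rcases x' ⟨k0, k0.2⟩ with ⟨a, c⟩
    rcases x ⟨k0, k0.2⟩ with ⟨a', c'⟩
    cases a <;> cases c <;> cases a' <;> cases c' <;> simp [b2LC]

theorem b2_sq_div {m t t' : ℕ} (hm : 0 < m) :
    (m : ℤ) * |((t' / m : ℕ) : ℤ) - ((t / m : ℕ) : ℤ)| ≤ |(t' : ℤ) - t| + m := by
  have h1 := Nat.div_add_mod t m
  have h2 := Nat.div_add_mod t' m
  have h3 : t % m < m := Nat.mod_lt _ hm
  have h4 : t' % m < m := Nat.mod_lt _ hm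
  have h5 : (m : ℤ) * ((t' / m : ℕ) : ℤ) + ((t' % m : ℕ) : ℤ) = (t' : ℤ) := by exact_mod_cast h2
  have h6 : (m : ℤ) * ((t / m : ℕ) : ℤ) + ((t % m : ℕ) : ℤ) = (t : ℤ) := by exact_mod_cast h1
  have h7 : ((t % m : ℕ) : ℤ) < m := by exact_mod_cast h3
  have h8 : ((t' % m : ℕ) : ℤ) < m := by exact_mod_cast h4
  have h9 : (0 : ℤ) ≤ ((t % m : ℕ) : ℤ) := Int.natCast_nonneg _
  have h10 : (0 : ℤ) ≤ ((t' % m : ℕ) : ℤ) := Int.natCast_nonneg _
  have hm' : (0 : ℤ) ≤ (m : ℤ) := Int.natCast_nonneg _
  rw [← abs_of_nonneg hm', ← abs_mul, abs_of_nonneg hm', mul_sub]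
  have e : (m : ℤ) * ((t' / m : ℕ) : ℤ) - (m : ℤ) * ((t / m : ℕ) : ℤ) =
      ((t' : ℤ) - t) - (((t' % m : ℕ) : ℤ) - ((t % m : ℕ) : ℤ)) := by linarith
  rw [e]
  have h11 := abs_sub ((t' : ℤ) - t) (((t' % m : ℕ) : ℤ) - ((t % m : ℕ) : ℤ))
  have h12 : |((t' % m : ℕ) : ℤ) - ((t % m : ℕ) : ℤ)| ≤ m := by
    rw [abs_le]; constructor <;> linarith
  linarith

/-- B2: number of letters that are changed by the decoding of the `N`-word -/
theorem b2_count {x x' : BS b} {k0 : Fin b} (h : ∀ k ≠ k0, x' k = x k) {T T' : ℕ}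
    (hT : T ≤ (b2NC b).l x) (hT' : T' ≤ (b2NC b).l x') :
    ((univ.filter fun k => (b2NC b).dec x' T' k ≠ (b2NC b).dec x T k).card : ℤ) ≤
      1 + 100 * (1 + |(T' : ℤ) - T|) := by
  obtain ⟨h1, h2, h3, h4⟩ := b2_letters h
  have hlip := dcd_lip (b2y x) (b2l x) (b2y x') (b2l x') b T T' k0 1
    (fun g _ => b2y_le_l x g) (fun g _ => b2y_le_l x' g) k0.2 h1 h2 h3 h4 hT hT'
  have hsub : (univ.filter fun k => (b2NC b).dec x' T' k ≠ (b2NC b).dec x T k) ⊆
      insert k0 (univ.filter fun k : Fin b => dcd (b2y x') (b2l x') b T' k ≠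
        dcd (b2y x) (b2l x) b T k) := by
    intro k hk
    rw [mem_filter] at hk
    rw [mem_insert, mem_filter]
    by_cases hkk : k = k0
    · exact Or.inl hkk
    · right
      refine ⟨mem_univ _, fun e => hk.2 ?_⟩
      rw [b2NC_dec, b2NC_dec, min_eq_left hT, min_eq_left hT', h k hkk, e]
  have hc : ((univ.filter fun k : Fin b => dcd (b2y x') (b2l x') b T' k ≠
      dcd (b2y x) (b2l x) b T k).card : ℤ) ≤
      ∑ g ∈ range b, |(dcd (b2y x') (b2l x') b T' g : ℤ) - dcd (b2y x) (b2l x) b T g| := by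
    rw [← Fin.sum_univ_eq_sum_range (fun g =>
      |(dcd (b2y x') (b2l x') b T' g : ℤ) - dcd (b2y x) (b2l x) b T g|) b]
    rw [Finset.card_filter]
    push_cast
    refine Finset.sum_le_sum fun k _ => ?_
    split_ifs with hne
    · have : (dcd (b2y x') (b2l x') b T' k : ℤ) - dcd (b2y x) (b2l x) b T k ≠ 0 := by
        intro e
        apply hne
        have : (dcd (b2y x') (b2l x') b T' k : ℤ) = dcd (b2y x) (b2l x) b T k := by linarith
        exact_mod_cast this
      exact Int.one_le_abs this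
    · exact abs_nonneg _
  have hcard := (Finset.card_le_card hsub).trans (Finset.card_insert_le _ _)
  have hcard' : ((univ.filter fun k => (b2NC b).dec x' T' k ≠ (b2NC b).dec x T k).card : ℤ) ≤
      ((univ.filter fun k : Fin b => dcd (b2y x') (b2l x') b T' k ≠
        dcd (b2y x) (b2l x) b T k).card : ℤ) + 1 := by exact_mod_cast hcard
  push_cast at hlip
  linarith

/-- B2 -/
theorem exists_block (b m r : ℕ) (hm : 0 < m) (hr : m ≤ 2 ^ r) :
    ∃ C : Chain (BS b), BlockSpec b m r C := by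
  have _ := hr
  refine ⟨b2C b m r hm, ?_, ?_, ?_, ?_, ?_, ?_⟩
  · intro x t
    show frozen m r (if frozen m r x then x else _) ↔ _
    by_cases h : frozen m r x
    · rw [if_pos h]
    · rw [if_neg h]
      have h1 : ¬ frozen m r ((b2NC b).dec x (min t (b2len m r x) / m)) := by
        rw [b2NC_frozen]; exact h
      have h2 := noise_spec b m r hm _ h1 (min t (b2len m r x) % m) (Nat.mod_lt _ hm)
      exact iff_of_false h2.1 h
  · intro x t k
    show ((if frozen m r x then x else _ : BS b) k).1 = _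
    by_cases h : frozen m r x
    · rw [if_pos h]
    · rw [if_neg h, b2_setNoise_fst, b2NC_fst]
  · intro x h
    constructor
    · show (if frozen m r x then 0 else _) = 0
      rw [if_pos h]
    · show b2len m r x = 0
      unfold b2len; rw [if_pos h]
  · intro x h
    show ((b2len m r x : ℕ) : ℤ) -
      2 * ((if frozen m r x then 0 else (b2NC b).y x * m + noise m r x : ℕ) : ℤ) = _
    rw [if_neg h, b2len_of h, ← b2_vsum]
    have h1 : 1 ≤ m * ((b2NC b).l x + 1) := Nat.mul_pos hm (Nat.succ_pos _)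
    rw [Nat.cast_sub h1]
    push_cast
    ring
  · intro x x' k0 hx h h'
    obtain ⟨h1, h2, h3, h4⟩ := b2_letters hx
    have hlip := PQ_lip (b2y x) (b2l x) (b2y x') (b2l x') b k0 1
      (fun g _ => b2y_le_l x g) (fun g _ => b2y_le_l x' g) k0.2 h1 h2 h3 h4
    rw [← b2NC_y, ← b2NC_y] at hlip
    have hl : |((b2NC b).l x' : ℤ) - (b2NC b).l x| ≤ 20 := by
      rw [b2NC_l, b2NC_l]
      push_cast
      have ha := hlip.1
      rw [b2NC_y, b2NC_y] at ha
      have hb := hlip.2
      rw [abs_le] at ha hb ⊢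
      push_cast at ha hb
      constructor <;> linarith [ha.1, ha.2, hb.1, hb.2]
    have hy := hlip.1
    have hmz : (0 : ℤ) ≤ m := Int.natCast_nonneg _
    have hn : noise m r x < m := Nat.mod_lt _ hm
    have hn' : noise m r x' < m := Nat.mod_lt _ hm
    have hnz : (noise m r x : ℤ) < m := by exact_mod_cast hn
    have hnz' : (noise m r x' : ℤ) < m := by exact_mod_cast hn'
    have hn0 : (0 : ℤ) ≤ noise m r x := Int.natCast_nonneg _
    have hn0' : (0 : ℤ) ≤ noise m r x' := Int.natCast_nonneg _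
    constructor
    · show |((if frozen m r x' then 0 else (b2NC b).y x' * m + noise m r x' : ℕ) : ℤ) -
        ((if frozen m r x then 0 else (b2NC b).y x * m + noise m r x : ℕ) : ℤ)| ≤ _
      rw [if_neg h, if_neg h']
      push_cast
      push_cast at hy
      rw [abs_le] at hy ⊢
      have e1 := mul_le_mul_of_nonneg_right hy.2 hmz
      have e2 := mul_le_mul_of_nonneg_right hy.1 hmz
      constructor <;> nlinarith
    · show |((b2len m r x' : ℕ) : ℤ) - ((b2len m r x : ℕ) : ℤ)| ≤ _
      rw [b2len_of h, b2len_of h']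
      have g1 : 1 ≤ m * ((b2NC b).l x + 1) := Nat.mul_pos hm (Nat.succ_pos _)
      have g2 : 1 ≤ m * ((b2NC b).l x' + 1) := Nat.mul_pos hm (Nat.succ_pos _)
      rw [Nat.cast_sub g1, Nat.cast_sub g2]
      push_cast
      rw [abs_le] at hl ⊢
      have e1 := mul_le_mul_of_nonneg_left hl.2 hmz
      have e2 := mul_le_mul_of_nonneg_left hl.1 hmz
      constructor <;> nlinarith
  · intro x x' k0 t t' hx h h' ht ht'
    have ht1 : t ≤ b2len m r x := ht
    have ht1' : t' ≤ b2len m r x' := ht'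
    have hdec : (b2C b m r hm).dec x t = setNoise m r (t % m) ((b2NC b).dec x (t / m)) := by
      show (if frozen m r x then x else _) = _
      rw [if_neg h, min_eq_left ht1]
    have hdec' : (b2C b m r hm).dec x' t' = setNoise m r (t' % m) ((b2NC b).dec x' (t' / m)) := by
      show (if frozen m r x' then x' else _) = _
      rw [if_neg h', min_eq_left ht1']
    rw [hdec, hdec']
    have hT : t / m ≤ (b2NC b).l x := b2_div_le hm (by rw [← b2len_of h]; exact ht1)
    have hT' : t' / m ≤ (b2NC b).l x' := b2_div_le hm (by rw [← b2len_of h']; exact ht1')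
    have hcnt := b2_count hx hT hT'
    have f1 : ¬ frozen m r ((b2NC b).dec x (t / m)) := by rw [b2NC_frozen]; exact h
    have f1' : ¬ frozen m r ((b2NC b).dec x' (t' / m)) := by rw [b2NC_frozen]; exact h'
    have g1 := (noise_spec b m r hm _ f1 (t % m) (Nat.mod_lt _ hm)).2.2.2.2.2.2
    have g1' := (noise_spec b m r hm _ f1' (t' % m) (Nat.mod_lt _ hm)).2.2.2.2.2.2
    have hsub : (univ.filter fun k => setNoise m r (t' % m) ((b2NC b).dec x' (t' / m)) k ≠
        setNoise m r (t % m) ((b2NC b).dec x (t / m)) k) ⊆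
        (univ.filter fun k => setNoise m r (t % m) ((b2NC b).dec x (t / m)) k ≠
          (b2NC b).dec x (t / m) k) ∪
        ((univ.filter fun k => setNoise m r (t' % m) ((b2NC b).dec x' (t' / m)) k ≠
          (b2NC b).dec x' (t' / m) k) ∪
        (univ.filter fun k => (b2NC b).dec x' (t' / m) k ≠ (b2NC b).dec x (t / m) k)) := by
      intro k hk
      simp only [mem_union, mem_filter, mem_univ, true_and] at hk ⊢
      by_contra hcon
      simp only [not_or, not_not] at hcon
      apply hk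
      rw [hcon.1, hcon.2.1, hcon.2.2]
    have hcard := (Finset.card_le_card hsub).trans ((Finset.card_union_le _ _).trans
      (Nat.add_le_add_left (Finset.card_union_le _ _) _))
    have hcard' : ((univ.filter fun k => setNoise m r (t' % m) ((b2NC b).dec x' (t' / m)) k ≠
        setNoise m r (t % m) ((b2NC b).dec x (t / m)) k).card : ℤ) ≤
        r + (r + (1 + 100 * (1 + |((t' / m : ℕ) : ℤ) - ((t / m : ℕ) : ℤ)|))) := by
      have i1 : ((univ.filter fun k => setNoise m r (t % m) ((b2NC b).dec x (t / m)) k ≠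
          (b2NC b).dec x (t / m) k).card : ℤ) ≤ r := by exact_mod_cast g1
      have i2 : ((univ.filter fun k => setNoise m r (t' % m) ((b2NC b).dec x' (t' / m)) k ≠
          (b2NC b).dec x' (t' / m) k).card : ℤ) ≤ r := by exact_mod_cast g1'
      have i3 : ((univ.filter fun k => setNoise m r (t' % m) ((b2NC b).dec x' (t' / m)) k ≠
          setNoise m r (t % m) ((b2NC b).dec x (t / m)) k).card : ℤ) ≤ _ :=
        Int.ofNat_le.2 hcard
      push_cast at i3
      linarith
    have hmz : (0 : ℤ) ≤ m := Int.natCast_nonneg _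
    have hrz : (0 : ℤ) ≤ r := Int.natCast_nonneg _
    have h5 := b2_sq_div (t := t) (t' := t') hm
    have h6 := mul_le_mul_of_nonneg_left hcard' hmz
    have h7 : (0 : ℤ) ≤ |(t' : ℤ) - t| := abs_nonneg _
    have h8 : (0 : ℤ) ≤ (m : ℤ) * r := mul_nonneg hmz hrz
    refine h6.trans ?_
    nlinarith

end BLP
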