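import Pool.Agent.Lib.BLP.LevD
import Pool.Agent.Lib.BLP.Conc1

/-!
# Chunk L23: lacunary weights, reduction to few levels

L3: if there are more than `M = 8 * clog + 16` levels keep the `M` largest ones (`a' = 0` on the
others), `v = (n + 1) * 2 ^ (min level kept)`; take one weight of every third level.
-/

namespace BLP

open Finset

theorem L23_geo : ∀ (k : ℕ) (b : Fin k → ℝ), (∀ p, 0 ≤ b p) → (∀ p q, p < q → 4 * b q ≤ b p) →
    ∀ p, ∑ q ∈ Finset.Ioi p, b q ≤ b p / 3 := by
  intro k b hb hlac p
  cases k with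
  | zero => exact p.elim0
  | succ k =>
    induction p using Fin.reverseInduction with
    | last =>
      have : Finset.Ioi (Fin.last k) = ∅ := by
        ext q
        simp only [Finset.mem_Ioi, Finset.notMem_empty, iff_false, not_lt]
        exact Fin.le_last q
      rw [this, Finset.sum_empty]
      linarith [hb (Fin.last k)]
    | cast i ih =>
      have h1 : Finset.Ioi i.castSucc = insert i.succ (Finset.Ioi i.succ) := by
        ext q
        simp only [Finset.mem_Ioi, Finset.mem_insert, Fin.lt_def, Fin.ext_iff, Fin.val_castSucc,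
          Fin.val_succ]
        omega
      rw [h1, Finset.sum_insert (by simp)]
      have h2 := hlac i.castSucc i.succ (by simp [Fin.lt_def])
      linarith

theorem L23_sg_ne {p q : Bool} (h : p ≠ q) : |sg p - sg q| = 2 := by
  cases p <;> cases q <;> simp [sg] at h ⊢ <;> norm_num

theorem L23_sg_le (p q : Bool) : |sg p - sg q| ≤ 2 := by
  cases p <;> cases q <;> simp [sg] <;> norm_num

/-- L2: lacunary weights -/
theorem lacunary {n : ℕ} (a : Fin n → ℝ) (k : ℕ) (j : Fin k → Fin n)
    (hj : ∀ p q : Fin k, p < q → 4 * |a (j q)| ≤ |a (j p)|) (v : ℝ)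
    (hv : ∀ p, 2 * v ≤ |a (j p)|) (hv0 : 0 < v) (c : ℝ) :
    ∑ x : Fin n → Bool, ind (|lin a x - c| ≤ v) ≤ 2 ^ n / 2 ^ k := by
  classical
  have hjlt : ∀ p q : Fin k, p < q → j p ≠ j q := by
    intro p q hpq he
    have h1 := hj p q hpq
    rw [he] at h1
    have h2 := hv q
    linarith
  have hjinj : Function.Injective j := by
    intro p q he
    rcases lt_trichotomy p q with h | h | h
    · exact absurd he (hjlt p q h)
    · exact h
    · exact absurd he.symm (hjlt q p h)
  have hgeo := L23_geo k (fun p => |a (j p)|) (fun p => abs_nonneg _) hj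
  -- uniqueness
  have huniq : ∀ x x' : Fin n → Bool, |lin a x - c| ≤ v → |lin a x' - c| ≤ v →
      (∀ i, i ∉ Set.range j → x i = x' i) → x = x' := by
    intro x x' hx hx' hag
    by_contra hne
    have h1 : ∃ p, x (j p) ≠ x' (j p) := by
      by_contra hcon
      push Not at hcon
      apply hne
      funext i
      by_cases hi : i ∈ Set.range j
      · obtain ⟨p, rfl⟩ := hi
        exact hcon p
      · exact hag i hi
    obtain ⟨p₀, hp₀, hmin⟩ : ∃ p₀, x (j p₀) ≠ x' (j p₀) ∧ ∀ q < p₀, x (j q) = x' (j q) := by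
      obtain ⟨p, hp, hpm⟩ := WellFounded.has_min (wellFounded_lt (α := Fin k))
        {p | x (j p) ≠ x' (j p)} h1
      refine ⟨p, hp, fun q hq => ?_⟩
      by_contra hcon
      exact hpm q hcon hq
    have h2 : lin a x - lin a x' = ∑ p, a (j p) * (sg (x (j p)) - sg (x' (j p))) := by
      unfold lin
      rw [← Finset.sum_sub_distrib]
      have h3 : ∑ p, a (j p) * (sg (x (j p)) - sg (x' (j p))) =
          ∑ i ∈ Finset.univ.image j, a i * (sg (x i) - sg (x' i)) := by
        rw [Finset.sum_image (fun p _ q _ h => hjinj h)]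
      rw [h3]
      symm
      rw [Finset.sum_subset (Finset.subset_univ (Finset.univ.image j))]
      · exact Finset.sum_congr rfl fun i _ => by ring
      · intro i _ hi
        have : i ∉ Set.range j := by
          rintro ⟨p, hp⟩
          exact hi (Finset.mem_image.2 ⟨p, Finset.mem_univ _, hp⟩)
        rw [hag i this]
        ring
    set d : Fin k → ℝ := fun p => a (j p) * (sg (x (j p)) - sg (x' (j p))) with hd
    have h4 : ∑ p, d p = d p₀ + ∑ p ∈ Finset.Ioi p₀, d p := by
      rw [← Finset.add_sum_erase _ _ (Finset.mem_univ p₀)]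
      congr 1
      symm
      apply Finset.sum_subset
      · intro q hq
        rw [Finset.mem_Ioi] at hq
        exact Finset.mem_erase.2 ⟨hq.ne', Finset.mem_univ _⟩
      · intro q hq hq'
        rw [Finset.mem_erase] at hq
        rw [Finset.mem_Ioi, not_lt] at hq'
        have : q < p₀ := lt_of_le_of_ne hq' hq.1
        simp [hd, hmin q this]
    have h5 : |∑ p ∈ Finset.Ioi p₀, d p| ≤ 2 * (|a (j p₀)| / 3) := by
      refine (Finset.abs_sum_le_sum_abs _ _).trans ?_
      calc ∑ p ∈ Finset.Ioi p₀, |d p| ≤ ∑ p ∈ Finset.Ioi p₀, 2 * |a (j p)| := by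
            refine Finset.sum_le_sum fun p _ => ?_
            rw [hd]
            simp only [abs_mul]
            nlinarith [L23_sg_le (x (j p)) (x' (j p)), abs_nonneg (a (j p))]
        _ = 2 * ∑ p ∈ Finset.Ioi p₀, |a (j p)| := by rw [Finset.mul_sum]
        _ ≤ 2 * (|a (j p₀)| / 3) := by
            have := hgeo p₀
            linarith
    have h6 : |d p₀| = 2 * |a (j p₀)| := by
      rw [hd]
      simp only [abs_mul, L23_sg_ne hp₀]
      ring
    have h7 : |lin a x - lin a x'| ≤ 2 * v := by
      have : lin a x - lin a x' = (lin a x - c) - (lin a x' - c) := by ring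
      rw [this]
      refine (abs_sub _ _).trans ?_
      linarith
    rw [h2, h4] at h7
    have h8 : |d p₀| ≤ |d p₀ + ∑ p ∈ Finset.Ioi p₀, d p| + |∑ p ∈ Finset.Ioi p₀, d p| := by
      have : d p₀ = (d p₀ + ∑ p ∈ Finset.Ioi p₀, d p) - ∑ p ∈ Finset.Ioi p₀, d p := by ring
      conv_lhs => rw [this]
      exact abs_sub _ _
    have h9 := hv p₀
    linarith
  -- counting
  have hkn : k ≤ n := by
    have := Fintype.card_le_of_injective j hjinj
    simpa using this
  rw [sum_ind]
  have hcard : (Finset.univ.filter fun x : Fin n → Bool => |lin a x - c| ≤ v).card ≤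
      Fintype.card ({i // i ∉ Set.range j} → Bool) := by
    rw [← Finset.card_univ]
    refine Finset.card_le_card_of_injOn (fun x i => x i.1) (fun _ _ => Finset.mem_univ _) ?_
    intro x hx x' hx' he
    rw [Finset.mem_coe, Finset.mem_filter] at hx hx'
    refine huniq x x' hx.2 hx'.2 fun i hi => ?_
    exact congrFun he ⟨i, hi⟩
  have hcard2 : Fintype.card ({i // i ∉ Set.range j} → Bool) = 2 ^ (n - k) := by
    rw [Fintype.card_fun, Fintype.card_bool]
    congr 1
    rw [Fintype.card_subtype_compl, Fintype.card_fin]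
    congr 1
    have := Set.card_range_of_injective hjinj
    rw [Fintype.card_fin] at this
    exact this
  rw [hcard2] at hcard
  calc (((Finset.univ.filter fun x : Fin n → Bool => |lin a x - c| ≤ v).card : ℕ) : ℝ)
      ≤ ((2 ^ (n - k) : ℕ) : ℝ) := by exact_mod_cast hcard
    _ = 2 ^ n / 2 ^ k := by
        push_cast
        rw [pow_sub₀ _ (by norm_num) hkn]
        field_simp

/-- decreasing enumeration of a finite set of integers -/
theorem L23_enum (L : Finset ℤ) : ∃ g : ℕ → ℤ, (∀ i < L.card, g i ∈ L) ∧
    (∀ e ∈ L, ∃ i < L.card, g i = e) ∧ ∀ i j, i < j → j < L.card → g j < g i := by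
  let f := L.orderEmbOfFin rfl
  refine ⟨fun i => if h : i < L.card then f (Fin.rev ⟨i, h⟩) else 0, ?_, ?_, ?_⟩
  · intro i hi
    simp only [hi, dif_pos]
    exact L.orderEmbOfFin_mem rfl _
  · intro e he
    have h1 : e ∈ Set.range f := by
      rw [Finset.range_orderEmbOfFin]
      exact he
    obtain ⟨i, rfl⟩ := h1
    refine ⟨(Fin.rev i).1, (Fin.rev i).2, ?_⟩
    have h2 : (Fin.rev i).1 < L.card := (Fin.rev i).2
    show (if h : (Fin.rev i).1 < L.card then f (Fin.rev ⟨(Fin.rev i).1, h⟩) else 0) = f i
    rw [dif_pos h2]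
    congr 1
    exact Fin.rev_rev i
  · intro i j hij hj
    have hi : i < L.card := hij.trans hj
    simp only [hi, hj, dif_pos]
    apply f.strictMono
    rw [Fin.rev_lt_rev]
    exact hij

theorem L23_gap {g : ℕ → ℤ} {N : ℕ} (hg : ∀ i j, i < j → j < N → g j < g i) :
    ∀ d i, i + d < N → g (i + d) + d ≤ g i := by
  intro d
  induction d with
  | zero => intro i _; simp
  | succ d ih =>
    intro i h
    have h1 := ih i (by omega)
    have h2 := hg (i + d) (i + (d + 1)) (by omega) h
    push_cast
    omega

theorem L23_lev_le {r : ℝ} (h : r ≠ 0) : (2 : ℝ) ^ lev r ≤ |r| := by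
  unfold lev
  exact_mod_cast Int.zpow_log_le_self (b := 2) (by norm_num) (abs_pos.2 h)

theorem L23_lt_lev (r : ℝ) : |r| < (2 : ℝ) ^ (lev r + 1) := by
  unfold lev
  exact_mod_cast Int.lt_zpow_succ_log_self (b := 2) (by norm_num) |r|

/-- L3: reduction to few levels.  Either the number of levels is at most `M = 8 * clog n + 16`, or
the weights of the lower levels can be put to `0`. -/
theorem few_levels (n : ℕ) (hn : 0 < n) (a : Fin n → ℝ) (a0 : ℝ) (ha0 : 0 ≤ a0)
    (ha : ∀ i, a0 ≤ |a i|) (h0 : a0 = 0 → ∀ x, lin a x ≠ 0) :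
    ∃ (a' : Fin n → ℝ) (E : Finset ℤ) (v : ℝ), (∀ i, a' i ≠ 0 → lev (a' i) ∈ E) ∧
      E.card ≤ 8 * Nat.clog 2 (n + 1) + 16 ∧
      (∀ x, |lin a x - lin a' x| + a0 ≤ v) ∧
      ((∑ x : Fin n → Bool, ind (|lin a' x| ≤ v)) ≤ 2 ^ n * (2 / Real.sqrt n)) := by
  classical
  set L : Finset ℤ := (Finset.univ.filter fun i => a i ≠ 0).image (fun i => lev (a i)) with hL
  set k := Nat.clog 2 (n + 1) with hk
  have hnpos : (0 : ℝ) < n := by exact_mod_cast hn
  have hsq : 0 < Real.sqrt n := Real.sqrt_pos.2 hnpos
  by_cases hcard : L.card ≤ 8 * k + 16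
  · refine ⟨a, L, a0, ?_, hcard, ?_, ?_⟩
    · intro i hi
      exact Finset.mem_image.2 ⟨i, Finset.mem_filter.2 ⟨Finset.mem_univ _, hi⟩, rfl⟩
    · intro x
      simp
    · rcases ha0.eq_or_lt with h | h
      · have h1 : ∀ x : Fin n → Bool, ind (|lin a x| ≤ a0) = 0 := by
          intro x
          apply ind_false
          rw [← h]
          intro h2
          exact h0 h.symm x (abs_eq_zero.1 (le_antisymm h2 (abs_nonneg _)))
        simp only [h1, Finset.sum_const_zero]
        positivity
      · have h1 := lin_window a Finset.univ h (fun i _ => ha i)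
          (Finset.univ_nonempty_iff.2 ⟨⟨0, hn⟩⟩) 0 a0 ha0
        simp only [sub_zero, Fintype.card_fin, Finset.card_univ, div_self h.ne'] at h1
        norm_num at h1 ⊢
        exact h1
  · push Not at hcard
    obtain ⟨g, hg1, hg2, hg3⟩ := L23_enum L
    have hgap := L23_gap hg3
    set N := L.card with hN
    set M := 8 * k + 16 with hM
    set e := g (M - 1) with he
    -- representatives of the levels
    have hrep : ∀ i < N, ∃ t : Fin n, a t ≠ 0 ∧ lev (a t) = g i := by
      intro i hi
      obtain ⟨t, ht, ht'⟩ := Finset.mem_image.1 (hg1 i hi)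
      exact ⟨t, (Finset.mem_filter.1 ht).2, ht'⟩
    have he0 : (0 : ℝ) < 2 ^ e := by positivity
    let a' : Fin n → ℝ := fun i => if a i ≠ 0 ∧ e ≤ lev (a i) then a i else 0
    have hdiff : ∀ i, |a i - a' i| ≤ 2 ^ e := by
      intro i
      simp only [a']
      split
      · rw [sub_self, abs_zero]; exact he0.le
      · rename_i h
        rw [sub_zero]
        by_cases h1 : a i = 0
        · rw [h1, abs_zero]; exact he0.le
        · have h2 : lev (a i) < e := by
            by_contra h3
            exact h ⟨h1, not_lt.1 h3⟩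
          refine (L23_lt_lev (a i)).le.trans ?_
          exact zpow_le_zpow_right₀ (by norm_num) (by omega)
    have hlin : ∀ x, |lin a x - lin a' x| ≤ n * 2 ^ e := by
      intro x
      unfold lin
      rw [← Finset.sum_sub_distrib]
      refine (Finset.abs_sum_le_sum_abs _ _).trans ?_
      calc ∑ i, |a i * sg (x i) - a' i * sg (x i)| ≤ ∑ _i : Fin n, (2 : ℝ) ^ e := by
            refine Finset.sum_le_sum fun i _ => ?_
            rw [← sub_mul, abs_mul]
            have : |sg (x i)| = 1 := by cases x i <;> simp [sg]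
            rw [this, mul_one]
            exact hdiff i
        _ = n * 2 ^ e := by simp
    have ha0' : a0 ≤ 2 ^ e := by
      obtain ⟨t, ht, ht'⟩ := hrep M hcard
      have h1 := L23_lt_lev (a t)
      rw [ht'] at h1
      have h2 := hg3 (M - 1) M (by omega) hcard
      refine (ha t).trans (h1.le.trans ?_)
      exact zpow_le_zpow_right₀ (by norm_num) (by omega)
    refine ⟨a', (Finset.range M).image g, (n + 1) * 2 ^ e, ?_, ?_, ?_, ?_⟩
    · intro i hi
      simp only [a'] at hi ⊢
      split at hi
      · rename_i h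
        rw [if_pos h]
        obtain ⟨m, hm, hm'⟩ := hg2 (lev (a i)) (Finset.mem_image.2
          ⟨i, Finset.mem_filter.2 ⟨Finset.mem_univ _, h.1⟩, rfl⟩)
        refine Finset.mem_image.2 ⟨m, Finset.mem_range.2 ?_, hm'⟩
        by_contra hcon
        have h3 := hg3 (M - 1) m (by omega) hm
        have h4 := h.2
        omega
      · exact absurd rfl hi
    · exact Finset.card_image_le.trans (by simp [hM])
    · intro x
      have := hlin x
      linarith
    · -- lacunary subsequence
      have hrep' : ∀ p : Fin k, ∃ t : Fin n, a t ≠ 0 ∧ lev (a t) = g (3 * p.1) := fun p =>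
        hrep _ (by have := p.2; omega)
      choose j hj1 hj2 using hrep'
      have hge : ∀ p : Fin k, e + k + 1 ≤ g (3 * p.1) := by
        intro p
        have hp := p.2
        have := hgap (M - 1 - 3 * p.1) (3 * p.1) (by omega)
        have h2 : 3 * p.1 + (M - 1 - 3 * p.1) = M - 1 := by omega
        rw [h2] at this
        omega
      have ha'j : ∀ p : Fin k, a' (j p) = a (j p) := by
        intro p
        simp only [a']
        rw [if_pos]
        refine ⟨hj1 p, ?_⟩
        rw [hj2 p]
        have := hge p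
        omega
      have hlac := lacunary a' k j (by
        intro p q hpq
        rw [ha'j, ha'j]
        have h1 := (L23_lt_lev (a (j q))).le
        have h2 := L23_lev_le (hj1 p)
        rw [hj2] at h1 h2
        have hq := q.2
        have hpq' : p.1 < q.1 := hpq
        have h3 := hgap (3 * q.1 - 3 * p.1) (3 * p.1) (by omega)
        have h4 : 3 * p.1 + (3 * q.1 - 3 * p.1) = 3 * q.1 := by omega
        rw [h4] at h3
        have h5 : (4 : ℝ) * 2 ^ (g (3 * q.1) + 1) ≤ 2 ^ g (3 * p.1) := by
          have h6 : (4 : ℝ) * 2 ^ (g (3 * q.1) + 1) = 2 ^ (g (3 * q.1) + 3) := by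
            rw [show g (3 * q.1) + 3 = (g (3 * q.1) + 1) + 2 by ring,
              zpow_add₀ (by norm_num : (2 : ℝ) ≠ 0) _ 2]
            norm_num
            ring
          rw [h6]
          exact zpow_le_zpow_right₀ (by norm_num) (by omega)
        linarith) ((n + 1) * 2 ^ e) (by
        intro p
        rw [ha'j]
        have h2 := L23_lev_le (hj1 p)
        rw [hj2] at h2
        refine le_trans ?_ h2
        have h3 : ((n : ℝ) + 1) ≤ 2 ^ k := by
          have := Nat.le_pow_clog (b := 2) (by norm_num) (n + 1)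
          exact_mod_cast this
        have h4 : 2 * (((n : ℝ) + 1) * 2 ^ e) ≤ 2 ^ (e + k + 1) := by
          rw [zpow_add₀ (by norm_num : (2 : ℝ) ≠ 0), zpow_add₀ (by norm_num : (2 : ℝ) ≠ 0)]
          have : ((2 : ℝ) ^ (k : ℤ)) = 2 ^ k := zpow_natCast _ _
          rw [this, zpow_one]
          nlinarith
        exact h4.trans (zpow_le_zpow_right₀ (by norm_num) (hge p))) (by positivity) 0
      simp only [sub_zero] at hlac
      refine hlac.trans ?_
      rw [div_eq_mul_inv]
      refine mul_le_mul_of_nonneg_left ?_ (by positivity)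
      rw [inv_le_comm₀ (by positivity) (by positivity), inv_div]
      have h3 : ((n : ℝ) + 1) ≤ 2 ^ k := by
        have := Nat.le_pow_clog (b := 2) (by norm_num) (n + 1)
        exact_mod_cast this
      have h4 : Real.sqrt n ≤ n + 1 := by
        rw [Real.sqrt_le_left (by positivity)]
        nlinarith
      linarith [hsq]

end BLP
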