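import Pool.Agent.Lib.BLP.Defs

/-!
# Two lemmas on `lin` used in both assemblies (moved from `Final.lean`)
-/

namespace BLP

open Finset

theorem lin_neg' {ι : Type*} [Fintype ι] (a : ι → ℝ) (x : ι → Bool) :
    lin a (fun i => !(x i)) = - lin a x := by
  unfold lin
  rw [← Finset.sum_neg_distrib]
  refine Finset.sum_congr rfl fun i _ => ?_
  rcases Bool.eq_false_or_eq_true (x i) with h | h <;> simp [sg, h]

theorem lin_ne_zero_of_card {n : ℕ} (a : Fin n → ℝ) (H : Finset (Fin (n + 1) → Bool))
    (hH : ∀ z, z ∈ H ↔ 0 ≤ lin a (fun i => z i.castSucc) + 0 * sg (z (Fin.last n)))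
    (hcard : H.card = 2 ^ n) : ∀ x, lin a x ≠ 0 := by
  classical
  intro x0 hx0
  -- P = {x | 0 ≤ lin a x}
  let P : Finset (Fin n → Bool) := Finset.univ.filter fun x => 0 ≤ lin a x
  have h1 : H.card = 2 * P.card := by
    have e : H = (Finset.univ : Finset Bool).biUnion
        (fun s => P.image (fun x : Fin n → Bool => (Fin.snoc x s : Fin (n + 1) → Bool))) := by
      ext z
      rw [hH]
      simp only [Finset.mem_biUnion, Finset.mem_univ, true_and, Finset.mem_image, P,
        Finset.mem_filter]
      constructor
      · intro h
        refine ⟨z (Fin.last n), fun i => z i.castSucc, by linarith, ?_⟩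
        exact Fin.snoc_init_self z
      · rintro ⟨s, x, hx, rfl⟩
        simp only [Fin.snoc_castSucc]
        linarith
    rw [e, Finset.card_biUnion]
    · have : ∀ s : Bool, (P.image (fun x : Fin n → Bool => (Fin.snoc x s : Fin (n + 1) → Bool))).card
          = P.card := by
        intro s
        apply Finset.card_image_of_injective
        intro x y hxy
        funext i
        have := congrFun hxy i.castSucc
        simpa using this
      simp [this]
    · intro s _ t _ hst
      rw [Function.onFun, Finset.disjoint_left]
      intro z hz hz'
      rw [Finset.mem_image] at hz hz'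
      obtain ⟨x, _, rfl⟩ := hz
      obtain ⟨y, _, hy⟩ := hz'
      have := congrFun hy (Fin.last n)
      simp at this
      exact hst this.symm
  -- symmetry
  let Q : Finset (Fin n → Bool) := Finset.univ.filter fun x => lin a x ≤ 0
  have hPQ : P.card = Q.card := by
    apply Finset.card_bij (fun x _ => fun i => !(x i))
    · intro x hx
      simp only [P, Q, Finset.mem_filter, Finset.mem_univ, true_and] at hx ⊢
      rw [lin_neg']; linarith
    · intro x _ y _ h
      funext i
      have := congrFun h i
      simpa using this
    · intro y hy
      refine ⟨fun i => !(y i), ?_, ?_⟩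
      · simp only [P, Q, Finset.mem_filter, Finset.mem_univ, true_and] at hy ⊢
        rw [lin_neg']; linarith
      · funext i; simp
  have hun : P ∪ Q = Finset.univ := by
    ext x
    simp only [P, Q, Finset.mem_union, Finset.mem_filter, Finset.mem_univ, true_and, iff_true]
    exact le_total _ _
  have hint : x0 ∈ P ∩ Q := by
    simp only [P, Q, Finset.mem_inter, Finset.mem_filter, Finset.mem_univ, true_and]
    constructor <;> linarith
  have hpos : 0 < (P ∩ Q).card := Finset.card_pos.mpr ⟨x0, hint⟩
  have h2 := Finset.card_union_add_card_inter P Q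
  rw [hun, Finset.card_univ, Fintype.card_fun, Fintype.card_bool, Fintype.card_fin] at h2
  omega

end BLP
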