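import Pool.Agent.Lib.BLP.Heat

/-!
# Chunk S4: exchanging a hash noise against time

The orbits `{set x t | t < m}` have size `m` and cut the good points; `u` is a bijection from each
orbit to `[0, m)`.  On an orbit `O` write `F(t) = phi ... (A + μ (m - 1 - 2 t))`, `F̄` its mean and
`h̄` the mean of `h` on `O`: `∑_O h (F(u) - F̄) = ∑_O (h - h̄) (F(u) - F̄)`, `|h - h̄| ≤ Λ`,
`|F(t) - phi t A| ≤` H6; and `F̄` against `phi (t + σ²) A` by H4.
-/

namespace BLP

open Finset

/-- averaging over the orbits -/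
theorem S4_avg {Ω : Type*} [Fintype Ω] [DecidableEq Ω] (good : Ω → Prop) [DecidablePred good]
    (m : ℕ) (u : Ω → ℕ) (set : Ω → ℕ → Ω)
    (hu : ∀ x, good x → u x < m)
    (hs : ∀ x, good x → ∀ t < m, good (set x t) ∧ u (set x t) = t ∧
      (∀ t' < m, set (set x t) t' = set x t'))
    (hsu : ∀ x, good x → set x (u x) = x) (g : Ω → ℝ) :
    ∑ x ∈ univ.filter good, ∑ s ∈ range m, g (set x s) = m * ∑ x ∈ univ.filter good, g x := by
  have h1 : ∑ p ∈ (univ.filter good) ×ˢ (range m), g (set p.1 p.2) =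
      ∑ p ∈ (univ.filter good) ×ˢ (range m), g p.1 := by
    apply Finset.sum_bij' (i := fun p _ => (set p.1 p.2, u p.1))
      (j := fun p _ => (set p.1 p.2, u p.1))
    · rintro ⟨x, s⟩ hp
      simp only [mem_product, mem_filter, mem_univ, true_and, mem_range] at hp ⊢
      exact ⟨(hs x hp.1 s hp.2).1, hu x hp.1⟩
    · rintro ⟨x, s⟩ hp
      simp only [mem_product, mem_filter, mem_univ, true_and, mem_range] at hp ⊢
      exact ⟨(hs x hp.1 s hp.2).1, hu x hp.1⟩
    · rintro ⟨x, s⟩ hp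
      simp only [mem_product, mem_filter, mem_univ, true_and, mem_range] at hp ⊢
      obtain ⟨_, h2, h3⟩ := hs x hp.1 s hp.2
      rw [h3 _ (hu x hp.1), hsu x hp.1, h2]
    · rintro ⟨x, s⟩ hp
      simp only [mem_product, mem_filter, mem_univ, true_and, mem_range] at hp ⊢
      obtain ⟨_, h2, h3⟩ := hs x hp.1 s hp.2
      rw [h3 _ (hu x hp.1), hsu x hp.1, h2]
    · rintro ⟨x, s⟩ hp
      rfl
  rw [sum_product, sum_product] at h1
  rw [h1, mul_sum]
  apply sum_congr rfl
  intro x _
  simp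

/-- S4: exchange of a hash noise against time (orbits of `set` of size `m`) -/
theorem noise_one {Ω : Type*} [Fintype Ω] [DecidableEq Ω] (good : Ω → Prop) [DecidablePred good]
    (m : ℕ) (hm : 0 < m) (u : Ω → ℕ) (set : Ω → ℕ → Ω)
    (hu : ∀ x, good x → u x < m)
    (hs : ∀ x, good x → ∀ t < m, good (set x t) ∧ u (set x t) = t ∧
      (∀ t' < m, set (set x t) t' = set x t'))
    (hsu : ∀ x, good x → set x (u x) = x)
    (h A : Ω → ℝ) (Λ : ℝ) (hΛ : ∀ x, good x → ∀ t < m, |h (set x t) - h x| ≤ Λ)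
    (hA : ∀ x, good x → ∀ t < m, A (set x t) = A x) (μ t : ℝ) (hμ : 0 ≤ μ) (hμm : μ * m ≤ 4)
    (ht : 16 ≤ t) :
    |∑ x ∈ univ.filter good, h x * (phi t (A x + μ * (m - 1 - 2 * (u x : ℝ))) -
        phi (t + μ ^ 2 * (m ^ 2 - 1) / 3) (A x))| ≤
      ∑ x ∈ univ.filter good, (1000 * Λ / Real.sqrt t + 1000 * |h x| / t ^ 2) *
        Real.exp (-((A x) ^ 2 / (8 * t))) := by
  have hm0 : (0 : ℝ) < m := by exact_mod_cast hm
  have hst : 0 < Real.sqrt t := Real.sqrt_pos.2 (by linarith)
  obtain ⟨F, hF⟩ : ∃ F : Ω → ℕ → ℝ, F = fun (x : Ω) (s : ℕ) => phi t (A x + μ * (m - 1 - 2 * (s : ℝ))) :=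
    ⟨_, rfl⟩
  obtain ⟨Fb, hFb⟩ : ∃ Fb : Ω → ℝ, Fb = fun x => (∑ s ∈ range m, F x s) / m := ⟨_, rfl⟩
  obtain ⟨T, hT⟩ : ∃ T : Ω → ℝ, T = fun x => phi (t + μ ^ 2 * (m ^ 2 - 1) / 3) (A x) := ⟨_, rfl⟩
  obtain ⟨E, hE⟩ : ∃ E : Ω → ℝ, E = fun x => Real.exp (-((A x) ^ 2 / (8 * t))) := ⟨_, rfl⟩
  have hE0 : ∀ x, 0 < E x := fun x => by rw [hE]; exact Real.exp_pos _
  have hFbT : ∀ x, |Fb x - T x| ≤ 1000 / t ^ 2 * E x := by
    intro x
    rw [hFb, hT, hF, hE]
    exact phi_noise t (A x) μ m hm ht hμ hμm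
  have hshift : ∀ x, ∀ s < m, |F x s - phi t (A x)| ≤ 400 / Real.sqrt t * E x := by
    intro x s hs'
    have hs1 : (s : ℝ) + 1 ≤ m := by exact_mod_cast hs'
    have hs0 : (0 : ℝ) ≤ s := Nat.cast_nonneg s
    have ha : |μ * (m - 1 - 2 * (s : ℝ))| ≤ 4 := by
      rw [abs_mul, abs_of_nonneg hμ]
      refine le_trans (mul_le_mul_of_nonneg_left ?_ hμ) hμm
      rw [abs_le]
      constructor <;> linarith
    have h1 := phi_shift t (A x) _ ht ha
    rw [hF, hE]
    refine h1.trans ?_
    apply mul_le_mul_of_nonneg_right _ (Real.exp_pos _).le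
    apply div_le_div_of_nonneg_right _ hst.le
    linarith
  have hmean : ∀ x, |phi t (A x) - Fb x| ≤ 400 / Real.sqrt t * E x := by
    intro x
    have e : phi t (A x) - Fb x = (∑ s ∈ range m, (phi t (A x) - F x s)) / m := by
      rw [hFb, sum_sub_distrib]
      simp only [sum_const, card_range, nsmul_eq_mul]
      field_simp
    rw [e, abs_div, abs_of_pos hm0, div_le_iff₀ hm0]
    refine (abs_sum_le_sum_abs _ _).trans ?_
    have h2 : ∑ s ∈ range m, |phi t (A x) - F x s| ≤
        ∑ _s ∈ range m, 400 / Real.sqrt t * E x := by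
      apply sum_le_sum
      intro s hs'
      rw [abs_sub_comm]
      exact hshift x s (mem_range.1 hs')
    refine h2.trans ?_
    rw [sum_const, card_range, nsmul_eq_mul, mul_comm]
  have hdev : ∀ x, ∀ s < m, |F x s - Fb x| ≤ 1000 / Real.sqrt t * E x := by
    intro x s hs'
    have h1 := hshift x s hs'
    have h2 := hmean x
    have h3 : |F x s - Fb x| ≤ |F x s - phi t (A x)| + |phi t (A x) - Fb x| := by
      have := abs_add_le (F x s - phi t (A x)) (phi t (A x) - Fb x)
      simpa using this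
    have h4 : 400 / Real.sqrt t * E x + 400 / Real.sqrt t * E x ≤ 1000 / Real.sqrt t * E x := by
      rw [← add_mul]
      apply mul_le_mul_of_nonneg_right _ (hE0 x).le
      rw [← add_div]
      apply div_le_div_of_nonneg_right _ hst.le
      norm_num
    linarith
  -- splitting
  have hsplit : ∑ x ∈ univ.filter good, h x * (phi t (A x + μ * (m - 1 - 2 * (u x : ℝ))) -
        phi (t + μ ^ 2 * (m ^ 2 - 1) / 3) (A x)) =
      ∑ x ∈ univ.filter good, h x * (F x (u x) - Fb x) +
        ∑ x ∈ univ.filter good, h x * (Fb x - T x) := by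
    rw [← sum_add_distrib]
    apply sum_congr rfl
    intro x _
    rw [hF, hT]
    ring
  have hFset : ∀ x, good x → ∀ s < m, F (set x s) = F x := by
    intro x hx s hs'
    rw [hF]
    funext s'
    simp only
    rw [hA x hx s hs']
  have hFbset : ∀ x, good x → ∀ s < m, Fb (set x s) = Fb x := by
    intro x hx s hs'
    rw [hFb]
    simp only
    rw [hFset x hx s hs']
  -- the first part
  have hfirst : m * ∑ x ∈ univ.filter good, h x * (F x (u x) - Fb x) =
      ∑ x ∈ univ.filter good, ∑ s ∈ range m, (h (set x s) - h x) * (F x s - Fb x) := by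
    rw [← S4_avg good m u set hu hs hsu (fun x => h x * (F x (u x) - Fb x))]
    apply sum_congr rfl
    intro x hx
    have hx' : good x := (mem_filter.1 hx).2
    have h1 : ∑ s ∈ range m, (F x s - Fb x) = 0 := by
      rw [sum_sub_distrib, sum_const, card_range, nsmul_eq_mul, hFb]
      field_simp
      ring
    have h2 : ∑ s ∈ range m, (h (set x s) - h x) * (F x s - Fb x) =
        ∑ s ∈ range m, h (set x s) * (F x s - Fb x) - h x * ∑ s ∈ range m, (F x s - Fb x) := by
      rw [mul_sum, ← sum_sub_distrib]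
      apply sum_congr rfl
      intro s _
      ring
    rw [h2, h1, mul_zero, sub_zero]
    apply sum_congr rfl
    intro s hs'
    have hs'' := mem_range.1 hs'
    rw [hFset x hx' s hs'', hFbset x hx' s hs'', (hs x hx' s hs'').2.1]
  have hfirst' : |∑ x ∈ univ.filter good, h x * (F x (u x) - Fb x)| ≤
      ∑ x ∈ univ.filter good, 1000 * Λ / Real.sqrt t * E x := by
    have h1 : m * |∑ x ∈ univ.filter good, h x * (F x (u x) - Fb x)| ≤
        m * ∑ x ∈ univ.filter good, 1000 * Λ / Real.sqrt t * E x := by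
      have e : (m : ℝ) * |∑ x ∈ univ.filter good, h x * (F x (u x) - Fb x)| =
          |m * ∑ x ∈ univ.filter good, h x * (F x (u x) - Fb x)| := by
        rw [abs_mul, abs_of_pos hm0]
      rw [e, hfirst, mul_sum]
      refine (abs_sum_le_sum_abs _ _).trans ?_
      apply sum_le_sum
      intro x hx
      have hx' : good x := (mem_filter.1 hx).2
      refine (abs_sum_le_sum_abs _ _).trans ?_
      have h2 : ∑ s ∈ range m, |(h (set x s) - h x) * (F x s - Fb x)| ≤
          ∑ _s ∈ range m, 1000 * Λ / Real.sqrt t * E x := by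
        apply sum_le_sum
        intro s hs'
        have hs'' := mem_range.1 hs'
        rw [abs_mul]
        have h3 := hΛ x hx' s hs''
        have h4 := hdev x s hs''
        calc |h (set x s) - h x| * |F x s - Fb x| ≤ Λ * (1000 / Real.sqrt t * E x) :=
              mul_le_mul h3 h4 (abs_nonneg _) ((abs_nonneg _).trans h3)
          _ = 1000 * Λ / Real.sqrt t * E x := by ring
      refine h2.trans ?_
      rw [sum_const, card_range, nsmul_eq_mul]
    exact le_of_mul_le_mul_left h1 hm0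
  have hsecond : |∑ x ∈ univ.filter good, h x * (Fb x - T x)| ≤
      ∑ x ∈ univ.filter good, 1000 * |h x| / t ^ 2 * E x := by
    refine (abs_sum_le_sum_abs _ _).trans ?_
    apply sum_le_sum
    intro x _
    rw [abs_mul]
    calc |h x| * |Fb x - T x| ≤ |h x| * (1000 / t ^ 2 * E x) :=
          mul_le_mul_of_nonneg_left (hFbT x) (abs_nonneg _)
      _ = 1000 * |h x| / t ^ 2 * E x := by ring
  rw [hsplit]
  refine (abs_add_le _ _).trans ?_
  have hfin : ∑ x ∈ univ.filter good, (1000 * Λ / Real.sqrt t + 1000 * |h x| / t ^ 2) *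
        Real.exp (-((A x) ^ 2 / (8 * t))) =
      ∑ x ∈ univ.filter good, 1000 * Λ / Real.sqrt t * E x +
        ∑ x ∈ univ.filter good, 1000 * |h x| / t ^ 2 * E x := by
    rw [← sum_add_distrib]
    apply sum_congr rfl
    intro x _
    rw [hE]
    ring
  rw [hfin]
  exact add_le_add hfirst' hsecond

end BLP
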