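import Pool.Agent.Lib.BLP.Heat

/-!
# Chunk S1: exchanging the weight of one coordinate against time
-/

namespace BLP

open Finset

variable {ι : Type*} [Fintype ι] [DecidableEq ι]

/-- summation after a flip -/
theorem S1_sum_flp (i : ι) (f : (ι → Bool) → ℝ) : ∑ x, f (flp x i) = ∑ x, f x := by
  have hi : Function.Involutive (fun x : ι → Bool => flp x i) := fun x => flp_flp x i
  exact Equiv.sum_comp hi.toPerm f

/-- S1 (pair `x` with `flp x i`; use H2 for the mean of `h`, H3 for the difference of `h`). -/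
theorem swap_one (h : (ι → Bool) → ℝ) (lam : ℝ) (hh : Lip lam h) (i : ι) (R : (ι → Bool) → ℝ)
    (hR : ∀ x, R (flp x i) = R x) (t a w : ℝ) (ht : 16 ≤ t) (ha : 0 ≤ a) (ha2 : a ≤ 2)
    (hw : 0 ≤ w) (hw2 : w ≤ 2) :
    |∑ x, h x * phi t (R x + a * sg (x i)) -
        ∑ x, h x * phi (t + a ^ 2 - w ^ 2) (R x + w * sg (x i))| ≤
      100 * |a - w| * ∑ x, (lam / Real.sqrt t + |h x| / t ^ 2) *
        Real.exp (-((R x) ^ 2 / (8 * t))) := by
  have ht0 : 0 < t := by linarith
  have hst : 0 < Real.sqrt t := Real.sqrt_pos.2 ht0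
  set f : (ι → Bool) → ℝ := fun x => h x * phi t (R x + a * sg (x i)) -
    h x * phi (t + a ^ 2 - w ^ 2) (R x + w * sg (x i)) with hf
  have h1 : ∑ x, h x * phi t (R x + a * sg (x i)) -
        ∑ x, h x * phi (t + a ^ 2 - w ^ 2) (R x + w * sg (x i)) = ∑ x, f x := by
    rw [hf, Finset.sum_sub_distrib]
  have h2 : 2 * ∑ x, f x = ∑ x, (f x + f (flp x i)) := by
    rw [Finset.sum_add_distrib, S1_sum_flp]; ring
  have h3 : ∀ x, |f x + f (flp x i)| ≤ 2 * (100 * |a - w| * ((lam / Real.sqrt t + |h x| / t ^ 2) *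
        Real.exp (-((R x) ^ 2 / (8 * t))))) := by
    intro x
    have he := phi_swap_even t a w (R x) ht ha ha2 hw hw2
    have ho := phi_swap_odd t a w (R x) ht ha ha2 hw hw2
    have hE := Real.exp_pos (-((R x) ^ 2 / (8 * t)))
    set E := Real.exp (-((R x) ^ 2 / (8 * t))) with hEd
    have hl := hh x i
    have ht2 : 1 / t ^ 2 ≤ 1 / Real.sqrt t := by
      apply one_div_le_one_div_of_le hst
      have h5 : Real.sqrt t * Real.sqrt t = t := Real.mul_self_sqrt ht0.le
      have h6 : (4 : ℝ) ≤ Real.sqrt t := Real.le_sqrt_of_sq_le (by linarith)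
      nlinarith
    set P := phi t (R x + a) - phi (t + a ^ 2 - w ^ 2) (R x + w) with hP
    set Q := phi t (R x - a) - phi (t + a ^ 2 - w ^ 2) (R x - w) with hQ
    have he' : |P + Q| ≤ 100 * |a - w| * (1 / t ^ 2 * E) := by
      rw [hP, hQ]
      refine le_trans (le_of_eq ?_) (he.trans (le_of_eq (by ring)))
      congr 1; ring
    have ho' : |P - Q| ≤ 100 * |a - w| * (1 / Real.sqrt t * E) := by
      rw [hP, hQ]
      refine le_trans (le_of_eq ?_) (ho.trans (le_of_eq (by ring)))
      congr 1; ring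
    have haw : 0 ≤ 100 * |a - w| := by positivity
    have he2 : |P + Q| ≤ 100 * |a - w| * (1 / Real.sqrt t * E) :=
      he'.trans (mul_le_mul_of_nonneg_left (mul_le_mul_of_nonneg_right ht2 hE.le) haw)
    have hPb : |P| ≤ 100 * |a - w| * (1 / Real.sqrt t * E) := by
      rw [abs_le] at *
      constructor <;> linarith [ho'.1, ho'.2, he2.1, he2.2]
    have hQb : |Q| ≤ 100 * |a - w| * (1 / Real.sqrt t * E) := by
      rw [abs_le] at *
      constructor <;> linarith [ho'.1, ho'.2, he2.1, he2.2]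
    have key : ∀ Y : ℝ, |Y| ≤ 100 * |a - w| * (1 / Real.sqrt t * E) →
        |h x * (P + Q) + (h (flp x i) - h x) * Y| ≤
        2 * (100 * |a - w| * ((lam / Real.sqrt t + |h x| / t ^ 2) * E)) := by
      intro Y hY
      have h4 := abs_add_le (h x * (P + Q)) ((h (flp x i) - h x) * Y)
      rw [abs_mul, abs_mul] at h4
      have hlam : 0 ≤ lam := (abs_nonneg _).trans hl
      have h5 : |h x| * |P + Q| ≤ |h x| * (100 * |a - w| * (1 / t ^ 2 * E)) :=
        mul_le_mul_of_nonneg_left he' (abs_nonneg _)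
      have h6 : |h (flp x i) - h x| * |Y| ≤ lam * (100 * |a - w| * (1 / Real.sqrt t * E)) :=
        mul_le_mul hl hY (abs_nonneg _) hlam
      have h7 : 0 ≤ 100 * |a - w| * ((lam / Real.sqrt t + |h x| / t ^ 2) * E) := by positivity
      have h8 : |h x| * (100 * |a - w| * (1 / t ^ 2 * E)) +
          lam * (100 * |a - w| * (1 / Real.sqrt t * E)) =
          100 * |a - w| * ((lam / Real.sqrt t + |h x| / t ^ 2) * E) := by ring
      linarith
    cases hx : x i
    · have e1 : f x + f (flp x i) = h x * (P + Q) + (h (flp x i) - h x) * P := by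
        simp only [hf, hR, flp_same, hx, sg, hP, hQ]
        simp only [Bool.not_false, if_true, Bool.false_eq_true, if_false, mul_one, mul_neg,
          ← sub_eq_add_neg]
        ring
      rw [e1]
      exact key P hPb
    · have e1 : f x + f (flp x i) = h x * (P + Q) + (h (flp x i) - h x) * Q := by
        simp only [hf, hR, flp_same, hx, sg, hP, hQ]
        simp only [Bool.not_true, if_true, Bool.false_eq_true, if_false, mul_one, mul_neg,
          ← sub_eq_add_neg]
        ring
      rw [e1]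
      exact key Q hQb
  rw [h1]
  have h4 : |2 * ∑ x, f x| ≤ ∑ x, 2 * (100 * |a - w| * ((lam / Real.sqrt t + |h x| / t ^ 2) *
        Real.exp (-((R x) ^ 2 / (8 * t))))) := by
    rw [h2]
    exact (Finset.abs_sum_le_sum_abs _ _).trans (Finset.sum_le_sum fun x _ => h3 x)
  rw [abs_mul, abs_two, ← Finset.mul_sum, ← Finset.mul_sum] at h4
  linarith

end BLP
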