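import Pool.Agent.Lib.BLP.CombC

/-!
# Chunk M23: contacts

M2: if `G` blocks are not frozen, `S_G = m_0 vsum_0 + (m_0 - 1 - 2 u_0) + rest`; given all but the
noise `u_0` of block `0` at most one value of `u_0` gives `S_G ∈ {0, 1}`, and then
`|m_0 vsum_0 + rest| ≤ m_0`; the probability of this is at most `10 / √(G b)` by `ac_window` for
the `N`-letters of the first `G` blocks.
-/

namespace BLP

open Finset

/-- M23: sum over the first `G` blocks -/
theorem m23_split {T : Type*} [Fintype T] [DecidableEq T] {G d : ℕ} (F : (Fin G → T) → ℝ) :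
    ∑ x : Fin (G + d) → T, F (fun g => x (Fin.castAdd d g)) =
      (Fintype.card T : ℝ) ^ d * ∑ y : Fin G → T, F y := by
  rw [← Equiv.sum_comp (Fin.appendEquiv G d)]
  rw [Fintype.sum_prod_type]
  simp [Fin.appendEquiv, Finset.mul_sum]

/-- M23: value of block `g` -/
def m23v {b : ℕ} (m r : ℕ) (x : BS b) : ℤ :=
  m * vsum x + (m - 1 - 2 * (noise m r x : ℤ))

theorem m23_val {K b r M : ℕ} {m : ℕ → ℕ} {C : ℕ → Chain (BS b)} {ε : ℝ}
    (hD : WordData K b r M m C ε) {G : ℕ} (hGK : G ≤ K) (x : Fin K → BS b)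
    (hf : ∀ g (h : g < G), ¬ frozen (m g) r (x ⟨g, h.trans_le hGK⟩)) :
    (QQ (ys C x) (ls C x) G : ℤ) - PP (ys C x) (ls C x) G =
      ∑ g : Fin G, m23v (m g) r (x ⟨g, g.2.trans_le hGK⟩) := by
  rw [QQ_sub_PP _ _ _ (fun g _ => ys_le C x g), ← Fin.sum_univ_eq_sum_range
    (fun g => ((ls C x g : ℤ) - 2 * ys C x g)) G]
  refine Finset.sum_congr rfl fun g _ => ?_
  have hg : (g : ℕ) < K := g.2.trans_le hGK
  unfold ls ys
  rw [dif_pos hg, dif_pos hg]
  exact (hD.spec g hg).val _ (hf g g.2)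

/-- M23: number of states with a property of one block -/
theorem m23_block {T : Type*} [Fintype T] [DecidableEq T] {K : ℕ} (g : Fin K) (P : T → Prop)
    [DecidablePred P] :
    (univ.filter fun x : Fin K → T => P (x g)).card * Fintype.card T =
      (univ.filter P).card * Fintype.card T ^ K := by
  have e : (univ.filter fun x : Fin K → T => P (x g)) =
      Fintype.piFinset (Function.update (fun _ => (univ : Finset T)) g (univ.filter P)) := by
    ext x
    rw [Fintype.mem_piFinset, mem_filter]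
    constructor
    · rintro ⟨_, h⟩ i
      by_cases hi : i = g
      · subst hi
        rw [Function.update_self]
        exact mem_filter.2 ⟨mem_univ _, h⟩
      · rw [Function.update_of_ne hi]
        exact mem_univ _
    · intro h
      have := h g
      rw [Function.update_self, mem_filter] at this
      exact ⟨mem_univ _, this.2⟩
  rw [e, Fintype.card_piFinset]
  have e2 : (fun i : Fin K => (Function.update (fun _ => (univ : Finset T)) g (univ.filter P) i).card)
      = Function.update (fun _ => Fintype.card T) g (univ.filter P).card := by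
    funext i
    by_cases hi : i = g
    · subst hi
      rw [Function.update_self, Function.update_self]
    · rw [Function.update_of_ne hi, Function.update_of_ne hi]
      exact Finset.card_univ
  rw [e2, Finset.prod_update_of_mem (mem_univ g), Finset.prod_const, mul_assoc, ← pow_succ]
  congr 2
  rw [Finset.card_sdiff]
  simp
  have := g.2
  omega

theorem m23_card_BS (b : ℕ) : Fintype.card (BS b) = 4 ^ b := by
  simp [BS]

/-- M23: number of states with a frozen block `g` -/
theorem m23_frozen {K b r M : ℕ} {m : ℕ → ℕ} {C : ℕ → Chain (BS b)} {ε : ℝ}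
    (hD : WordData K b r M m C ε) (g : Fin K) :
    ((univ.filter fun x : Fin K → BS b => frozen (m g) r (x g)).card : ℝ) ≤ 4 ^ (K * b) * ε := by
  have h1 := m23_block g (fun y : BS b => frozen (m g) r y)
  rw [m23_card_BS] at h1
  have h2 : ((univ.filter fun x : Fin K → BS b => frozen (m g) r (x g)).card : ℝ) * 4 ^ b =
      ((univ.filter fun y : BS b => frozen (m g) r y).card : ℝ) * (4 ^ b) ^ K := by
    exact_mod_cast h1
  have h3 := hD.froz g g.2
  have h4 : (0 : ℝ) < 4 ^ b := by positivity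
  have h5 : (0 : ℝ) ≤ (4 ^ b) ^ K := by positivity
  rw [← pow_mul, mul_comm b K] at h2 h5
  have h6 : ((univ.filter fun x : Fin K → BS b => frozen (m g) r (x g)).card : ℝ) * 4 ^ b ≤
      (4 ^ (K * b) * ε) * 4 ^ b := by
    rw [h2]
    calc _ ≤ (4 ^ b * ε) * 4 ^ (K * b) := mul_le_mul_of_nonneg_right h3 h5
      _ = _ := by ring
  exact le_of_mul_le_mul_right h6 h4

/-- M23: the value of the first `G` blocks without the noise of the block `0` -/
def m23A {b : ℕ} (m : ℕ → ℕ) (r G : ℕ) (y : Fin G → BS b) : ℤ :=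
  ∑ g : Fin G, (m g : ℤ) * vsum (y g) +
    ∑ g : Fin G, if (g : ℕ) = 0 then 0 else ((m g : ℤ) - 1 - 2 * (noise (m g) r (y g) : ℤ))

theorem m23_sum {b : ℕ} (m : ℕ → ℕ) (r G : ℕ) (hG : 0 < G) (y : Fin G → BS b) :
    ∑ g : Fin G, m23v (m g) r (y g) =
      m23A m r G y + ((m 0 : ℤ) - 1 - 2 * (noise (m 0) r (y ⟨0, hG⟩) : ℤ)) := by
  unfold m23A m23v
  rw [Finset.sum_add_distrib, add_assoc]
  congr 1
  have e : ∀ g : Fin G, ((m g : ℤ) - 1 - 2 * (noise (m g) r (y g) : ℤ)) =
      (if (g : ℕ) = 0 then 0 else ((m g : ℤ) - 1 - 2 * (noise (m g) r (y g) : ℤ))) +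
      (if (⟨0, hG⟩ : Fin G) = g then ((m g : ℤ) - 1 - 2 * (noise (m g) r (y g) : ℤ)) else 0) := by
    intro g
    by_cases hg : (g : ℕ) = 0
    · have : (⟨0, hG⟩ : Fin G) = g := Fin.ext hg.symm
      rw [if_pos hg, if_pos this, zero_add]
    · have : (⟨0, hG⟩ : Fin G) ≠ g := fun h => hg (by rw [← h])
      rw [if_neg hg, if_neg this, add_zero]
  rw [Finset.sum_congr rfl (fun g _ => e g), Finset.sum_add_distrib, Finset.sum_ite_eq]
  simp

/-- M23: the value without the noise of block `0` does not change if this noise is set -/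
theorem m23A_congr {b : ℕ} (m : ℕ → ℕ) (r G : ℕ) (y y' : Fin G → BS b)
    (h : ∀ g : Fin G, (g : ℕ) ≠ 0 → y g = y' g) (h0 : ∀ g : Fin G, vsum (y g) = vsum (y' g)) :
    m23A m r G y = m23A m r G y' := by
  unfold m23A
  congr 1
  · exact Finset.sum_congr rfl fun g _ => by rw [h0]
  · refine Finset.sum_congr rfl fun g _ => ?_
    by_cases hg : (g : ℕ) = 0
    · rw [if_pos hg, if_pos hg]
    · rw [if_neg hg, if_neg hg, h g hg]

theorem m23_vsum_congr {b : ℕ} (x x' : BS b) (h1 : ∀ k, (x k).1 = (x' k).1)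
    (h2 : ∀ k, (x k).1 = true → x k = x' k) : vsum x = vsum x' := by
  unfold vsum
  refine Finset.sum_congr rfl fun k _ => ?_
  by_cases hk : (x k).1 = true
  · rw [← h1, if_pos hk, if_pos hk, h2 k hk]
  · rw [← h1, if_neg hk, if_neg hk]

/-- M23: probability that the value without the noise of block `0` is small -/
theorem m23_small {G d b r M : ℕ} {m : ℕ → ℕ} (hG : 0 < G) (hb : 0 < b) (hM : 0 < M)
    (hm : ∀ g < G, M ≤ m g ∧ m g ≤ 4 * M) :
    ((univ.filter fun x : Fin (G + d) → BS b =>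
      |m23A m r G (fun g => x (Fin.castAdd d g))| ≤ (m 0 : ℤ)).card : ℝ) ≤
      4 ^ ((G + d) * b) * (10 / Real.sqrt (G * b)) := by
  have hM' : (0 : ℝ) < M := by exact_mod_cast hM
  have h := m5_window (K := G) (b := b) hG hb (fun g => (m g : ℝ)) (α0 := (M : ℝ)) hM'
    (fun g => by
      rw [abs_of_nonneg (Nat.cast_nonneg _)]
      exact_mod_cast (hm g g.2).1)
    (fun y => ∑ g : Fin G, if (g : ℕ) = 0 then (0 : ℝ) else
      ((m g : ℝ) - 1 - 2 * (noise (m g) r (y g) : ℝ)))
    (by
      intro y y' h1 h2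
      refine Finset.sum_congr rfl fun g _ => ?_
      by_cases hg : (g : ℕ) = 0
      · rw [if_pos hg, if_pos hg]
      · rw [if_neg hg, if_neg hg]
        unfold noise
        rw [hash_congr r _ _ (h1 g) (h2 g)]) 0 (m 0 : ℝ) (Nat.cast_nonneg _)
  have e1 : ((univ.filter fun x : Fin (G + d) → BS b =>
      |m23A m r G (fun g => x (Fin.castAdd d g))| ≤ (m 0 : ℤ)).card : ℝ) =
      (4 ^ b) ^ d * ∑ y : Fin G → BS b, ind (|∑ g : Fin G, (m g : ℝ) * (vsum (y g) : ℝ) +
        (∑ g : Fin G, if (g : ℕ) = 0 then (0 : ℝ) else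
      ((m g : ℝ) - 1 - 2 * (noise (m g) r (y g) : ℝ))) - 0| ≤ (m 0 : ℝ)) := by
    rw [← sum_ind]
    have h3 := m23_split (T := BS b) (G := G) (d := d)
      (fun y => ind (|m23A m r G y| ≤ (m 0 : ℤ)))
    rw [m23_card_BS] at h3
    push_cast at h3
    rw [h3]
    congr 1
    refine Finset.sum_congr rfl fun y _ => ind_congr ?_
    have e2 : (∑ g : Fin G, (m g : ℝ) * (vsum (y g) : ℝ) +
        (∑ g : Fin G, if (g : ℕ) = 0 then (0 : ℝ) else
      ((m g : ℝ) - 1 - 2 * (noise (m g) r (y g) : ℝ))) - 0) = ((m23A m r G y : ℤ) : ℝ) := by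
      unfold m23A
      push_cast
      rw [sub_zero]
    rw [e2, ← Int.cast_abs]
    constructor
    · intro h; exact_mod_cast h
    · intro h; exact_mod_cast h
  rw [e1]
  have h4 : (0 : ℝ) ≤ (4 ^ b) ^ d := by positivity
  refine (mul_le_mul_of_nonneg_left h h4).trans ?_
  have h5 : (m 0 : ℝ) / M + 1 ≤ 5 := by
    have : (m 0 : ℝ) ≤ 4 * M := by exact_mod_cast (hm 0 hG).2
    rw [div_add_one hM'.ne', div_le_iff₀ hM']
    linarith
  have h6 : (0 : ℝ) ≤ 2 / Real.sqrt (G * b) := by positivity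
  have h7 : ((m 0 : ℝ) / M + 1) * (2 / Real.sqrt (G * b)) ≤ 5 * (2 / Real.sqrt (G * b)) :=
    mul_le_mul_of_nonneg_right h5 h6
  have e3 : (4 : ℝ) ^ ((G + d) * b) = (4 ^ b) ^ d * 4 ^ (G * b) := by
    rw [← pow_mul, ← pow_add]; congr 1; ring
  rw [e3, mul_assoc]
  refine mul_le_mul_of_nonneg_left ?_ h4
  refine mul_le_mul_of_nonneg_left ?_ (by positivity)
  refine h7.trans (le_of_eq ?_)
  ring

/-- M2: probability that the value of the prefix is `0` or `1` (noise of block `0` and
Littlewood-Offord for the blocks `< G`) -/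
theorem prefix_window {K b r M : ℕ} {m : ℕ → ℕ} {C : ℕ → Chain (BS b)} {ε : ℝ}
    (hD : WordData K b r M m C ε) (G : ℕ) (hG : 0 < G) (hGK : G ≤ K) :
    ((univ.filter fun x : Fin K → BS b =>
        (QQ (ys C x) (ls C x) G : ℤ) - PP (ys C x) (ls C x) G = 0 ∨
        (QQ (ys C x) (ls C x) G : ℤ) - PP (ys C x) (ls C x) G = 1).card : ℝ) ≤
      4 ^ (K * b) * (100 / (M * Real.sqrt (G * b)) + K * ε) := by
  obtain ⟨d, rfl⟩ := Nat.exists_eq_add_of_le hGK
  have hb : 0 < b := hD.hK.trans_le hD.hKb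
  have hM := hD.hM
  have hm0 := hD.hm 0 hD.hK
  have hm0pos : 0 < m 0 := hM.trans_le hm0.1
  set rs : (Fin (G + d) → BS b) → (Fin G → BS b) := fun x g => x (Fin.castAdd d g) with hrs
  set z0 : Fin (G + d) := Fin.castAdd d ⟨0, hG⟩ with hz0
  -- the three sets
  set F := (univ : Finset (Fin (G + d))).biUnion fun g =>
    (univ.filter fun x : Fin (G + d) → BS b => frozen (m g) r (x g)) with hF
  set X := univ.filter fun x : Fin (G + d) → BS b =>
    (∀ g : Fin (G + d), ¬ frozen (m g) r (x g)) ∧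
    (m23A m r G (rs x) + ((m 0 : ℤ) - 1 - 2 * (noise (m 0) r (x z0) : ℤ)) = 0 ∨
     m23A m r G (rs x) + ((m 0 : ℤ) - 1 - 2 * (noise (m 0) r (x z0) : ℤ)) = 1) with hX
  set Y := univ.filter fun x : Fin (G + d) → BS b => |m23A m r G (rs x)| ≤ (m 0 : ℤ) with hY
  have hsub : (univ.filter fun x : Fin (G + d) → BS b =>
        (QQ (ys C x) (ls C x) G : ℤ) - PP (ys C x) (ls C x) G = 0 ∨
        (QQ (ys C x) (ls C x) G : ℤ) - PP (ys C x) (ls C x) G = 1) ⊆ X ∪ F := by
    intro x hx
    rw [mem_filter] at hx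
    rw [mem_union]
    by_cases hf : ∀ g : Fin (G + d), ¬ frozen (m g) r (x g)
    · left
      rw [hX, mem_filter]
      refine ⟨mem_univ _, hf, ?_⟩
      have h1 := m23_val hD hGK x (fun g h => hf ⟨g, h.trans_le hGK⟩)
      have h2 : ∑ g : Fin G, m23v (m g) r (x ⟨g, g.2.trans_le hGK⟩) =
        ∑ g : Fin G, m23v (m g) r (rs x g) := rfl
      rw [h2, m23_sum m r G hG] at h1
      rw [h1] at hx
      exact hx.2
    · right
      push Not at hf
      obtain ⟨g, hg⟩ := hf
      rw [hF, mem_biUnion]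
      exact ⟨g, mem_univ _, mem_filter.2 ⟨mem_univ _, hg⟩⟩
  -- the injection
  have hinj : m 0 * X.card ≤ Y.card := by
    have hcard : (X ×ˢ range (m 0)).card = m 0 * X.card := by
      rw [card_product, card_range, mul_comm]
    rw [← hcard]
    have key : ∀ x ∈ X, ∀ t < m 0,
        m23A m r G (rs (Function.update x z0 (setNoise (m 0) r t (x z0)))) = m23A m r G (rs x) := by
      intro x hx t ht
      rw [hX, mem_filter] at hx
      have hs := noise_spec b (m 0) r hm0pos (x z0) (hx.2.1 z0) t ht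
      refine m23A_congr m r G _ _ ?_ ?_
      · intro g hg
        show Function.update x z0 _ (Fin.castAdd d g) = x (Fin.castAdd d g)
        rw [Function.update_of_ne]
        intro h
        apply hg
        have := congrArg Fin.val h
        simpa [hz0] using this
      · intro g
        show vsum (Function.update x z0 _ (Fin.castAdd d g)) = vsum (x (Fin.castAdd d g))
        by_cases h : Fin.castAdd d g = z0
        · rw [h, Function.update_self]
          refine m23_vsum_congr _ _ hs.2.2.2.2.1 ?_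
          intro k hk
          exact hs.2.2.2.2.2.1 k (by rw [← hs.2.2.2.2.1 k]; exact hk)
        · rw [Function.update_of_ne h]
    refine Finset.card_le_card_of_injOn
      (fun p => Function.update p.1 z0 (setNoise (m 0) r p.2 (p.1 z0))) ?_ ?_
    · rintro ⟨x, t⟩ hxt
      have hxt' := mem_product.1 (Finset.mem_coe.1 hxt)
      obtain ⟨hx, ht⟩ := hxt'
      simp only at hx ht
      rw [mem_range] at ht
      rw [Finset.mem_coe, hY, mem_filter]
      refine ⟨mem_univ _, ?_⟩
      show |m23A m r G (rs (Function.update x z0 (setNoise (m 0) r t (x z0))))| ≤ (m 0 : ℤ)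
      rw [key x hx t ht]
      rw [hX, mem_filter] at hx
      have hu : noise (m 0) r (x z0) < m 0 := Nat.mod_lt _ hm0pos
      rw [abs_le]
      rcases hx.2.2 with h | h <;> constructor <;> omega
    · rintro ⟨x, t⟩ hxt ⟨x', t'⟩ hxt' heq
      obtain ⟨hx, ht⟩ := mem_product.1 (Finset.mem_coe.1 hxt)
      obtain ⟨hx', ht'⟩ := mem_product.1 (Finset.mem_coe.1 hxt')
      simp only at hx ht hx' ht' heq
      rw [mem_range] at ht ht'
      have hA : m23A m r G (rs x) = m23A m r G (rs x') := by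
        rw [← key x hx t ht, ← key x' hx' t' ht', heq]
      rw [hX, mem_filter] at hx hx'
      have hu : noise (m 0) r (x z0) < m 0 := Nat.mod_lt _ hm0pos
      have hu' : noise (m 0) r (x' z0) < m 0 := Nat.mod_lt _ hm0pos
      have hnn : noise (m 0) r (x z0) = noise (m 0) r (x' z0) := by
        have h1 := hx.2.2
        have h2 := hx'.2.2
        rw [hA] at h1
        omega
      have hs := noise_spec b (m 0) r hm0pos (x z0) (hx.2.1 z0) t ht
      have hs' := noise_spec b (m 0) r hm0pos (x' z0) (hx'.2.1 z0) t' ht'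
      have hz : setNoise (m 0) r t (x z0) = setNoise (m 0) r t' (x' z0) := by
        have := congrFun heq z0
        rwa [Function.update_self, Function.update_self] at this
      have htt : t = t' := by
        rw [← hs.2.1, ← hs'.2.1, hz]
      have hx0 : x z0 = x' z0 := by
        rw [← hs.2.2.2.1, ← hs.2.2.1 _ hu, hz, hnn, hs'.2.2.1 _ hu', hs'.2.2.2.1]
      have hxx : x = x' := by
        funext g
        by_cases hg : g = z0
        · rw [hg]; exact hx0
        · have := congrFun heq g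
          rwa [Function.update_of_ne hg, Function.update_of_ne hg] at this
      rw [hxx, htt]
  have hYle := m23_small (G := G) (d := d) (b := b) (r := r) (M := M) (m := m) hG hb hM
    (fun g hg => hD.hm g (by omega))
  have hMr : (0 : ℝ) < M := by exact_mod_cast hM
  have hm0r : (M : ℝ) ≤ m 0 := by exact_mod_cast hm0.1
  have hXle : (X.card : ℝ) ≤ 4 ^ ((G + d) * b) * (100 / (M * Real.sqrt (G * b))) := by
    have h1 : (m 0 : ℝ) * X.card ≤ Y.card := by exact_mod_cast hinj
    have h2 : (M : ℝ) * X.card ≤ 4 ^ ((G + d) * b) * (10 / Real.sqrt (G * b)) :=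
      (mul_le_mul_of_nonneg_right hm0r (Nat.cast_nonneg _)).trans (h1.trans hYle)
    have h3 : (X.card : ℝ) ≤ (4 ^ ((G + d) * b) * (10 / Real.sqrt (G * b))) / M := by
      rw [le_div_iff₀ hMr, mul_comm]; exact h2
    refine h3.trans ?_
    rw [mul_div_assoc]
    refine mul_le_mul_of_nonneg_left ?_ (by positivity)
    rw [div_div, mul_comm (Real.sqrt _) (M : ℝ)]
    refine div_le_div_of_nonneg_right (by norm_num) (by positivity)
  have hFle : (F.card : ℝ) ≤ 4 ^ ((G + d) * b) * (((G + d : ℕ) : ℝ) * ε) := by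
    have h1 : (F.card : ℝ) ≤ ∑ g : Fin (G + d),
        ((univ.filter fun x : Fin (G + d) → BS b => frozen (m g) r (x g)).card : ℝ) := by
      exact_mod_cast Finset.card_biUnion_le
    refine h1.trans ?_
    refine (Finset.sum_le_sum fun g _ => m23_frozen hD g).trans (le_of_eq ?_)
    rw [Finset.sum_const, Finset.card_univ, Fintype.card_fin, nsmul_eq_mul]
    ring
  have hfin := (Finset.card_le_card hsub).trans (Finset.card_union_le _ _)
  have hfin' : ((univ.filter fun x : Fin (G + d) → BS b =>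
        (QQ (ys C x) (ls C x) G : ℤ) - PP (ys C x) (ls C x) G = 0 ∨
        (QQ (ys C x) (ls C x) G : ℤ) - PP (ys C x) (ls C x) G = 1).card : ℝ) ≤
      X.card + F.card := by exact_mod_cast hfin
  refine hfin'.trans ((add_le_add hXle hFle).trans (le_of_eq ?_))
  ring

/-- M23: sum of `1 / √(g + 1)` -/
theorem m23_sqrt_sum (n : ℕ) : ∑ g ∈ range n, 1 / Real.sqrt ((g : ℝ) + 1) ≤ 2 * Real.sqrt n := by
  induction n with
  | zero => simp
  | succ n ih =>
    rw [Finset.sum_range_succ]
    push_cast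
    have h1 : (0 : ℝ) ≤ n := Nat.cast_nonneg n
    have ha : 0 ≤ Real.sqrt n := Real.sqrt_nonneg _
    have hb : 0 < Real.sqrt ((n : ℝ) + 1) := Real.sqrt_pos.2 (by linarith)
    have hab : Real.sqrt n ≤ Real.sqrt ((n : ℝ) + 1) := Real.sqrt_le_sqrt (by linarith)
    have hsa : Real.sqrt n * Real.sqrt n = n := Real.mul_self_sqrt h1
    have hsb : Real.sqrt ((n : ℝ) + 1) * Real.sqrt ((n : ℝ) + 1) = n + 1 :=
      Real.mul_self_sqrt (by linarith)
    have h2 : 1 / Real.sqrt ((n : ℝ) + 1) ≤ 2 * (Real.sqrt ((n : ℝ) + 1) - Real.sqrt n) := by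
      rw [div_le_iff₀ hb]
      nlinarith
    linarith

/-- M3: expected number of contacts with window `W`, by `Chain.fiber` for `preChain C g` and M2 -/
theorem contacts {K b r M : ℕ} {m : ℕ → ℕ} {C : ℕ → Chain (BS b)} {ε : ℝ}
    (hD : WordData K b r M m C ε) (W : ℕ) :
    (∑ x : Fin K → BS b, (((range K).filter fun g =>
        |(ys C x g : ℤ) - QQ (ys C x) (ls C x) g| ≤ W).card : ℝ)) ≤
      4 ^ (K * b) * (1 + (2 * W + 1) * (200 / M + K ^ 2 * ε)) := by
  have hswap : (∑ x : Fin K → BS b, (((range K).filter fun g =>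
        |(ys C x g : ℤ) - QQ (ys C x) (ls C x) g| ≤ W).card : ℝ)) =
      ∑ g ∈ range K, ((univ.filter fun x : Fin K → BS b =>
        |(ys C x g : ℤ) - QQ (ys C x) (ls C x) g| ≤ W).card : ℝ) := by
    simp only [Finset.card_filter]
    push_cast
    exact Finset.sum_comm
  rw [hswap]
  have hM : (0 : ℝ) < M := by exact_mod_cast hD.hM
  have hε := hD.hε
  have hbpos : 0 < b := hD.hK.trans_le hD.hKb
  have hbr : (0 : ℝ) < b := by exact_mod_cast hbpos
  obtain ⟨K', hK'⟩ : ∃ K', K = K' + 1 := ⟨K - 1, by have := hD.hK; omega⟩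
  have hrange : ∑ g ∈ range K, ((univ.filter fun x : Fin K → BS b =>
        |(ys C x g : ℤ) - QQ (ys C x) (ls C x) g| ≤ W).card : ℝ) =
      ∑ g ∈ range K', ((univ.filter fun x : Fin K → BS b =>
        |(ys C x (g + 1) : ℤ) - QQ (ys C x) (ls C x) (g + 1)| ≤ W).card : ℝ) +
      ((univ.filter fun x : Fin K → BS b =>
        |(ys C x 0 : ℤ) - QQ (ys C x) (ls C x) 0| ≤ W).card : ℝ) := by
    have := Finset.sum_range_succ' (fun g => ((univ.filter fun x : Fin K → BS b =>
        |(ys C x g : ℤ) - QQ (ys C x) (ls C x) g| ≤ W).card : ℝ)) K'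
    rw [← hK'] at this
    exact this
  rw [hrange]
  have h0 : ((univ.filter fun x : Fin K → BS b =>
        |(ys C x 0 : ℤ) - QQ (ys C x) (ls C x) 0| ≤ W).card : ℝ) ≤ 4 ^ (K * b) := by
    have h1 := Finset.card_le_univ (univ.filter fun x : Fin K → BS b =>
        |(ys C x 0 : ℤ) - QQ (ys C x) (ls C x) 0| ≤ W)
    have h2 : Fintype.card (Fin K → BS b) = 4 ^ (K * b) := by
      rw [Fintype.card_fun, m23_card_BS, Fintype.card_fin, ← pow_mul, mul_comm b K]
    rw [h2] at h1
    exact_mod_cast h1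
  have hg : ∀ g ∈ range K', ((univ.filter fun x : Fin K → BS b =>
        |(ys C x (g + 1) : ℤ) - QQ (ys C x) (ls C x) (g + 1)| ≤ W).card : ℝ) ≤
      (2 * W + 1) * (4 ^ (K * b) * (100 / (M * Real.sqrt b) * (1 / Real.sqrt ((g : ℝ) + 1)) +
        K * ε)) := by
    intro g hg
    rw [mem_range] at hg
    have hgK : g + 1 ≤ K := by omega
    have hgK' : g + 1 < K := by omega
    have h1 := Chain.fiber (preChain C (g + 1) hgK) (fun x => (ys C x (g + 1) : ℤ))
      (by
        intro x t
        show (ys C (pdec C (g + 1) x t) (g + 1) : ℤ) = (ys C x (g + 1) : ℤ)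
        unfold ys
        rw [dif_pos hgK', dif_pos hgK']
        congr 2
        unfold pdec
        rw [if_neg (lt_irrefl _)]) W
    have e1 : (univ.filter fun x : Fin K → BS b =>
        |(ys C x (g + 1) : ℤ) - QQ (ys C x) (ls C x) (g + 1)| ≤ W) =
        (univ.filter fun x => |(((preChain C (g + 1) hgK).l x : ℤ) -
          (preChain C (g + 1) hgK).y x) - (ys C x (g + 1) : ℤ)| ≤ W) := by
      refine Finset.filter_congr fun x _ => ?_
      have e2 : (((preChain C (g + 1) hgK).l x : ℤ) - (preChain C (g + 1) hgK).y x) =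
          QQ (ys C x) (ls C x) (g + 1) := by
        show ((PP (ys C x) (ls C x) (g + 1) + QQ (ys C x) (ls C x) (g + 1) : ℕ) : ℤ) -
          (PP (ys C x) (ls C x) (g + 1) : ℤ) = _
        push_cast
        ring
      rw [e2, abs_sub_comm]
    have e3 : (univ.filter fun x =>
        ((preChain C (g + 1) hgK).l x : ℤ) - 2 * (preChain C (g + 1) hgK).y x = 0 ∨
        ((preChain C (g + 1) hgK).l x : ℤ) - 2 * (preChain C (g + 1) hgK).y x = 1) =
        (univ.filter fun x : Fin K → BS b =>
        (QQ (ys C x) (ls C x) (g + 1) : ℤ) - PP (ys C x) (ls C x) (g + 1) = 0 ∨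
        (QQ (ys C x) (ls C x) (g + 1) : ℤ) - PP (ys C x) (ls C x) (g + 1) = 1) := by
      refine Finset.filter_congr fun x _ => ?_
      have e2 : (((preChain C (g + 1) hgK).l x : ℤ) - 2 * (preChain C (g + 1) hgK).y x) =
          (QQ (ys C x) (ls C x) (g + 1) : ℤ) - PP (ys C x) (ls C x) (g + 1) := by
        show ((PP (ys C x) (ls C x) (g + 1) + QQ (ys C x) (ls C x) (g + 1) : ℕ) : ℤ) -
          2 * (PP (ys C x) (ls C x) (g + 1) : ℤ) = _
        push_cast
        ring
      rw [e2]
    rw [e1]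
    rw [e3] at h1
    have h2 := prefix_window hD (g + 1) (Nat.succ_pos _) hgK
    have h3 : ((univ.filter fun x => |(((preChain C (g + 1) hgK).l x : ℤ) -
          (preChain C (g + 1) hgK).y x) - (ys C x (g + 1) : ℤ)| ≤ W).card : ℝ) ≤
        (2 * W + 1) * ((univ.filter fun x : Fin K → BS b =>
        (QQ (ys C x) (ls C x) (g + 1) : ℤ) - PP (ys C x) (ls C x) (g + 1) = 0 ∨
        (QQ (ys C x) (ls C x) (g + 1) : ℤ) - PP (ys C x) (ls C x) (g + 1) = 1).card : ℝ) := by
      exact_mod_cast h1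
    refine h3.trans ?_
    refine mul_le_mul_of_nonneg_left ?_ (by positivity)
    refine h2.trans (le_of_eq ?_)
    congr 2
    have e4 : Real.sqrt (((g + 1 : ℕ) : ℝ) * b) = Real.sqrt ((g : ℝ) + 1) * Real.sqrt b := by
      push_cast
      exact Real.sqrt_mul (by positivity) _
    rw [e4]
    have hs1 : Real.sqrt ((g : ℝ) + 1) ≠ 0 := (Real.sqrt_pos.2 (by positivity)).ne'
    have hs2 : Real.sqrt (b : ℝ) ≠ 0 := (Real.sqrt_pos.2 hbr).ne'
    field_simp
  have hsum := Finset.sum_le_sum hg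
  rw [← Finset.mul_sum, ← Finset.mul_sum, Finset.sum_add_distrib, ← Finset.mul_sum,
    Finset.sum_const, card_range, nsmul_eq_mul] at hsum
  have hs := m23_sqrt_sum K'
  have hsqrtb : 0 < Real.sqrt (b : ℝ) := Real.sqrt_pos.2 hbr
  have hK'b : Real.sqrt (K' : ℝ) ≤ Real.sqrt b :=
    Real.sqrt_le_sqrt (by
      have : K' ≤ b := by have := hD.hKb; omega
      exact_mod_cast this)
  have h5 : 100 / (M * Real.sqrt b) * ∑ g ∈ range K', 1 / Real.sqrt ((g : ℝ) + 1) ≤ 200 / M := by
    calc 100 / (M * Real.sqrt b) * ∑ g ∈ range K', 1 / Real.sqrt ((g : ℝ) + 1)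
        ≤ 100 / (M * Real.sqrt b) * (2 * Real.sqrt b) :=
          mul_le_mul_of_nonneg_left (by linarith) (by positivity)
      _ = 200 / M := by field_simp; norm_num
  have h6 : (K' : ℝ) * (K * ε) ≤ K ^ 2 * ε := by
    have h7 : (K' : ℝ) ≤ K := by rw [hK']; push_cast; linarith
    have h8 : 0 ≤ (K : ℝ) * ε := mul_nonneg (Nat.cast_nonneg _) hε
    nlinarith
  have h9 : (0 : ℝ) < 4 ^ (K * b) := by positivity
  have h10 : (0 : ℝ) ≤ 2 * (W : ℝ) + 1 := by positivity
  have h11 : (2 * (W : ℝ) + 1) * (4 ^ (K * b) * (100 / (M * Real.sqrt b) *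
      ∑ g ∈ range K', 1 / Real.sqrt ((g : ℝ) + 1) + K' * (K * ε))) ≤
      (2 * (W : ℝ) + 1) * (4 ^ (K * b) * (200 / M + K ^ 2 * ε)) := by
    refine mul_le_mul_of_nonneg_left (mul_le_mul_of_nonneg_left ?_ h9.le) h10
    linarith
  calc _ ≤ (2 * (W : ℝ) + 1) * (4 ^ (K * b) * (200 / M + K ^ 2 * ε)) + 4 ^ (K * b) :=
        add_le_add (hsum.trans h11) h0
    _ = _ := by ring

end BLP
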