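import Pool.Agent.Lib.BLP.CombA
import Pool.Agent.Lib.BLP.CombB

/-!
# Chunk M4: average distortion of the reversal

Fix `x, g, k` and `x' = upd x g k f`; suppose that the block `g` is frozen neither in `x` nor in `x'`
(else use `pdist ≤ K * b`).  By `BlockSpec.pert`, `dcd_lip`, `dcd_count`, `PQ_lip` with
`η = 80 * M`, targets `T = QQ` (`|ΔT| ≤ 800 * M`), the window is `W = 88000 * M`;
`pdist ≤ ∑_{affected blocks} (300 (r + 1) + 300 |Δ| / m)` by `BlockSpec.lip`.  The first count is
`contacts`; the second one is the same for the word `rev C x` (bijection).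
-/

namespace BLP

open Finset

/-- decoding does nothing on a chain of length `0` -/
theorem m4_dec_zero {X : Type*} (C : Chain X) (x : X) (h : C.l x = 0) (t : ℕ) : C.dec x t = x := by
  have h0 : C.y x = 0 := Nat.le_zero.mp (h ▸ C.y_le x)
  have h1 : C.dec x 0 = x := by
    have := C.dec_y x
    rwa [h0] at this
  have h2 := C.dec_y (C.dec x t)
  rw [C.dec_dec, C.y_dec, h, Nat.min_zero, h1] at h2
  exact h2.symm

theorem m4_pdist {K b : ℕ} (x x' : Fin K → BS b) :
    pdist x x' = ∑ g, (univ.filter fun k => x g k ≠ x' g k).card := by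
  unfold pdist
  rw [Finset.card_filter, Fintype.sum_prod_type]
  refine Finset.sum_congr rfl fun g _ => ?_
  rw [Finset.card_filter]

theorem m4_pdist_le {K b : ℕ} (x x' : Fin K → BS b) : pdist x x' ≤ K * b := by
  unfold pdist
  refine (Finset.card_le_univ _).trans ?_
  simp

/-- number of changes in one block -/
theorem m4_block {K b r M : ℕ} {m : ℕ → ℕ} {C : ℕ → Chain (BS b)} {ε : ℝ}
    (hD : WordData K b r M m C ε) (g : ℕ) (hg : g < K) (u u' : BS b) (k0 : Fin b)
    (hu : ∀ k ≠ k0, u' k = u k) (hf : ¬ frozen (m g) r u) (hf' : ¬ frozen (m g) r u')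
    (t t' : ℕ) (ht : t ≤ (C g).l u) (ht' : t' ≤ (C g).l u') :
    ((univ.filter fun k => (C g).dec u' t' k ≠ (C g).dec u t k).card : ℝ) ≤
      300 * (r + 1) + 300 / M * |(t' : ℝ) - t| := by
  have h := (hD.spec g hg).lip u u' k0 t t' hu hf hf' ht ht'
  have h' : ((m g : ℕ) : ℝ) * ((univ.filter fun k => (C g).dec u' t' k ≠ (C g).dec u t k).card : ℝ) ≤
      300 * (m g * (r + 1) + |(t' : ℝ) - t|) := by exact_mod_cast h
  have hM : (0 : ℝ) < M := by exact_mod_cast hD.hM
  have hm : (M : ℝ) ≤ m g := by exact_mod_cast (hD.hm g hg).1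
  have hm0 : (0 : ℝ) < m g := hM.trans_le hm
  have h2 : 300 / (m g : ℝ) * |(t' : ℝ) - t| ≤ 300 / M * |(t' : ℝ) - t| := by
    refine mul_le_mul_of_nonneg_right ?_ (abs_nonneg _)
    exact div_le_div_of_nonneg_left (by norm_num) hM hm
  refine le_trans ?_ (add_le_add_right h2 _)
  rw [← sub_nonneg] at h' ⊢
  have e : 300 * ((r : ℝ) + 1) + 300 / (m g : ℝ) * |(t' : ℝ) - t| -
      ((univ.filter fun k => (C g).dec u' t' k ≠ (C g).dec u t k).card : ℝ) =
      (300 * (m g * ((r : ℝ) + 1) + |(t' : ℝ) - t|) -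
        (m g : ℝ) * ((univ.filter fun k => (C g).dec u' t' k ≠ (C g).dec u t k).card : ℝ)) / m g := by
    field_simp
  rw [e]
  exact div_nonneg h' hm0.le

/-- number of contacts with the window `88000 M` -/
def m4A {K b : ℕ} (C : ℕ → Chain (BS b)) (M : ℕ) (x : Fin K → BS b) : ℕ :=
  ((range K).filter fun g =>
    |(ys C x g : ℤ) - QQ (ys C x) (ls C x) g| ≤ ((88000 * M : ℕ) : ℤ)).card

theorem m4_rev_apply {K b : ℕ} (C : ℕ → Chain (BS b)) (x : Fin K → BS b) (g : Fin K) :
    rev C x g = (C g).dec (x g) (dcd (ys C x) (ls C x) K (QQ (ys C x) (ls C x) K) g) := by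
  unfold rev pdec
  rw [if_pos g.2, Nat.min_eq_left (Nat.le_add_left _ _)]

theorem m4_ys_rev {K b : ℕ} (C : ℕ → Chain (BS b)) (x : Fin K → BS b) (g : ℕ) (hg : g < K) :
    ys C (rev C x) g = dcd (ys C x) (ls C x) K (QQ (ys C x) (ls C x) K) g := by
  unfold rev
  rw [ys_pdec C K le_rfl x _ g hg, Nat.min_eq_left (Nat.le_add_left _ _)]

theorem m4_ls_rev {K b : ℕ} (C : ℕ → Chain (BS b)) (x : Fin K → BS b) (g : ℕ) :
    ls C (rev C x) g = ls C x g := by
  unfold rev
  rw [ls_pdec C K x _ g]

theorem m4_ys_of_ne {K b : ℕ} (C : ℕ → Chain (BS b)) (x : Fin K → BS b) (g0 : Fin K) (k : Fin b)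
    (f : Bool × Bool → Bool × Bool) (g : ℕ) (hg : g < K) (h : g ≠ g0) :
    ys C (upd x g0 k f) g = ys C x g := by
  unfold ys
  rw [dif_pos hg, dif_pos hg]
  have : (⟨g, hg⟩ : Fin K) ≠ g0 := fun e => h (by rw [← e])
  simp [upd, this]

theorem m4_ls_of_ne {K b : ℕ} (C : ℕ → Chain (BS b)) (x : Fin K → BS b) (g0 : Fin K) (k : Fin b)
    (f : Bool × Bool → Bool × Bool) (g : ℕ) (hg : g < K) (h : g ≠ g0) :
    ls C (upd x g0 k f) g = ls C x g := by
  unfold ls
  rw [dif_pos hg, dif_pos hg]
  have : (⟨g, hg⟩ : Fin K) ≠ g0 := fun e => h (by rw [← e])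
  simp [upd, this]

theorem m4_ys_fin {K b : ℕ} (C : ℕ → Chain (BS b)) (x : Fin K → BS b) (g : Fin K) :
    ys C x g = (C g).y (x g) := by
  unfold ys
  rw [dif_pos g.2]

theorem m4_ls_fin {K b : ℕ} (C : ℕ → Chain (BS b)) (x : Fin K → BS b) (g : Fin K) :
    ls C x g = (C g).l (x g) := by
  unfold ls
  rw [dif_pos g.2]

theorem m4_point {K b r M : ℕ} {m : ℕ → ℕ} {C : ℕ → Chain (BS b)} {ε : ℝ}
    (hD : WordData K b r M m C ε) (f : Bool × Bool → Bool × Bool) (x : Fin K → BS b) (g0 : Fin K)
    (k0 : Fin b) (hf : ¬ frozen (m g0) r (x g0)) (hf' : ¬ frozen (m g0) r (upd x g0 k0 f g0)) :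
    (pdist (rev C x) (rev C (upd x g0 k0 f)) : ℝ) ≤
      300 * (r + 1) * (11 + 2 * m4A C M x + 2 * m4A C M (rev C x)) + 26400000 := by
  set x' := upd x g0 k0 f with hx'
  have hxk : ∀ k ≠ k0, x' g0 k = x g0 k := by
    intro k hk
    simp [hx', upd, hk]
  have hxg : ∀ g ≠ g0, x' g = x g := by
    intro g hg
    simp [hx', upd, hg]
  have hp := (hD.spec g0 g0.2).pert (x g0) (x' g0) k0 hxk hf hf'
  have hm4 : ((m g0 : ℕ) : ℤ) ≤ 4 * M := by exact_mod_cast (hD.hm g0 g0.2).2
  have hyq : |(ys C x' g0 : ℤ) - ys C x g0| ≤ ((80 * M : ℕ) : ℤ) := by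
    rw [m4_ys_fin, m4_ys_fin]
    push_cast
    linarith [hp.1]
  have hlq : |(ls C x' g0 : ℤ) - ls C x g0| ≤ ((80 * M : ℕ) : ℤ) := by
    rw [m4_ls_fin, m4_ls_fin]
    push_cast
    linarith [hp.2]
  have hy : ∀ g < K, g ≠ (g0 : ℕ) → ys C x' g = ys C x g := fun g hg h =>
    m4_ys_of_ne C x g0 k0 f g hg h
  have hl : ∀ g < K, g ≠ (g0 : ℕ) → ls C x' g = ls C x g := fun g hg h =>
    m4_ls_of_ne C x g0 k0 f g hg h
  have hyl : ∀ g < K, ys C x g ≤ ls C x g := fun g _ => ys_le C x g
  have hyl' : ∀ g < K, ys C x' g ≤ ls C x' g := fun g _ => ys_le C x' g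
  set y := ys C x with hydef
  set l := ls C x with hldef
  set y' := ys C x' with hydef'
  set l' := ls C x' with hldef'
  set T := QQ y l K with hTdef
  set T' := QQ y' l' K with hTdef'
  have hTT : |(T' : ℤ) - T| ≤ 10 * ((80 * M : ℕ) : ℤ) :=
    (PQ_lip y l y' l' K g0 (80 * M) hyl hyl' g0.2 hy hl hyq hlq).2
  have hT : T ≤ PP y l K + QQ y l K := Nat.le_add_left _ _
  have hT' : T' ≤ PP y' l' K + QQ y' l' K := Nat.le_add_left _ _
  have hlip := dcd_lip y l y' l' K T T' g0 (80 * M) hyl hyl' g0.2 hy hl hyq hlq hT hT'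
  have hcnt := dcd_count y l y' l' K T T' g0 (80 * M) hyl hyl' g0.2 hy hl hyq hlq hT hT'
  have hW : 100 * (((80 * M : ℕ) : ℤ) + |(T' : ℤ) - T|) ≤ ((88000 * M : ℕ) : ℤ) := by
    push_cast at hTT ⊢
    linarith
  have hA1 : ((range K).filter fun g =>
      |(y g : ℤ) - QQ y l g| ≤ 100 * (((80 * M : ℕ) : ℤ) + |(T' : ℤ) - T|)).card ≤ m4A C M x := by
    refine Finset.card_le_card fun g hg => ?_
    simp only [Finset.mem_filter] at hg ⊢
    exact ⟨hg.1, hg.2.trans hW⟩
  have hA2 : ((range K).filter fun g =>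
      |(dcd y l K T g : ℤ) - QQ (dcd y l K T) l g| ≤
        100 * (((80 * M : ℕ) : ℤ) + |(T' : ℤ) - T|)).card ≤ m4A C M (rev C x) := by
    refine Finset.card_le_card fun g hg => ?_
    simp only [Finset.mem_filter, Finset.mem_range] at hg ⊢
    refine ⟨hg.1, ?_⟩
    have e1 : ys C (rev C x) g = dcd y l K T g := m4_ys_rev C x g hg.1
    have e2 : QQ (ys C (rev C x)) (ls C (rev C x)) g = QQ (dcd y l K T) l g :=
      QQ_congr (fun j hj => m4_ys_rev C x j (hj.trans hg.1)) (fun j _ => m4_ls_rev C x j)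
    rw [e1, e2]
    exact hg.2.trans hW
  -- blocks
  have hd : ∀ g < K, dcd y l K T g ≤ l g := by
    intro g hg
    exact dcd_le y l K T hyl hT g hg
  have hd' : ∀ g < K, dcd y' l' K T' g ≤ l' g := by
    intro g hg
    exact dcd_le y' l' K T' hyl' hT' g hg
  have hM0 : (0 : ℝ) < M := by exact_mod_cast hD.hM
  have hblock : ∀ g : Fin K, ((univ.filter fun k => rev C x g k ≠ rev C x' g k).card : ℝ) ≤
      (if g = g0 then 300 * ((r : ℝ) + 1) else 0) +
      (if dcd y' l' K T' g ≠ dcd y l K T g then 300 * ((r : ℝ) + 1) else 0) +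
      300 / M * |(dcd y' l' K T' g : ℝ) - dcd y l K T g| := by
    intro g
    have hr0 : (0 : ℝ) ≤ 300 * ((r : ℝ) + 1) := by positivity
    have hnn : (0 : ℝ) ≤ 300 / M * |(dcd y' l' K T' g : ℝ) - dcd y l K T g| := by positivity
    have hsw : (univ.filter fun k => rev C x g k ≠ rev C x' g k) =
        (univ.filter fun k => (C g).dec (x' g) (dcd y' l' K T' g) k ≠
          (C g).dec (x g) (dcd y l K T g) k) := by
      refine Finset.filter_congr fun k _ => ?_
      rw [m4_rev_apply, m4_rev_apply]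
      exact ne_comm
    rw [hsw]
    by_cases hg : g = g0
    · subst hg
      rw [if_pos rfl]
      have h := m4_block hD g g.2 (x g) (x' g) k0 hxk hf hf' (dcd y l K T g) (dcd y' l' K T' g)
        ((hd g g.2).trans_eq (m4_ls_fin C x g)) ((hd' g g.2).trans_eq (m4_ls_fin C x' g))
      split_ifs <;> linarith
    · rw [if_neg hg]
      have hxx := hxg g hg
      rw [hxx]
      by_cases hfr : frozen (m g) r (x g)
      · have h0 := ((hD.spec g g.2).val_frozen (x g) hfr).2
        have : (univ.filter fun k => (C g).dec (x g) (dcd y' l' K T' g) k ≠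
          (C g).dec (x g) (dcd y l K T g) k) = ∅ := by
          refine Finset.filter_eq_empty_iff.mpr fun k _ => ?_
          rw [m4_dec_zero _ _ h0, m4_dec_zero _ _ h0]
          exact fun h => h rfl
        rw [this]
        simp only [Finset.card_empty, Nat.cast_zero]
        split_ifs <;> linarith
      · by_cases ht : dcd y' l' K T' g = dcd y l K T g
        · rw [ht]
          simp
        · rw [if_pos ht]
          have hb : l' g = l g := hl g g.2 (fun e => hg (Fin.ext e))
          have h := m4_block hD g g.2 (x g) (x g) k0 (fun _ _ => rfl) hfr hfr (dcd y l K T g)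
            (dcd y' l' K T' g) ((hd g g.2).trans_eq (m4_ls_fin C x g))
            (((hd' g g.2).trans_eq hb).trans_eq (m4_ls_fin C x g))
          linarith
  have hsum : (pdist (rev C x) (rev C x') : ℝ) ≤
      300 * ((r : ℝ) + 1) + 300 * ((r : ℝ) + 1) *
        ((range K).filter fun g => dcd y' l' K T' g ≠ dcd y l K T g).card +
      300 / M * ((∑ g ∈ range K, |(dcd y' l' K T' g : ℤ) - dcd y l K T g| : ℤ) : ℝ) := by
    rw [m4_pdist]
    push_cast
    refine (Finset.sum_le_sum fun g _ => hblock g).trans (le_of_eq ?_)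
    rw [Finset.sum_add_distrib, Finset.sum_add_distrib]
    congr 1
    · congr 1
      · rw [Finset.sum_ite_eq' univ g0]
        simp
      · rw [Finset.card_filter]
        push_cast
        rw [← Fin.sum_univ_eq_sum_range (fun g => (if dcd y' l' K T' g ≠ dcd y l K T g
          then (1 : ℝ) else 0)) K, Finset.mul_sum]
        refine Finset.sum_congr rfl fun g _ => ?_
        split_ifs <;> simp
    · rw [← Fin.sum_univ_eq_sum_range (fun g => |(dcd y' l' K T' g : ℝ) - dcd y l K T g|) K,
        Finset.mul_sum]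
  have hlip' : ((∑ g ∈ range K, |(dcd y' l' K T' g : ℤ) - dcd y l K T g| : ℤ) : ℝ) ≤
      88000 * M := by
    have := hlip.trans hW
    exact_mod_cast this
  have hcnt' : (((range K).filter fun g => dcd y' l' K T' g ≠ dcd y l K T g).card : ℝ) ≤
      10 + 2 * m4A C M x + 2 * m4A C M (rev C x) := by
    have : ((range K).filter fun g => dcd y' l' K T' g ≠ dcd y l K T g).card ≤
      10 + 2 * m4A C M x + 2 * m4A C M (rev C x) := by omega
    exact_mod_cast this
  have h3 : 300 / (M : ℝ) * ((∑ g ∈ range K, |(dcd y' l' K T' g : ℤ) - dcd y l K T g| : ℤ) : ℝ) ≤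
      26400000 := by
    refine (mul_le_mul_of_nonneg_left hlip' (by positivity)).trans (le_of_eq ?_)
    field_simp
    norm_num
  have h4 := mul_le_mul_of_nonneg_left hcnt' (show (0 : ℝ) ≤ 300 * ((r : ℝ) + 1) by positivity)
  nlinarith [hsum, h3, h4]

theorem m4_upd_upd {K b : ℕ} (f : Bool × Bool → Bool × Bool) (hf : ∀ p, f (f p) = p)
    (x : Fin K → BS b) (g : Fin K) (k : Fin b) : upd (upd x g k f) g k f = x := by
  funext g' k'
  unfold upd
  by_cases hg : g' = g
  · subst hg
    by_cases hk : k' = k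
    · subst hk
      simp [hf]
    · simp [hk]
  · simp [hg]

/-- number of words with frozen block `g` -/
theorem m4_frozen {K b r M : ℕ} {m : ℕ → ℕ} {C : ℕ → Chain (BS b)} {ε : ℝ}
    (hD : WordData K b r M m C ε) (g : Fin K) :
    ∑ x : Fin K → BS b, ind (frozen (m g) r (x g)) ≤ 4 ^ (K * b) * ε := by
  classical
  rw [sum_ind]
  have h1 : (univ.filter fun x : Fin K → BS b => frozen (m g) r (x g)) =
      Fintype.piFinset (Function.update (fun _ : Fin K => (univ : Finset (BS b))) g
        (univ.filter fun z => frozen (m g) r z)) := by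
    ext x
    simp only [Finset.mem_filter, Finset.mem_univ, true_and, Fintype.mem_piFinset]
    constructor
    · intro h g'
      by_cases hg : g' = g
      · subst hg; simpa using h
      · simp [hg]
    · intro h
      simpa using h g
  rw [h1, Fintype.card_piFinset]
  have h2 : ∏ a : Fin K, (Function.update (fun _ : Fin K => (univ : Finset (BS b))) g
        (univ.filter fun z => frozen (m g) r z) a).card =
      (univ.filter fun z : BS b => frozen (m g) r z).card * (4 ^ b) ^ (K - 1) := by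
    rw [← Finset.mul_prod_erase _ _ (Finset.mem_univ g)]
    rw [Function.update_self]
    congr 1
    rw [Finset.prod_congr rfl (g := fun _ => 4 ^ b)]
    · rw [Finset.prod_const, Finset.card_erase_of_mem (Finset.mem_univ g)]
      simp
    · intro a ha
      rw [Function.update_of_ne (Finset.ne_of_mem_erase ha)]
      simp
  rw [h2]
  push_cast
  have hf := hD.froz g g.2
  calc ((univ.filter fun z : BS b => frozen (m g) r z).card : ℝ) * ((4 : ℝ) ^ b) ^ (K - 1)
      ≤ (4 ^ b * ε) * ((4 : ℝ) ^ b) ^ (K - 1) := mul_le_mul_of_nonneg_right hf (by positivity)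
    _ = ((4 : ℝ) ^ b) ^ (K - 1 + 1) * ε := by ring
    _ = 4 ^ (K * b) * ε := by
      rw [Nat.sub_add_cancel hD.hK, ← pow_mul, mul_comm b K]

/-- M4: average distortion of the reversal under the change of one pair -/
theorem rev_lip {K b r M : ℕ} {m : ℕ → ℕ} {C : ℕ → Chain (BS b)} {ε : ℝ}
    (hD : WordData K b r M m C ε) (f : Bool × Bool → Bool × Bool) (hf : ∀ p, f (f p) = p) :
    (∑ x : Fin K → BS b, ∑ g : Fin K, ∑ k : Fin b, (pdist (rev C x) (rev C (upd x g k f)) : ℝ)) ≤
      4 ^ (K * b) * (10 ^ 12 * (r + 1) * (K * b) * (1 + K ^ 2 * M * ε)) +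
        4 ^ (K * b) * (2 * ε * (K * b) ^ 2) := by
  classical
  have hpt : ∀ (x : Fin K → BS b) (g : Fin K) (k : Fin b),
      (pdist (rev C x) (rev C (upd x g k f)) : ℝ) ≤
        (K * b) * ind (frozen (m g) r (x g)) + (K * b) * ind (frozen (m g) r (upd x g k f g)) +
        (300 * (r + 1) * (11 + 2 * m4A C M x + 2 * m4A C M (rev C x)) + 26400000) := by
    intro x g k
    have h0 : (0 : ℝ) ≤ 300 * (r + 1) * (11 + 2 * m4A C M x + 2 * m4A C M (rev C x)) + 26400000 := by
      positivity
    have hle : (pdist (rev C x) (rev C (upd x g k f)) : ℝ) ≤ K * b := by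
      exact_mod_cast m4_pdist_le _ _
    have hKb : (0 : ℝ) ≤ (K : ℝ) * b := by positivity
    by_cases h1 : frozen (m g) r (x g)
    · rw [ind_true h1]
      have := mul_nonneg hKb (ind_nonneg (frozen (m g) r (upd x g k f g)))
      linarith
    · by_cases h2 : frozen (m g) r (upd x g k f g)
      · rw [ind_true h2]
        have := mul_nonneg hKb (ind_nonneg (frozen (m g) r (x g)))
        linarith
      · rw [ind_false h1, ind_false h2]
        have := m4_point hD f x g k h1 h2
        linarith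
  -- sums
  have hcard : (Fintype.card (Fin K → BS b) : ℝ) = 4 ^ (K * b) := by
    have : Fintype.card (Fin K → BS b) = 4 ^ (K * b) := by
      simp only [Fintype.card_pi, Fintype.card_prod, Fintype.card_bool, Finset.prod_const,
        Finset.card_univ, Fintype.card_fin]
      rw [← pow_mul, mul_comm b K]
    rw [this]; push_cast; ring
  have hfz : ∀ (g : Fin K) (k : Fin b),
      ∑ x : Fin K → BS b, ind (frozen (m g) r (upd x g k f g)) ≤ 4 ^ (K * b) * ε := by
    intro g k
    have hinv : Function.Involutive (fun x : Fin K → BS b => upd x g k f) := fun x =>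
      m4_upd_upd f hf x g k
    have := Equiv.sum_comp (hinv.toPerm _) (fun x : Fin K → BS b => ind (frozen (m g) r (x g)))
    simp only [Function.Involutive.coe_toPerm] at this
    rw [this]
    exact m4_frozen hD g
  have hrev : ∑ x : Fin K → BS b, (m4A C M (rev C x) : ℝ) = ∑ x : Fin K → BS b, (m4A C M x : ℝ) := by
    have hinv : Function.Involutive (fun x : Fin K → BS b => rev C x) := fun x => rev_rev C x
    have := Equiv.sum_comp (hinv.toPerm _) (fun x : Fin K → BS b => (m4A C M x : ℝ))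
    simpa only [Function.Involutive.coe_toPerm] using this
  have hcon : ∑ x : Fin K → BS b, (m4A C M x : ℝ) ≤
      4 ^ (K * b) * (1 + (2 * ((88000 * M : ℕ) : ℝ) + 1) * (200 / M + K ^ 2 * ε)) :=
    contacts hD (88000 * M)
  have hM1 : (1 : ℝ) ≤ M := by exact_mod_cast hD.hM
  have hM0 : (0 : ℝ) < M := by linarith
  have hε := hD.hε
  have hX : (0 : ℝ) ≤ K ^ 2 * M * ε := by positivity
  have h4 : (0 : ℝ) < 4 ^ (K * b) := by positivity
  have hcon2 : ∑ x : Fin K → BS b, (m4A C M x : ℝ) ≤
      4 ^ (K * b) * (36000000 * (1 + K ^ 2 * M * ε)) := by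
    refine hcon.trans (mul_le_mul_of_nonneg_left ?_ h4.le)
    push_cast
    have e1 : (2 * (88000 * (M : ℝ)) + 1) * (200 / M + K ^ 2 * ε) ≤
        176001 * M * (200 / M + K ^ 2 * ε) := by
      refine mul_le_mul_of_nonneg_right (by linarith) (by positivity)
    have e2 : 176001 * (M : ℝ) * (200 / M + K ^ 2 * ε) = 35200200 + 176001 * (K ^ 2 * M * ε) := by
      field_simp
      ring
    linarith
  set S : ℝ := ∑ x : Fin K → BS b, (m4A C M x : ℝ) with hS
  have hKb : (0 : ℝ) ≤ (K : ℝ) * b := by positivity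
  calc (∑ x : Fin K → BS b, ∑ g : Fin K, ∑ k : Fin b,
        (pdist (rev C x) (rev C (upd x g k f)) : ℝ))
      ≤ ∑ x : Fin K → BS b, ∑ g : Fin K, ∑ k : Fin b,
        ((K * b) * ind (frozen (m g) r (x g)) + (K * b) * ind (frozen (m g) r (upd x g k f g)) +
        (300 * (r + 1) * (11 + 2 * m4A C M x + 2 * m4A C M (rev C x)) + 26400000)) :=
        Finset.sum_le_sum fun x _ => Finset.sum_le_sum fun g _ => Finset.sum_le_sum fun k _ =>
          hpt x g k
    _ = (∑ g : Fin K, ∑ k : Fin b, (K * b) * ∑ x : Fin K → BS b, ind (frozen (m g) r (x g))) +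
        (∑ g : Fin K, ∑ k : Fin b, (K * b) *
          ∑ x : Fin K → BS b, ind (frozen (m g) r (upd x g k f g))) +
        (K * b) * (300 * (r + 1) * (11 * Fintype.card (Fin K → BS b) + 2 * S +
          2 * ∑ x : Fin K → BS b, (m4A C M (rev C x) : ℝ)) +
          26400000 * Fintype.card (Fin K → BS b)) := by
        have e1 : ∀ F : (Fin K → BS b) → Fin K → Fin b → ℝ,
            ∑ x, ∑ g, ∑ k, F x g k = ∑ g, ∑ k, ∑ x, F x g k := by
          intro F
          rw [Finset.sum_comm]
          refine Finset.sum_congr rfl fun g _ => ?_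
          rw [Finset.sum_comm]
        rw [e1]
        simp_rw [Finset.sum_add_distrib]
        congr 1
        · congr 1
          · refine Finset.sum_congr rfl fun g _ => Finset.sum_congr rfl fun k _ => ?_
            rw [Finset.mul_sum]
          · refine Finset.sum_congr rfl fun g _ => Finset.sum_congr rfl fun k _ => ?_
            rw [Finset.mul_sum]
        · have e2 : ∑ x : Fin K → BS b,
              300 * ((r : ℝ) + 1) * (11 + 2 * (m4A C M x : ℝ) + 2 * (m4A C M (rev C x) : ℝ)) =
              300 * ((r : ℝ) + 1) * (11 * Fintype.card (Fin K → BS b) + 2 * S +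
                2 * ∑ x : Fin K → BS b, (m4A C M (rev C x) : ℝ)) := by
            rw [← Finset.mul_sum, Finset.sum_add_distrib, Finset.sum_add_distrib, Finset.sum_const,
              ← Finset.mul_sum, ← Finset.mul_sum, Finset.card_univ, nsmul_eq_mul]
            ring
          simp_rw [e2, Finset.sum_const, Finset.card_univ, Fintype.card_fin, nsmul_eq_mul]
          ring
    _ ≤ (∑ g : Fin K, ∑ k : Fin b, (K * b) * (4 ^ (K * b) * ε)) +
        (∑ g : Fin K, ∑ k : Fin b, (K * b) * (4 ^ (K * b) * ε)) +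
        (K * b) * (300 * (r + 1) * (11 * 4 ^ (K * b) +
          4 * (4 ^ (K * b) * (36000000 * (1 + K ^ 2 * M * ε)))) + 26400000 * 4 ^ (K * b)) := by
        rw [hrev, hcard]
        refine add_le_add (add_le_add ?_ ?_) ?_
        · exact Finset.sum_le_sum fun g _ => Finset.sum_le_sum fun k _ =>
            mul_le_mul_of_nonneg_left (m4_frozen hD g) hKb
        · exact Finset.sum_le_sum fun g _ => Finset.sum_le_sum fun k _ =>
            mul_le_mul_of_nonneg_left (hfz g k) hKb
        · refine mul_le_mul_of_nonneg_left ?_ hKb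
          have : (300 * ((r : ℝ) + 1)) * (11 * 4 ^ (K * b) + 2 * S + 2 * S) ≤
            (300 * ((r : ℝ) + 1)) * (11 * 4 ^ (K * b) +
              4 * (4 ^ (K * b) * (36000000 * (1 + K ^ 2 * M * ε)))) := by
            refine mul_le_mul_of_nonneg_left (by linarith) (by positivity)
          linarith
    _ ≤ _ := by
        simp only [Finset.sum_const, Finset.card_univ, Fintype.card_fin, nsmul_eq_mul]
        have hr : (1 : ℝ) ≤ (r : ℝ) + 1 := by
          have : (0 : ℝ) ≤ r := by positivity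
          linarith
        have h1X : (1 : ℝ) ≤ 1 + K ^ 2 * M * ε := by linarith
        have hr1 : (1 : ℝ) ≤ ((r : ℝ) + 1) * (1 + K ^ 2 * M * ε) := one_le_mul_of_one_le_of_one_le hr h1X
        have hr2 : ((r : ℝ) + 1) ≤ ((r : ℝ) + 1) * (1 + K ^ 2 * M * ε) :=
          le_mul_of_one_le_right (by linarith) h1X
        have key : (300 * ((r : ℝ) + 1) * (11 * 4 ^ (K * b) +
          4 * (4 ^ (K * b) * (36000000 * (1 + K ^ 2 * M * ε)))) + 26400000 * 4 ^ (K * b)) ≤
            4 ^ (K * b) * (10 ^ 12 * ((r : ℝ) + 1) * (1 + K ^ 2 * M * ε)) := by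
          have : (3300 * ((r : ℝ) + 1) + 43200000000 * (((r : ℝ) + 1) * (1 + K ^ 2 * M * ε)) +
              26400000) ≤ 10 ^ 12 * (((r : ℝ) + 1) * (1 + K ^ 2 * M * ε)) := by
            linarith
          have := mul_le_mul_of_nonneg_left this h4.le
          nlinarith [this]
        have := mul_le_mul_of_nonneg_left key hKb
        nlinarith [this]

end BLP
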