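import Pool.Agent.Lib.BLP.CombD

/-!
# Chunk M0, M1: value and displacement of the reversal
-/

namespace BLP

open Finset

/-- M0: value of the word -/
theorem zz_word {K b r M : ℕ} {m : ℕ → ℕ} {C : ℕ → Chain (BS b)} {ε : ℝ}
    (hD : WordData K b r M m C ε) (x : Fin K → BS b) :
    zz C x = ∑ g : Fin K, (if frozen (m g) r (x g) then (0 : ℤ) else
      (m g : ℤ) * vsum (x g) + (m g - 1 - 2 * (noise (m g) r (x g) : ℤ))) := by
  rw [zz_eq]
  refine Finset.sum_congr rfl fun g _ => ?_
  by_cases h : frozen (m g) r (x g)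
  · rw [if_pos h]
    obtain ⟨h1, h2⟩ := (hD.spec g g.2).val_frozen (x g) h
    rw [h1, h2]
    simp
  · rw [if_neg h]
    exact (hD.spec g g.2).val (x g) h

/-- M1: displacement of the reversal -/
theorem rev_disp {K b r M : ℕ} {m : ℕ → ℕ} {C : ℕ → Chain (BS b)} {ε : ℝ}
    (hD : WordData K b r M m C ε) (x : Fin K → BS b) :
    (pdist x (rev C x) : ℝ) ≤ 100000 * (|(zz C x : ℝ)| / M + (r + 1) * K) := by
  have hb : 0 < b := lt_of_lt_of_le hD.hK hD.hKb
  have hM : (0 : ℝ) < M := by exact_mod_cast hD.hM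
  set y := ys C x with hy
  set l := ls C x with hl
  have hyl : ∀ g < K, y g ≤ l g := fun g _ => ys_le C x g
  have hT : PP y l K ≤ PP y l K + QQ y l K := Nat.le_add_right _ _
  have hT' : QQ y l K ≤ PP y l K + QQ y l K := Nat.le_add_left _ _
  have hmin : min (QQ y l K) (PP y l K + QQ y l K) = QQ y l K := min_eq_left hT'
  have h1 := dcd_lip y l y l K (PP y l K) (QQ y l K) 0 0 hyl hyl hD.hK (fun _ _ _ => rfl)
    (fun _ _ _ => rfl) (by simp) (by simp) hT hT'
  have e1 : pdist x (rev C x) = ∑ g : Fin K, (univ.filter fun k => x g k ≠ rev C x g k).card := by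
    unfold pdist
    rw [Finset.card_filter, Fintype.sum_prod_type]
    refine Finset.sum_congr rfl fun g _ => ?_
    rw [Finset.card_filter]
  have key : ∀ g : Fin K, ((univ.filter fun k => x g k ≠ rev C x g k).card : ℝ) ≤
      300 * (r + 1) + 300 * ((|(dcd y l K (QQ y l K) g : ℤ) - dcd y l K (PP y l K) g| : ℤ) : ℝ) / M := by
    intro g
    have hd : (0 : ℝ) ≤ ((|(dcd y l K (QQ y l K) g : ℤ) - dcd y l K (PP y l K) g| : ℤ) : ℝ) := by
      exact_mod_cast abs_nonneg _
    have hrev : rev C x g = (C g).dec (x g) (dcd y l K (QQ y l K) g) := by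
      unfold rev pdec
      rw [if_pos g.2]
      rw [← hy, ← hl, hmin]
    have hyg : (C g).y (x g) = y g := by rw [hy]; unfold ys; rw [dif_pos g.2]
    have hlg : (C g).l (x g) = l g := by rw [hl]; unfold ls; rw [dif_pos g.2]
    by_cases hf : frozen (m g) r (x g)
    · obtain ⟨h2, h3⟩ := (hD.spec g g.2).val_frozen (x g) hf
      have h4 : rev C x g = x g := by
        rw [hrev, dec_min, h3]
        have h5 := (C g).dec_y (x g)
        rw [h2] at h5
        rw [Nat.min_zero]
        exact h5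
      have h6 : (univ.filter fun k => x g k ≠ rev C x g k).card = 0 := by
        rw [h4]
        simp
      rw [h6]
      push_cast
      positivity
    · have h2 := (hD.spec g g.2).lip (x g) (x g) ⟨0, hb⟩ (y g) (dcd y l K (QQ y l K) g)
        (fun _ _ => rfl) hf hf (by rw [hlg]; exact hyl g g.2)
        (by rw [hlg]; exact dcd_le y l K _ hyl hT' g g.2)
      have h3 : (C g).dec (x g) (y g) = x g := by rw [← hyg]; exact (C g).dec_y (x g)
      rw [h3, ← hrev] at h2
      have h4 : (univ.filter fun k => rev C x g k ≠ x g k) =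
          univ.filter fun k => x g k ≠ rev C x g k := by
        refine Finset.filter_congr fun k _ => ?_
        exact ne_comm
      rw [h4] at h2
      rw [dcd_self y l K hyl g g.2]
      have hm1 := (hD.hm g g.2).1
      have hmg : (M : ℝ) ≤ m g := by exact_mod_cast hm1
      have hmp : (0 : ℝ) < m g := lt_of_lt_of_le hM hmg
      have h5 : (m g : ℝ) * ((univ.filter fun k => x g k ≠ rev C x g k).card : ℝ) ≤
          300 * (m g * (r + 1) + ((|(dcd y l K (QQ y l K) g : ℤ) - y g| : ℤ) : ℝ)) := by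
        exact_mod_cast h2
      have hd' : (0 : ℝ) ≤ ((|(dcd y l K (QQ y l K) g : ℤ) - y g| : ℤ) : ℝ) := by
        exact_mod_cast abs_nonneg _
      have h6 : ((univ.filter fun k => x g k ≠ rev C x g k).card : ℝ) ≤
          300 * (r + 1) + 300 * ((|(dcd y l K (QQ y l K) g : ℤ) - y g| : ℤ) : ℝ) / m g := by
        rw [← sub_le_iff_le_add', le_div_iff₀ hmp]
        linarith
      refine h6.trans ?_
      have : 300 * ((|(dcd y l K (QQ y l K) g : ℤ) - y g| : ℤ) : ℝ) / m g ≤
          300 * ((|(dcd y l K (QQ y l K) g : ℤ) - y g| : ℤ) : ℝ) / M := by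
        apply div_le_div_of_nonneg_left (by positivity) hM hmg
      linarith
  rw [e1]
  push_cast
  refine (Finset.sum_le_sum fun g _ => key g).trans ?_
  rw [Finset.sum_add_distrib, Finset.sum_const, Finset.card_univ, Fintype.card_fin, nsmul_eq_mul,
    ← Finset.sum_div, ← Finset.mul_sum]
  have h2 : (∑ g : Fin K, ((|(dcd y l K (QQ y l K) g : ℤ) - dcd y l K (PP y l K) g| : ℤ) : ℝ)) ≤
      100 * |(zz C x : ℝ)| := by
    rw [Finset.sum_range fun g => |(dcd y l K (QQ y l K) g : ℤ) - dcd y l K (PP y l K) g|] at h1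
    have h3 : (∑ g : Fin K, ((|(dcd y l K (QQ y l K) g : ℤ) - dcd y l K (PP y l K) g| : ℤ) : ℝ)) ≤
        ((100 * ((0 : ℕ) + |(QQ y l K : ℤ) - PP y l K|) : ℤ) : ℝ) := by
      exact_mod_cast h1
    refine h3.trans (le_of_eq ?_)
    unfold zz
    push_cast
    ring
  have h3 : 300 * (∑ g : Fin K,
      ((|(dcd y l K (QQ y l K) g : ℤ) - dcd y l K (PP y l K) g| : ℤ) : ℝ)) / M ≤
      30000 * (|(zz C x : ℝ)| / M) := by
    rw [mul_div_assoc, show 30000 * (|(zz C x : ℝ)| / M) = 300 * (100 * |(zz C x : ℝ)| / M) by ring]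
    apply mul_le_mul_of_nonneg_left _ (by norm_num)
    exact div_le_div_of_nonneg_right h2 hM.le
  have h4 : (0 : ℝ) ≤ |(zz C x : ℝ)| / M := by positivity
  have h5 : (0 : ℝ) ≤ (r + 1) * K := by positivity
  calc _ ≤ (K : ℝ) * (300 * (r + 1)) + 30000 * (|(zz C x : ℝ)| / M) := by linarith
    _ ≤ _ := by nlinarith

end BLP
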