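import Pool.Agent.Lib.BLP.CombD
import Pool.Agent.Lib.BLP.Conc2

/-!
# Chunk M5: anticoncentration of the word
-/

namespace BLP

open Finset

/-- M5: real form of `vsum` -/
theorem m5_vsum {b : ℕ} (x : BS b) :
    (vsum x : ℝ) = ∑ k, if (x k).1 = true then sg (x k).2 else 0 := by
  unfold vsum
  push_cast
  refine Finset.sum_congr rfl fun k _ => ?_
  by_cases h : (x k).1 = true
  · rw [if_pos h, if_pos h]
    unfold sg
    by_cases h2 : (x k).2 = true
    · rw [if_pos h2]
    · rw [if_neg h2]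
  · rw [if_neg h, if_neg h]

/-- M5, general form: window of length `2 u` for blocks of weights `α g` -/
theorem m5_window {K b : ℕ} (hK : 0 < K) (hb : 0 < b) (α : Fin K → ℝ) {α0 : ℝ} (h0 : 0 < α0)
    (hα : ∀ g, α0 ≤ |α g|) (N : (Fin K → BS b) → ℝ)
    (hN : ∀ x x' : Fin K → BS b, (∀ g k, (x g k).1 = (x' g k).1) →
      (∀ g k, (x g k).1 = false → x g k = x' g k) → N x = N x') (c u : ℝ) (hu : 0 ≤ u) :
    ∑ x : Fin K → BS b, ind (|∑ g, α g * (vsum (x g) : ℝ) + N x - c| ≤ u) ≤
      4 ^ (K * b) * ((u / α0 + 1) * (2 / Real.sqrt (K * b))) := by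
  have : Nonempty (Fin K × Fin b) := ⟨(⟨0, hK⟩, ⟨0, hb⟩)⟩
  have h := ac_window (κ := Fin K × Fin b) (fun p => α p.1) h0 (fun p => hα p.1)
    (fun z => N (fun g k => z (g, k)))
    (fun z z' h1 h2 => hN _ _ (fun g k => h1 (g, k)) (fun g k => h2 (g, k))) c u hu
  have hcard : Fintype.card (Fin K × Fin b) = K * b := by simp
  rw [hcard] at h
  push_cast at h
  refine le_trans (le_of_eq ?_) h
  rw [← Equiv.sum_comp (Equiv.curry (Fin K) (Fin b) (Bool × Bool))]
  refine Finset.sum_congr rfl fun z _ => ?_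
  have e : ∑ g, α g * (vsum (Equiv.curry (Fin K) (Fin b) (Bool × Bool) z g) : ℝ) =
      ∑ p : Fin K × Fin b, if (z p).1 = true then α p.1 * sg (z p).2 else 0 := by
    rw [Fintype.sum_prod_type]
    refine Finset.sum_congr rfl fun g _ => ?_
    rw [m5_vsum, Finset.mul_sum]
    refine Finset.sum_congr rfl fun k _ => ?_
    show α g * (if (z (g, k)).1 = true then sg (z (g, k)).2 else 0) = _
    rw [mul_ite, mul_zero]
  rw [e]
  rfl

/-- M5: anticoncentration of the word: `N` is any function of the types and of the values of the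
`PM`-letters (use `ac_window` with `κ = Fin K × Fin b`, `α = 2 w`). -/
theorem word_window {K b : ℕ} (hK : 0 < K) (hb : 0 < b) (w : Fin K → ℝ)
    (hw : ∀ g, 1 / 2 ≤ w g) (N : (Fin K → BS b) → ℝ)
    (hN : ∀ x x' : Fin K → BS b, (∀ g k, (x g k).1 = (x' g k).1) →
      (∀ g k, (x g k).1 = false → x g k = x' g k) → N x = N x') (c : ℝ) :
    ∑ x : Fin K → BS b, ind (|∑ g, 2 * w g * (vsum (x g) : ℝ) + N x - c| ≤ 1) ≤
      4 ^ (K * b) * (4 / Real.sqrt (K * b)) := by
  have h := m5_window hK hb (fun g => 2 * w g) (α0 := 1) one_pos (fun g => by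
    have := hw g
    rw [abs_of_nonneg (by linarith)]
    linarith) N hN c 1 zero_le_one
  refine h.trans (le_of_eq ?_)
  ring

end BLP
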