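import Pool.Agent.Lib.BLP.Block

/-!
# The reversal of the word of `K` blocks of `b` pairs: definitions

Standing data: `K ≤ b`, weights `M ≤ m g ≤ 4 * M` (`M > 0`), chain decompositions `C g` of the
blocks with `BlockSpec b (m g) r (C g)`, and `ε` with `#frozen ≤ ε * 4 ^ b` for all blocks.
-/

namespace BLP

open Finset

/-- change of the state of one pair by the map `f` -/
def upd {K b : ℕ} (x : Fin K → BS b) (g : Fin K) (k : Fin b) (f : Bool × Bool → Bool × Bool) :
    Fin K → BS b :=
  Function.update x g (Function.update (x g) k (f (x g k)))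

/-- number of pairs with different states -/
def pdist {K b : ℕ} (x x' : Fin K → BS b) : ℕ :=
  (univ.filter fun p : Fin K × Fin b => x p.1 p.2 ≠ x' p.1 p.2).card

/-- the standing data -/
structure WordData (K b r M : ℕ) (m : ℕ → ℕ) (C : ℕ → Chain (BS b)) (ε : ℝ) : Prop where
  hK : 0 < K
  hKb : K ≤ b
  hM : 0 < M
  hm : ∀ g < K, M ≤ m g ∧ m g ≤ 4 * M
  spec : ∀ g < K, BlockSpec b (m g) r (C g)
  hε : 0 ≤ ε
  froz : ∀ g < K, ((univ.filter fun x : BS b => frozen (m g) r x).card : ℝ) ≤ 4 ^ b * ε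

end BLP
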