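import Mathlib

/-!
# BLP: polylogarithmic average stretch for all balanced halfspaces (MP_058dd4_co, Q2)

Basic definitions.  See `README.md` in this folder for the whole proof.
-/

namespace BLP

open Finset

/-- sign of a Boolean: `true = +1` -/
def sg (b : Bool) : ℝ := if b then 1 else -1

/-- 0/1 indicator of a proposition -/
noncomputable def ind (p : Prop) : ℝ := by classical exact if p then 1 else 0

theorem ind_true {p : Prop} (h : p) : ind p = 1 := by simp [ind, h]
theorem ind_false {p : Prop} (h : ¬ p) : ind p = 0 := by simp [ind, h]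
theorem ind_nonneg (p : Prop) : 0 ≤ ind p := by
  by_cases h : p
  · rw [ind_true h]; norm_num
  · rw [ind_false h]
theorem ind_le_one (p : Prop) : ind p ≤ 1 := by
  by_cases h : p
  · rw [ind_true h]
  · rw [ind_false h]; norm_num
theorem ind_mono {p q : Prop} (h : p → q) : ind p ≤ ind q := by
  by_cases hp : p
  · rw [ind_true hp, ind_true (h hp)]
  · rw [ind_false hp]; exact ind_nonneg q
theorem ind_congr {p q : Prop} (h : p ↔ q) : ind p = ind q := by rw [propext h]
theorem ind_or_le (p q : Prop) : ind (p ∨ q) ≤ ind p + ind q := by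
  by_cases hp : p
  · rw [ind_true (Or.inl hp), ind_true hp]; linarith [ind_nonneg q]
  · by_cases hq : q
    · rw [ind_true (Or.inr hq), ind_true hq]; linarith [ind_nonneg p]
    · rw [ind_false (by tauto)]; linarith [ind_nonneg p, ind_nonneg q]

theorem sum_ind {α : Type*} (s : Finset α) (p : α → Prop) [DecidablePred p] :
    ∑ x ∈ s, ind (p x) = ((s.filter p).card : ℝ) := by
  rw [Finset.card_filter]
  push_cast
  refine Finset.sum_congr rfl fun x _ => ?_
  by_cases h : p x
  · rw [ind_true h, if_pos h]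
  · rw [ind_false h, if_neg h]

variable {ι : Type*} [Fintype ι] [DecidableEq ι]

/-- flip coordinate `i` -/
def flp (x : ι → Bool) (i : ι) : ι → Bool := Function.update x i (!(x i))

omit [Fintype ι] in
theorem flp_same (x : ι → Bool) (i : ι) : flp x i i = !(x i) := by simp [flp]
omit [Fintype ι] in
theorem flp_ne (x : ι → Bool) {i j : ι} (h : j ≠ i) : flp x i j = x j := by simp [flp, h]
omit [Fintype ι] in
theorem flp_flp (x : ι → Bool) (i : ι) : flp (flp x i) i = x := by
  funext j
  by_cases h : j = i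
  · subst h; simp [flp]
  · rw [flp_ne _ h, flp_ne _ h]

/-- linear form -/
def lin (a : ι → ℝ) (x : ι → Bool) : ℝ := ∑ i, a i * sg (x i)

/-- `lam`-Lipschitz along the edges of the cube -/
def Lip (lam : ℝ) (h : (ι → Bool) → ℝ) : Prop := ∀ x i, |h (flp x i) - h x| ≤ lam

/-- `Comp a A B I D β`: the linear form with weights `a` can be replaced by an odd function `S'` for
a nice involution `ρ` (parameters: `A` average distortion of `ρ`, `B` transport cost, `I` total
influence of the threshold functions of `S'`, `D, β` displacement of `ρ`). -/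
def Comp (a : ι → ℝ) (A B I D β : ℝ) : Prop :=
  ∃ (S' : (ι → Bool) → ℝ) (ρ : (ι → Bool) → (ι → Bool)),
    (∀ x, ρ (ρ x) = x) ∧ (∀ x, S' (ρ x) = -S' x) ∧
    (∑ x, ∑ i, (hammingDist (ρ x) (ρ (flp x i)) : ℝ)) ≤ A * 2 ^ Fintype.card ι ∧
    (∀ h : (ι → Bool) → ℝ, Lip 1 h → ∀ c : ℝ,
       |∑ x, h x * (ind (c < lin a x) - ind (c < S' x))| ≤ B * 2 ^ Fintype.card ι) ∧
    (∀ θ : ℝ, (∑ x, ∑ i, |ind (θ < S' x) - ind (θ < S' (flp x i))|) ≤ I * 2 ^ Fintype.card ι) ∧
    (∑ x, ind (D < hammingDist x (ρ x))) ≤ β * 2 ^ Fintype.card ι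

/-- A type cut into chains: `y x ∈ [0, l x]` is the position of `x` in its chain, and `dec x t` the
element at position `min t (l x)` of the chain of `x`. -/
structure Chain (X : Type*) where
  y : X → ℕ
  l : X → ℕ
  dec : X → ℕ → X
  y_le : ∀ x, y x ≤ l x
  y_dec : ∀ x t, y (dec x t) = min t (l x)
  l_dec : ∀ x t, l (dec x t) = l x
  dec_dec : ∀ x t t', dec (dec x t) t' = dec x t'
  dec_y : ∀ x, dec x (y x) = x

end BLP
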