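import Pool.Agent.Lib.BLP.WordComp

/-!
# Chunk WC7: weights in `[1, 2]`
-/

namespace BLP

open Finset

/-- coordinates of the word and the blind coordinates as an initial segment -/
def wc7E (K b r : ℕ) : WI K b (Fin r) ≃ Fin (K * (b * 2) + r) :=
  (Equiv.sumCongr
    (((Equiv.refl (Fin K)).prodCongr
      (((Equiv.refl (Fin b)).prodCongr finTwoEquiv.symm).trans finProdFinEquiv)).trans
      finProdFinEquiv) (Equiv.refl (Fin r))).trans finSumFinEquiv

theorem wc7E_inl (K b r : ℕ) (g : Fin K) (k : Fin b) (s : Bool) :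
    b * 2 * (g : ℕ) ≤ (wc7E K b r (Sum.inl (g, k, s)) : ℕ) ∧
      (wc7E K b r (Sum.inl (g, k, s)) : ℕ) < b * 2 * ((g : ℕ) + 1) := by
  have h : (wc7E K b r (Sum.inl (g, k, s)) : ℕ) =
      (finProdFinEquiv (k, finTwoEquiv.symm s) : ℕ) + b * 2 * (g : ℕ) := by
    simp [wc7E]
  have h2 := (finProdFinEquiv (k, finTwoEquiv.symm s)).2
  rw [h]
  constructor
  · omega
  · rw [mul_add, mul_one]; omega

/-- the sorted weights of the blocks have bounded variation -/
theorem wc7_var (K b r m : ℕ) (hm : K * (b * 2) + r = m) (a : Fin m → ℝ)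
    (ha : ∀ i, 1 ≤ a i ∧ a i ≤ 2) (hmono : Monotone a) (hm0 : 0 < m) :
    ∃ lo hi : Fin K → ℝ, (∀ g k s,
      lo g ≤ a (Fin.cast hm (wc7E K b r (Sum.inl (g, k, s)))) ∧
      a (Fin.cast hm (wc7E K b r (Sum.inl (g, k, s)))) ≤ hi g) ∧ ∑ g, (hi g - lo g) ≤ 1 := by
  let s : ℕ → ℝ := fun j => a ⟨min j (m - 1), by omega⟩
  have hs : Monotone s := by
    intro i j hij
    apply hmono
    rw [Fin.le_def]
    show min i (m - 1) ≤ min j (m - 1)
    omega
  have hsa : ∀ i : Fin m, a i = s i := by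
    intro i
    have := i.2
    show a i = a ⟨min (i : ℕ) (m - 1), _⟩
    congr 1
    apply Fin.ext
    show (i : ℕ) = min (i : ℕ) (m - 1)
    omega
  refine ⟨fun g => s (b * 2 * (g : ℕ)), fun g => s (b * 2 * ((g : ℕ) + 1)), ?_, ?_⟩
  · intro g k t
    obtain ⟨h1, h2⟩ := wc7E_inl K b r g k t
    rw [hsa]
    exact ⟨hs h1, hs h2.le⟩
  · have h1 : ∑ g : Fin K, (s (b * 2 * ((g : ℕ) + 1)) - s (b * 2 * (g : ℕ))) =
        s (b * 2 * K) - s (b * 2 * 0) := by
      rw [Fin.sum_univ_eq_sum_range (fun g => s (b * 2 * (g + 1)) - s (b * 2 * g)) K]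
      exact Finset.sum_range_sub (fun g => s (b * 2 * g)) K
    rw [h1]
    have h2 : s (b * 2 * K) ≤ 2 := (ha _).2
    have h3 : 1 ≤ s (b * 2 * 0) := (ha _).1
    linarith

/-- WC7: the component predicate for weights in `[1, 2]` (sort the weights; `b = Nat.sqrt m`,
`K = (m - 64 * b) / (2 * b)`). -/
theorem fin_comp : ∃ C0 : ℝ, 0 < C0 ∧ ∀ (n m : ℕ) (a : Fin m → ℝ), m ≤ n →
    C0 * (1 + Real.log (n + 1)) ^ 2 ≤ m → (∀ i, 1 ≤ a i ∧ a i ≤ 2) →
    Comp a (C0 * m * (1 + Real.log (n + 1))) (C0 * (1 + Real.log (n + 1)))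
      (C0 * Real.sqrt m) (C0 * Real.sqrt m * (1 + Real.log (n + 1))) (C0 / (n + 1) ^ 3) := by
  obtain ⟨C1, hC1, hmain⟩ := word_comp
  have hge : C1 ≤ (C1 + 133) ^ 2 := by nlinarith
  refine ⟨(C1 + 133) ^ 2, by positivity, ?_⟩
  intro n m a hmn hm ha
  obtain ⟨L, hL⟩ : ∃ L : ℝ, L = 1 + Real.log (n + 1) := ⟨_, rfl⟩
  have hL1 : 1 ≤ L := by
    rw [hL]
    have : 0 ≤ Real.log ((n : ℝ) + 1) := Real.log_nonneg (by
      have : (0 : ℝ) ≤ n := Nat.cast_nonneg n
      linarith)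
    linarith
  rw [← hL] at hm ⊢
  -- `b`
  obtain ⟨b, hb⟩ : ∃ b, b = Nat.sqrt m := ⟨_, rfl⟩
  have hb1 : b * b ≤ m := by rw [hb]; exact Nat.sqrt_le m
  have hb2 : m < (b + 1) * (b + 1) := by rw [hb]; exact Nat.lt_succ_sqrt m
  have hbL : (C1 + 132) * L ≤ b := by
    have h1 : ((C1 + 133) * L) ^ 2 < ((b : ℝ) + 1) ^ 2 := by
      have h2 : (m : ℝ) < ((b : ℝ) + 1) * (b + 1) := by exact_mod_cast hb2
      rw [mul_pow]
      nlinarith
    have h3 : (C1 + 133) * L < (b : ℝ) + 1 := lt_of_pow_lt_pow_left₀ 2 (by positivity) h1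
    nlinarith
  have hb132 : 132 ≤ b := by
    have : (132 : ℝ) ≤ b := by nlinarith
    exact_mod_cast this
  obtain ⟨K, hK⟩ : ∃ K, K = (m - 64 * b) / (2 * b) := ⟨_, rfl⟩
  have hK1 : 2 * b * K ≤ m - 64 * b := by rw [hK]; exact Nat.mul_div_le _ _
  have hK2 : m - 64 * b < 2 * b * (K + 1) := by
    rw [hK]
    have := Nat.lt_mul_div_succ (m - 64 * b) (b := 2 * b) (by omega)
    exact this
  have h64 : 64 * b ≤ m := by nlinarith
  obtain ⟨r, hr⟩ : ∃ r, r = m - K * (b * 2) := ⟨_, rfl⟩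
  have hKm : K * (b * 2) = 2 * b * K := by ring
  have hr1 : K * (b * 2) + r = m := by rw [hr]; omega
  have hr2 : 64 * b ≤ r := by rw [hr]; omega
  have hr3 : r ≤ 66 * b := by
    rw [hr]
    have : 2 * b * (K + 1) = 2 * b * K + 2 * b := by ring
    omega
  have hK0 : b ≤ 4 * K := by
    by_contra hcon
    push Not at hcon
    have h1 : 4 * (2 * b * (K + 1)) = 2 * b * (4 * K) + 8 * b := by ring
    have h2 : 2 * b * (4 * K) ≤ 2 * b * (b - 1) := Nat.mul_le_mul_left _ (by omega)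
    have h3 : 4 * (b * b) < 2 * b * (b - 1) + 8 * b + 256 * b := by omega
    have h4 : 2 * b * (b - 1) + 2 * b = 2 * (b * b) := by
      obtain ⟨c, rfl⟩ : ∃ c, b = c + 1 := ⟨b - 1, by omega⟩
      simp only [Nat.add_sub_cancel]
      ring
    have h5 : 2 * (b * b) < 262 * b := by omega
    nlinarith
  have hKb : K ≤ b := by
    by_contra hcon
    push Not at hcon
    have h1 : 2 * b * (b + 1) ≤ 2 * b * K := Nat.mul_le_mul_left _ hcon
    nlinarith
  have hKpos : 0 < K := by omega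
  have hm0 : 0 < m := by nlinarith
  -- sorting
  have hsorted := Tuple.monotone_sort a
  obtain ⟨lo, hi, h1, h2⟩ := wc7_var K b r m hr1 (a ∘ Tuple.sort a) (fun i => ha _) hsorted hm0
  let e : WI K b (Fin r) ≃ Fin m := ((wc7E K b r).trans (finCongr hr1)).trans (Tuple.sort a)
  have hcard : Fintype.card (WI K b (Fin r)) = m := by
    rw [Fintype.card_congr e, Fintype.card_fin]
  have hcomp := hmain n K b (Fin r) (fun i => a (e i)) hKpos hKb hK0 (by rw [hcard]; exact hmn)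
    (by rw [Fintype.card_fin]; exact hr2) (by rw [Fintype.card_fin]; omega)
    (by rw [← hL]; nlinarith) (fun i => ha _) ⟨lo, hi, h1, h2⟩
  rw [hcard, ← hL] at hcomp
  have hcomp2 := hcomp.equiv e.symm
  simp only [Equiv.apply_symm_apply] at hcomp2
  have hn1 : (0 : ℝ) < (n : ℝ) + 1 := by positivity
  apply hcomp2.mono
  · apply mul_le_mul_of_nonneg_right _ (by positivity)
    exact mul_le_mul_of_nonneg_right hge (by positivity)
  · exact mul_le_mul_of_nonneg_right hge (by positivity)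
  · exact mul_le_mul_of_nonneg_right hge (by positivity)
  · apply mul_le_mul_of_nonneg_right _ (by positivity)
    exact mul_le_mul_of_nonneg_right hge (by positivity)
  · exact div_le_div_of_nonneg_right hge (by positivity)

end BLP
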