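import Pool.Agent.Lib.BLP.Levels1
import Pool.Agent.Lib.BLP.Levels2
import Pool.Agent.Lib.BLP.Final1
import Pool.Agent.Lib.BLP.LinCard

/-!
# Chunk F2: assembly
-/

namespace BLP

open Finset

theorem lg_ge_one (n : ℕ) : (1 : ℝ) ≤ 1 + Real.log (n + 1) := by
  have h : (0 : ℝ) ≤ Real.log ((n : ℝ) + 1) := Real.log_nonneg (by have := Nat.cast_nonneg (α := ℝ) n; linarith)
  linarith

/-- `(1 + log (n + 1)) ^ 5 ≤ 6250 n` -/
theorem lg_pow_five {n : ℕ} (hn : 0 < n) : (1 + Real.log (n + 1)) ^ 5 ≤ 6250 * (n : ℝ) := by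
  have hn1 : (1 : ℝ) ≤ n := by exact_mod_cast hn
  set y : ℝ := (n : ℝ) + 1 with hy
  have hy0 : 0 < y := by linarith
  set w : ℝ := y ^ ((1 : ℝ) / 5) with hw
  have hw0 : 0 < w := Real.rpow_pos_of_pos hy0 _
  have hw5 : w ^ 5 = y := by
    rw [hw, ← Real.rpow_natCast, ← Real.rpow_mul hy0.le]
    norm_num
  have hlog : Real.log y = 5 * Real.log w := by
    rw [← hw5, Real.log_pow]; norm_num
  have h1 : Real.log w ≤ w - 1 := Real.log_le_sub_one_of_pos hw0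
  have h2 : 1 + Real.log y ≤ 5 * w := by rw [hlog]; linarith
  have h3 : (0 : ℝ) ≤ 1 + Real.log y := by
    have := lg_ge_one n
    rw [hy]; linarith
  calc (1 + Real.log y) ^ 5 ≤ (5 * w) ^ 5 := pow_le_pow_left₀ h3 h2 5
    _ = 3125 * y := by rw [mul_pow, hw5]; norm_num
    _ ≤ 6250 * (n : ℝ) := by rw [hy]; linarith

/-- `8 clog (n + 1) + 16 ≤ 40 (1 + log (n + 1))` -/
theorem clog_le (n : ℕ) :
    ((8 * Nat.clog 2 (n + 1) + 16 : ℕ) : ℝ) ≤ 40 * (1 + Real.log (n + 1)) := by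
  have h1 : (Nat.clog 2 (n + 1) : ℝ) ≤ Real.log (n + 1) / Real.log 2 + 1 := by
    have h2 : (Nat.clog 2 (n + 1) : ℝ) ≤ Real.logb 2 (n + 1) + 1 := by
      have h3 := Real.natCeil_logb_natCast 2 (n + 1)
      rw [← h3]
      have h4 : (0 : ℝ) ≤ Real.logb 2 (((n + 1 : ℕ)) : ℝ) := by
        apply Real.logb_nonneg (by norm_num)
        push_cast
        have := Nat.cast_nonneg (α := ℝ) n
        linarith
      have h5 := Nat.ceil_lt_add_one h4
      push_cast at h5 ⊢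
      linarith
    rw [Real.logb] at h2
    exact h2
  have hl2 : (0.6 : ℝ) < Real.log 2 := by
    have := Real.log_two_gt_d9
    linarith
  have hl : (0 : ℝ) ≤ Real.log ((n : ℝ) + 1) :=
    Real.log_nonneg (by have := Nat.cast_nonneg (α := ℝ) n; linarith)
  have h6 : Real.log ((n : ℝ) + 1) / Real.log 2 ≤ 2 * Real.log ((n : ℝ) + 1) := by
    rw [div_le_iff₀ (by linarith)]
    nlinarith
  push_cast
  linarith

/-- F2: weights sorted, last one minimal -/
theorem main_sorted : ∃ C0 : ℝ, 0 < C0 ∧ ∀ (n : ℕ) (a : Fin n → ℝ) (a0 : ℝ), 0 < n → 0 ≤ a0 →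
    (∀ i, a0 ≤ |a i|) → ∀ H : Finset (Fin (n + 1) → Bool),
    (∀ z, z ∈ H ↔ 0 ≤ lin a (fun i => z i.castSucc) + a0 * sg (z (Fin.last n))) →
    H.card = 2 ^ n →
    ∃ f : (Fin n → Bool) → (Fin (n + 1) → Bool), Function.Injective f ∧
      (∀ z, z ∈ Set.range f ↔ z ∈ H) ∧
      ∑ x, ∑ i, (hammingDist (f x) (f (flp x i)) : ℝ) ≤
        2 ^ n * n * (C0 * (1 + Real.log (n + 1)) ^ 2) := by
  obtain ⟨C1, hC1pos, hlev⟩ := levels_comp
  refine ⟨1 + C1 + (4000 * C1 + 2) * (4000 * C1) + 160 * C1 + 160 * C1 + 32 + 16, by positivity, ?_⟩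
  intro n a a0 hn ha0 ha H hH hcard
  have hn1 : (1 : ℝ) ≤ n := by exact_mod_cast hn
  have h0 : a0 = 0 → ∀ x, lin a x ≠ 0 := by
    intro h
    subst h
    exact lin_ne_zero_of_card a H hH hcard
  obtain ⟨a', E, v, haE, hE, hv, hκ⟩ := few_levels n hn a a0 ha0 ha h0
  have hcomp := hlev n a' E haE
  set L : ℝ := 1 + Real.log (n + 1) with hL
  have hL1 : 1 ≤ L := lg_ge_one n
  have hL0 : 0 < L := by linarith
  have hE' : (E.card : ℝ) ≤ 40 * L := by
    have h1 : (E.card : ℝ) ≤ ((8 * Nat.clog 2 (n + 1) + 16 : ℕ) : ℝ) := by exact_mod_cast hE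
    exact h1.trans (clog_le n)
  have hE0 : (0 : ℝ) ≤ E.card := Nat.cast_nonneg _
  set s : ℝ := Real.sqrt (n * L) with hs
  have hs0 : 0 ≤ s := Real.sqrt_nonneg _
  have hss : s * s = n * L := Real.mul_self_sqrt (by positivity)
  have hs1 : 1 ≤ s := by
    have h1 : (1 : ℝ) ≤ n * L := by nlinarith
    rw [hs]
    exact Real.one_le_sqrt.mpr h1
  -- sqrt (E n) ≤ 7 s
  have hsE : Real.sqrt (E.card * n) ≤ 7 * s := by
    rw [show (7 : ℝ) * s = Real.sqrt (49 * (n * L)) by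
      rw [Real.sqrt_mul (by norm_num), hs, show (49 : ℝ) = 7 ^ 2 by norm_num,
        Real.sqrt_sq (by norm_num)]]
    apply Real.sqrt_le_sqrt
    nlinarith
  -- L ^ 3 ≤ 80 s
  have hL3 : L ^ 3 ≤ 80 * s := by
    have h5 := lg_pow_five hn
    rw [← hL] at h5
    have h6 : (L ^ 3) ^ 2 ≤ (80 * s) ^ 2 := by
      have : (80 * s) ^ 2 = 6400 * (n * L) := by
        rw [mul_pow, sq s, hss]; ring
      rw [this]
      have h7 : (L ^ 3) ^ 2 = L ^ 5 * L := by ring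
      rw [h7]
      nlinarith
    exact le_of_sq_le_sq h6 (by positivity)
  have hEL2 : (E.card : ℝ) * L ^ 2 ≤ 3200 * s := by
    calc (E.card : ℝ) * L ^ 2 ≤ 40 * L * L ^ 2 := by gcongr
      _ = 40 * L ^ 3 := by ring
      _ ≤ 40 * (80 * s) := by gcongr
      _ = 3200 * s := by ring
  have hD0 : 0 ≤ C1 * (Real.sqrt (E.card * n) * L + E.card * L ^ 2) := by positivity
  obtain ⟨f, hinj, hrange, hsum⟩ := final_of_comp hn a a' a0 v (2 / Real.sqrt n) ha0 hv hκ hcomp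
    hD0 H hH hcard
  refine ⟨f, hinj, hrange, hsum.trans ?_⟩
  rw [mul_assoc ((2 : ℝ) ^ n) (n : ℝ) _]
  refine mul_le_mul_of_nonneg_left ?_ (by positivity)
  have hLL : L ≤ L ^ 2 := by nlinarith
  have hnL2 : 0 ≤ (n : ℝ) * L ^ 2 := by positivity
  have hL2one : 1 ≤ L ^ 2 := by nlinarith
  -- the terms
  have t1 : (n : ℝ) ≤ n * L ^ 2 := by nlinarith
  have t2 : C1 * n * L ≤ C1 * (n * L ^ 2) := by
    rw [mul_assoc]
    gcongr
  have hIb : C1 * (Real.sqrt (E.card * n) + E.card * L ^ 2) ≤ 4000 * C1 * s := by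
    have : Real.sqrt (E.card * n) + E.card * L ^ 2 ≤ 4000 * s := by linarith
    have h7 : C1 * (Real.sqrt (E.card * n) + E.card * L ^ 2) ≤ C1 * (4000 * s) := by gcongr
    linarith
  have hDb : C1 * (Real.sqrt (E.card * n) * L + E.card * L ^ 2) + 2 ≤ (4000 * C1 + 2) * (s * L) := by
    have h8 : s ≤ s * L := by nlinarith
    have h9 : Real.sqrt (E.card * n) * L ≤ 7 * s * L := by gcongr
    have : Real.sqrt (E.card * n) * L + E.card * L ^ 2 ≤ 4000 * (s * L) := by nlinarith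
    have h10 : C1 * (Real.sqrt (E.card * n) * L + E.card * L ^ 2) ≤ C1 * (4000 * (s * L)) := by
      gcongr
    have h11 : 1 ≤ s * L := by nlinarith
    nlinarith
  have t3 : (C1 * (Real.sqrt (E.card * n) * L + E.card * L ^ 2) + 2) *
      (C1 * (Real.sqrt (E.card * n) + E.card * L ^ 2)) ≤
      (4000 * C1 + 2) * (4000 * C1) * (n * L ^ 2) := by
    calc _ ≤ ((4000 * C1 + 2) * (s * L)) * (4000 * C1 * s) := by
          apply mul_le_mul hDb hIb
          · positivity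
          · positivity
      _ = (4000 * C1 + 2) * (4000 * C1) * (s * s * L) := by ring
      _ = _ := by rw [hss]; ring
  have t4 : 2 * (n : ℝ) * (n + 2) * (C1 * E.card / (n + 1) ^ 3) ≤ 160 * C1 * (n * L ^ 2) := by
    have hn1' : (0 : ℝ) < ((n : ℝ) + 1) ^ 3 := by positivity
    rw [mul_div_assoc', div_le_iff₀ hn1']
    have e1 : (n : ℝ) + 2 ≤ 2 * ((n : ℝ) + 1) ^ 3 := by
      have : (n : ℝ) + 2 ≤ 2 * (n + 1) := by linarith
      have h12 : (n : ℝ) + 1 ≤ (n + 1) ^ 3 := by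
        have : (1 : ℝ) ≤ n + 1 := by linarith
        nlinarith [sq_nonneg ((n : ℝ) + 1)]
      linarith
    calc 2 * (n : ℝ) * (n + 2) * (C1 * E.card)
        ≤ 2 * (n : ℝ) * (2 * ((n : ℝ) + 1) ^ 3) * (C1 * (40 * L ^ 2)) := by
          gcongr
          exact hE'.trans (by gcongr)
      _ = 160 * C1 * (n * L ^ 2) * (n + 1) ^ 3 := by ring
  have t5 : 2 * (n : ℝ) * (2 * (C1 * E.card * L)) ≤ 160 * C1 * (n * L ^ 2) := by
    calc 2 * (n : ℝ) * (2 * (C1 * E.card * L)) ≤ 2 * (n : ℝ) * (2 * (C1 * (40 * L) * L)) := by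
          gcongr
      _ = _ := by ring
  have t6 : 2 * (n : ℝ) * (8 * Real.sqrt (n * L) * (2 / Real.sqrt n)) ≤ 32 * (n * L ^ 2) := by
    have hsn : 0 < Real.sqrt n := Real.sqrt_pos.mpr (by linarith)
    have hsq : Real.sqrt (n * L) = Real.sqrt n * Real.sqrt L := Real.sqrt_mul (by linarith) _
    rw [hsq]
    have h13 : Real.sqrt L ≤ L := by
      rw [Real.sqrt_le_left (by linarith)]
      nlinarith
    have : 2 * (n : ℝ) * (8 * (Real.sqrt n * Real.sqrt L) * (2 / Real.sqrt n)) =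
        32 * (n * Real.sqrt L) := by
      field_simp
      ring
    rw [this]
    gcongr
    exact h13.trans hLL
  have t7 : 2 * (n : ℝ) * (8 / n) ≤ 16 * (n * L ^ 2) := by
    have : 2 * (n : ℝ) * (8 / n) = 16 := by
      field_simp
      norm_num
    rw [this]
    nlinarith
  have e : (n : ℝ) * ((1 + C1 + (4000 * C1 + 2) * (4000 * C1) + 160 * C1 + 160 * C1 + 32 + 16) *
      L ^ 2) =
    n * L ^ 2 + C1 * (n * L ^ 2) + (4000 * C1 + 2) * (4000 * C1) * (n * L ^ 2) +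
      160 * C1 * (n * L ^ 2) + 160 * C1 * (n * L ^ 2) + 32 * (n * L ^ 2) + 16 * (n * L ^ 2) := by
    ring
  rw [e, mul_add (2 * (n : ℝ)) _ (8 / n), mul_add (2 * (n : ℝ)) (2 * (C1 * E.card * L)) _]
  linarith [t1, t2, t3, t4, t5, t6, t7]

end BLP
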