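import Pool.Agent.Lib.BLP.Defs

/-!
# Chunk H: the heat kernel smoothing of the indicator

`Phi` is the Gaussian distribution function, `phi t v = Phi (v / √t)`.  So `∂_t phi = phi'' / 2`,
`phi' = t^{-1/2} Phi'(v/√t)`, `|phi''''| ≤ t^{-2} exp (- v^2 / (4 t))`.

H2: for `F(a) = (phi (τ - a^2) (v + a) + phi (τ - a^2) (v - a)) / 2` one has
`F'(a) = (1/2) ∫_{-a}^{a} phi''(v + s) ds - (a/2) (phi''(v + a) + phi''(v - a))` (time `τ - a^2`),
the error of the trapezoidal rule, so `|F'(a)| ≤ (a^3 / 3) sup |phi''''|`.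
-/

namespace BLP

open Finset MeasureTheory

noncomputable def Phi (v : ℝ) : ℝ :=
  (Real.sqrt (2 * Real.pi))⁻¹ * ∫ x in Set.Iic v, Real.exp (-(x ^ 2 / 2))

noncomputable def phi (t v : ℝ) : ℝ := Phi (v / Real.sqrt t)

/-! ### The Gaussian distribution function -/

theorem H_integrable : Integrable (fun x : ℝ => Real.exp (-(x ^ 2 / 2))) := by
  have h := integrable_exp_neg_mul_sq (b := 1 / 2) (by norm_num)
  refine h.congr (Filter.Eventually.of_forall fun x => ?_)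
  show Real.exp (-(1 / 2) * x ^ 2) = Real.exp (-(x ^ 2 / 2))
  congr 1; ring

theorem H_integral : ∫ x : ℝ, Real.exp (-(x ^ 2 / 2)) = Real.sqrt (2 * Real.pi) := by
  have h := integral_gaussian (1 / 2)
  have e : (fun x : ℝ => Real.exp (-(1 / 2) * x ^ 2)) = fun x : ℝ => Real.exp (-(x ^ 2 / 2)) := by
    funext x; congr 1; ring
  rw [e] at h
  rw [h]; congr 1; field_simp

theorem H_sqrt_pos : 0 < Real.sqrt (2 * Real.pi) := Real.sqrt_pos.2 (by positivity)

theorem H_sqrt_ge : 2 ≤ Real.sqrt (2 * Real.pi) := by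
  apply Real.le_sqrt_of_sq_le
  have := Real.pi_gt_three
  linarith

theorem H_sqrt_sq : Real.sqrt (2 * Real.pi) ^ 2 = 2 * Real.pi := Real.sq_sqrt (by positivity)

theorem Phi_nonneg (v : ℝ) : 0 ≤ Phi v := by
  unfold Phi
  apply mul_nonneg
  · positivity
  · exact integral_nonneg fun x => (Real.exp_pos _).le

theorem H_one_sub (v : ℝ) :
    1 - Phi v = (Real.sqrt (2 * Real.pi))⁻¹ * ∫ x in Set.Ioi v, Real.exp (-(x ^ 2 / 2)) := by
  have h := intervalIntegral.integral_Iic_add_Ioi (b := v) (H_integrable.integrableOn)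
    (H_integrable.integrableOn)
  rw [H_integral] at h
  unfold Phi
  have hp := H_sqrt_pos
  have h1 : (Real.sqrt (2 * Real.pi))⁻¹ * (Real.sqrt (2 * Real.pi)) = 1 := by
    field_simp
  have h2 : ∫ x in Set.Ioi v, Real.exp (-(x ^ 2 / 2)) =
      Real.sqrt (2 * Real.pi) - ∫ x in Set.Iic v, Real.exp (-(x ^ 2 / 2)) := by
    linarith
  rw [h2, mul_sub, h1]

theorem Phi_le_one (v : ℝ) : Phi v ≤ 1 := by
  have h := H_one_sub v
  have h2 : 0 ≤ (Real.sqrt (2 * Real.pi))⁻¹ * ∫ x in Set.Ioi v, Real.exp (-(x ^ 2 / 2)) := by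
    apply mul_nonneg
    · positivity
    · exact integral_nonneg fun x => (Real.exp_pos _).le
  linarith

theorem H_shift_integral (x : ℝ) :
    ∫ s : ℝ, Real.exp (-((s - x) ^ 2 / 2)) = Real.sqrt (2 * Real.pi) := by
  rw [← H_integral]
  exact integral_sub_right_eq_self (fun s : ℝ => Real.exp (-(s ^ 2 / 2))) x

theorem H_shift_integrable (x : ℝ) :
    Integrable (fun s : ℝ => Real.exp (-((s - x) ^ 2 / 2))) :=
  H_integrable.comp_sub_right x

theorem H_upper (x : ℝ) (hx : 0 ≤ x) : 1 - Phi x ≤ Real.exp (-(x ^ 2 / 2)) := by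
  rw [H_one_sub]
  have h1 : ∫ s in Set.Ioi x, Real.exp (-(s ^ 2 / 2)) ≤
      ∫ s in Set.Ioi x, Real.exp (-(x ^ 2 / 2)) * Real.exp (-((s - x) ^ 2 / 2)) := by
    apply setIntegral_mono_on H_integrable.integrableOn
      ((H_shift_integrable x).const_mul _).integrableOn measurableSet_Ioi
    intro s hs
    have hs' : x < s := hs
    rw [← Real.exp_add]
    apply Real.exp_le_exp.2
    nlinarith [mul_nonneg hx (sub_nonneg.2 hs'.le)]
  have h2 : ∫ s in Set.Ioi x, Real.exp (-(x ^ 2 / 2)) * Real.exp (-((s - x) ^ 2 / 2)) ≤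
      Real.exp (-(x ^ 2 / 2)) * Real.sqrt (2 * Real.pi) := by
    rw [integral_const_mul]
    apply mul_le_mul_of_nonneg_left _ (Real.exp_pos _).le
    rw [← H_shift_integral x]
    exact setIntegral_le_integral (H_shift_integrable x)
      (Filter.Eventually.of_forall fun s => (Real.exp_pos _).le)
  have hp := H_sqrt_pos
  calc (Real.sqrt (2 * Real.pi))⁻¹ * ∫ s in Set.Ioi x, Real.exp (-(s ^ 2 / 2))
      ≤ (Real.sqrt (2 * Real.pi))⁻¹ * (Real.exp (-(x ^ 2 / 2)) * Real.sqrt (2 * Real.pi)) :=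
        mul_le_mul_of_nonneg_left (h1.trans h2) (by positivity)
    _ = Real.exp (-(x ^ 2 / 2)) := by field_simp

theorem H_lower (x : ℝ) (hx : x ≤ 0) : Phi x ≤ Real.exp (-(x ^ 2 / 2)) := by
  unfold Phi
  have h1 : ∫ s in Set.Iic x, Real.exp (-(s ^ 2 / 2)) ≤
      ∫ s in Set.Iic x, Real.exp (-(x ^ 2 / 2)) * Real.exp (-((s - x) ^ 2 / 2)) := by
    apply setIntegral_mono_on H_integrable.integrableOn
      ((H_shift_integrable x).const_mul _).integrableOn measurableSet_Iic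
    intro s hs
    have hs' : s ≤ x := hs
    rw [← Real.exp_add]
    apply Real.exp_le_exp.2
    nlinarith [mul_nonneg (neg_nonneg.2 hx) (sub_nonneg.2 hs')]
  have h2 : ∫ s in Set.Iic x, Real.exp (-(x ^ 2 / 2)) * Real.exp (-((s - x) ^ 2 / 2)) ≤
      Real.exp (-(x ^ 2 / 2)) * Real.sqrt (2 * Real.pi) := by
    rw [integral_const_mul]
    apply mul_le_mul_of_nonneg_left _ (Real.exp_pos _).le
    rw [← H_shift_integral x]
    exact setIntegral_le_integral (H_shift_integrable x)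
      (Filter.Eventually.of_forall fun s => (Real.exp_pos _).le)
  have hp := H_sqrt_pos
  calc (Real.sqrt (2 * Real.pi))⁻¹ * ∫ s in Set.Iic x, Real.exp (-(s ^ 2 / 2))
      ≤ (Real.sqrt (2 * Real.pi))⁻¹ * (Real.exp (-(x ^ 2 / 2)) * Real.sqrt (2 * Real.pi)) :=
        mul_le_mul_of_nonneg_left (h1.trans h2) (by positivity)
    _ = Real.exp (-(x ^ 2 / 2)) := by field_simp

theorem H_deriv (v : ℝ) :
    HasDerivAt Phi ((Real.sqrt (2 * Real.pi))⁻¹ * Real.exp (-(v ^ 2 / 2))) v := by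
  have hc : Continuous (fun x : ℝ => Real.exp (-(x ^ 2 / 2))) := by fun_prop
  have e : Phi = fun v => (Real.sqrt (2 * Real.pi))⁻¹ *
      ((∫ x in Set.Iic (0 : ℝ), Real.exp (-(x ^ 2 / 2))) +
        ∫ x in (0 : ℝ)..v, Real.exp (-(x ^ 2 / 2))) := by
    funext v
    unfold Phi
    congr 1
    have := intervalIntegral.integral_Iic_sub_Iic (a := 0) (b := v) (μ := volume)
      (f := fun x : ℝ => Real.exp (-(x ^ 2 / 2))) H_integrable.integrableOn
      H_integrable.integrableOn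
    linarith
  rw [e]
  have h := intervalIntegral.integral_hasDerivAt_right (a := 0) (b := v)
    (f := fun x : ℝ => Real.exp (-(x ^ 2 / 2))) (hc.intervalIntegrable _ _)
    (hc.stronglyMeasurableAtFilter _ _) hc.continuousAt
  exact (h.const_add _).const_mul _

theorem phi_nonneg (t v : ℝ) : 0 ≤ phi t v := Phi_nonneg _

theorem phi_le_one (t v : ℝ) : phi t v ≤ 1 := Phi_le_one _

/-- H1 -/
theorem phi_ind (t v : ℝ) (ht : 0 < t) : |ind (0 < v) - phi t v| ≤ Real.exp (-(v ^ 2 / (2 * t))) := by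
  have hs : 0 < Real.sqrt t := Real.sqrt_pos.2 ht
  have e : -(v ^ 2 / (2 * t)) = -((v / Real.sqrt t) ^ 2 / 2) := by
    rw [div_pow, Real.sq_sqrt ht.le]; field_simp
  rw [e]
  by_cases h : 0 < v
  · rw [ind_true h, abs_of_nonneg (by linarith [phi_le_one t v])]
    exact H_upper _ (by positivity)
  · rw [ind_false h, zero_sub, abs_neg, abs_of_nonneg (phi_nonneg t v)]
    exact H_lower _ (div_nonpos_of_nonpos_of_nonneg (not_lt.1 h) hs.le)

/-! ### The derivatives -/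

/-- first derivative (the heat kernel) -/
noncomputable def H_k1 (t v : ℝ) : ℝ :=
  (Real.sqrt (2 * Real.pi))⁻¹ * (Real.sqrt t)⁻¹ * Real.exp (-(v ^ 2 / (2 * t)))

noncomputable def H_k2 (t v : ℝ) : ℝ := -(v / t) * H_k1 t v

noncomputable def H_k3 (t v : ℝ) : ℝ := (v ^ 2 / t ^ 2 - 1 / t) * H_k1 t v

noncomputable def H_k4 (t v : ℝ) : ℝ := (3 * v / t ^ 2 - v ^ 3 / t ^ 3) * H_k1 t v

theorem H_phi_curve {T V : ℝ → ℝ} {T' V' s : ℝ} (hT : HasDerivAt T T' s) (hV : HasDerivAt V V' s)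
    (h0 : 0 < T s) :
    HasDerivAt (fun s => phi (T s) (V s))
      (H_k1 (T s) (V s) * V' + H_k2 (T s) (V s) * T' / 2) s := by
  have hs : 0 < Real.sqrt (T s) := Real.sqrt_pos.2 h0
  have h1 : HasDerivAt (fun s => V s / Real.sqrt (T s))
      ((V' * Real.sqrt (T s) - V s * (T' / (2 * Real.sqrt (T s)))) / Real.sqrt (T s) ^ 2) s :=
    hV.div (hT.sqrt h0.ne') hs.ne'
  have h2 := (H_deriv (V s / Real.sqrt (T s))).comp s h1
  refine h2.congr_deriv ?_
  have e : -((V s / Real.sqrt (T s)) ^ 2 / 2) = -(V s ^ 2 / (2 * T s)) := by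
    rw [div_pow, Real.sq_sqrt h0.le]; field_simp
  rw [e]
  unfold H_k2 H_k1
  have hsq : T s = Real.sqrt (T s) ^ 2 := (Real.sq_sqrt h0.le).symm
  have hp := H_sqrt_pos
  generalize Real.exp (-(V s ^ 2 / (2 * T s))) = E
  rw [Real.sq_sqrt h0.le]
  set q := Real.sqrt (T s) with hq
  rw [hsq]
  field_simp
  ring

theorem H_d1 (t v : ℝ) (ht : 0 < t) : HasDerivAt (H_k1 t) (H_k2 t v) v := by
  have h1 : HasDerivAt (fun v : ℝ => -(v ^ 2 / (2 * t))) (-((2 * v) / (2 * t))) v := by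
    have := ((hasDerivAt_pow 2 v).div_const (2 * t)).fun_neg
    simpa using this
  have h2 := (h1.exp).const_mul ((Real.sqrt (2 * Real.pi))⁻¹ * (Real.sqrt t)⁻¹)
  refine h2.congr_deriv ?_
  unfold H_k2 H_k1
  field_simp

theorem H_d2 (t v : ℝ) (ht : 0 < t) : HasDerivAt (H_k2 t) (H_k3 t v) v := by
  have h0 : HasDerivAt (fun v : ℝ => -(v / t)) (-(1 / t)) v :=
    ((hasDerivAt_id v).div_const t).neg
  have h := h0.mul (H_d1 t v ht)
  refine h.congr_deriv ?_
  unfold H_k3 H_k2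
  field_simp
  ring

theorem H_d3 (t v : ℝ) (ht : 0 < t) : HasDerivAt (H_k3 t) (H_k4 t v) v := by
  have h0 : HasDerivAt (fun v : ℝ => v ^ 2 / t ^ 2 - 1 / t) ((2 * v) / t ^ 2) v := by
    have := ((hasDerivAt_pow 2 v).div_const (t ^ 2)).sub_const (1 / t)
    simpa using this
  have h := h0.mul (H_d1 t v ht)
  refine h.congr_deriv ?_
  unfold H_k4 H_k2
  field_simp
  ring

/-! ### Bounds -/

theorem H_exp_lower (z : ℝ) (hz : 0 ≤ z) :
    1 + z + z ^ 2 / 2 + z ^ 3 / 6 + z ^ 4 / 24 + z ^ 5 / 120 + z ^ 6 / 720 ≤ Real.exp z := by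
  have h := Real.sum_le_exp_of_nonneg hz 7
  simp only [Finset.sum_range_succ, Finset.sum_range_zero, Nat.factorial] at h
  norm_num at h
  linarith

theorem H_poly (y : ℝ) (hy : 0 ≤ y) : y * (3 - y) ^ 2 ≤ 6 * Real.exp (y / 2) := by
  have h := H_exp_lower (y / 2) (by positivity)
  set z := y / 2 with hz
  have hy2 : y = 2 * z := by rw [hz]; ring
  have hz0 : 0 ≤ z := by positivity
  rw [hy2]
  have h2 : 0 ≤ 21 - 7 * z + z ^ 2 / 4 + z ^ 3 / 20 + z ^ 4 / 120 := by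
    nlinarith [sq_nonneg (z - 4), sq_nonneg (z ^ 2 - 17), mul_nonneg hz0 (sq_nonneg (z - 4)),
      sq_nonneg (z ^ 2 - 4 * z)]
  nlinarith [mul_nonneg (sq_nonneg z) h2, sq_nonneg (z - 1)]

theorem H_bgen (P x : ℝ) (h : P ^ 2 ≤ 6 * Real.exp (x / 2)) :
    |P| * ((Real.sqrt (2 * Real.pi))⁻¹ * Real.exp (-(x / 2))) ≤ Real.exp (-(x / 4)) := by
  have hp := H_sqrt_pos
  have h1 : |P| ≤ Real.sqrt (2 * Real.pi) * Real.exp (x / 4) := by
    apply abs_le_of_sq_le_sq _ (by positivity)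
    rw [mul_pow, H_sqrt_sq, ← Real.exp_nat_mul]
    refine h.trans ?_
    have e : ((2 : ℕ) : ℝ) * (x / 4) = x / 2 := by push_cast; ring
    rw [e]
    apply mul_le_mul_of_nonneg_right _ (Real.exp_pos _).le
    have := Real.pi_gt_three
    linarith
  calc |P| * ((Real.sqrt (2 * Real.pi))⁻¹ * Real.exp (-(x / 2)))
      ≤ (Real.sqrt (2 * Real.pi) * Real.exp (x / 4)) *
        ((Real.sqrt (2 * Real.pi))⁻¹ * Real.exp (-(x / 2))) :=
        mul_le_mul_of_nonneg_right h1 (by positivity)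
    _ = Real.exp (x / 4) * Real.exp (-(x / 2)) := by field_simp
    _ = Real.exp (-(x / 4)) := by rw [← Real.exp_add]; congr 1; ring

theorem H_b4 (t v : ℝ) (ht : 0 < t) : |H_k4 t v| ≤ 1 / t ^ 2 * Real.exp (-(v ^ 2 / (4 * t))) := by
  have hq : 0 < Real.sqrt t := Real.sqrt_pos.2 ht
  have hp := H_sqrt_pos
  have hsq : Real.sqrt t ^ 2 = t := Real.sq_sqrt ht.le
  set q := Real.sqrt t with hqd
  have e : H_k4 t v = 1 / t ^ 2 * ((3 * (v / q) - (v / q) ^ 3) *
      ((Real.sqrt (2 * Real.pi))⁻¹ * Real.exp (-(v ^ 2 / t / 2)))) := by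
    unfold H_k4 H_k1
    have e1 : v ^ 2 / (2 * t) = v ^ 2 / t / 2 := by field_simp
    rw [e1]
    generalize Real.exp (-(v ^ 2 / t / 2)) = E
    rw [← hqd, ← hsq]
    field_simp
  have h1 := H_bgen (3 * (v / q) - (v / q) ^ 3) (v ^ 2 / t) (by
    have h := H_poly (v ^ 2 / t) (by positivity)
    refine le_trans (le_of_eq ?_) h
    rw [← hsq]
    field_simp)
  rw [e, abs_mul, abs_mul, abs_of_pos (show 0 < 1 / t ^ 2 by positivity),
    abs_of_pos (show 0 < (Real.sqrt (2 * Real.pi))⁻¹ * Real.exp (-(v ^ 2 / t / 2)) by positivity)]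
  have e2 : v ^ 2 / (4 * t) = v ^ 2 / t / 4 := by field_simp
  rw [e2]
  exact mul_le_mul_of_nonneg_left h1 (by positivity)

theorem H_b2 (t v : ℝ) (ht : 0 < t) : |H_k2 t v| ≤ 1 / t * Real.exp (-(v ^ 2 / (4 * t))) := by
  have hq : 0 < Real.sqrt t := Real.sqrt_pos.2 ht
  have hp := H_sqrt_pos
  have hsq : Real.sqrt t ^ 2 = t := Real.sq_sqrt ht.le
  set q := Real.sqrt t with hqd
  have e : H_k2 t v = 1 / t * ((-(v / q)) *
      ((Real.sqrt (2 * Real.pi))⁻¹ * Real.exp (-(v ^ 2 / t / 2)))) := by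
    unfold H_k2 H_k1
    have e1 : v ^ 2 / (2 * t) = v ^ 2 / t / 2 := by field_simp
    rw [e1]
    generalize Real.exp (-(v ^ 2 / t / 2)) = E
    rw [← hqd, ← hsq]
    field_simp
  have h1 := H_bgen (-(v / q)) (v ^ 2 / t) (by
    have h : (-(v / q)) ^ 2 = v ^ 2 / t := by
      rw [← hsq, neg_sq, div_pow]
    rw [h]
    have h0 : 0 ≤ v ^ 2 / t := by positivity
    have := Real.add_one_le_exp (v ^ 2 / t / 2)
    linarith)
  rw [e, abs_mul, abs_mul, abs_of_pos (show 0 < 1 / t by positivity),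
    abs_of_pos (show 0 < (Real.sqrt (2 * Real.pi))⁻¹ * Real.exp (-(v ^ 2 / t / 2)) by positivity)]
  have e2 : v ^ 2 / (4 * t) = v ^ 2 / t / 4 := by field_simp
  rw [e2]
  exact mul_le_mul_of_nonneg_left h1 (by positivity)

theorem H_b1 (t v : ℝ) (ht : 0 < t) :
    |H_k1 t v| ≤ 1 / Real.sqrt t * Real.exp (-(v ^ 2 / (4 * t))) := by
  have hq : 0 < Real.sqrt t := Real.sqrt_pos.2 ht
  have hp := H_sqrt_pos
  have h1 := H_bgen 1 (v ^ 2 / t) (by
    have h0 : 0 ≤ v ^ 2 / t := by positivity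
    have := Real.add_one_le_exp (v ^ 2 / t / 2)
    linarith)
  rw [abs_one, one_mul] at h1
  have e1 : v ^ 2 / (2 * t) = v ^ 2 / t / 2 := by field_simp
  have e2 : v ^ 2 / (4 * t) = v ^ 2 / t / 4 := by field_simp
  unfold H_k1
  rw [abs_of_pos (by positivity), e1, e2]
  calc (Real.sqrt (2 * Real.pi))⁻¹ * (Real.sqrt t)⁻¹ * Real.exp (-(v ^ 2 / t / 2))
      = 1 / Real.sqrt t * ((Real.sqrt (2 * Real.pi))⁻¹ * Real.exp (-(v ^ 2 / t / 2))) := by
        field_simp
    _ ≤ _ := mul_le_mul_of_nonneg_left h1 (by positivity)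

theorem H_exp38 : Real.exp (3 / 8) ≤ 3 / 2 := by
  have h : Real.exp (3 / 8 : ℝ) ^ 8 ≤ (3 / 2 : ℝ) ^ 8 := by
    rw [← Real.exp_nat_mul]
    have e : ((8 : ℕ) : ℝ) * (3 / 8) = 3 := by norm_num
    rw [e]
    have h1 : Real.exp 3 = Real.exp 1 ^ 3 := by rw [← Real.exp_nat_mul]; norm_num
    rw [h1]
    have h2 : Real.exp 1 < 2.7182818286 := Real.exp_one_lt_d9
    have h3 : Real.exp 1 ^ 3 ≤ (2.7182818286 : ℝ) ^ 3 :=
      pow_le_pow_left₀ (Real.exp_pos _).le h2.le 3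
    refine h3.trans ?_
    norm_num
  exact le_of_pow_le_pow_left₀ (by norm_num) (by norm_num) h

/-- exponentials at nearby times and places -/
theorem H_near (t t' v s : ℝ) (ht : 16 ≤ t) (h0 : 0 < t') (h1 : t' ≤ 4 / 3 * t) (hs : |s| ≤ 4) :
    Real.exp (-((v + s) ^ 2 / (4 * t'))) ≤ 3 / 2 * Real.exp (-(v ^ 2 / (8 * t))) := by
  have ht0 : 0 < t := by linarith
  have h2 : Real.exp (-((v + s) ^ 2 / (4 * t'))) ≤ Real.exp (3 / 8 + -(v ^ 2 / (8 * t))) := by
    apply Real.exp_le_exp.2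
    have h3 : (v + s) ^ 2 / (4 * (4 / 3 * t)) ≤ (v + s) ^ 2 / (4 * t') := by
      apply div_le_div_of_nonneg_left (sq_nonneg _) (by positivity) (by linarith)
    have hs2 : s ^ 2 ≤ 16 := by
      have := sq_le_sq' (by linarith [(abs_le.1 hs).1]) (abs_le.1 hs).2
      linarith
    have h4 : v ^ 2 / (8 * t) - 3 / 8 ≤ (v + s) ^ 2 / (4 * (4 / 3 * t)) := by
      rw [div_sub' (by positivity), div_le_div_iff₀ (by positivity) (by positivity)]
      have h5 : 2 / 3 * v ^ 2 - 2 * s ^ 2 ≤ (v + s) ^ 2 := by nlinarith [sq_nonneg (v + 3 * s)]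
      nlinarith
    linarith
  refine h2.trans ?_
  rw [Real.exp_add]
  exact mul_le_mul_of_nonneg_right H_exp38 (Real.exp_pos _).le

/-- mean value inequality -/
theorem H_mvi {f f' : ℝ → ℝ} {p q C : ℝ} (hf : ∀ x ∈ Set.uIcc p q, HasDerivAt f (f' x) x)
    (hb : ∀ x ∈ Set.uIcc p q, |f' x| ≤ C) : |f q - f p| ≤ C * |q - p| := by
  have h := Convex.norm_image_sub_le_of_norm_hasDerivWithin_le (𝕜 := ℝ) (f := f) (f' := f')
    (s := Set.uIcc p q) (C := C) (x := p) (y := q)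
    (fun x hx => (hf x hx).hasDerivWithinAt) (fun x hx => hb x hx) (convex_uIcc p q)
    Set.left_mem_uIcc Set.right_mem_uIcc
  simpa using h

theorem H_A (t v b C : ℝ) (ht : 0 < t) (hC : ∀ s, |s| ≤ b → |H_k4 t (v + s)| ≤ C)
    (hC0 : 0 ≤ C) (y : ℝ) (hy : |y| ≤ b) : |H_k3 t (v + y) - H_k3 t (v - y)| ≤ 2 * b * C := by
  have h := H_mvi (f := H_k3 t) (f' := H_k4 t) (p := v - y) (q := v + y) (C := C)
    (fun x _ => H_d3 t x ht) (fun x hx => by
      have hx1 : |x - v| ≤ |y| := by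
        rcases Set.mem_uIcc.1 hx with h | h
        · rw [abs_le]
          have h1 := le_abs_self y
          constructor <;> linarith
        · rw [abs_le]
          have h1 := neg_abs_le y
          constructor <;> linarith
      have := hC (x - v) (hx1.trans hy)
      rwa [show v + (x - v) = x by ring] at this)
  have e : |v + y - (v - y)| = 2 * |y| := by
    rw [show v + y - (v - y) = 2 * y by ring, abs_mul, abs_two]
  rw [e] at h
  refine h.trans ?_
  nlinarith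

theorem H_dadd (f : ℝ → ℝ) (f' v y : ℝ) (h : HasDerivAt f f' (v + y)) :
    HasDerivAt (fun y => f (v + y)) f' y := HasDerivAt.comp_const_add v y h

theorem H_dsub (f : ℝ → ℝ) (f' v y : ℝ) (h : HasDerivAt f f' (v - y)) :
    HasDerivAt (fun y => f (v - y)) (-f') y := HasDerivAt.comp_const_sub v y h

theorem H_uicc {b y x : ℝ} (hy : |y| ≤ b) (hx : x ∈ Set.uIcc 0 y) : |x| ≤ b := by
  refine le_trans ?_ hy
  rcases Set.mem_uIcc.1 hx with h | h
  · rw [abs_of_nonneg h.1, abs_of_nonneg (h.1.trans h.2)]; exact h.2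
  · rw [abs_of_nonpos h.2, abs_of_nonpos (h.1.trans h.2)]; linarith

/-- the error of the trapezoidal rule -/
theorem H_trap (t v b C : ℝ) (ht : 0 < t) (hC : ∀ s, |s| ≤ b → |H_k4 t (v + s)| ≤ C)
    (hC0 : 0 ≤ C) (hb : 0 ≤ b) :
    |H_k1 t (v + b) - H_k1 t (v - b) - b * (H_k2 t (v + b) + H_k2 t (v - b))| ≤
      2 * b ^ 3 * C := by
  have h := H_mvi (f := fun y => H_k1 t (v + y) - H_k1 t (v - y) -
      y * (H_k2 t (v + y) + H_k2 t (v - y)))
    (f' := fun y => -y * (H_k3 t (v + y) - H_k3 t (v - y))) (p := 0) (q := b)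
    (C := b * (2 * b * C))
    (fun y _ => by
      have h1 := H_dadd _ _ v y (H_d1 t (v + y) ht)
      have h2 := H_dsub _ _ v y (H_d1 t (v - y) ht)
      have h3 := H_dadd _ _ v y (H_d2 t (v + y) ht)
      have h4 := H_dsub _ _ v y (H_d2 t (v - y) ht)
      have h5 := (h1.sub h2).sub ((hasDerivAt_id y).mul (h3.add h4))
      refine h5.congr_deriv ?_
      simp only [Pi.add_apply, id]
      ring)
    (fun y hy => by
      have hy1 : |y| ≤ b := H_uicc (abs_of_nonneg hb).le hy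
      rw [abs_mul, abs_neg]
      exact mul_le_mul hy1 (H_A t v b C ht hC hC0 y hy1) (abs_nonneg _) hb)
  simp only [add_zero, sub_zero, sub_self, zero_mul] at h
  rw [abs_of_nonneg hb] at h
  refine h.trans (le_of_eq (by ring))

theorem H_E2 (t v b C : ℝ) (ht : 0 < t) (hC : ∀ s, |s| ≤ b → |H_k4 t (v + s)| ≤ C)
    (hC0 : 0 ≤ C) (y : ℝ) (hy : |y| ≤ b) :
    |H_k2 t (v + y) + H_k2 t (v - y) - 2 * H_k2 t v| ≤ 2 * b ^ 2 * C := by
  have hb : 0 ≤ b := (abs_nonneg _).trans hy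
  have h := H_mvi (f := fun y => H_k2 t (v + y) + H_k2 t (v - y))
    (f' := fun y => (H_k3 t (v + y) - H_k3 t (v - y))) (p := 0) (q := y)
    (C := (2 * b * C))
    (fun y _ => by
      have h3 := H_dadd _ _ v y (H_d2 t (v + y) ht)
      have h4 := H_dsub _ _ v y (H_d2 t (v - y) ht)
      have h5 := (h3.add h4)
      refine h5.congr_deriv ?_
      ring)
    (fun x hx => H_A t v b C ht hC hC0 x (H_uicc hy hx))
  simp only [add_zero, sub_zero] at h
  rw [show H_k2 t (v + y) + H_k2 t (v - y) - 2 * H_k2 t v =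
    H_k2 t (v + y) + H_k2 t (v - y) - (H_k2 t v + H_k2 t v) by ring]
  refine h.trans ?_
  have : 2 * b * C * |y| ≤ 2 * b * C * b := mul_le_mul_of_nonneg_left hy (by positivity)
  refine this.trans (le_of_eq (by ring))

theorem H_D3 (t v b C : ℝ) (ht : 0 < t) (hC : ∀ s, |s| ≤ b → |H_k4 t (v + s)| ≤ C)
    (hC0 : 0 ≤ C) (y : ℝ) (hy : |y| ≤ b) :
    |H_k1 t (v + y) - H_k1 t (v - y) - 2 * y * H_k2 t v| ≤ 2 * b ^ 3 * C := by
  have hb : 0 ≤ b := (abs_nonneg _).trans hy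
  have h := H_mvi (f := fun y => H_k1 t (v + y) - H_k1 t (v - y) - 2 * y * H_k2 t v)
    (f' := fun y => (H_k2 t (v + y) + H_k2 t (v - y) - 2 * H_k2 t v)) (p := 0) (q := y)
    (C := (2 * b ^ 2 * C))
    (fun y _ => by
      have h3 := H_dadd _ _ v y (H_d1 t (v + y) ht)
      have h4 := H_dsub _ _ v y (H_d1 t (v - y) ht)
      have h5 := (h3.sub h4).sub (((hasDerivAt_id y).const_mul 2).mul_const (H_k2 t v))
      refine h5.congr_deriv ?_
      ring)
    (fun x hx => H_E2 t v b C ht hC hC0 x (H_uicc hy hx))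
  simp only [add_zero, sub_zero, sub_self, mul_zero, zero_mul] at h
  refine h.trans ?_
  have : 2 * b ^ 2 * C * |y| ≤ 2 * b ^ 2 * C * b := mul_le_mul_of_nonneg_left hy (by positivity)
  refine this.trans (le_of_eq (by ring))

theorem H_k4_near (t t' v s : ℝ) (ht : 16 ≤ t) (h0 : 3 / 4 * t ≤ t') (h1 : t' ≤ 4 / 3 * t)
    (hs : |s| ≤ 4) :
    |H_k4 t' (v + s)| ≤ 8 / 3 / t ^ 2 * Real.exp (-(v ^ 2 / (8 * t))) := by
  have ht0 : 0 < t := by linarith
  have ht' : 0 < t' := by linarith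
  refine (H_b4 t' (v + s) ht').trans ?_
  have h2 := H_near t t' v s ht ht' h1 hs
  have h3 : 1 / t' ^ 2 ≤ 16 / 9 / t ^ 2 := by
    rw [div_le_div_iff₀ (by positivity) (by positivity)]
    nlinarith
  calc 1 / t' ^ 2 * Real.exp (-((v + s) ^ 2 / (4 * t')))
      ≤ 16 / 9 / t ^ 2 * (3 / 2 * Real.exp (-(v ^ 2 / (8 * t)))) :=
        mul_le_mul h3 h2 (Real.exp_pos _).le (by positivity)
    _ = _ := by ring

theorem H_sqrt_near (t t' : ℝ) (ht : 16 ≤ t) (h0 : 3 / 4 * t ≤ t') :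
    1 / Real.sqrt t' ≤ 2 / Real.sqrt t ∧ 1 / t' ≤ 1 / Real.sqrt t := by
  have ht0 : 0 < t := by linarith
  have ht' : 0 < t' := by linarith
  have hs : 0 < Real.sqrt t := Real.sqrt_pos.2 ht0
  have hs' : 0 < Real.sqrt t' := Real.sqrt_pos.2 ht'
  have h1 : Real.sqrt t ≤ 2 * Real.sqrt t' := by
    have : Real.sqrt t ≤ Real.sqrt (2 ^ 2 * t') := Real.sqrt_le_sqrt (by linarith)
    rwa [Real.sqrt_mul (by positivity), Real.sqrt_sq (by norm_num)] at this
  constructor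
  · rw [div_le_div_iff₀ hs' hs]; linarith
  · apply one_div_le_one_div_of_le hs
    have h4 : Real.sqrt t ≤ t / 4 := by
      have h5 : (4 : ℝ) ≤ Real.sqrt t := Real.le_sqrt_of_sq_le (by linarith)
      have h6 : Real.sqrt t * Real.sqrt t = t := Real.mul_self_sqrt ht0.le
      nlinarith
    linarith

theorem H_k1_near (t t' v s : ℝ) (ht : 16 ≤ t) (h0 : 3 / 4 * t ≤ t') (h1 : t' ≤ 4 / 3 * t)
    (hs : |s| ≤ 4) :
    |H_k1 t' (v + s)| ≤ 3 / Real.sqrt t * Real.exp (-(v ^ 2 / (8 * t))) := by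
  have ht0 : 0 < t := by linarith
  have ht' : 0 < t' := by linarith
  refine (H_b1 t' (v + s) ht').trans ?_
  have h2 := H_near t t' v s ht ht' h1 hs
  calc 1 / Real.sqrt t' * Real.exp (-((v + s) ^ 2 / (4 * t')))
      ≤ 2 / Real.sqrt t * (3 / 2 * Real.exp (-(v ^ 2 / (8 * t)))) :=
        mul_le_mul (H_sqrt_near t t' ht h0).1 h2 (Real.exp_pos _).le (by positivity)
    _ = _ := by ring

theorem H_k2_near (t t' v s : ℝ) (ht : 16 ≤ t) (h0 : 3 / 4 * t ≤ t') (h1 : t' ≤ 4 / 3 * t)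
    (hs : |s| ≤ 4) :
    |H_k2 t' (v + s)| ≤ 3 / 2 / Real.sqrt t * Real.exp (-(v ^ 2 / (8 * t))) := by
  have ht0 : 0 < t := by linarith
  have ht' : 0 < t' := by linarith
  refine (H_b2 t' (v + s) ht').trans ?_
  have h2 := H_near t t' v s ht ht' h1 hs
  calc 1 / t' * Real.exp (-((v + s) ^ 2 / (4 * t')))
      ≤ 1 / Real.sqrt t * (3 / 2 * Real.exp (-(v ^ 2 / (8 * t)))) :=
        mul_le_mul (H_sqrt_near t t' ht h0).2 h2 (Real.exp_pos _).le (by positivity)
    _ = _ := by ring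

theorem H_time_deriv (τ b : ℝ) : HasDerivAt (fun b : ℝ => τ - b ^ 2) (-(2 * b)) b := by
  have := (hasDerivAt_pow 2 b).const_sub τ
  simpa using this

theorem H_between {a w b : ℝ} (ha : 0 ≤ a) (ha2 : a ≤ 2) (hw : 0 ≤ w) (hw2 : w ≤ 2)
    (hb : b ∈ Set.uIcc w a) : 0 ≤ b ∧ b ≤ 2 := by
  rcases Set.mem_uIcc.1 hb with h | h
  · exact ⟨hw.trans h.1, h.2.trans ha2⟩
  · exact ⟨ha.trans h.1, h.2.trans hw2⟩

/-- H2 -/
theorem phi_swap_even (t a w v : ℝ) (ht : 16 ≤ t) (ha : 0 ≤ a) (ha2 : a ≤ 2) (hw : 0 ≤ w)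
    (hw2 : w ≤ 2) :
    |(phi t (v + a) + phi t (v - a)) -
        (phi (t + a ^ 2 - w ^ 2) (v + w) + phi (t + a ^ 2 - w ^ 2) (v - w))| ≤
      100 * |a - w| / t ^ 2 * Real.exp (-(v ^ 2 / (8 * t))) := by
  have ht0 : 0 < t := by linarith
  have hE := Real.exp_pos (-(v ^ 2 / (8 * t)))
  have h := H_mvi (f := fun b => phi (t + a ^ 2 - b ^ 2) (v + b) + phi (t + a ^ 2 - b ^ 2) (v - b))
    (f' := fun b => H_k1 (t + a ^ 2 - b ^ 2) (v + b) - H_k1 (t + a ^ 2 - b ^ 2) (v - b) -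
      b * (H_k2 (t + a ^ 2 - b ^ 2) (v + b) + H_k2 (t + a ^ 2 - b ^ 2) (v - b)))
    (p := w) (q := a) (C := 100 / t ^ 2 * Real.exp (-(v ^ 2 / (8 * t))))
    (fun b hb => by
      obtain ⟨hb0, hb2⟩ := H_between ha ha2 hw hw2 hb
      have hT : 0 < t + a ^ 2 - b ^ 2 := by nlinarith
      have h1 := H_phi_curve (H_time_deriv (t + a ^ 2) b) (H_dadd _ _ v b (hasDerivAt_id _)) hT
      have h2 := H_phi_curve (H_time_deriv (t + a ^ 2) b) (H_dsub _ _ v b (hasDerivAt_id _)) hT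
      refine (h1.add h2).congr_deriv ?_
      simp only [id]
      ring)
    (fun b hb => by
      obtain ⟨hb0, hb2⟩ := H_between ha ha2 hw hw2 hb
      have hT : 0 < t + a ^ 2 - b ^ 2 := by nlinarith
      have hT1 : 3 / 4 * t ≤ t + a ^ 2 - b ^ 2 := by nlinarith
      have hT2 : t + a ^ 2 - b ^ 2 ≤ 4 / 3 * t := by nlinarith
      have h1 := H_trap (t + a ^ 2 - b ^ 2) v b (8 / 3 / t ^ 2 * Real.exp (-(v ^ 2 / (8 * t)))) hT
        (fun s hs => H_k4_near t _ v s ht hT1 hT2 (by linarith)) (by positivity) hb0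
      refine h1.trans ?_
      have hb3 : b ^ 3 ≤ 8 := by
        have := pow_le_pow_left₀ hb0 hb2 3
        norm_num at this
        exact this
      have h3 : 2 * b ^ 3 * (8 / 3 / t ^ 2 * Real.exp (-(v ^ 2 / (8 * t)))) ≤
          2 * 8 * (8 / 3 / t ^ 2 * Real.exp (-(v ^ 2 / (8 * t)))) :=
        mul_le_mul_of_nonneg_right (by linarith) (by positivity)
      refine h3.trans ?_
      have h4 : 2 * 8 * (8 / 3 / t ^ 2 * Real.exp (-(v ^ 2 / (8 * t)))) =
        128 / 3 * (1 / t ^ 2 * Real.exp (-(v ^ 2 / (8 * t)))) := by ring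
      have h5 : 100 / t ^ 2 * Real.exp (-(v ^ 2 / (8 * t))) =
        100 * (1 / t ^ 2 * Real.exp (-(v ^ 2 / (8 * t)))) := by ring
      rw [h4, h5]
      exact mul_le_mul_of_nonneg_right (by norm_num) (by positivity))
  simp only [add_sub_cancel_right] at h
  refine h.trans (le_of_eq (by ring))

/-- H3 -/
theorem phi_swap_odd (t a w v : ℝ) (ht : 16 ≤ t) (ha : 0 ≤ a) (ha2 : a ≤ 2) (hw : 0 ≤ w)
    (hw2 : w ≤ 2) :
    |(phi t (v + a) - phi t (v - a)) -
        (phi (t + a ^ 2 - w ^ 2) (v + w) - phi (t + a ^ 2 - w ^ 2) (v - w))| ≤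
      100 * |a - w| / Real.sqrt t * Real.exp (-(v ^ 2 / (8 * t))) := by
  have ht0 : 0 < t := by linarith
  have hE := Real.exp_pos (-(v ^ 2 / (8 * t)))
  have h := H_mvi (f := fun b => phi (t + a ^ 2 - b ^ 2) (v + b) - phi (t + a ^ 2 - b ^ 2) (v - b))
    (f' := fun b => H_k1 (t + a ^ 2 - b ^ 2) (v + b) + H_k1 (t + a ^ 2 - b ^ 2) (v - b) -
      b * (H_k2 (t + a ^ 2 - b ^ 2) (v + b) - H_k2 (t + a ^ 2 - b ^ 2) (v - b)))
    (p := w) (q := a) (C := 100 / Real.sqrt t * Real.exp (-(v ^ 2 / (8 * t))))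
    (fun b hb => by
      obtain ⟨hb0, hb2⟩ := H_between ha ha2 hw hw2 hb
      have hT : 0 < t + a ^ 2 - b ^ 2 := by nlinarith
      have h1 := H_phi_curve (H_time_deriv (t + a ^ 2) b) (H_dadd _ _ v b (hasDerivAt_id _)) hT
      have h2 := H_phi_curve (H_time_deriv (t + a ^ 2) b) (H_dsub _ _ v b (hasDerivAt_id _)) hT
      refine (h1.sub h2).congr_deriv ?_
      simp only [id]
      ring)
    (fun b hb => by
      obtain ⟨hb0, hb2⟩ := H_between ha ha2 hw hw2 hb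
      have hT1 : 3 / 4 * t ≤ t + a ^ 2 - b ^ 2 := by nlinarith
      have hT2 : t + a ^ 2 - b ^ 2 ≤ 4 / 3 * t := by nlinarith
      have hb4 : |b| ≤ 4 := by rw [abs_of_nonneg hb0]; linarith
      have hb4' : |-b| ≤ 4 := by rw [abs_neg]; exact hb4
      have h1 := H_k1_near t _ v b ht hT1 hT2 hb4
      have h2 := H_k1_near t _ v (-b) ht hT1 hT2 hb4'
      have h3 := H_k2_near t _ v b ht hT1 hT2 hb4
      have h4 := H_k2_near t _ v (-b) ht hT1 hT2 hb4'
      rw [← sub_eq_add_neg] at h2 h4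
      have hX : 0 < 1 / Real.sqrt t * Real.exp (-(v ^ 2 / (8 * t))) := by positivity
      have e1 : 3 / Real.sqrt t * Real.exp (-(v ^ 2 / (8 * t))) =
        3 * (1 / Real.sqrt t * Real.exp (-(v ^ 2 / (8 * t)))) := by ring
      have e2 : 3 / 2 / Real.sqrt t * Real.exp (-(v ^ 2 / (8 * t))) =
        3 / 2 * (1 / Real.sqrt t * Real.exp (-(v ^ 2 / (8 * t)))) := by ring
      have e3 : 100 / Real.sqrt t * Real.exp (-(v ^ 2 / (8 * t))) =
        100 * (1 / Real.sqrt t * Real.exp (-(v ^ 2 / (8 * t)))) := by ring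
      rw [e1] at h1 h2
      rw [e2] at h3 h4
      rw [e3]
      generalize 1 / Real.sqrt t * Real.exp (-(v ^ 2 / (8 * t))) = X at *
      generalize H_k1 (t + a ^ 2 - b ^ 2) (v + b) = A1 at *
      generalize H_k1 (t + a ^ 2 - b ^ 2) (v - b) = A2 at *
      generalize H_k2 (t + a ^ 2 - b ^ 2) (v + b) = A3 at *
      generalize H_k2 (t + a ^ 2 - b ^ 2) (v - b) = A4 at *
      have h5 : |b * (A3 - A4)| ≤ 2 * (3 * X) := by
        rw [abs_mul, abs_of_nonneg hb0]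
        apply mul_le_mul hb2 _ (abs_nonneg _) (by norm_num)
        have := abs_sub A3 A4
        linarith
      have h6 := abs_sub (A1 + A2) (b * (A3 - A4))
      have h7 := abs_add_le A1 A2
      linarith)
  simp only [add_sub_cancel_right] at h
  refine h.trans (le_of_eq (by ring))

theorem H_sumsq (c : ℝ) (n : ℕ) : ∑ u ∈ range n, (c - 2 * (u : ℝ)) ^ 2 =
    n * c ^ 2 - 2 * c * n * (n - 1) + 2 / 3 * n * (n - 1) * (2 * n - 1) := by
  induction n with
  | zero => simp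
  | succ n ih => rw [Finset.sum_range_succ, ih]; push_cast; ring

/-- H4: uniform noise `μ (m - 1 - 2 u)`, `u < m`, against the time `μ^2 (m^2 - 1) / 3` -/
theorem phi_noise (t v μ : ℝ) (m : ℕ) (hm : 0 < m) (ht : 16 ≤ t) (hμ : 0 ≤ μ) (hμm : μ * m ≤ 4) :
    |(∑ u ∈ range m, phi t (v + μ * (m - 1 - 2 * u))) / m -
        phi (t + μ ^ 2 * (m ^ 2 - 1) / 3) v| ≤ 1000 / t ^ 2 * Real.exp (-(v ^ 2 / (8 * t))) := by
  have ht0 : 0 < t := by linarith
  have hE := Real.exp_pos (-(v ^ 2 / (8 * t)))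
  have hm1 : (1 : ℝ) ≤ m := by exact_mod_cast hm
  have hm0 : (0 : ℝ) < m := by linarith
  set s : ℕ → ℝ := fun u => μ * (m - 1 - 2 * u) with hsd
  set σ : ℝ := μ ^ 2 * (m ^ 2 - 1) / 3 with hσ
  have hσ0 : 0 ≤ σ := by
    rw [hσ]
    have : 0 ≤ (m : ℝ) ^ 2 - 1 := by nlinarith
    positivity
  have hσ1 : σ ≤ 16 / 3 := by
    rw [hσ]
    have h1 : (μ * m) ^ 2 ≤ 16 := by
      have := pow_le_pow_left₀ (by positivity) hμm 2
      norm_num at this
      exact this
    nlinarith [sq_nonneg μ]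
  have hs4 : ∀ u ∈ range m, |s u| ≤ 4 := by
    intro u hu
    have hu1 : (u : ℝ) + 1 ≤ m := by exact_mod_cast Finset.mem_range.1 hu
    have hu0 : (0 : ℝ) ≤ u := Nat.cast_nonneg u
    rw [hsd]
    simp only
    rw [abs_mul, abs_of_nonneg hμ]
    refine le_trans ?_ hμm
    apply mul_le_mul_of_nonneg_left _ hμ
    rw [abs_le]; constructor <;> linarith
  have hrefl : ∀ f : ℝ → ℝ, ∑ u ∈ range m, f (s u) = ∑ u ∈ range m, f (-(s u)) := by
    intro f
    rw [← Finset.sum_range_reflect]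
    refine Finset.sum_congr rfl fun u hu => ?_
    congr 1
    have hu1 : u + 1 ≤ m := Finset.mem_range.1 hu
    rw [hsd]
    simp only
    rw [show m - 1 - u = m - (u + 1) by omega, Nat.cast_sub hu1]
    push_cast
    ring
  have hsq : ∑ u ∈ range m, (s u) ^ 2 = m * σ := by
    have h1 := H_sumsq ((m : ℝ) - 1) m
    have h2 : ∑ u ∈ range m, (s u) ^ 2 = μ ^ 2 * ∑ u ∈ range m, ((m : ℝ) - 1 - 2 * (u : ℝ)) ^ 2 := by
      rw [Finset.mul_sum]
      refine Finset.sum_congr rfl fun u _ => ?_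
      rw [hsd]; ring
    rw [h2, h1, hσ]
    ring
  set E := Real.exp (-(v ^ 2 / (8 * t))) with hEd
  have hb : ∀ θ : ℝ, 0 ≤ θ → θ ≤ 1 →
      |∑ u ∈ range m, (H_k1 (t + σ - σ * θ ^ 2) (v + θ * s u) * s u +
        H_k2 (t + σ - σ * θ ^ 2) (v + θ * s u) * (-(σ * (2 * θ))) / 2)| ≤
      m * (1000 / t ^ 2 * E) := by
    intro θ hθ0 hθ1
    have hθ2 : θ ^ 2 ≤ 1 := by nlinarith
    have hσθ : σ * θ ^ 2 ≤ σ := by nlinarith
    have hT1 : 3 / 4 * t ≤ t + σ - σ * θ ^ 2 := by nlinarith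
    have hT2 : t + σ - σ * θ ^ 2 ≤ 4 / 3 * t := by nlinarith [sq_nonneg θ, mul_nonneg hσ0 (sq_nonneg θ)]
    have hT0 : 0 < t + σ - σ * θ ^ 2 := by linarith
    generalize t + σ - σ * θ ^ 2 = T at *
    have hC : ∀ x, |x| ≤ 4 → |H_k4 T (v + x)| ≤ 8 / 3 / t ^ 2 * E :=
      fun x hx => H_k4_near t T v x ht hT1 hT2 hx
    have hC0 : 0 ≤ 8 / 3 / t ^ 2 * E := by positivity
    have h1 : ∑ u ∈ range m, (H_k1 T (v + θ * s u) * s u +
        H_k2 T (v + θ * s u) * (-(σ * (2 * θ))) / 2) =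
        ∑ u ∈ range m, (H_k1 T (v + θ * (-s u)) * (-s u) +
        H_k2 T (v + θ * (-s u)) * (-(σ * (2 * θ))) / 2) :=
      hrefl (fun x => H_k1 T (v + θ * x) * x + H_k2 T (v + θ * x) * (-(σ * (2 * θ))) / 2)
    have h2 : 2 * ∑ u ∈ range m, (H_k1 T (v + θ * s u) * s u +
        H_k2 T (v + θ * s u) * (-(σ * (2 * θ))) / 2) =
        ∑ u ∈ range m, (s u * (H_k1 T (v + θ * s u) - H_k1 T (v - θ * s u) -
            2 * (θ * s u) * H_k2 T v) -
          σ * θ * (H_k2 T (v + θ * s u) + H_k2 T (v - θ * s u) - 2 * H_k2 T v)) := by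
      have h3 : ∑ u ∈ range m, 2 * θ * H_k2 T v * ((s u) ^ 2 - σ) = 0 := by
        rw [← Finset.mul_sum, Finset.sum_sub_distrib, hsq]
        simp
      rw [two_mul]
      nth_rewrite 2 [h1]
      rw [← Finset.sum_add_distrib, ← sub_zero (∑ u ∈ range m, _), ← h3,
        ← Finset.sum_sub_distrib]
      refine Finset.sum_congr rfl fun u _ => ?_
      rw [show v + θ * -s u = v - θ * s u by ring]
      ring
    have h4 : |2 * ∑ u ∈ range m, (H_k1 T (v + θ * s u) * s u +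
        H_k2 T (v + θ * s u) * (-(σ * (2 * θ))) / 2)| ≤ m * (2 * (1000 / t ^ 2 * E)) := by
      rw [h2]
      refine (Finset.abs_sum_le_sum_abs _ _).trans ?_
      have h5 : ∀ u ∈ range m, |s u * (H_k1 T (v + θ * s u) - H_k1 T (v - θ * s u) -
            2 * (θ * s u) * H_k2 T v) -
          σ * θ * (H_k2 T (v + θ * s u) + H_k2 T (v - θ * s u) - 2 * H_k2 T v)| ≤
          2 * (1000 / t ^ 2 * E) := by
        intro u hu
        have hy : |θ * s u| ≤ 4 := by
          rw [abs_mul, abs_of_nonneg hθ0]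
          have := hs4 u hu
          have h0 := abs_nonneg (s u)
          nlinarith
        have h6 := H_D3 T v 4 _ hT0 hC hC0 (θ * s u) hy
        have h7 := H_E2 T v 4 _ hT0 hC hC0 (θ * s u) hy
        have h8 := abs_sub (s u * (H_k1 T (v + θ * s u) - H_k1 T (v - θ * s u) -
            2 * (θ * s u) * H_k2 T v))
          (σ * θ * (H_k2 T (v + θ * s u) + H_k2 T (v - θ * s u) - 2 * H_k2 T v))
        refine h8.trans ?_
        rw [abs_mul, abs_mul (σ * θ), abs_of_nonneg (mul_nonneg hσ0 hθ0)]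
        have h9 : |s u| * |H_k1 T (v + θ * s u) - H_k1 T (v - θ * s u) -
            2 * (θ * s u) * H_k2 T v| ≤ 4 * (2 * 4 ^ 3 * (8 / 3 / t ^ 2 * E)) :=
          mul_le_mul (hs4 u hu) h6 (abs_nonneg _) (by norm_num)
        have h10 : σ * θ * |H_k2 T (v + θ * s u) + H_k2 T (v - θ * s u) - 2 * H_k2 T v| ≤
            16 / 3 * (2 * 4 ^ 2 * (8 / 3 / t ^ 2 * E)) := by
          apply mul_le_mul _ h7 (abs_nonneg _) (by norm_num)
          nlinarith
        have e1 : 8 / 3 / t ^ 2 * E = 8 / 3 * (1 / t ^ 2 * E) := by ring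
        have e2 : 1000 / t ^ 2 * E = 1000 * (1 / t ^ 2 * E) := by ring
        have hX : 0 ≤ 1 / t ^ 2 * E := by positivity
        rw [e1] at h9 h10
        rw [e2]
        linarith
      have h6 := Finset.sum_le_sum h5
      rw [Finset.sum_const, Finset.card_range, nsmul_eq_mul] at h6
      exact h6
    rw [abs_mul, abs_two] at h4
    linarith
  have h := H_mvi (f := fun θ => ∑ u ∈ range m, phi (t + σ - σ * θ ^ 2) (v + θ * s u))
    (f' := fun θ => ∑ u ∈ range m, (H_k1 (t + σ - σ * θ ^ 2) (v + θ * s u) * s u +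
        H_k2 (t + σ - σ * θ ^ 2) (v + θ * s u) * (-(σ * (2 * θ))) / 2))
    (p := 0) (q := 1) (C := m * (1000 / t ^ 2 * E))
    (fun θ hθ => by
      rw [Set.uIcc_of_le zero_le_one] at hθ
      have hθ2 : θ ^ 2 ≤ 1 := by nlinarith [hθ.1, hθ.2]
      have hT0 : 0 < t + σ - σ * θ ^ 2 := by nlinarith
      apply HasDerivAt.fun_sum
      intro u _
      have h1 : HasDerivAt (fun θ : ℝ => t + σ - σ * θ ^ 2) (-(σ * (2 * θ))) θ := by
        have := ((hasDerivAt_pow 2 θ).const_mul σ).const_sub (t + σ)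
        simpa using this
      have h2 : HasDerivAt (fun θ : ℝ => v + θ * s u) (s u) θ := by
        have := ((hasDerivAt_id θ).mul_const (s u)).const_add v
        simpa using this
      exact H_phi_curve h1 h2 hT0)
    (fun θ hθ => by
      rw [Set.uIcc_of_le zero_le_one] at hθ
      exact hb θ hθ.1 hθ.2)
  simp only [one_pow, mul_one, one_mul, zero_mul, add_zero, sub_zero, abs_one,
    add_sub_cancel_right, ne_eq, OfNat.ofNat_ne_zero, not_false_eq_true, zero_pow, mul_zero,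
    Finset.sum_const, Finset.card_range, nsmul_eq_mul] at h
  have h2 : (∑ u ∈ range m, phi t (v + s u)) / m - phi (t + σ) v =
      (∑ u ∈ range m, phi t (v + s u) - m * phi (t + σ) v) / m := by
    field_simp
  rw [h2, abs_div, abs_of_pos hm0, div_le_iff₀ hm0]
  refine h.trans (le_of_eq (by ring))

/-- H5 -/
theorem phi_time (t t' v : ℝ) (ht : 0 < t) (htt : t ≤ t') : |phi t' v - phi t v| ≤ (t' - t) / t := by
  have h := H_mvi (f := fun s => phi s v) (f' := fun s => H_k2 s v / 2) (p := t) (q := t')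
    (C := 1 / t)
    (fun s hs => by
      rw [Set.uIcc_of_le htt] at hs
      have hs0 : 0 < s := lt_of_lt_of_le ht hs.1
      have h1 := H_phi_curve (hasDerivAt_id s) (hasDerivAt_const s v) hs0
      refine h1.congr_deriv ?_
      simp)
    (fun s hs => by
      rw [Set.uIcc_of_le htt] at hs
      have hs0 : 0 < s := lt_of_lt_of_le ht hs.1
      have h1 := H_b2 s v hs0
      have h2 : Real.exp (-(v ^ 2 / (4 * s))) ≤ 1 := by
        rw [Real.exp_le_one_iff]
        have : 0 ≤ v ^ 2 / (4 * s) := by positivity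
        linarith
      have h3 : 1 / s ≤ 1 / t := one_div_le_one_div_of_le ht hs.1
      have h4 : 1 / s * Real.exp (-(v ^ 2 / (4 * s))) ≤ 1 / t * 1 :=
        mul_le_mul h3 h2 (Real.exp_pos _).le (by positivity)
      rw [abs_div, abs_two]
      have h5 := abs_nonneg (H_k2 s v)
      linarith)
  rw [abs_of_nonneg (sub_nonneg.2 htt)] at h
  refine h.trans (le_of_eq (by ring))

/-- H6 -/
theorem phi_shift (t v a : ℝ) (ht : 16 ≤ t) (ha : |a| ≤ 4) :
    |phi t (v + a) - phi t v| ≤ 100 * |a| / Real.sqrt t * Real.exp (-(v ^ 2 / (8 * t))) := by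
  have ht0 : 0 < t := by linarith
  have h := H_mvi (f := fun s => phi t (v + s)) (f' := fun s => H_k1 t (v + s)) (p := 0) (q := a)
    (C := 3 / Real.sqrt t * Real.exp (-(v ^ 2 / (8 * t))))
    (fun s hs => by
      have h1 := H_phi_curve (hasDerivAt_const s t) (H_dadd _ _ v s (hasDerivAt_id _)) ht0
      refine h1.congr_deriv ?_
      simp)
    (fun s hs => H_k1_near t t v s ht (by linarith) (by linarith) (H_uicc ha hs))
  simp only [add_zero, sub_zero] at h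
  refine h.trans ?_
  have hX : 0 ≤ |a| / Real.sqrt t * Real.exp (-(v ^ 2 / (8 * t))) := by positivity
  have e1 : 3 / Real.sqrt t * Real.exp (-(v ^ 2 / (8 * t))) * |a| =
    3 * (|a| / Real.sqrt t * Real.exp (-(v ^ 2 / (8 * t)))) := by ring
  have e2 : 100 * |a| / Real.sqrt t * Real.exp (-(v ^ 2 / (8 * t))) =
    100 * (|a| / Real.sqrt t * Real.exp (-(v ^ 2 / (8 * t)))) := by ring
  rw [e1, e2]
  linarith

end BLP
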