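import Pool.Agent.Lib.BLP.Defs

/-!
# Dyadic level
-/

namespace BLP

open Finset

/-- dyadic level -/
noncomputable def lev (r : ℝ) : ℤ := Int.log 2 |r|

end BLP
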