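import Pool.Agent.Lib.BLP.FinComp
import Pool.Agent.Lib.BLP.LevD

/-!
# Chunk L1: few dyadic levels

`Comp.fibers` over the levels `e ∈ E` (and one class of zero weights); a class with `m` coordinates is
`Comp.blind` if `m < C0 * (1 + log (n + 1)) ^ 2`, else `fin_comp` after sign change, scaling by
`2 ^ (-e)` and relabelling.
-/

namespace BLP

open Finset

/-- one level -/
theorem L1_level {Cf : ℝ} (hCf : 0 < Cf)
    (hfin : ∀ (n m : ℕ) (a : Fin m → ℝ), m ≤ n →
      Cf * (1 + Real.log (n + 1)) ^ 2 ≤ m → (∀ i, 1 ≤ a i ∧ a i ≤ 2) →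
      Comp a (Cf * m * (1 + Real.log (n + 1))) (Cf * (1 + Real.log (n + 1)))
        (Cf * Real.sqrt m) (Cf * Real.sqrt m * (1 + Real.log (n + 1))) (Cf / (n + 1) ^ 3))
    (n : ℕ) {ι : Type} [Fintype ι] [DecidableEq ι] (hn : Fintype.card ι ≤ n) (a : ι → ℝ) (e : ℤ)
    (ha : ∀ i, a i ≠ 0 ∧ lev (a i) = e) :
    Comp a ((Cf + 1) * Fintype.card ι * (1 + Real.log (n + 1))) (Cf * (1 + Real.log (n + 1)))
      (Cf * Real.sqrt (Fintype.card ι) + Cf * (1 + Real.log (n + 1)) ^ 2)
      (Cf * Real.sqrt (Fintype.card ι) * (1 + Real.log (n + 1)) + Cf * (1 + Real.log (n + 1)) ^ 2)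
      (Cf / (n + 1) ^ 3) := by
  set L : ℝ := 1 + Real.log (n + 1) with hL
  have hlog : 0 ≤ Real.log ((n : ℝ) + 1) := Real.log_nonneg (by linarith [Nat.cast_nonneg (α := ℝ) n])
  have hL1 : 1 ≤ L := by linarith
  set m : ℕ := Fintype.card ι with hm
  have hm0 : (0 : ℝ) ≤ (m : ℝ) := Nat.cast_nonneg m
  have hs0 : 0 ≤ Real.sqrt (m : ℝ) := Real.sqrt_nonneg _
  by_cases hcase : Cf * L ^ 2 ≤ (m : ℝ)
  · have hb : ∀ i, (2 : ℝ) ^ e ≤ |a i| ∧ |a i| ≤ (2 : ℝ) ^ (e + 1) := by
      intro i
      obtain ⟨h0, h1⟩ := ha i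
      have h2 : 0 < |a i| := abs_pos.2 h0
      unfold lev at h1
      have h3 := Int.zpow_log_le_self (b := 2) (by norm_num) h2
      have h4 := Int.lt_zpow_succ_log_self (b := 2) (by norm_num) |a i|
      rw [h1] at h3 h4
      exact ⟨by exact_mod_cast h3, by exact_mod_cast h4.le⟩
    have he : (0 : ℝ) < (2 : ℝ) ^ e := by positivity
    let E := Fintype.equivFin ι
    have h1 := hfin n m (fun j => ((2 : ℝ) ^ e)⁻¹ * |a (E.symm j)|) hn hcase (by
      intro j
      obtain ⟨h3, h4⟩ := hb (E.symm j)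
      constructor
      · rw [← div_eq_inv_mul, le_div_iff₀ he, one_mul]; exact h3
      · rw [← div_eq_inv_mul, div_le_iff₀ he]
        rw [zpow_add_one₀ (by norm_num)] at h4
        linarith)
    have h2 := Comp.equiv E h1
    have h3 := h2.scale he
    have h4 : Comp a (Cf * m * L) (Cf * L) (Cf * Real.sqrt m) (Cf * Real.sqrt m * L)
        (Cf / (n + 1) ^ 3) := by
      refine Comp.sign h3 fun i => ?_
      rw [Equiv.symm_apply_apply, ← mul_assoc, mul_inv_cancel₀ he.ne', one_mul, abs_abs]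
    refine h4.mono ?_ le_rfl ?_ ?_ le_rfl
    · nlinarith [mul_nonneg hm0 (by linarith : (0 : ℝ) ≤ L)]
    · have : 0 ≤ Cf * L ^ 2 := by positivity
      linarith
    · have : 0 ≤ Cf * L ^ 2 := by positivity
      linarith
  · have hlt : (m : ℝ) ≤ Cf * L ^ 2 := (not_le.1 hcase).le
    refine (Comp.blind a).mono ?_ (by positivity) ?_ ?_ (by positivity)
    · rw [← hm]
      have h5 : (m : ℝ) ≤ (m : ℝ) * L := le_mul_of_one_le_right hm0 hL1
      have h6 : 0 ≤ Cf * (m * L) := by positivity
      calc (m : ℝ) ≤ m * L := h5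
        _ ≤ Cf * (m * L) + m * L := by linarith
        _ = (Cf + 1) * m * L := by ring
    · rw [← hm]
      have : 0 ≤ Cf * Real.sqrt m := by positivity
      linarith
    · rw [← hm]
      have : 0 ≤ Cf * Real.sqrt m * L := by positivity
      linarith

/-- L1: few levels.  `s` contains the indices of the nonzero weights; `E` contains their levels. -/
theorem levels_comp : ∃ C0 : ℝ, 0 < C0 ∧ ∀ (n : ℕ) (a : Fin n → ℝ) (E : Finset ℤ),
    (∀ i, a i ≠ 0 → lev (a i) ∈ E) →
    Comp a (C0 * n * (1 + Real.log (n + 1))) (C0 * E.card * (1 + Real.log (n + 1)))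
      (C0 * (Real.sqrt (E.card * n) + E.card * (1 + Real.log (n + 1)) ^ 2))
      (C0 * (Real.sqrt (E.card * n) * (1 + Real.log (n + 1)) + E.card * (1 + Real.log (n + 1)) ^ 2))
      (C0 * E.card / (n + 1) ^ 3) := by
  obtain ⟨Cf, hCf, hfin⟩ := fin_comp
  refine ⟨Cf + 1, by linarith, fun n a E hE => ?_⟩
  set L : ℝ := 1 + Real.log (n + 1) with hL
  have hlog : 0 ≤ Real.log ((n : ℝ) + 1) := Real.log_nonneg (by linarith [Nat.cast_nonneg (α := ℝ) n])
  have hL1 : 1 ≤ L := by linarith
  let f : Fin n → Option {e // e ∈ E} := fun i =>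
    if h : a i ≠ 0 then some ⟨lev (a i), hE i h⟩ else none
  let c : Option {e // e ∈ E} → ℕ := fun k => Fintype.card {i // f i = k}
  have hsum : ∑ k, c k = n := by
    have h1 : ∑ k, c k = Fintype.card (Σ k, {i // f i = k}) := by
      rw [Fintype.card_sigma]
    rw [h1, Fintype.card_congr (Equiv.sigmaFiberEquiv f), Fintype.card_fin]
  have hcn : ∀ k, c k ≤ n := fun k => by
    rw [← hsum]; exact single_le_sum (fun _ _ => Nat.zero_le _) (mem_univ k)
  have hmain := Comp.fibers f a
    (fun k => (Cf + 1) * (c k : ℝ) * L)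
    (fun k => match k with | none => 0 | some _ => Cf * L)
    (fun k => match k with | none => 0 | some e => Cf * Real.sqrt (c (some e)) + Cf * L ^ 2)
    (fun k => match k with | none => 0 | some e => Cf * Real.sqrt (c (some e)) * L + Cf * L ^ 2)
    (fun k => match k with | none => 0 | some _ => Cf / (n + 1) ^ 3)
    (by
      intro k
      cases k with
      | none =>
        have hz : (fun i : {i // f i = none} => a i) = fun _ => (0 : ℝ) := by
          funext i
          by_contra h
          have h2 := i.2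
          simp only [f] at h2
          rw [dif_pos h] at h2
          exact absurd h2 (by simp)
        rw [hz]
        refine Comp.zero.mono ?_ le_rfl le_rfl le_rfl le_rfl
        have hc0 : (0 : ℝ) ≤ (c none : ℝ) := Nat.cast_nonneg _
        have h5 : (c none : ℝ) ≤ (c none : ℝ) * L := le_mul_of_one_le_right hc0 hL1
        have h6 : 0 ≤ Cf * ((c none : ℝ) * L) := by positivity
        calc (Fintype.card {i // f i = none} : ℝ) = (c none : ℝ) := rfl
          _ ≤ (c none : ℝ) * L := h5
          _ ≤ Cf * ((c none : ℝ) * L) + (c none : ℝ) * L := by linarith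
          _ = (Cf + 1) * (c none : ℝ) * L := by ring
      | some e =>
        refine L1_level hCf hfin n (hcn (some e)) (fun i : {i // f i = some e} => a i) e ?_
        intro i
        have h2 := i.2
        simp only [f] at h2
        split_ifs at h2 with h
        refine ⟨h, ?_⟩
        have h3 := Option.some.inj h2
        exact congrArg Subtype.val h3)
  have hsumR : ∑ k, (c k : ℝ) = (n : ℝ) := by exact_mod_cast hsum
  have hsumE : ∑ e : {e // e ∈ E}, (c (some e) : ℝ) ≤ (n : ℝ) := by
    rw [← hsumR, Fintype.sum_option]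
    have : (0 : ℝ) ≤ (c none : ℝ) := Nat.cast_nonneg _
    linarith
  have hcardE : Fintype.card {e // e ∈ E} = E.card := Fintype.card_coe E
  have hsq : ∑ e : {e // e ∈ E}, Real.sqrt (c (some e) : ℝ) ≤ Real.sqrt (E.card * n) := by
    apply Real.le_sqrt_of_sq_le
    have h1 := Finset.sum_mul_sq_le_sq_mul_sq (univ : Finset {e // e ∈ E}) (fun _ => (1 : ℝ))
      (fun e => Real.sqrt (c (some e) : ℝ))
    simp only [one_mul, one_pow, sum_const, card_univ, nsmul_eq_mul, mul_one, hcardE] at h1
    refine h1.trans ?_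
    apply mul_le_mul_of_nonneg_left _ (Nat.cast_nonneg _)
    have h2 : ∀ e : {e // e ∈ E}, Real.sqrt (c (some e) : ℝ) ^ 2 = (c (some e) : ℝ) :=
      fun e => Real.sq_sqrt (Nat.cast_nonneg _)
    simp only [h2]
    exact hsumE
  refine hmain.mono ?_ ?_ ?_ ?_ ?_
  · rw [← sum_mul, ← mul_sum, hsumR]
  · rw [Fintype.sum_option]
    simp only [sum_const, card_univ, nsmul_eq_mul, hcardE, zero_add]
    have : 0 ≤ (E.card : ℝ) * L := by positivity
    nlinarith
  · rw [Fintype.sum_option]
    simp only [sum_add_distrib, ← mul_sum, sum_const, card_univ, nsmul_eq_mul, hcardE, zero_add]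
    have h1 : Cf * ∑ e : {e // e ∈ E}, Real.sqrt (c (some e) : ℝ) ≤
        Cf * Real.sqrt (E.card * n) := mul_le_mul_of_nonneg_left hsq hCf.le
    have h2 : 0 ≤ Real.sqrt (E.card * n) := Real.sqrt_nonneg _
    have h3 : 0 ≤ (E.card : ℝ) * L ^ 2 := by positivity
    nlinarith
  · rw [Fintype.sum_option]
    simp only [sum_add_distrib, ← mul_sum, ← sum_mul, sum_const, card_univ, nsmul_eq_mul, hcardE,
      zero_add]
    have h1 : Cf * (∑ e : {e // e ∈ E}, Real.sqrt (c (some e) : ℝ)) * L ≤
        Cf * Real.sqrt (E.card * n) * L := by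
      apply mul_le_mul_of_nonneg_right _ (by linarith)
      exact mul_le_mul_of_nonneg_left hsq hCf.le
    have h2 : 0 ≤ Real.sqrt (E.card * n) * L := by positivity
    have h3 : 0 ≤ (E.card : ℝ) * L ^ 2 := by positivity
    nlinarith
  · rw [Fintype.sum_option]
    simp only [sum_const, card_univ, nsmul_eq_mul, hcardE, zero_add]
    rw [mul_div_assoc']
    apply div_le_div_of_nonneg_right _ (by positivity)
    have : (0 : ℝ) ≤ (E.card : ℝ) := Nat.cast_nonneg _
    nlinarith

end BLP
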