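import Mathlib
import Pool.Agent.Lib.BLP.Final

/-!
MP_058dd4_co, Q2: average stretch `O((log n)^2)` for all balanced halfspaces.

The cube `{-1,1}^m` is coded as `Fin m → Bool` (`true = +1`, `false = -1`).
-/

namespace Pool.Agent.Results.MP_058dd4_co.LogSquared

open Finset

/-- the balanced halfspace `{x ∈ {-1,1}^m : a_1 x_1 + ... + a_m x_m ≥ 0}` -/
def halfspace {m : ℕ} (a : Fin m → ℝ) : Set (Fin m → Bool) :=
  {x | 0 ≤ ∑ i, a i * (if x i = true then 1 else -1)}

/-- average stretch of `f : {-1,1}^n → {-1,1}^m`: the mean of `d (f x) (f y)` over the edges `x y`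
of the cube (`y` is `x` with the coordinate `i` flipped) -/
noncomputable def avgStretch {n m : ℕ} (f : (Fin n → Bool) → (Fin m → Bool)) : ℝ :=
  (∑ x, ∑ i, (hammingDist (f x) (f (Function.update x i (!(x i)))) : ℝ)) / (2 ^ n * n)

theorem sg_xor (e b : Bool) : BLP.sg (xor e b) = BLP.sg (!e) * BLP.sg b := by
  cases e <;> cases b <;> simp [BLP.sg]

/-- There is an absolute constant `C` such that every balanced halfspace of size `2 ^ n` in the cube
of dimension `n + 1` is the image of the cube of dimension `n` under a bijection with average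
stretch at most `C (1 + log (n + 1))^2`. -/
theorem result : ∃ C : ℝ, ∀ (n : ℕ) (a : Fin (n + 1) → ℝ), (halfspace a).ncard = 2 ^ n →
    ∃ f : (Fin n → Bool) → (Fin (n + 1) → Bool), Set.BijOn f Set.univ (halfspace a) ∧
      avgStretch f ≤ C * (1 + Real.log ((n : ℝ) + 1)) ^ 2 := by
  classical
  obtain ⟨C, hC, main⟩ := BLP.main_sorted
  refine ⟨C, fun n a ha => ?_⟩
  -- the smallest weight
  obtain ⟨i0, -, hi0⟩ := Finset.exists_min_image (Finset.univ : Finset (Fin (n + 1)))
    (fun i => |a i|) Finset.univ_nonempty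
  set σ : Equiv.Perm (Fin (n + 1)) := Equiv.swap i0 (Fin.last n) with hσ
  have hσσ : ∀ j, σ (σ j) = j := fun j => by
    rw [hσ, ← Equiv.Perm.mul_apply, Equiv.swap_mul_self, Equiv.Perm.one_apply]
  set e : Fin (n + 1) → Bool := fun j => decide (a j < 0) with he
  have hea : ∀ j, a j * BLP.sg (!(e j)) = |a j| := by
    intro j
    by_cases h : a j < 0
    · simp [he, h, BLP.sg, abs_of_neg h]
    · have h' : 0 ≤ a j := not_lt.mp h
      simp [he, h, BLP.sg, abs_of_nonneg h']
  set Φ : (Fin (n + 1) → Bool) → (Fin (n + 1) → Bool) := fun z j => xor (e j) (z (σ j)) with hΦ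
  have hΦinj : Function.Injective Φ := by
    intro z w h
    funext j
    have := congrFun h (σ j)
    simp only [hΦ, hσσ] at this
    exact (Bool.xor_right_inj).mp this
  have hΦbij : Function.Bijective Φ := Finite.injective_iff_bijective.mp hΦinj
  have hΦd : ∀ z w, hammingDist (Φ z) (Φ w) = hammingDist z w := by
    intro z w
    unfold hammingDist
    apply Finset.card_bij (fun j _ => σ j)
    · intro j hj
      simp only [Finset.mem_filter, Finset.mem_univ, true_and, hΦ] at hj ⊢
      intro h
      exact hj (by rw [h])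
    · intro j _ k _ h
      exact σ.injective h
    · intro j hj
      refine ⟨σ j, ?_, hσσ j⟩
      simp only [Finset.mem_filter, Finset.mem_univ, true_and, hΦ, hσσ] at hj ⊢
      intro h
      exact hj ((Bool.xor_right_inj).mp h)
  have hsum : ∀ z, ∑ j, a j * (if Φ z j = true then (1 : ℝ) else -1) =
      BLP.lin (fun i : Fin n => |a (σ i.castSucc)|) (fun i => z i.castSucc) +
        |a i0| * BLP.sg (z (Fin.last n)) := by
    intro z
    have h1 : ∀ j, a j * (if Φ z j = true then (1 : ℝ) else -1) = |a j| * BLP.sg (z (σ j)) := by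
      intro j
      have : (if Φ z j = true then (1 : ℝ) else -1) = BLP.sg (xor (e j) (z (σ j))) := rfl
      rw [this, sg_xor, ← mul_assoc, hea]
    simp_rw [h1]
    have h2 : ∑ j, |a j| * BLP.sg (z (σ j)) = ∑ j, |a (σ j)| * BLP.sg (z j) := by
      rw [← Equiv.sum_comp σ (fun j => |a j| * BLP.sg (z (σ j)))]
      refine Finset.sum_congr rfl fun j _ => ?_
      rw [hσσ]
    rw [h2, Fin.sum_univ_castSucc]
    have h3 : σ (Fin.last n) = i0 := Equiv.swap_apply_right _ _
    rw [h3]
    rfl
  set H : Finset (Fin (n + 1) → Bool) := Finset.univ.filter fun z =>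
    0 ≤ BLP.lin (fun i : Fin n => |a (σ i.castSucc)|) (fun i => z i.castSucc) +
        |a i0| * BLP.sg (z (Fin.last n)) with hH
  have hmem : ∀ z, z ∈ H ↔ Φ z ∈ halfspace a := by
    intro z
    rw [hH, Finset.mem_filter, ← hsum z]
    simp [halfspace]
  have himg : halfspace a = Φ '' (H : Set (Fin (n + 1) → Bool)) := by
    ext y
    constructor
    · intro hy
      obtain ⟨z, rfl⟩ := hΦbij.2 y
      exact ⟨z, by exact_mod_cast (hmem z).mpr hy, rfl⟩
    · rintro ⟨z, hz, rfl⟩
      exact (hmem z).mp (by exact_mod_cast hz)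
  have hcard : H.card = 2 ^ n := by
    rw [← ha, himg, Set.ncard_image_of_injective _ hΦinj, Set.ncard_coe_finset]
  rcases Nat.eq_zero_or_pos n with rfl | hn
  · -- trivial case
    obtain ⟨z, hz⟩ := Finset.card_eq_one.mp (by simpa using hcard : H.card = 1)
    refine ⟨fun _ => Φ z, ⟨?_, ?_, ?_⟩, ?_⟩
    · intro x _
      exact (hmem z).mp (by rw [hz]; simp)
    · intro x _ y _ _
      exact Subsingleton.elim _ _
    · intro y hy
      rw [himg, hz] at hy
      obtain ⟨w, hw, rfl⟩ := hy
      simp only [Finset.coe_singleton, Set.mem_singleton_iff] at hw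
      subst hw
      exact ⟨fun i => true, Set.mem_univ _, rfl⟩
    · unfold avgStretch
      simp
      positivity
  obtain ⟨f, hinj, hrange, hbound⟩ := main n (fun i : Fin n => |a (σ i.castSucc)|) |a i0| hn
    (abs_nonneg _) (fun i => by rw [abs_abs]; exact hi0 _ (Finset.mem_univ _)) H
    (fun z => by rw [hH, Finset.mem_filter]; simp) hcard
  refine ⟨Φ ∘ f, ⟨?_, (hΦinj.comp hinj).injOn, ?_⟩, ?_⟩
  · intro x _
    exact (hmem _).mp ((hrange _).mp ⟨x, rfl⟩)
  · intro y hy
    rw [himg] at hy
    obtain ⟨z, hz, rfl⟩ := hy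
    obtain ⟨x, rfl⟩ := (hrange z).mpr (by exact_mod_cast hz)
    exact ⟨x, Set.mem_univ _, rfl⟩
  · unfold avgStretch
    have hn' : (0 : ℝ) < n := by exact_mod_cast hn
    rw [div_le_iff₀ (by positivity)]
    have : (∑ x, ∑ i, (hammingDist ((Φ ∘ f) x) ((Φ ∘ f) (Function.update x i (!(x i)))) : ℝ)) =
        ∑ x, ∑ i, (hammingDist (f x) (f (BLP.flp x i)) : ℝ) := by
      refine Finset.sum_congr rfl fun x _ => Finset.sum_congr rfl fun i _ => ?_
      rw [Function.comp_apply, Function.comp_apply, hΦd]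
      rfl
    rw [this]
    refine hbound.trans (le_of_eq ?_)
    ring

end Pool.Agent.Results.MP_058dd4_co.LogSquared
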