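import Pool.Agent.Lib.BLP.Defs

/-!
# Chunk R: the bracket recursion for block words (pure arithmetic of natural numbers)

Block `g` is a word `-^{y g} +^{l g - y g}` (`y g` minus letters and then `l g - y g` plus letters).
A plus letter followed by a minus letter cancels.  After `g` blocks the reduced word is
`-^{PP y l g} +^{QQ y l g}`.  Decoding: given the invariants (`kk, cc`) of the word `y` and a target
`T ≤ PP K + QQ K`, `dcd y l K T` is the unique word `y'` with the same matched letters and with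
`T` unmatched minus letters.
-/

namespace BLP

open Finset

/-- the reduced word `(P, Q)` of the first `g` blocks -/
def PQ (y l : ℕ → ℕ) : ℕ → ℕ × ℕ
  | 0 => (0, 0)
  | g + 1 => ((PQ y l g).1 + (y g - (PQ y l g).2), (l g - y g) + ((PQ y l g).2 - y g))

def PP (y l : ℕ → ℕ) (g : ℕ) : ℕ := (PQ y l g).1
def QQ (y l : ℕ → ℕ) (g : ℕ) : ℕ := (PQ y l g).2
/-- number of minus letters of block `g` cancelled by earlier plus letters -/
def kk (y l : ℕ → ℕ) (g : ℕ) : ℕ := min (QQ y l g) (y g)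
def cc (y l : ℕ → ℕ) (g : ℕ) : ℕ := PP y l g + (QQ y l g - y g)

/-- decoding of the target `T` (only the values at `g < K` matter) -/
def dcd (y l : ℕ → ℕ) : ℕ → ℕ → ℕ → ℕ
  | 0, _, _ => 0
  | K + 1, T, g => if g = K then kk y l K + (T - cc y l K) else dcd y l K (min T (cc y l K)) g

theorem PP_succ (y l : ℕ → ℕ) (g : ℕ) : PP y l (g + 1) = PP y l g + (y g - QQ y l g) := rfl
theorem QQ_succ (y l : ℕ → ℕ) (g : ℕ) : QQ y l (g + 1) = (l g - y g) + (QQ y l g - y g) := rfl
theorem PP_zero (y l : ℕ → ℕ) : PP y l 0 = 0 := rfl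
theorem QQ_zero (y l : ℕ → ℕ) : QQ y l 0 = 0 := rfl
theorem dcd_succ_self (y l : ℕ → ℕ) (K T : ℕ) : dcd y l (K + 1) T K = kk y l K + (T - cc y l K) := by
  simp [dcd]
theorem dcd_succ_lt (y l : ℕ → ℕ) (K T g : ℕ) (hg : g < K) :
    dcd y l (K + 1) T g = dcd y l K (min T (cc y l K)) g := by
  simp [dcd, hg.ne]

theorem PQ_congr {y l y' l' : ℕ → ℕ} {K : ℕ} (hy : ∀ g < K, y g = y' g) (hl : ∀ g < K, l g = l' g) :
    PQ y l K = PQ y' l' K := by
  induction K with
  | zero => rfl
  | succ K ih =>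
    have h := ih (fun g hg => hy g (by omega)) (fun g hg => hl g (by omega))
    simp only [PQ, h, hy K (by omega), hl K (by omega)]

theorem PP_congr {y l y' l' : ℕ → ℕ} {K : ℕ} (hy : ∀ g < K, y g = y' g) (hl : ∀ g < K, l g = l' g) :
    PP y l K = PP y' l' K := by
  unfold PP; rw [PQ_congr hy hl]

theorem QQ_congr {y l y' l' : ℕ → ℕ} {K : ℕ} (hy : ∀ g < K, y g = y' g) (hl : ∀ g < K, l g = l' g) :
    QQ y l K = QQ y' l' K := by
  unfold QQ; rw [PQ_congr hy hl]

theorem kk_congr {y l y' l' : ℕ → ℕ} {K : ℕ} (hy : ∀ g < K + 1, y g = y' g)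
    (hl : ∀ g < K + 1, l g = l' g) : kk y l K = kk y' l' K := by
  unfold kk
  rw [QQ_congr (fun g hg => hy g (by omega)) (fun g hg => hl g (by omega)), hy K (by omega)]

theorem cc_congr {y l y' l' : ℕ → ℕ} {K : ℕ} (hy : ∀ g < K + 1, y g = y' g)
    (hl : ∀ g < K + 1, l g = l' g) : cc y l K = cc y' l' K := by
  unfold cc
  rw [QQ_congr (fun g hg => hy g (by omega)) (fun g hg => hl g (by omega)),
    PP_congr (fun g hg => hy g (by omega)) (fun g hg => hl g (by omega)), hy K (by omega)]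

theorem dcd_congr {y l y' l' : ℕ → ℕ} {K : ℕ} (hy : ∀ g < K, y g = y' g)
    (hl : ∀ g < K, l g = l' g) (T g : ℕ) (hg : g < K) : dcd y l K T g = dcd y' l' K T g := by
  induction K generalizing T with
  | zero => omega
  | succ K ih =>
    rcases Nat.lt_succ_iff_lt_or_eq.mp hg with h | h
    · rw [dcd_succ_lt _ _ _ _ _ h, dcd_succ_lt _ _ _ _ _ h, cc_congr hy hl]
      exact ih (fun g hg => hy g (by omega)) (fun g hg => hl g (by omega)) _ h
    · subst h
      rw [dcd_succ_self, dcd_succ_self, cc_congr hy hl, kk_congr hy hl]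

/-- R0: sum of the word -/
theorem QQ_sub_PP (y l : ℕ → ℕ) (K : ℕ) (hyl : ∀ g < K, y g ≤ l g) :
    (QQ y l K : ℤ) - PP y l K = ∑ g ∈ range K, ((l g : ℤ) - 2 * y g) := by
  induction K with
  | zero => simp [PP_zero, QQ_zero]
  | succ K ih =>
    rw [Finset.sum_range_succ, ← ih (fun g hg => hyl g (by omega)), PP_succ, QQ_succ]
    have := hyl K (by omega)
    omega

theorem dcd_le (y l : ℕ → ℕ) (K T : ℕ) (hyl : ∀ g < K, y g ≤ l g) (hT : T ≤ PP y l K + QQ y l K)
    (g : ℕ) (hg : g < K) : dcd y l K T g ≤ l g := by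
  induction K generalizing T with
  | zero => omega
  | succ K ih =>
    rcases Nat.lt_succ_iff_lt_or_eq.mp hg with h | h
    · rw [dcd_succ_lt _ _ _ _ _ h]
      refine ih _ (fun g hg => hyl g (by omega)) ?_ h
      unfold cc
      omega
    · subst h
      rw [dcd_succ_self]
      have := hyl g (by omega)
      rw [PP_succ, QQ_succ] at hT
      unfold kk cc
      omega

/-- R1a: the decoded word has the same invariants -/
theorem dcd_inv (y l : ℕ → ℕ) (K T : ℕ) (hyl : ∀ g < K, y g ≤ l g) (hT : T ≤ PP y l K + QQ y l K) :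
    (∀ g ≤ K, PP (dcd y l K T) l g + QQ (dcd y l K T) l g = PP y l g + QQ y l g) ∧
    (∀ g < K, kk (dcd y l K T) l g = kk y l g) ∧ (∀ g < K, cc (dcd y l K T) l g = cc y l g) ∧
    PP (dcd y l K T) l K = T := by
  induction K generalizing T with
  | zero =>
    refine ⟨fun g hg => ?_, fun g hg => by omega, fun g hg => by omega, ?_⟩
    · obtain rfl : g = 0 := by omega
      simp [PP_zero, QQ_zero]
    · simp only [PP_zero, QQ_zero] at hT ⊢
      omega
  | succ K ih =>
    have hyK := hyl K (by omega)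
    have hT0 : min T (cc y l K) ≤ PP y l K + QQ y l K := by unfold cc; omega
    obtain ⟨i1, i2, i3, i4⟩ := ih _ (fun g hg => hyl g (by omega)) hT0
    have hag : ∀ g < K, dcd y l (K + 1) T g = dcd y l K (min T (cc y l K)) g :=
      fun g hg => dcd_succ_lt _ _ _ _ _ hg
    have hP : ∀ g ≤ K, PP (dcd y l (K + 1) T) l g = PP (dcd y l K (min T (cc y l K))) l g :=
      fun g hg => PP_congr (fun j hj => hag j (by omega)) (fun _ _ => rfl)
    have hQ : ∀ g ≤ K, QQ (dcd y l (K + 1) T) l g = QQ (dcd y l K (min T (cc y l K))) l g :=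
      fun g hg => QQ_congr (fun j hj => hag j (by omega)) (fun _ _ => rfl)
    have a1 : PP (dcd y l (K + 1) T) l K = min T (cc y l K) := by rw [hP K le_rfl, i4]
    have a2 : QQ (dcd y l (K + 1) T) l K = PP y l K + QQ y l K - min T (cc y l K) := by
      rw [hQ K le_rfl]
      have := i1 K le_rfl
      omega
    have a3 := dcd_succ_self y l K T
    rw [PP_succ, QQ_succ] at hT
    have b1 : kk (dcd y l (K + 1) T) l K = kk y l K := by
      unfold kk at *
      unfold cc at *
      rw [a2, a3]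
      omega
    have b2 : cc (dcd y l (K + 1) T) l K = cc y l K := by
      unfold kk at *
      unfold cc at *
      rw [a1, a2, a3]
      omega
    have b3 : PP (dcd y l (K + 1) T) l (K + 1) = T := by
      rw [PP_succ]
      unfold kk at *
      unfold cc at *
      rw [a1, a2, a3]
      omega
    have b4 : PP (dcd y l (K + 1) T) l (K + 1) + QQ (dcd y l (K + 1) T) l (K + 1) =
        PP y l (K + 1) + QQ y l (K + 1) := by
      rw [b3, QQ_succ, PP_succ, QQ_succ]
      unfold kk at *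
      unfold cc at *
      rw [a2, a3]
      omega
    refine ⟨fun g hg => ?_, fun g hg => ?_, fun g hg => ?_, b3⟩
    · rcases Nat.lt_or_eq_of_le hg with h | h
      · rw [hP g (by omega), hQ g (by omega)]
        exact i1 g (by omega)
      · subst h
        exact b4
    · rcases Nat.lt_succ_iff_lt_or_eq.mp hg with h | h
      · rw [kk_congr (fun j hj => hag j (by omega)) (fun _ _ => rfl)]
        exact i2 g h
      · subst h
        exact b1
    · rcases Nat.lt_succ_iff_lt_or_eq.mp hg with h | h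
      · rw [cc_congr (fun j hj => hag j (by omega)) (fun _ _ => rfl)]
        exact i3 g h
      · subst h
        exact b2

/-- R1b -/
theorem dcd_dcd (y l : ℕ → ℕ) (K T T' : ℕ) (hyl : ∀ g < K, y g ≤ l g)
    (hT : T ≤ PP y l K + QQ y l K) (hT' : T' ≤ PP y l K + QQ y l K) (g : ℕ) (hg : g < K) :
    dcd (dcd y l K T) l K T' g = dcd y l K T' g := by
  induction K generalizing T T' with
  | zero => omega
  | succ K ih =>
    obtain ⟨i1, i2, i3, i4⟩ := dcd_inv y l (K + 1) T hyl hT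
    rcases Nat.lt_succ_iff_lt_or_eq.mp hg with h | h
    · rw [dcd_succ_lt _ _ _ _ _ h, dcd_succ_lt _ _ _ _ _ h, i3 K (by omega)]
      rw [dcd_congr (y' := dcd y l K (min T (cc y l K))) (l' := l)
        (fun j hj => dcd_succ_lt _ _ _ _ _ hj) (fun _ _ => rfl) _ _ h]
      refine ih _ _ (fun g hg => hyl g (by omega)) ?_ ?_ h
      · unfold cc; omega
      · unfold cc; omega
    · subst h
      rw [dcd_succ_self, dcd_succ_self, i2 g (by omega), i3 g (by omega)]

/-- R1c -/
theorem dcd_self (y l : ℕ → ℕ) (K : ℕ) (hyl : ∀ g < K, y g ≤ l g) (g : ℕ) (hg : g < K) :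
    dcd y l K (PP y l K) g = y g := by
  induction K with
  | zero => omega
  | succ K ih =>
    rcases Nat.lt_succ_iff_lt_or_eq.mp hg with h | h
    · rw [dcd_succ_lt _ _ _ _ _ h]
      have : min (PP y l (K + 1)) (cc y l K) = PP y l K := by
        rw [PP_succ]
        unfold cc
        omega
      rw [this]
      exact ih (fun g hg => hyl g (by omega)) h
    · subst h
      rw [dcd_succ_self, PP_succ]
      unfold kk cc
      omega

/-- R1d: contact of the decoded word -/
theorem dcd_contact (y l : ℕ → ℕ) (K T : ℕ) (hyl : ∀ g < K, y g ≤ l g)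
    (hT : T ≤ PP y l K + QQ y l K) (g : ℕ) (hg : g < K) :
    (dcd y l K T g : ℤ) - QQ (dcd y l K T) l g = (PP (dcd y l K T) l (g + 1) : ℤ) - cc y l g := by
  obtain ⟨i1, i2, i3, i4⟩ := dcd_inv y l K T hyl hT
  rw [← i3 g hg, PP_succ]
  unfold cc
  push_cast
  omega

/-! ### targets -/

/-- the target of the first `g` blocks -/
def tt (y l : ℕ → ℕ) : ℕ → ℕ → ℕ → ℕ
  | 0, T, _ => T
  | K + 1, T, g => if K + 1 ≤ g then T else tt y l K (min T (cc y l K)) g

theorem tt_self (y l : ℕ → ℕ) (K T : ℕ) : tt y l K T K = T := by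
  cases K <;> simp [tt]

theorem tt_succ (y l : ℕ → ℕ) (K T g : ℕ) (hg : g ≤ K) :
    tt y l (K + 1) T g = tt y l K (min T (cc y l K)) g := by
  simp [tt, show ¬ (K + 1 ≤ g) by omega]

theorem tt_le (y l : ℕ → ℕ) (K T g : ℕ) (hT : T ≤ PP y l K + QQ y l K) (hg : g ≤ K) :
    tt y l K T g ≤ PP y l g + QQ y l g := by
  induction K generalizing T with
  | zero =>
    obtain rfl : g = 0 := by omega
    simpa [tt] using hT
  | succ K ih =>
    rcases Nat.lt_or_eq_of_le hg with h | h
    · rw [tt_succ _ _ _ _ _ (by omega)]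
      refine ih _ ?_ (by omega)
      unfold cc
      omega
    · subst h
      rw [tt_self]
      exact hT

theorem dcd_tt (y l : ℕ → ℕ) (K T g0 g : ℕ) (hg0 : g0 ≤ K) (hg : g < g0) :
    dcd y l K T g = dcd y l g0 (tt y l K T g0) g := by
  induction K generalizing T with
  | zero => omega
  | succ K ih =>
    rcases Nat.lt_or_eq_of_le hg0 with h | h
    · rw [dcd_succ_lt _ _ _ _ _ (by omega), tt_succ _ _ _ _ _ (by omega)]
      exact ih _ (by omega)
    · subst h
      rw [tt_self]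

/-- the output at `g` in terms of the target of the first `g + 1` blocks -/
theorem dcd_tt_self (y l : ℕ → ℕ) (K T g : ℕ) (hg : g < K) :
    dcd y l K T g = kk y l g + (tt y l K T (g + 1) - cc y l g) := by
  rw [dcd_tt y l K T (g + 1) g (by omega) (by omega), dcd_succ_self]

theorem tt_tt (y l : ℕ → ℕ) (K T g : ℕ) (hg : g < K) :
    tt y l K T g = min (tt y l K T (g + 1)) (cc y l g) := by
  induction K generalizing T with
  | zero => omega
  | succ K ih =>
    rcases Nat.lt_succ_iff_lt_or_eq.mp hg with h | h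
    · rw [tt_succ _ _ _ _ _ (by omega), tt_succ _ _ _ _ _ (by omega)]
      exact ih _ h
    · subst h
      rw [tt_self, tt_succ _ _ _ _ _ le_rfl, tt_self]

theorem PP_dcd (y l : ℕ → ℕ) (K T g : ℕ) (hyl : ∀ g < K, y g ≤ l g)
    (hT : T ≤ PP y l K + QQ y l K) (hg : g ≤ K) : PP (dcd y l K T) l g = tt y l K T g := by
  rw [PP_congr (y' := dcd y l g (tt y l K T g)) (l' := l) (fun j hj => dcd_tt y l K T g j hg hj)
    (fun _ _ => rfl)]
  exact (dcd_inv y l g _ (fun j hj => hyl j (by omega)) (tt_le y l K T g hT hg)).2.2.2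

/-! ### one step -/

/-- linear core: `d` the difference of `Q`, `dk` the difference of the matched letters, `e` the
difference of `P`, `f1, f` the differences of the targets, `o` the difference of the outputs -/
theorem R_core (d dk e f1 f o : ℤ) (hdk : (0 ≤ dk ∧ dk ≤ d) ∨ (d ≤ dk ∧ dk ≤ 0))
    (ho : o = dk + f1 - f)
    (hf : (f1 ≤ f ∧ f ≤ e + d - dk) ∨ (e + d - dk ≤ f ∧ f ≤ f1)) :
    |o| + |f - (e + d)| ≤ |f1 - (e + d - 2 * dk)| + 3 * (|d| - |d - dk|) := by
  rcases hdk with ⟨h1, h2⟩ | ⟨h1, h2⟩ <;> rcases hf with ⟨h3, h4⟩ | ⟨h3, h4⟩ <;>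
    · simp only [abs_eq_max_neg]
      omega

section pert

variable (y l y' l' : ℕ → ℕ)

/-- differences -/
def dQ (g : ℕ) : ℤ := (QQ y' l' g : ℤ) - QQ y l g
def dP (g : ℕ) : ℤ := (PP y' l' g : ℤ) - PP y l g
def dk (g : ℕ) : ℤ := (kk y' l' g : ℤ) - kk y l g
def dT (K T T' g : ℕ) : ℤ := (tt y' l' K T' g : ℤ) - tt y l K T g

variable {y l y' l'}

theorem dk_mid {g : ℕ} (hy : y' g = y g) :
    (0 ≤ dk y l y' l' g ∧ dk y l y' l' g ≤ dQ y l y' l' g) ∨
      (dQ y l y' l' g ≤ dk y l y' l' g ∧ dk y l y' l' g ≤ 0) := by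
  unfold dk dQ kk
  rw [hy]
  push_cast
  omega

theorem dQ_succ {g : ℕ} (hy : y' g = y g) (hl : l' g = l g) :
    dQ y l y' l' (g + 1) = dQ y l y' l' g - dk y l y' l' g := by
  unfold dk dQ kk
  rw [QQ_succ, QQ_succ, hy, hl]
  push_cast
  omega

theorem dP_succ {g : ℕ} (hy : y' g = y g) :
    dP y l y' l' (g + 1) = dP y l y' l' g - dk y l y' l' g := by
  unfold dk dP kk
  rw [PP_succ, PP_succ, hy]
  push_cast
  omega

theorem dc_eq {g : ℕ} (hy : y' g = y g) :
    (cc y' l' g : ℤ) - cc y l g = dP y l y' l' g + dQ y l y' l' g - dk y l y' l' g := by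
  unfold dk dP dQ kk cc
  rw [hy]
  push_cast
  omega

theorem out_eq {K T T' g : ℕ} (hg : g < K) :
    (dcd y' l' K T' g : ℤ) - dcd y l K T g =
      dk y l y' l' g + dT y l y' l' K T T' (g + 1) - dT y l y' l' K T T' g := by
  rw [dcd_tt_self _ _ _ _ _ hg, dcd_tt_self _ _ _ _ _ hg]
  unfold dT dk
  rw [tt_tt y' l' K T' g hg, tt_tt y l K T g hg]
  push_cast
  omega

theorem dT_mid {K T T' g : ℕ} (hg : g < K) (hy : y' g = y g) :
    (dT y l y' l' K T T' (g + 1) ≤ dT y l y' l' K T T' g ∧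
      dT y l y' l' K T T' g ≤ dP y l y' l' g + dQ y l y' l' g - dk y l y' l' g) ∨
    (dP y l y' l' g + dQ y l y' l' g - dk y l y' l' g ≤ dT y l y' l' K T T' g ∧
      dT y l y' l' K T T' g ≤ dT y l y' l' K T T' (g + 1)) := by
  rw [← dc_eq hy]
  unfold dT
  rw [tt_tt y' l' K T' g hg, tt_tt y l K T g hg]
  push_cast
  omega

/-- the step inequality -/
theorem R_step {K T T' g : ℕ} (hg : g < K) (hy : y' g = y g) (hl : l' g = l g) :
    |(dcd y' l' K T' g : ℤ) - dcd y l K T g| +
      |dT y l y' l' K T T' g - (dP y l y' l' g + dQ y l y' l' g)| ≤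
    |dT y l y' l' K T T' (g + 1) - (dP y l y' l' (g + 1) + dQ y l y' l' (g + 1))| +
      3 * (|dQ y l y' l' g| - |dQ y l y' l' (g + 1)|) := by
  have h := R_core (dQ y l y' l' g) (dk y l y' l' g) (dP y l y' l' g)
    (dT y l y' l' K T T' (g + 1)) (dT y l y' l' K T T' g)
    ((dcd y' l' K T' g : ℤ) - dcd y l K T g) (dk_mid hy) (out_eq hg) (dT_mid hg hy)
  rw [dQ_succ hy hl, dP_succ hy]
  have e : dP y l y' l' g - dk y l y' l' g + (dQ y l y' l' g - dk y l y' l' g) =
      dP y l y' l' g + dQ y l y' l' g - 2 * dk y l y' l' g := by ring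
  rw [e]
  exact h

/-- summation over the blocks `g0 ≤ g < g1` -/
theorem R_sum {K T T' g0 g1 : ℕ} (hg0 : g0 ≤ g1) (hg1 : g1 ≤ K)
    (hy : ∀ g, g0 ≤ g → g < g1 → y' g = y g) (hl : ∀ g, g0 ≤ g → g < g1 → l' g = l g) :
    ∑ g ∈ Ico g0 g1, |(dcd y' l' K T' g : ℤ) - dcd y l K T g| +
      |dT y l y' l' K T T' g0 - (dP y l y' l' g0 + dQ y l y' l' g0)| ≤
    |dT y l y' l' K T T' g1 - (dP y l y' l' g1 + dQ y l y' l' g1)| +
      3 * (|dQ y l y' l' g0| - |dQ y l y' l' g1|) := by
  have key : ∀ k, g0 + k ≤ g1 → ∑ g ∈ Ico g0 (g0 + k), |(dcd y' l' K T' g : ℤ) - dcd y l K T g| +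
      |dT y l y' l' K T T' g0 - (dP y l y' l' g0 + dQ y l y' l' g0)| ≤
    |dT y l y' l' K T T' (g0 + k) - (dP y l y' l' (g0 + k) + dQ y l y' l' (g0 + k))| +
      3 * (|dQ y l y' l' g0| - |dQ y l y' l' (g0 + k)|) := by
    intro k
    induction k with
    | zero => intro _; simp
    | succ k ih =>
      intro hk
      have h1 := ih (by omega)
      have h2 := R_step (K := K) (T := T) (T' := T') (g := g0 + k) (by omega)
        (hy _ (by omega) (by omega)) (hl _ (by omega) (by omega))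
      rw [show g0 + (k + 1) = g0 + k + 1 by ring, Finset.sum_Ico_succ_top (by omega)]
      linarith
  have h := key (g1 - g0) (by omega)
  rwa [show g0 + (g1 - g0) = g1 by omega] at h

/-- `|dQ|` decreases after the changed block -/
theorem dQ_abs {g : ℕ} (hy : y' g = y g) (hl : l' g = l g) :
    |dQ y l y' l' (g + 1)| + |dk y l y' l' g| = |dQ y l y' l' g| := by
  rw [dQ_succ hy hl]
  rcases dk_mid (l := l) (l' := l') hy with ⟨h1, h2⟩ | ⟨h1, h2⟩
  · rw [abs_of_nonneg h1, abs_of_nonneg (by omega : 0 ≤ dQ y l y' l' g),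
      abs_of_nonneg (by omega)]
    ring
  · rw [abs_of_nonpos h2, abs_of_nonpos (by omega : dQ y l y' l' g ≤ 0),
      abs_of_nonpos (by omega)]
    ring

theorem dQ_dP {g0 K : ℕ} (hg0 : g0 ≤ K) (hy : ∀ g, g0 ≤ g → g < K → y' g = y g)
    (hl : ∀ g, g0 ≤ g → g < K → l' g = l g) :
    |dQ y l y' l' K| ≤ |dQ y l y' l' g0| ∧
      dQ y l y' l' K - dP y l y' l' K = dQ y l y' l' g0 - dP y l y' l' g0 := by
  have key : ∀ k, g0 + k ≤ K → |dQ y l y' l' (g0 + k)| ≤ |dQ y l y' l' g0| ∧
      dQ y l y' l' (g0 + k) - dP y l y' l' (g0 + k) = dQ y l y' l' g0 - dP y l y' l' g0 := by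
    intro k
    induction k with
    | zero => intro _; simp
    | succ k ih =>
      intro hk
      obtain ⟨h1, h2⟩ := ih (by omega)
      have e1 := hy (g0 + k) (by omega) (by omega)
      have e2 := hl (g0 + k) (by omega) (by omega)
      have h3 := dQ_abs e1 e2
      have h4 := dQ_succ e1 e2
      have h5 := dP_succ (l := l) (l' := l') e1
      have h6 := abs_nonneg (dk y l y' l' (g0 + k))
      rw [show g0 + (k + 1) = g0 + k + 1 by ring]
      constructor
      · linarith
      · linarith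
  have h := key (K - g0) (by omega)
  rwa [show g0 + (K - g0) = K by omega] at h

/-- differences just after the changed block -/
theorem start (q η : ℕ) (hy : ∀ g < q, y' g = y g) (hl : ∀ g < q, l' g = l g)
    (h1 : y q ≤ l q) (h2 : y' q ≤ l' q) (hyq : |(y' q : ℤ) - y q| ≤ η)
    (hlq : |(l' q : ℤ) - l q| ≤ η) :
    |dP y l y' l' (q + 1)| ≤ η ∧ |dQ y l y' l' (q + 1)| ≤ 3 * η ∧
      |(kk y' l' q : ℤ) - kk y l q| ≤ η ∧ |(cc y' l' q : ℤ) - cc y l q| ≤ η := by
  unfold dP dQ kk cc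
  rw [PP_succ, PP_succ, QQ_succ, QQ_succ, PP_congr hy hl, QQ_congr hy hl]
  rw [abs_le] at hyq hlq
  refine ⟨abs_le.mpr ?_, abs_le.mpr ?_, abs_le.mpr ?_, abs_le.mpr ?_⟩ <;>
    · push_cast
      omega

end pert

/-- the change of the reduced word under the change of a single block -/
theorem PQ_lip (y l y' l' : ℕ → ℕ) (K q η : ℕ) (hyl : ∀ g < K, y g ≤ l g)
    (hyl' : ∀ g < K, y' g ≤ l' g) (hq : q < K) (hy : ∀ g < K, g ≠ q → y' g = y g)
    (hl : ∀ g < K, g ≠ q → l' g = l g) (hyq : |(y' q : ℤ) - y q| ≤ η)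
    (hlq : |(l' q : ℤ) - l q| ≤ η) :
    |(PP y' l' K : ℤ) - PP y l K| ≤ 10 * η ∧ |(QQ y' l' K : ℤ) - QQ y l K| ≤ 10 * η := by
  obtain ⟨s1, s2, s3, s4⟩ := start q η (fun g hg => hy g (by omega) (by omega))
    (fun g hg => hl g (by omega) (by omega)) (hyl q hq) (hyl' q hq) hyq hlq
  obtain ⟨u1, u2⟩ := dQ_dP (g0 := q + 1) (K := K) (by omega)
    (fun g hg hg' => hy g hg' (by omega)) (fun g hg hg' => hl g hg' (by omega))
  change |dP y l y' l' K| ≤ _ ∧ |dQ y l y' l' K| ≤ _
  have s2' := s2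
  rw [abs_le] at u1 s1 s2'
  refine ⟨abs_le.mpr ?_, abs_le.mpr ?_⟩
  · rcases abs_cases (dQ y l y' l' (q + 1)) with h | h <;> omega
  · rcases abs_cases (dQ y l y' l' (q + 1)) with h | h <;> omega

/-- prefix: only the target changes -/
theorem prefix_sum (y l : ℕ → ℕ) (q T T' : ℕ) :
    ∑ g ∈ range q, |(dcd y l q T' g : ℤ) - dcd y l q T g| ≤ |(T' : ℤ) - T| := by
  have h := R_sum (y := y) (l := l) (y' := y) (l' := l) (K := q) (T := T) (T' := T') (g0 := 0)
    (g1 := q) (by omega) le_rfl (fun _ _ _ => rfl) (fun _ _ _ => rfl)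
  have e1 : ∀ g, dP y l y l g = 0 := fun g => by unfold dP; ring
  have e2 : ∀ g, dQ y l y l g = 0 := fun g => by unfold dQ; ring
  simp only [e1, e2, add_zero, sub_zero, abs_zero, mul_zero] at h
  rw [Finset.range_eq_Ico]
  have h3 : dT y l y l q T T' q = (T' : ℤ) - T := by
    unfold dT
    rw [tt_self, tt_self]
  rw [h3] at h
  have := abs_nonneg (dT y l y l q T T' 0)
  linarith

section main

variable {y l y' l' : ℕ → ℕ} {K T T' q η : ℕ}

/-- all the estimates for the differences -/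
theorem R_all (hyl : ∀ g < K, y g ≤ l g)
    (hyl' : ∀ g < K, y' g ≤ l' g) (hq : q < K) (hy : ∀ g < K, g ≠ q → y' g = y g)
    (hl : ∀ g < K, g ≠ q → l' g = l g) (hyq : |(y' q : ℤ) - y q| ≤ η)
    (hlq : |(l' q : ℤ) - l q| ≤ η) :
    (∑ g ∈ Ico (q + 1) K, |(dcd y' l' K T' g : ℤ) - dcd y l K T g| ≤ |(T' : ℤ) - T| + 29 * η) ∧
    (∀ g, q + 1 ≤ g → g ≤ K → |dQ y l y' l' g| ≤ 3 * η ∧
      |dT y l y' l' K T T' g - (dP y l y' l' g + dQ y l y' l' g)| ≤ |(T' : ℤ) - T| + 29 * η) ∧
    |dT y l y' l' K T T' (q + 1)| ≤ |(T' : ℤ) - T| + 33 * η ∧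
    |dT y l y' l' K T T' q| ≤ |(T' : ℤ) - T| + 33 * η := by
  obtain ⟨s1, s2, s3, s4⟩ := start q η (fun g hg => hy g (by omega) (by omega))
    (fun g hg => hl g (by omega) (by omega)) (hyl q hq) (hyl' q hq) hyq hlq
  obtain ⟨p1, p2⟩ := PQ_lip y l y' l' K q η hyl hyl' hq hy hl hyq hlq
  change |dP y l y' l' K| ≤ _ at p1
  change |dQ y l y' l' K| ≤ _ at p2
  have hTK : dT y l y' l' K T T' K = (T' : ℤ) - T := by
    unfold dT
    rw [tt_self, tt_self]
  have hAK : |dT y l y' l' K T T' K - (dP y l y' l' K + dQ y l y' l' K)| ≤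
      |(T' : ℤ) - T| + 20 * η := by
    rw [hTK]
    have h1 := abs_sub ((T' : ℤ) - T) (dP y l y' l' K + dQ y l y' l' K)
    have h2 := abs_add_le (dP y l y' l' K) (dQ y l y' l' K)
    linarith
  have hall : ∀ g, q + 1 ≤ g → g ≤ K → |dQ y l y' l' g| ≤ 3 * η ∧
      ∑ j ∈ Ico g K, |(dcd y' l' K T' j : ℤ) - dcd y l K T j| +
      |dT y l y' l' K T T' g - (dP y l y' l' g + dQ y l y' l' g)| ≤ |(T' : ℤ) - T| + 29 * η := by
    intro g hg hgK
    have h1 := (dQ_dP (y := y) (l := l) (y' := y') (l' := l') (g0 := q + 1) (K := g) hg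
      (fun j hj hj' => hy j (by omega) (by omega)) (fun j hj hj' => hl j (by omega) (by omega))).1
    have h2 := R_sum (y := y) (l := l) (y' := y') (l' := l') (K := K) (T := T) (T' := T')
      (g0 := g) (g1 := K) hgK le_rfl
      (fun j hj hj' => hy j (by omega) (by omega)) (fun j hj hj' => hl j (by omega) (by omega))
    have h3 := abs_nonneg (dQ y l y' l' K)
    exact ⟨h1.trans s2, by linarith⟩
  have h0 := hall (q + 1) le_rfl (by omega)
  have hnn := Finset.sum_nonneg (s := Ico (q + 1) K)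
    (f := fun j => |(dcd y' l' K T' j : ℤ) - dcd y l K T j|) (fun j _ => abs_nonneg _)
  have hT1 : |dT y l y' l' K T T' (q + 1)| ≤ |(T' : ℤ) - T| + 33 * η := by
    have h1 := abs_add_le (dT y l y' l' K T T' (q + 1) -
      (dP y l y' l' (q + 1) + dQ y l y' l' (q + 1))) (dP y l y' l' (q + 1) + dQ y l y' l' (q + 1))
    rw [sub_add_cancel] at h1
    have h2 := abs_add_le (dP y l y' l' (q + 1)) (dQ y l y' l' (q + 1))
    linarith [h0.2]
  refine ⟨?_, ?_, hT1, ?_⟩
  · have := abs_nonneg (dT y l y' l' K T T' (q + 1) -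
      (dP y l y' l' (q + 1) + dQ y l y' l' (q + 1)))
    linarith [h0.2]
  · intro g hg hgK
    obtain ⟨h1, h2⟩ := hall g hg hgK
    have hnn := Finset.sum_nonneg (s := Ico g K)
      (f := fun j => |(dcd y' l' K T' j : ℤ) - dcd y l K T j|) (fun j _ => abs_nonneg _)
    exact ⟨h1, by linarith⟩
  · have e1 := tt_tt y l K T q hq
    have e2 := tt_tt y' l' K T' q hq
    unfold dT at hT1 ⊢
    rw [e1, e2]
    rw [abs_le] at s4 hT1
    refine abs_le.mpr ?_
    push_cast
    have := abs_nonneg ((T' : ℤ) - T)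
    omega

theorem dcd_prefix (hq : q < K) (hy : ∀ g < K, g ≠ q → y' g = y g)
    (hl : ∀ g < K, g ≠ q → l' g = l g) (g : ℕ) (hg : g < q) :
    dcd y' l' K T' g = dcd y l q (tt y' l' K T' q) g ∧
      dcd y l K T g = dcd y l q (tt y l K T q) g := by
  constructor
  · rw [dcd_tt y' l' K T' q g (by omega) hg]
    exact dcd_congr (fun j hj => hy j (by omega) (by omega))
      (fun j hj => hl j (by omega) (by omega)) _ _ hg
  · exact dcd_tt y l K T q g (by omega) hg

end main

/-- R2: change of a single block (and of the target): total change of the decoded word -/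
theorem dcd_lip (y l y' l' : ℕ → ℕ) (K T T' q η : ℕ) (hyl : ∀ g < K, y g ≤ l g)
    (hyl' : ∀ g < K, y' g ≤ l' g) (hq : q < K) (hy : ∀ g < K, g ≠ q → y' g = y g)
    (hl : ∀ g < K, g ≠ q → l' g = l g) (hyq : |(y' q : ℤ) - y q| ≤ η) (hlq : |(l' q : ℤ) - l q| ≤ η)
    (_hT : T ≤ PP y l K + QQ y l K) (_hT' : T' ≤ PP y' l' K + QQ y' l' K) :
    ∑ g ∈ range K, |(dcd y' l' K T' g : ℤ) - dcd y l K T g| ≤ 100 * (η + |(T' : ℤ) - T|) := by
  obtain ⟨r1, r2, r3, r4⟩ := R_all (T := T) (T' := T') hyl hyl' hq hy hl hyq hlq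
  obtain ⟨s1, s2, s3, s4⟩ := start q η (fun g hg => hy g (by omega) (by omega))
    (fun g hg => hl g (by omega) (by omega)) (hyl q hq) (hyl' q hq) hyq hlq
  have h1 : ∑ g ∈ range K, |(dcd y' l' K T' g : ℤ) - dcd y l K T g| =
      ∑ g ∈ range q, |(dcd y' l' K T' g : ℤ) - dcd y l K T g| +
        (|(dcd y' l' K T' q : ℤ) - dcd y l K T q| +
          ∑ g ∈ Ico (q + 1) K, |(dcd y' l' K T' g : ℤ) - dcd y l K T g|) := by
    rw [← Finset.sum_range_add_sum_Ico _ (show q ≤ K by omega),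
      Finset.sum_eq_sum_Ico_succ_bot (by omega)]
  have h2 : ∑ g ∈ range q, |(dcd y' l' K T' g : ℤ) - dcd y l K T g| ≤
      |dT y l y' l' K T T' q| := by
    refine le_trans (le_of_eq ?_) (prefix_sum y l q (tt y l K T q) (tt y' l' K T' q))
    refine Finset.sum_congr rfl fun g hg => ?_
    obtain ⟨e1, e2⟩ := dcd_prefix (T := T) (T' := T') hq hy hl g (Finset.mem_range.mp hg)
    rw [e1, e2]
  have h3 : |(dcd y' l' K T' q : ℤ) - dcd y l K T q| ≤ |(T' : ℤ) - T| + 35 * η := by
    rw [dcd_tt_self _ _ _ _ _ hq, dcd_tt_self _ _ _ _ _ hq]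
    unfold dT at r3
    rw [abs_le] at r3 s3 s4
    refine abs_le.mpr ?_
    push_cast
    have := abs_nonneg ((T' : ℤ) - T)
    omega
  have := abs_nonneg ((T' : ℤ) - T)
  linarith

/-- one step of the count -/
theorem R_count_step {y l y' l' : ℕ → ℕ} {K T T' g : ℕ} {W : ℤ} (hyl : ∀ g < K, y g ≤ l g)
    (hT : T ≤ PP y l K + QQ y l K) (hg : g < K)
    (hy : y' g = y g) (hl : l' g = l g) (h1 : |dQ y l y' l' g| ≤ W)
    (h2 : |dT y l y' l' K T T' (g + 1) - (dP y l y' l' (g + 1) + dQ y l y' l' (g + 1))| +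
      |dQ y l y' l' g| ≤ W) :
    (if dcd y' l' K T' g ≠ dcd y l K T g then 1 else 0) +
      (if dT y l y' l' K T T' g - (dP y l y' l' g + dQ y l y' l' g) ≠ 0 then 1 else 0) +
      2 * (if dQ y l y' l' (g + 1) ≠ 0 then 1 else 0) ≤
    (if dT y l y' l' K T T' (g + 1) - (dP y l y' l' (g + 1) + dQ y l y' l' (g + 1)) ≠ 0
      then 1 else 0) + 2 * (if dQ y l y' l' g ≠ 0 then 1 else 0) +
      2 * (if |(y g : ℤ) - QQ y l g| ≤ W then 1 else 0) +
      2 * (if |(dcd y l K T g : ℤ) - QQ (dcd y l K T) l g| ≤ W then 1 else 0) := by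
  have hQs := dQ_succ (y := y) (l := l) (y' := y') (l' := l') hy hl
  have hPs := dP_succ (y := y) (l := l) (y' := y') (l' := l') hy
  have hmid := dk_mid (y := y) (l := l) (y' := y') (l' := l') hy
  have hout := out_eq (y := y) (l := l) (y' := y') (l' := l') (K := K) (T := T) (T' := T') hg
  have hTm := dT_mid (y := y) (l := l) (y' := y') (l' := l') (K := K) (T := T) (T' := T') hg hy
  have hQa := dQ_abs (y := y) (l := l) (y' := y') (l' := l') hy hl
  -- mixed contact of `Q`
  have mQ : dk y l y' l' g ≠ 0 → dQ y l y' l' (g + 1) ≠ 0 → |(y g : ℤ) - QQ y l g| ≤ W := by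
    intro a1 a2
    refine le_trans ?_ h1
    rw [hQs] at a2
    unfold dk dQ kk at *
    rw [hy] at a1 a2
    push_cast at a1 a2 ⊢
    rcases abs_cases ((y g : ℤ) - QQ y l g) with h | h <;>
      rcases abs_cases ((QQ y' l' g : ℤ) - QQ y l g) with h' | h' <;> omega
  -- mixed contact of `T`
  have mT : dT y l y' l' K T T' g ≠ dT y l y' l' K T T' (g + 1) →
      dT y l y' l' K T T' g ≠ dP y l y' l' g + dQ y l y' l' g - dk y l y' l' g →
      |(dcd y l K T g : ℤ) - QQ (dcd y l K T) l g| ≤ W := by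
    intro a1 a2
    rw [dcd_contact y l K T hyl hT g hg, PP_dcd y l K T (g + 1) hyl hT (by omega)]
    refine le_trans ?_ h2
    have b1 : |(tt y l K T (g + 1) : ℤ) - cc y l g| ≤
        |dT y l y' l' K T T' (g + 1) - ((cc y' l' g : ℤ) - cc y l g)| := by
      rw [← dc_eq hy] at a2
      unfold dT at a1 a2 ⊢
      rw [tt_tt y' l' K T' g hg, tt_tt y l K T g hg] at a1 a2
      push_cast at a1 a2
      rcases abs_cases ((tt y l K T (g + 1) : ℤ) - cc y l g) with h | h <;>
        rcases abs_cases ((tt y' l' K T' (g + 1) : ℤ) - tt y l K T (g + 1) -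
          ((cc y' l' g : ℤ) - cc y l g)) with h' | h' <;> omega
    refine b1.trans ?_
    rw [dc_eq hy, hQs, hPs]
    have e : dT y l y' l' K T T' (g + 1) -
        (dP y l y' l' g + dQ y l y' l' g - dk y l y' l' g) =
        (dT y l y' l' K T T' (g + 1) - (dP y l y' l' g - dk y l y' l' g +
          (dQ y l y' l' g - dk y l y' l' g))) - dk y l y' l' g := by ring
    rw [e]
    have h3 := abs_sub (dT y l y' l' K T T' (g + 1) - (dP y l y' l' g - dk y l y' l' g +
          (dQ y l y' l' g - dk y l y' l' g))) (dk y l y' l' g)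
    have h4 := abs_nonneg (dQ y l y' l' (g + 1))
    linarith
  have hne : (dcd y' l' K T' g ≠ dcd y l K T g) ↔ ((dcd y' l' K T' g : ℤ) - dcd y l K T g ≠ 0) := by
    rw [ne_eq, ne_eq, sub_eq_zero]
    norm_cast
  generalize dk y l y' l' g = k at *
  generalize dQ y l y' l' (g + 1) = Q1 at *
  generalize dQ y l y' l' g = Q0 at *
  generalize dP y l y' l' (g + 1) = P1 at *
  generalize dP y l y' l' g = P0 at *
  generalize dT y l y' l' K T T' (g + 1) = T1 at *
  generalize dT y l y' l' K T T' g = T0 at *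
  simp only [hne]
  rw [hout]
  by_cases hk : k = 0
  · subst hk
    by_cases hf : T0 = T1
    · subst hf
      split_ifs <;> omega
    · by_cases hf2 : T0 = P0 + Q0 - 0
      · split_ifs <;> omega
      · have := mT hf hf2
        split_ifs <;> omega
  · by_cases hQ1 : Q1 = 0
    · split_ifs <;> omega
    · have := mQ hk hQ1
      split_ifs <;> omega

/-- the count over an interval of unchanged blocks -/
theorem R_count_sum {y l y' l' : ℕ → ℕ} {K T T' g0 g1 : ℕ} {W : ℤ} (hyl : ∀ g < K, y g ≤ l g)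
    (hT : T ≤ PP y l K + QQ y l K) (hg0 : g0 ≤ g1) (hg1 : g1 ≤ K)
    (hy : ∀ g, g0 ≤ g → g < g1 → y' g = y g) (hl : ∀ g, g0 ≤ g → g < g1 → l' g = l g)
    (h1 : ∀ g, g0 ≤ g → g < g1 → |dQ y l y' l' g| ≤ W)
    (h2 : ∀ g, g0 ≤ g → g < g1 →
      |dT y l y' l' K T T' (g + 1) - (dP y l y' l' (g + 1) + dQ y l y' l' (g + 1))| +
      |dQ y l y' l' g| ≤ W) :
    ∑ g ∈ Ico g0 g1, (if dcd y' l' K T' g ≠ dcd y l K T g then 1 else 0) ≤
      3 + 2 * ∑ g ∈ Ico g0 g1, (if |(y g : ℤ) - QQ y l g| ≤ W then 1 else 0) +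
      2 * ∑ g ∈ Ico g0 g1,
        (if |(dcd y l K T g : ℤ) - QQ (dcd y l K T) l g| ≤ W then 1 else 0) := by
  have key : ∀ k, g0 + k ≤ g1 →
      ∑ g ∈ Ico g0 (g0 + k), (if dcd y' l' K T' g ≠ dcd y l K T g then 1 else 0) +
        (if dT y l y' l' K T T' g0 - (dP y l y' l' g0 + dQ y l y' l' g0) ≠ 0 then 1 else 0) +
        2 * (if dQ y l y' l' (g0 + k) ≠ 0 then 1 else 0) ≤
      (if dT y l y' l' K T T' (g0 + k) -
        (dP y l y' l' (g0 + k) + dQ y l y' l' (g0 + k)) ≠ 0 then 1 else 0) +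
        2 * (if dQ y l y' l' g0 ≠ 0 then 1 else 0) +
        2 * ∑ g ∈ Ico g0 (g0 + k), (if |(y g : ℤ) - QQ y l g| ≤ W then 1 else 0) +
        2 * ∑ g ∈ Ico g0 (g0 + k),
          (if |(dcd y l K T g : ℤ) - QQ (dcd y l K T) l g| ≤ W then 1 else 0) := by
    intro k
    induction k with
    | zero =>
      intro _
      simp only [add_zero, Finset.Ico_self, Finset.sum_empty]
      omega
    | succ k ih =>
      intro hk
      have i1 := ih (by omega)
      have i2 := R_count_step (K := K) (T := T) (T' := T') (g := g0 + k) (W := W) hyl hT (by omega)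
        (hy _ (by omega) (by omega)) (hl _ (by omega) (by omega)) (h1 _ (by omega) (by omega))
        (h2 _ (by omega) (by omega))
      rw [show g0 + (k + 1) = g0 + k + 1 by ring, Finset.sum_Ico_succ_top (by omega),
        Finset.sum_Ico_succ_top (by omega), Finset.sum_Ico_succ_top (by omega)]
      omega
  have h := key (g1 - g0) (by omega)
  rw [show g0 + (g1 - g0) = g1 by omega] at h
  have e1 : (if dT y l y' l' K T T' g1 - (dP y l y' l' g1 + dQ y l y' l' g1) ≠ 0
      then 1 else 0) ≤ 1 := by split_ifs <;> omega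
  have e2 : (if dQ y l y' l' g0 ≠ 0 then 1 else 0) ≤ 1 := by split_ifs <;> omega
  omega

/-- R3: number of blocks that change -/
theorem dcd_count (y l y' l' : ℕ → ℕ) (K T T' q η : ℕ) (hyl : ∀ g < K, y g ≤ l g)
    (hyl' : ∀ g < K, y' g ≤ l' g) (hq : q < K) (hy : ∀ g < K, g ≠ q → y' g = y g)
    (hl : ∀ g < K, g ≠ q → l' g = l g) (hyq : |(y' q : ℤ) - y q| ≤ η) (hlq : |(l' q : ℤ) - l q| ≤ η)
    (hT : T ≤ PP y l K + QQ y l K) (_hT' : T' ≤ PP y' l' K + QQ y' l' K) :
    ((range K).filter fun g => dcd y' l' K T' g ≠ dcd y l K T g).card ≤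
      10 + 2 * ((range K).filter fun g =>
          |(y g : ℤ) - QQ y l g| ≤ 100 * (η + |(T' : ℤ) - T|)).card +
        2 * ((range K).filter fun g =>
          |(dcd y l K T g : ℤ) - QQ (dcd y l K T) l g| ≤ 100 * (η + |(T' : ℤ) - T|)).card := by
  obtain ⟨r1, r2, r3, r4⟩ := R_all (T := T) (T' := T') hyl hyl' hq hy hl hyq hlq
  have hnn := abs_nonneg ((T' : ℤ) - T)
  set W : ℤ := 100 * (η + |(T' : ℤ) - T|) with hW
  -- prefix: no change of `P, Q`
  have hP0 : ∀ g ≤ q, dP y l y' l' g = 0 := by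
    intro g hg
    unfold dP
    rw [PP_congr (y := y') (l := l') (y' := y) (l' := l)
      (fun j hj => hy j (by omega) (by omega)) (fun j hj => hl j (by omega) (by omega))]
    ring
  have hQ0 : ∀ g ≤ q, dQ y l y' l' g = 0 := by
    intro g hg
    unfold dQ
    rw [QQ_congr (y := y') (l := l') (y' := y) (l' := l)
      (fun j hj => hy j (by omega) (by omega)) (fun j hj => hl j (by omega) (by omega))]
    ring
  have c1 := R_count_sum (y := y) (l := l) (y' := y') (l' := l') (K := K) (T := T) (T' := T')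
    (g0 := 0) (g1 := q) (W := W) hyl hT (by omega) (by omega)
    (fun j hj hj' => hy j (by omega) (by omega)) (fun j hj hj' => hl j (by omega) (by omega))
    (fun g _ hg => by rw [hQ0 g (by omega), abs_zero]; omega)
    (fun g _ hg => by
      rw [hQ0 g (by omega), hQ0 (g + 1) (by omega), hP0 (g + 1) (by omega)]
      have h := R_sum (y := y) (l := l) (y' := y') (l' := l') (K := K) (T := T) (T' := T')
        (g0 := g + 1) (g1 := q) (by omega) (by omega)
        (fun j hj hj' => hy j (by omega) (by omega)) (fun j hj hj' => hl j (by omega) (by omega))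
      rw [hQ0 q le_rfl, hQ0 (g + 1) (by omega), hP0 q le_rfl, hP0 (g + 1) (by omega)] at h
      simp only [add_zero, sub_zero, abs_zero, mul_zero] at h ⊢
      have hs := Finset.sum_nonneg (s := Ico (g + 1) q)
        (f := fun j => |(dcd y' l' K T' j : ℤ) - dcd y l K T j|) (fun j _ => abs_nonneg _)
      linarith)
  have c2 := R_count_sum (y := y) (l := l) (y' := y') (l' := l') (K := K) (T := T) (T' := T')
    (g0 := q + 1) (g1 := K) (W := W) hyl hT (by omega) le_rfl
    (fun j hj hj' => hy j (by omega) (by omega)) (fun j hj hj' => hl j (by omega) (by omega))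
    (fun g hg hg' => by
      have := (r2 g hg (by omega)).1
      linarith)
    (fun g hg hg' => by
      have h1 := (r2 g hg (by omega)).1
      have h2 := (r2 (g + 1) (by omega) (by omega)).2
      linarith)
  rw [Finset.card_filter, Finset.card_filter, Finset.card_filter]
  rw [← Finset.sum_range_add_sum_Ico _ (show q ≤ K by omega),
    ← Finset.sum_range_add_sum_Ico _ (show q ≤ K by omega),
    ← Finset.sum_range_add_sum_Ico _ (show q ≤ K by omega),
    Finset.sum_eq_sum_Ico_succ_bot (show q < K by omega),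
    Finset.sum_eq_sum_Ico_succ_bot (show q < K by omega),
    Finset.sum_eq_sum_Ico_succ_bot (show q < K by omega), Finset.range_eq_Ico]
  have e1 : (if dcd y' l' K T' q ≠ dcd y l K T q then 1 else 0) ≤ 1 := by split_ifs <;> omega
  omega

end BLP
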