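import Pool.Agent.Lib.BLP.Swap1

/-!
# Chunk S2: exchanging many weights against time (telescoping of `swap_one`)
-/

namespace BLP

open Finset

variable {ι : Type*} [Fintype ι] [DecidableEq ι]

/-- one step -/
theorem S2_step (h : (ι → Bool) → ℝ) (lam H δ E : ℝ) (hlam : 0 ≤ lam) (hH : 0 ≤ H)
    (_hδ : 0 ≤ δ) (hh : Lip lam h)
    (hZ : ∀ Z : (ι → Bool) → ℝ, (∀ x, 0 ≤ Z x ∧ Z x ≤ 1) →
      ∑ x, |h x| * Z x ≤ H * ∑ x, Z x + δ * 2 ^ Fintype.card ι) (i : ι) (R : (ι → Bool) → ℝ)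
    (hR : ∀ x, R (flp x i) = R x) (t a w : ℝ) (ht : 16 ≤ t) (ha : 0 ≤ a) (ha2 : a ≤ 2)
    (hw : 0 ≤ w) (hw2 : w ≤ 2)
    (hAC : ∑ x, Real.exp (-((R x) ^ 2 / (8 * t))) ≤ E * Real.sqrt t * 2 ^ Fintype.card ι) :
    |∑ x, h x * phi t (R x + a * sg (x i)) -
        ∑ x, h x * phi (t + a ^ 2 - w ^ 2) (R x + w * sg (x i))| ≤
      100 * |a - w| * 2 ^ Fintype.card ι * (lam * E + H * E / (t * Real.sqrt t) + δ / t ^ 2) := by
  have ht0 : 0 < t := by linarith
  have hst : 0 < Real.sqrt t := Real.sqrt_pos.2 ht0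
  refine (swap_one h lam hh i R hR t a w ht ha ha2 hw hw2).trans ?_
  have h1 := hZ (fun x => Real.exp (-((R x) ^ 2 / (8 * t)))) (fun x => ⟨(Real.exp_pos _).le, by
    rw [Real.exp_le_one_iff]
    have : 0 ≤ (R x) ^ 2 / (8 * t) := by positivity
    linarith⟩)
  set N : ℝ := 2 ^ Fintype.card ι with hN
  have hN0 : 0 < N := by positivity
  set S := ∑ x, Real.exp (-((R x) ^ 2 / (8 * t))) with hS
  have h2 : ∑ x, (lam / Real.sqrt t + |h x| / t ^ 2) * Real.exp (-((R x) ^ 2 / (8 * t))) =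
      lam / Real.sqrt t * S + 1 / t ^ 2 * ∑ x, |h x| * Real.exp (-((R x) ^ 2 / (8 * t))) := by
    rw [hS, Finset.mul_sum, Finset.mul_sum, ← Finset.sum_add_distrib]
    refine Finset.sum_congr rfl fun x _ => ?_
    ring
  have h3 : lam / Real.sqrt t * S ≤ lam / Real.sqrt t * (E * Real.sqrt t * N) :=
    mul_le_mul_of_nonneg_left hAC (by positivity)
  have h4 : 1 / t ^ 2 * ∑ x, |h x| * Real.exp (-((R x) ^ 2 / (8 * t))) ≤
      1 / t ^ 2 * (H * (E * Real.sqrt t * N) + δ * N) := by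
    apply mul_le_mul_of_nonneg_left _ (by positivity)
    refine h1.trans ?_
    have := mul_le_mul_of_nonneg_left hAC hH
    linarith
  have e1 : lam / Real.sqrt t * (E * Real.sqrt t * N) = N * (lam * E) := by field_simp
  have e2 : 1 / t ^ 2 * (H * (E * Real.sqrt t * N) + δ * N) =
      N * (H * E / (t * Real.sqrt t) + δ / t ^ 2) := by
    have hsq : Real.sqrt t ^ 2 = t := Real.sq_sqrt ht0.le
    set q := Real.sqrt t with hq
    rw [← hsq]
    field_simp
  rw [h2]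
  have h5 : lam / Real.sqrt t * S + 1 / t ^ 2 * ∑ x, |h x| * Real.exp (-((R x) ^ 2 / (8 * t))) ≤
      N * (lam * E + H * E / (t * Real.sqrt t) + δ / t ^ 2) := by
    rw [e1] at h3
    rw [e2] at h4
    nlinarith
  calc 100 * |a - w| * (lam / Real.sqrt t * S + 1 / t ^ 2 *
        ∑ x, |h x| * Real.exp (-((R x) ^ 2 / (8 * t))))
      ≤ 100 * |a - w| * (N * (lam * E + H * E / (t * Real.sqrt t) + δ / t ^ 2)) :=
        mul_le_mul_of_nonneg_left h5 (by positivity)
    _ = _ := by ring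

theorem S2_g (t a : ℝ) (ht : 16 ≤ t) (ha : 1 ≤ a) :
    1 / (t * Real.sqrt t) + 4 / Real.sqrt (t + a ^ 2) ≤ 4 / Real.sqrt t := by
  have ht0 : 0 < t := by linarith
  have hst : 0 < Real.sqrt t := Real.sqrt_pos.2 ht0
  have hst1 : 0 < Real.sqrt (t + 1) := Real.sqrt_pos.2 (by linarith)
  have h1 : Real.sqrt (t + 1) ≤ Real.sqrt (t + a ^ 2) := Real.sqrt_le_sqrt (by nlinarith)
  have h2 : 4 / Real.sqrt (t + a ^ 2) ≤ 4 / Real.sqrt (t + 1) :=
    div_le_div_of_nonneg_left (by norm_num) hst1 h1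
  have h3 : 1 / (t * Real.sqrt t) + 4 / Real.sqrt (t + 1) ≤ 4 / Real.sqrt t := by
    have hsq : Real.sqrt t ^ 2 = t := Real.sq_sqrt ht0.le
    have hsq1 : Real.sqrt (t + 1) ^ 2 = t + 1 := Real.sq_sqrt (by linarith)
    set q := Real.sqrt t with hq
    set r := Real.sqrt (t + 1) with hr
    have h5 : 4 / q - 4 / r = 4 / (q * r * (q + r)) := by
      field_simp
      nlinarith
    have h6 : q ≤ r := Real.sqrt_le_sqrt (by linarith)
    have h7 : 1 / (t * q) ≤ 4 / (q * r * (q + r)) := by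
      rw [div_le_div_iff₀ (by positivity) (by positivity)]
      have h8 : r * (q + r) ≤ 4 * t := by nlinarith
      nlinarith
    linarith
  linarith

/-- S2: removal of the letters of `s` (weights in `[1,2]`), by induction on `s`, with S1 at time
`t0 + ∑_{removed} a^2 ≥ t0 + (number removed)`. -/
theorem S2_aux (h : (ι → Bool) → ℝ) (lam H δ E : ℝ) (hlam : 0 ≤ lam) (hH : 0 ≤ H)
    (hδ : 0 ≤ δ) (hE : 0 ≤ E) (hh : Lip lam h)
    (hZ : ∀ Z : (ι → Bool) → ℝ, (∀ x, 0 ≤ Z x ∧ Z x ≤ 1) →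
      ∑ x, |h x| * Z x ≤ H * ∑ x, Z x + δ * 2 ^ Fintype.card ι)
    (a : ι → ℝ) (R : (ι → Bool) → ℝ) (c : ℝ) (s : Finset ι) :
    (∀ i ∈ s, 1 ≤ a i ∧ a i ≤ 2) → 
    (∀ x, ∀ i ∈ s, R (flp x i) = R x) → 
    (∀ s' ⊆ s, ∀ c t : ℝ, 16 ≤ t →
      ∑ x, Real.exp (-((R x + ∑ i ∈ s', a i * sg (x i) - c) ^ 2 / (8 * t))) ≤
        E * Real.sqrt t * 2 ^ Fintype.card ι) → ∀ t0 : ℝ, 16 ≤ t0 → 
    |∑ x, h x * phi t0 (R x + ∑ i ∈ s, a i * sg (x i) - c) -
        ∑ x, h x * phi (t0 + ∑ i ∈ s, a i ^ 2) (R x - c)| ≤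
      200 * 2 ^ Fintype.card ι * (lam * E * s.card + H * E * (4 / Real.sqrt t0) + δ * s.card) := by
  induction s using Finset.induction_on with
  | empty =>
    intro _ _ _ t0 ht0
    simp
    positivity
  | insert i s hi ih =>
    intro ha hR hAC t0 ht0
    have h1 := ih (fun j hj => ha j (Finset.mem_insert_of_mem hj))
      (fun x j hj => hR x j (Finset.mem_insert_of_mem hj))
      (fun s' hs' => hAC s' (hs'.trans (Finset.subset_insert _ _))) (t0 + a i ^ 2) (by nlinarith [sq_nonneg (a i)])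
    obtain ⟨hai1, hai2⟩ := ha i (Finset.mem_insert_self _ _)
    have h2 := S2_step h lam H δ E hlam hH hδ hh hZ i
      (fun x => R x + ∑ i ∈ s, a i * sg (x i) - c) (fun x => by
        rw [hR x i (Finset.mem_insert_self _ _)]
        congr 2
        refine Finset.sum_congr rfl fun j hj => ?_
        have hne : j ≠ i := fun e => hi (by rw [← e]; exact hj)
        rw [flp_ne x hne])
      t0 (a i) 0 ht0 (by linarith) hai2 le_rfl (by norm_num)
      (hAC s (Finset.subset_insert _ _) c t0 ht0)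
    have e1 : ∀ x : ι → Bool, R x + ∑ j ∈ insert i s, a j * sg (x j) - c =
        R x + ∑ j ∈ s, a j * sg (x j) - c + a i * sg (x i) := by
      intro x
      rw [Finset.sum_insert hi]; ring
    have e2 : t0 + ∑ j ∈ insert i s, a j ^ 2 = t0 + a i ^ 2 + ∑ j ∈ s, a j ^ 2 := by
      rw [Finset.sum_insert hi]; ring
    simp only [e1, e2]
    simp only [ne_eq, OfNat.ofNat_ne_zero, not_false_eq_true, zero_pow, sub_zero, zero_mul,
      add_zero] at h2
    rw [abs_of_nonneg (by linarith : (0 : ℝ) ≤ a i)] at h2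
    have h3 := abs_sub_le (∑ x, h x * phi t0 (R x + ∑ j ∈ s, a j * sg (x j) - c + a i * sg (x i)))
      (∑ x, h x * phi (t0 + a i ^ 2) (R x + ∑ j ∈ s, a j * sg (x j) - c))
      (∑ x, h x * phi (t0 + a i ^ 2 + ∑ j ∈ s, a j ^ 2) (R x - c))
    refine h3.trans ((add_le_add h2 h1).trans ?_)
    set N : ℝ := 2 ^ Fintype.card ι with hN
    have hN0 : 0 < N := by positivity
    have ht00 : 0 < t0 := by linarith
    have hq : 0 < Real.sqrt t0 := Real.sqrt_pos.2 ht00
    have h4 : 100 * a i * N * (lam * E + H * E / (t0 * Real.sqrt t0) + δ / t0 ^ 2) ≤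
        200 * N * (lam * E + H * E * (1 / (t0 * Real.sqrt t0)) + δ) := by
      have h5 : δ / t0 ^ 2 ≤ δ := by
        apply div_le_self hδ
        nlinarith
      have h6 : 0 ≤ lam * E + H * E / (t0 * Real.sqrt t0) + δ / t0 ^ 2 := by positivity
      have h7 : 100 * a i * N * (lam * E + H * E / (t0 * Real.sqrt t0) + δ / t0 ^ 2) ≤
          200 * N * (lam * E + H * E / (t0 * Real.sqrt t0) + δ / t0 ^ 2) := by
        apply mul_le_mul_of_nonneg_right _ h6
        nlinarith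
      refine h7.trans ?_
      apply mul_le_mul_of_nonneg_left _ (by positivity)
      have : H * E / (t0 * Real.sqrt t0) = H * E * (1 / (t0 * Real.sqrt t0)) := by ring
      linarith
    have h8 := S2_g t0 (a i) ht0 hai1
    have h9 : H * E * (1 / (t0 * Real.sqrt t0) + 4 / Real.sqrt (t0 + a i ^ 2)) ≤
        H * E * (4 / Real.sqrt t0) := mul_le_mul_of_nonneg_left h8 (by positivity)
    rw [Finset.card_insert_of_notMem hi]
    push_cast
    have h10 : 200 * N * (lam * E + H * E * (1 / (t0 * Real.sqrt t0)) + δ) +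
        200 * N * (lam * E * s.card + H * E * (4 / Real.sqrt (t0 + a i ^ 2)) + δ * s.card) =
        200 * N * (lam * E * (s.card + 1) + H * E * (1 / (t0 * Real.sqrt t0) +
          4 / Real.sqrt (t0 + a i ^ 2)) + δ * (s.card + 1)) := by ring
    have h11 : 200 * N * (lam * E * (s.card + 1) + H * E * (1 / (t0 * Real.sqrt t0) +
          4 / Real.sqrt (t0 + a i ^ 2)) + δ * (s.card + 1)) ≤
        200 * N * (lam * E * (s.card + 1) + H * E * (4 / Real.sqrt t0) + δ * (s.card + 1)) :=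
      mul_le_mul_of_nonneg_left (by linarith) (by positivity)
    linarith

theorem remove_path (h : (ι → Bool) → ℝ) (lam H δ E : ℝ) (hlam : 0 ≤ lam) (hH : 0 ≤ H)
    (hδ : 0 ≤ δ) (hE : 0 ≤ E) (hh : Lip lam h)
    (hZ : ∀ Z : (ι → Bool) → ℝ, (∀ x, 0 ≤ Z x ∧ Z x ≤ 1) →
      ∑ x, |h x| * Z x ≤ H * ∑ x, Z x + δ * 2 ^ Fintype.card ι)
    (s : Finset ι) (a : ι → ℝ) (ha : ∀ i ∈ s, 1 ≤ a i ∧ a i ≤ 2) (R : (ι → Bool) → ℝ)
    (hR : ∀ x, ∀ i ∈ s, R (flp x i) = R x)
    (hAC : ∀ s' ⊆ s, ∀ c t : ℝ, 16 ≤ t →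
      ∑ x, Real.exp (-((R x + ∑ i ∈ s', a i * sg (x i) - c) ^ 2 / (8 * t))) ≤
        E * Real.sqrt t * 2 ^ Fintype.card ι) (c t0 : ℝ) (ht0 : 16 ≤ t0) :
    |∑ x, h x * phi t0 (R x + ∑ i ∈ s, a i * sg (x i) - c) -
        ∑ x, h x * phi (t0 + ∑ i ∈ s, a i ^ 2) (R x - c)| ≤
      200 * 2 ^ Fintype.card ι * (lam * E * s.card + H * E + δ * s.card) := by
  refine (S2_aux h lam H δ E hlam hH hδ hE hh hZ a R c s ha hR hAC t0 ht0).trans ?_
  apply mul_le_mul_of_nonneg_left _ (by positivity)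
  have h1 : 4 / Real.sqrt t0 ≤ 1 := by
    have h2 : (4 : ℝ) ≤ Real.sqrt t0 := Real.le_sqrt_of_sq_le (by linarith)
    rw [div_le_one (by linarith)]
    exact h2
  have h3 : H * E * (4 / Real.sqrt t0) ≤ H * E * 1 := mul_le_mul_of_nonneg_left h1 (by positivity)
  linarith

/-- S3: exchange of the weights `a` against the weights `w` on `s` -/
theorem swap_path (h : (ι → Bool) → ℝ) (lam H δ E : ℝ) (hlam : 0 ≤ lam) (hH : 0 ≤ H)
    (hδ : 0 ≤ δ) (hE : 0 ≤ E) (hh : Lip lam h)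
    (hZ : ∀ Z : (ι → Bool) → ℝ, (∀ x, 0 ≤ Z x ∧ Z x ≤ 1) →
      ∑ x, |h x| * Z x ≤ H * ∑ x, Z x + δ * 2 ^ Fintype.card ι)
    (s : Finset ι) (a w : ι → ℝ) (ha : ∀ i ∈ s, 0 ≤ a i ∧ a i ≤ 2)
    (hw : ∀ i ∈ s, 0 ≤ w i ∧ w i ≤ 2) (c t1 tm : ℝ) (htm : 16 ≤ tm)
    (ht : ∀ s' ⊆ s, tm ≤ t1 + ∑ i ∈ s', (a i ^ 2 - w i ^ 2))
    (hAC : ∀ s' ⊆ s, ∀ j ∈ s \ s', ∀ c t : ℝ, 16 ≤ t →
      ∑ x : ι → Bool, Real.exp (-((∑ i ∈ s', w i * sg (x i) +
        ∑ i ∈ (s \ s').erase j, a i * sg (x i) - c) ^ 2 / (8 * t))) ≤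
        E * Real.sqrt t * 2 ^ Fintype.card ι) :
    |∑ x, h x * phi t1 (∑ i ∈ s, a i * sg (x i) - c) -
        ∑ x, h x * phi (t1 + ∑ i ∈ s, (a i ^ 2 - w i ^ 2)) (∑ i ∈ s, w i * sg (x i) - c)| ≤
      100 * 2 ^ Fintype.card ι * (∑ i ∈ s, |a i - w i|) *
        (lam * E + H * E / (tm * Real.sqrt tm) + δ) := by
  set N : ℝ := 2 ^ Fintype.card ι with hN
  have hN0 : 0 < N := by positivity
  have htm0 : 0 < tm := by linarith
  have hqm : 0 < Real.sqrt tm := Real.sqrt_pos.2 htm0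
  have key : ∀ s' : Finset ι, s' ⊆ s →
      |∑ x, h x * phi t1 (∑ i ∈ s, a i * sg (x i) - c) -
        ∑ x, h x * phi (t1 + ∑ i ∈ s', (a i ^ 2 - w i ^ 2))
          (∑ i ∈ s', w i * sg (x i) + ∑ i ∈ s \ s', a i * sg (x i) - c)| ≤
      100 * N * (∑ i ∈ s', |a i - w i|) * (lam * E + H * E / (tm * Real.sqrt tm) + δ) := by
    intro s'
    induction s' using Finset.induction_on with
    | empty => intro _; simp
    | insert j s' hj ih =>
      intro hs
      have hs' : s' ⊆ s := (Finset.subset_insert _ _).trans hs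
      have hjs : j ∈ s := hs (Finset.mem_insert_self _ _)
      have hjs' : j ∈ s \ s' := Finset.mem_sdiff.2 ⟨hjs, hj⟩
      have h1 := ih hs'
      have htt : tm ≤ t1 + ∑ i ∈ s', (a i ^ 2 - w i ^ 2) := ht s' hs'
      set t := t1 + ∑ i ∈ s', (a i ^ 2 - w i ^ 2) with htd
      have ht16 : 16 ≤ t := htm.trans htt
      have ht0 : 0 < t := by linarith
      have h2 := S2_step h lam H δ E hlam hH hδ hh hZ j
        (fun x => ∑ i ∈ s', w i * sg (x i) + ∑ i ∈ (s \ s').erase j, a i * sg (x i) - c)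
        (fun x => by
          congr 2
          · refine Finset.sum_congr rfl fun i hi => ?_
            have hne : i ≠ j := fun e => hj (by rw [← e]; exact hi)
            rw [flp_ne x hne]
          · refine Finset.sum_congr rfl fun i hi => ?_
            rw [flp_ne x (Finset.ne_of_mem_erase hi)])
        t (a j) (w j) ht16 (ha j hjs).1 (ha j hjs).2 (hw j hjs).1 (hw j hjs).2
        (hAC s' hs' j hjs' c t ht16)
      have e1 : ∀ x : ι → Bool, ∑ i ∈ s', w i * sg (x i) +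
          ∑ i ∈ (s \ s').erase j, a i * sg (x i) - c + a j * sg (x j) =
          ∑ i ∈ s', w i * sg (x i) + ∑ i ∈ s \ s', a i * sg (x i) - c := by
        intro x
        rw [← Finset.add_sum_erase (s \ s') _ hjs']; ring
      have e2 : ∀ x : ι → Bool, ∑ i ∈ s', w i * sg (x i) +
          ∑ i ∈ (s \ s').erase j, a i * sg (x i) - c + w j * sg (x j) =
          ∑ i ∈ insert j s', w i * sg (x i) + ∑ i ∈ s \ (insert j s'), a i * sg (x i) - c := by
        intro x
        rw [Finset.sum_insert hj]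
        have : s \ (insert j s') = (s \ s').erase j := by
          ext i
          simp only [Finset.mem_sdiff, Finset.mem_insert, Finset.mem_erase]
          tauto
        rw [this]; ring
      have e3 : t + a j ^ 2 - w j ^ 2 = t1 + ∑ i ∈ insert j s', (a i ^ 2 - w i ^ 2) := by
        rw [Finset.sum_insert hj, htd]; ring
      simp only [e1, e2, e3] at h2
      refine (abs_sub_le _ _ _).trans ((add_le_add h1 h2).trans ?_)
      rw [Finset.sum_insert hj]
      have h3 : lam * E + H * E / (t * Real.sqrt t) + δ / t ^ 2 ≤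
          lam * E + H * E / (tm * Real.sqrt tm) + δ := by
        have h4 : δ / t ^ 2 ≤ δ := by
          apply div_le_self hδ
          nlinarith
        have h5 : H * E / (t * Real.sqrt t) ≤ H * E / (tm * Real.sqrt tm) := by
          apply div_le_div_of_nonneg_left (by positivity) (by positivity)
          exact mul_le_mul htt (Real.sqrt_le_sqrt htt) hqm.le ht0.le
        linarith
      have h6 : 100 * |a j - w j| * N * (lam * E + H * E / (t * Real.sqrt t) + δ / t ^ 2) ≤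
          100 * |a j - w j| * N * (lam * E + H * E / (tm * Real.sqrt tm) + δ) :=
        mul_le_mul_of_nonneg_left h3 (by positivity)
      have h7 : 100 * N * (|a j - w j| + ∑ i ∈ s', |a i - w i|) *
          (lam * E + H * E / (tm * Real.sqrt tm) + δ) =
          100 * N * (∑ i ∈ s', |a i - w i|) * (lam * E + H * E / (tm * Real.sqrt tm) + δ) +
          100 * |a j - w j| * N * (lam * E + H * E / (tm * Real.sqrt tm) + δ) := by ring
      rw [h7]
      linarith
  have h := key s (Finset.Subset.refl _)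
  simp only [Finset.sdiff_self, Finset.sum_empty, add_zero] at h
  exact h

end BLP
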