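import Pool.Agent.Lib.BLP.CombD

/-!
# Chunk T0: coordinates and states

Coordinates: `((g, k), s)` (block `g`, pair `k`, first/second coordinate `s = false/true`) and a
type `β` of blind coordinates.
-/

namespace BLP

open Finset

/-- the coordinates of the word and the blind coordinates -/
abbrev WI (K b : ℕ) (β : Type*) := (Fin K × Fin b × Bool) ⊕ β

variable {K b : ℕ} {β : Type*} [Fintype β] [DecidableEq β]

/-- the states of the pairs: type `true` iff the two coordinates are equal; the value is the first
coordinate -/
def stt (z : WI K b β → Bool) : Fin K → BS b := fun g k =>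
  (z (Sum.inl (g, k, false)) == z (Sum.inl (g, k, true)), z (Sum.inl (g, k, false)))

/-- the point with given states of the pairs and given blind coordinates -/
def unst (x : Fin K → BS b) (y : β → Bool) : WI K b β → Bool
  | Sum.inl (g, k, false) => (x g k).2
  | Sum.inl (g, k, true) => if (x g k).1 = true then (x g k).2 else !(x g k).2
  | Sum.inr j => y j

/-- T0: bijection between the cube and the states -/
def sttE (K b : ℕ) (β : Type*) : (WI K b β → Bool) ≃ (Fin K → BS b) × (β → Bool) where
  toFun z := (stt z, fun j => z (Sum.inr j))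
  invFun p := unst p.1 p.2
  left_inv := by
    intro z
    funext i
    rcases i with ⟨g, k, s⟩ | j
    · cases s
      · simp [unst, stt]
      · simp only [unst, stt, beq_iff_eq]
        split_ifs with h
        · exact h
        · cases h1 : z (Sum.inl (g, k, false)) <;> cases h2 : z (Sum.inl (g, k, true)) <;>
            simp_all
    · simp [unst]
  right_inv := by
    rintro ⟨x, y⟩
    ext g k
    · simp only [stt, unst]
      cases h1 : (x g k).1 <;> cases h2 : (x g k).2 <;> simp
    · simp [stt, unst]
    · simp [unst]

/-- T0: linear forms that are constant on the blocks -/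
theorem lin_block (w : Fin K → ℝ) (z : WI K b β → Bool) (g : Fin K) :
    ∑ p : Fin b × Bool, w g * sg (z (Sum.inl (g, p.1, p.2))) = 2 * w g * (vsum (stt z g) : ℝ) := by
  rw [Fintype.sum_prod_type]
  unfold vsum
  push_cast
  rw [Finset.mul_sum]
  refine Finset.sum_congr rfl fun k _ => ?_
  rw [Fintype.sum_bool]
  cases h1 : z (Sum.inl (g, k, false)) <;> cases h2 : z (Sum.inl (g, k, true)) <;>
    simp [stt, h1, h2, sg] <;> ring

/-- T0: Hamming distance -/
theorem hamming_unst (x x' : Fin K → BS b) (y y' : β → Bool) :
    hammingDist (unst x y) (unst x' y') ≤ 2 * pdist x x' + hammingDist y y' := by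
  unfold hammingDist pdist
  rw [Finset.card_filter, Finset.card_filter, Finset.card_filter, Fintype.sum_sum_type]
  refine Nat.add_le_add ?_ le_rfl
  rw [Fintype.sum_prod_type, Fintype.sum_prod_type, Finset.mul_sum]
  refine Finset.sum_le_sum fun g _ => ?_
  rw [Fintype.sum_prod_type, Finset.mul_sum]
  refine Finset.sum_le_sum fun k _ => ?_
  rw [Fintype.sum_bool]
  by_cases h : x g k = x' g k
  · simp [unst, h]
  · rw [if_pos h]
    split_ifs <;> omega

/-- T0: flips -/
theorem stt_flip (z : WI K b β → Bool) (g : Fin K) (k : Fin b) :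
    stt (flp z (Sum.inl (g, k, false))) = upd (stt z) g k (fun p => (!p.1, !p.2)) ∧
    stt (flp z (Sum.inl (g, k, true))) = upd (stt z) g k (fun p => (!p.1, p.2)) := by
  constructor
  · funext g' k'
    unfold upd
    by_cases hg : g' = g
    · subst hg
      rw [Function.update_self]
      by_cases hk : k' = k
      · subst hk
        rw [Function.update_self]
        unfold stt
        rw [flp_same, flp_ne _ (by simp)]
        cases z (Sum.inl (g', k', false)) <;> cases z (Sum.inl (g', k', true)) <;> rfl
      · rw [Function.update_of_ne hk]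
        unfold stt
        rw [flp_ne _ (by simp [hk]), flp_ne _ (by simp)]
    · rw [Function.update_of_ne hg]
      unfold stt
      rw [flp_ne _ (by simp [hg]), flp_ne _ (by simp)]
  · funext g' k'
    unfold upd
    by_cases hg : g' = g
    · subst hg
      rw [Function.update_self]
      by_cases hk : k' = k
      · subst hk
        rw [Function.update_self]
        unfold stt
        rw [flp_same, flp_ne _ (by simp)]
        cases z (Sum.inl (g', k', false)) <;> cases z (Sum.inl (g', k', true)) <;> rfl
      · rw [Function.update_of_ne hk]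
        unfold stt
        rw [flp_ne _ (by simp), flp_ne _ (by simp [hk])]
    · rw [Function.update_of_ne hg]
      unfold stt
      rw [flp_ne _ (by simp), flp_ne _ (by simp [hg])]

/-- the approximate linear form -/
noncomputable def Sc (C : ℕ → Chain (BS b)) (μ : ℝ) (a : WI K b β → ℝ) (z : WI K b β → Bool) : ℝ :=
  ∑ j : β, a (Sum.inr j) * sg (z (Sum.inr j)) + μ * (zz C (stt z) : ℝ)

/-- weights of the blocks -/
noncomputable def wg (μ : ℝ) (m : ℕ → ℕ) (g : Fin K) : ℝ := μ * m g / 2

/-- hypotheses on the function `h` -/
structure HH {ι : Type*} [Fintype ι] [DecidableEq ι] (h : (ι → Bool) → ℝ) (lam H δ : ℝ) : Prop where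
  lip : Lip lam h
  lam0 : 0 ≤ lam
  H0 : 0 ≤ H
  δ0 : 0 ≤ δ
  hZ : ∀ Z : (ι → Bool) → ℝ, (∀ x, 0 ≤ Z x ∧ Z x ≤ 1) →
      ∑ x, |h x| * Z x ≤ H * ∑ x, Z x + δ * 2 ^ Fintype.card ι

end BLP
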