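import Pool.Agent.Lib.BLP.W0
import Pool.Agent.Lib.BLP.Swap2
import Pool.Agent.Lib.BLP.Conc2

/-!
# Chunk T1: the linear side

(A) `ind (c < lin a z)` against `phi 16 (lin a z - c)`: H1, `lin_window`, `exp_of_window`.
(B) `remove_path` with `s = ` the blind coordinates.
(C) `swap_path` with `s = ` the main coordinates, `w i = w g`, `t1 = 16 + ∑ a^2`, `tm = 16 + |β| / 2`.
-/

namespace BLP

open Finset

section generic

variable {ι : Type*} [Fintype ι] [DecidableEq ι]

/-- Littlewood-Offord for Gaussian weights -/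
theorem T1_win (u : ι → ℝ) (S : Finset ι) {d : ℝ} (hd : 0 < d) (hS : ∀ i ∈ S, d ≤ |u i|)
    (hne : S.Nonempty) (c t : ℝ) (ht : 1 ≤ t) :
    ∑ x : ι → Bool, Real.exp (-((lin u x - c) ^ 2 / (8 * t))) ≤
      20 * Real.sqrt t * (2 ^ Fintype.card ι * ((1 / d + 1) / Real.sqrt S.card)) :=
  exp_of_window (lin u) _ (fun c' => lin_window u S hd hS hne c' 1 zero_le_one) c t ht

/-- the first step: `ind` against `phi 16` -/
theorem T1_ind (h : (ι → Bool) → ℝ) (lam H δ : ℝ) (hh : HH h lam H δ) (R : (ι → Bool) → ℝ)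
    (c E : ℝ) (hE : ∑ x, Real.exp (-((R x - c) ^ 2 / (8 * 4))) ≤ E) :
    |∑ z, h z * ind (c < R z) - ∑ z, h z * phi 16 (R z - c)| ≤
      H * E + δ * 2 ^ Fintype.card ι := by
  rw [← Finset.sum_sub_distrib]
  refine (Finset.abs_sum_le_sum_abs _ _).trans ?_
  have h1 : ∀ z, |h z * ind (c < R z) - h z * phi 16 (R z - c)| ≤
      |h z| * Real.exp (-((R z - c) ^ 2 / (8 * 4))) := by
    intro z
    rw [← mul_sub, abs_mul]
    refine mul_le_mul_of_nonneg_left ?_ (abs_nonneg _)
    have h2 := phi_ind 16 (R z - c) (by norm_num)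
    have h3 : ind (0 < R z - c) = ind (c < R z) := ind_congr sub_pos
    rw [h3] at h2
    rw [show (8 : ℝ) * 4 = 2 * 16 by norm_num]
    exact h2
  refine (Finset.sum_le_sum fun z _ => h1 z).trans ?_
  refine (hh.hZ _ fun x => ⟨(Real.exp_pos _).le, ?_⟩).trans ?_
  · rw [Real.exp_le_one_iff]
    have : 0 ≤ (R x - c) ^ 2 / (8 * 4) := by positivity
    linarith
  · have := mul_le_mul_of_nonneg_left hE hh.H0
    linarith

omit [Fintype ι] in
theorem T1_sum_flp (S : Finset ι) (a : ι → ℝ) (x : ι → Bool) (i : ι) (hi : i ∉ S) :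
    ∑ j ∈ S, a j * sg (flp x i j) = ∑ j ∈ S, a j * sg (x j) := by
  refine Finset.sum_congr rfl fun j hj => ?_
  rw [flp_ne]
  rintro rfl
  exact hi hj

theorem T1_lin_ite (S : Finset ι) (a : ι → ℝ) (x : ι → Bool) :
    lin (fun i => if i ∈ S then a i else 0) x = ∑ i ∈ S, a i * sg (x i) := by
  simp only [lin, ite_mul, zero_mul]
  rw [Finset.sum_ite_mem, Finset.univ_inter]

theorem T1_lin_ite2 (S T : Finset ι) (hST : Disjoint S T) (a w : ι → ℝ) (x : ι → Bool) :
    lin (fun i => if i ∈ S then w i else if i ∈ T then a i else 0) x =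
      ∑ i ∈ S, w i * sg (x i) + ∑ i ∈ T, a i * sg (x i) := by
  have h : (fun i => if i ∈ S then w i else if i ∈ T then a i else 0) =
      fun i => (if i ∈ S then w i else 0) + (if i ∈ T then a i else 0) := by
    funext i
    by_cases h1 : i ∈ S
    · have h2 : i ∉ T := Finset.disjoint_left.1 hST h1
      simp [h1, h2]
    · simp [h1]
  rw [← T1_lin_ite S w x, ← T1_lin_ite T a x, h]
  simp only [lin, add_mul, Finset.sum_add_distrib]

end generic

variable {K b : ℕ} {β : Type*} [Fintype β] [DecidableEq β]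

/-- the main coordinates -/
def T1_sM (K b : ℕ) (β : Type*) [Fintype β] [DecidableEq β] : Finset (WI K b β) :=
  (univ : Finset (Fin K × Fin b × Bool)).map ⟨Sum.inl, Sum.inl_injective⟩

/-- the blind coordinates -/
def T1_sB (K b : ℕ) (β : Type*) [Fintype β] [DecidableEq β] : Finset (WI K b β) :=
  (univ : Finset β).map ⟨Sum.inr, Sum.inr_injective⟩

theorem T1_card_sM : (T1_sM K b β).card = 2 * (K * b) := by
  simp [T1_sM, Fintype.card_prod]
  ring

theorem T1_card_sB : (T1_sB K b β).card = Fintype.card β := by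
  simp [T1_sB]

theorem T1_disj : Disjoint (T1_sM K b β) (T1_sB K b β) := by
  rw [Finset.disjoint_left]
  intro i h1 h2
  simp only [T1_sM, T1_sB, Finset.mem_map, Finset.mem_univ, true_and,
    Function.Embedding.coeFn_mk] at h1 h2
  obtain ⟨p, rfl⟩ := h1
  obtain ⟨q, h⟩ := h2
  cases h

theorem T1_sum_sM (f : WI K b β → ℝ) :
    ∑ i ∈ T1_sM K b β, f i = ∑ g, ∑ p : Fin b × Bool, f (Sum.inl (g, p.1, p.2)) := by
  rw [T1_sM, Finset.sum_map, Fintype.sum_prod_type]
  rfl

theorem T1_sum_sB (f : WI K b β → ℝ) :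
    ∑ i ∈ T1_sB K b β, f i = ∑ j : β, f (Sum.inr j) := by
  rw [T1_sB, Finset.sum_map]
  rfl

theorem T1_lin (a : WI K b β → ℝ) (x : WI K b β → Bool) :
    lin a x = ∑ i ∈ T1_sM K b β, a i * sg (x i) + ∑ i ∈ T1_sB K b β, a i * sg (x i) := by
  rw [T1_sM, T1_sB, Finset.sum_map, Finset.sum_map, lin, Fintype.sum_sum_type]
  rfl

/-- the square root of the number of main coordinates -/
theorem T1_sqrt_le (hK : 0 < K) (hb : 0 < b) (k : ℕ) (hk : K * b ≤ k) :
    (0 : ℝ) < Real.sqrt (K * b) ∧ 1 / Real.sqrt k ≤ 1 / Real.sqrt (K * b) := by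
  have h1 : (0 : ℝ) < (K : ℝ) * b := by positivity
  have h2 : 0 < Real.sqrt (K * b) := Real.sqrt_pos.2 h1
  refine ⟨h2, one_div_le_one_div_of_le h2 (Real.sqrt_le_sqrt ?_)⟩
  exact_mod_cast hk

/-- T1 (linear side) -/
theorem lin_side (a : WI K b β → ℝ) (ha : ∀ i, 1 ≤ a i ∧ a i ≤ 2) (hK : 0 < K) (hb : 0 < b)
    (w : Fin K → ℝ) (hw : ∀ g, 1 / 2 ≤ w g ∧ w g ≤ 2) (D : ℝ)
    (hD : ∑ g, ∑ p : Fin b × Bool, |a (Sum.inl (g, p.1, p.2)) - w g| ≤ D)
    (hβ : 8 * D ≤ Fintype.card β) (h : (WI K b β → Bool) → ℝ) (lam H δ : ℝ) (hh : HH h lam H δ)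
    (c : ℝ) :
    |∑ z, h z * ind (c < lin a z) - ∑ z, h z *
        phi (16 + ∑ j : β, a (Sum.inr j) ^ 2 +
          ∑ g, ∑ p : Fin b × Bool, (a (Sum.inl (g, p.1, p.2)) ^ 2 - w g ^ 2))
          (∑ g, 2 * w g * (vsum (stt z g) : ℝ) - c)| ≤
      10 ^ 6 * 2 ^ Fintype.card (WI K b β) *
        ((lam * (Fintype.card β + D + 1) + H) / Real.sqrt (K * b) +
          H * D / (Real.sqrt (K * b) * Fintype.card β * Real.sqrt (Fintype.card β)) +
          δ * (Fintype.card β + D + 1)) := by
  have hlam := hh.lam0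
  have hH := hh.H0
  have hδ := hh.δ0
  have hN0 : (0 : ℝ) < 2 ^ Fintype.card (WI K b β) := by positivity
  have hKb : 0 < K * b := Nat.mul_pos hK hb
  have hq0 := (T1_sqrt_le hK hb (K * b) le_rfl).1
  set q : ℝ := Real.sqrt (K * b) with hq
  set B : ℝ := (Fintype.card β : ℝ) with hB
  have hB0 : 0 ≤ B := by positivity
  have hD0 : 0 ≤ D := le_trans (Finset.sum_nonneg fun g _ => Finset.sum_nonneg fun p _ =>
    abs_nonneg _) hD
  have hsM : ((T1_sM K b β).card : ℝ) = 2 * (K * b) := by rw [T1_card_sM]; push_cast; ring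
  have hsB : ((T1_sB K b β).card : ℝ) = B := by rw [T1_card_sB]
  have hne : (T1_sM K b β).Nonempty := by
    rw [← Finset.card_pos, T1_card_sM]; omega
  have habs : ∀ i, |a i| = a i := fun i => abs_of_nonneg (by linarith [(ha i).1])
  -- (A)
  have hwinA : ∀ (u : WI K b β → ℝ), (∀ i ∈ T1_sM K b β, u i = a i) → ∀ c t : ℝ, 1 ≤ t →
      ∑ x : WI K b β → Bool, Real.exp (-((lin u x - c) ^ 2 / (8 * t))) ≤
        40 / q * Real.sqrt t * 2 ^ Fintype.card (WI K b β) := by
    intro u hu c t ht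
    refine (T1_win u (T1_sM K b β) one_pos (fun i hi => ?_) hne c t ht).trans ?_
    · rw [hu i hi, habs]; exact (ha i).1
    · have h1 := (T1_sqrt_le hK hb (T1_sM K b β).card (by rw [T1_card_sM]; omega)).2
      have h2 : (1 / (1 : ℝ) + 1) / Real.sqrt (T1_sM K b β).card ≤ 2 * (1 / q) := by
        have : (1 / (1 : ℝ) + 1) / Real.sqrt (T1_sM K b β).card =
          2 * (1 / Real.sqrt (T1_sM K b β).card) := by ring
        rw [this]; linarith
      calc 20 * Real.sqrt t * (2 ^ Fintype.card (WI K b β) *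
            ((1 / (1 : ℝ) + 1) / Real.sqrt (T1_sM K b β).card))
          ≤ 20 * Real.sqrt t * (2 ^ Fintype.card (WI K b β) * (2 * (1 / q))) := by gcongr
        _ = 40 / q * Real.sqrt t * 2 ^ Fintype.card (WI K b β) := by ring
  have hA := T1_ind h lam H δ hh (lin a) c (80 / q * 2 ^ Fintype.card (WI K b β)) (by
    refine (hwinA a (fun _ _ => rfl) c 4 (by norm_num)).trans (le_of_eq ?_)
    rw [show (4 : ℝ) = 2 ^ 2 by norm_num, Real.sqrt_sq (by norm_num)]; ring)
  -- (B)
  set R : (WI K b β → Bool) → ℝ := fun x => ∑ i ∈ T1_sM K b β, a i * sg (x i) with hR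
  have hBB := remove_path h lam H δ (40 / q) hlam hH hδ (by positivity) hh.lip hh.hZ
    (T1_sB K b β) a (fun i _ => ha i) R (fun x i hi => T1_sum_flp _ a x i
      (fun h' => Finset.disjoint_left.1 T1_disj h' hi)) (by
      intro s' hs' c t ht
      have hdisj : Disjoint (T1_sM K b β) s' := T1_disj.mono_right hs'
      have h1 := hwinA (fun i => if i ∈ T1_sM K b β then a i else if i ∈ s' then a i else 0)
        (fun i hi => if_pos hi) c t (by linarith)
      simp only [T1_lin_ite2 (T1_sM K b β) s' hdisj a a] at h1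
      exact h1) c 16 le_rfl
  rw [T1_sum_sB, hsB] at hBB
  -- (C)
  set W : WI K b β → ℝ := fun i => match i with
    | Sum.inl p => w p.1
    | Sum.inr _ => 1 with hW
  have hWb : ∀ i, 1 / 2 ≤ W i ∧ W i ≤ 2 := by
    rintro (p | j)
    · exact hw p.1
    · simp only [hW]; norm_num
  have hDs : ∑ i ∈ T1_sM K b β, |a i - W i| ≤ D := by
    rw [T1_sum_sM]; exact hD
  have ha2B : B ≤ ∑ j : β, a (Sum.inr j) ^ 2 := by
    have : B = ∑ _j : β, (1 : ℝ) := by simp [hB]
    rw [this]
    refine Finset.sum_le_sum fun j _ => ?_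
    have := (ha (Sum.inr j)).1
    nlinarith
  have hsub : ∀ s' ⊆ T1_sM K b β, -(B / 2) ≤ ∑ i ∈ s', (a i ^ 2 - W i ^ 2) := by
    intro s' hs'
    have h1 : ∀ i, -(4 * |a i - W i|) ≤ a i ^ 2 - W i ^ 2 := by
      intro i
      have h2 : a i ^ 2 - W i ^ 2 = (a i - W i) * (a i + W i) := by ring
      have h3 : |(a i - W i) * (a i + W i)| ≤ |a i - W i| * 4 := by
        rw [abs_mul]
        refine mul_le_mul_of_nonneg_left ?_ (abs_nonneg _)
        rw [abs_of_nonneg (by linarith [(ha i).1, (hWb i).1])]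
        linarith [(ha i).2, (hWb i).2]
      rw [h2]
      have := neg_abs_le ((a i - W i) * (a i + W i))
      linarith
    have h4 : ∑ i ∈ s', -(4 * |a i - W i|) ≤ ∑ i ∈ s', (a i ^ 2 - W i ^ 2) :=
      Finset.sum_le_sum fun i _ => h1 i
    have h5 : ∑ i ∈ s', |a i - W i| ≤ ∑ i ∈ T1_sM K b β, |a i - W i| :=
      Finset.sum_le_sum_of_subset_of_nonneg hs' fun i _ _ => abs_nonneg _
    rw [Finset.sum_neg_distrib, ← Finset.mul_sum] at h4
    linarith
  have hC := swap_path h lam H δ (60 / q) hlam hH hδ (by positivity) hh.lip hh.hZ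
    (T1_sM K b β) a W (fun i _ => ⟨by linarith [(ha i).1], (ha i).2⟩)
    (fun i _ => ⟨by linarith [(hWb i).1], (hWb i).2⟩) c (16 + ∑ j : β, a (Sum.inr j) ^ 2)
    (16 + B / 2) (by linarith) (fun s' hs' => by have := hsub s' hs'; linarith) (by
      intro s' hs' j hj c t ht
      have hdisj : Disjoint s' ((T1_sM K b β \ s').erase j) :=
        (Finset.disjoint_sdiff).mono_right (Finset.erase_subset _ _)
      have hcard : (s' ∪ (T1_sM K b β \ s').erase j).card = 2 * (K * b) - 1 := by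
        rw [Finset.card_union_of_disjoint hdisj, Finset.card_erase_of_mem hj,
          Finset.card_sdiff_of_subset hs', T1_card_sM]
        have h1 := Finset.card_le_card hs'
        rw [T1_card_sM] at h1
        have h2 : 0 < (T1_sM K b β \ s').card := Finset.card_pos.2 ⟨j, hj⟩
        rw [Finset.card_sdiff_of_subset hs', T1_card_sM] at h2
        omega
      have hne' : (s' ∪ (T1_sM K b β \ s').erase j).Nonempty := by
        rw [← Finset.card_pos, hcard]; omega
      have h1 := T1_win (fun i => if i ∈ s' then W i else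
        if i ∈ (T1_sM K b β \ s').erase j then a i else 0)
        (s' ∪ (T1_sM K b β \ s').erase j) (show (0 : ℝ) < 1 / 2 by norm_num) (by
          intro i hi
          rw [Finset.mem_union] at hi
          by_cases h3 : i ∈ s'
          · simp only [if_pos h3]
            exact (hWb i).1.trans (le_abs_self _)
          · have h4 := hi.resolve_left h3
            simp only [if_neg h3, if_pos h4]
            rw [habs]
            linarith [(ha i).1]) hne' c t (by linarith)
      simp only [T1_lin_ite2 s' ((T1_sM K b β \ s').erase j) hdisj a W] at h1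
      refine h1.trans ?_
      have h5 := (T1_sqrt_le hK hb (s' ∪ (T1_sM K b β \ s').erase j).card
        (by rw [hcard]; omega)).2
      have h6 : (1 / (1 / 2 : ℝ) + 1) / Real.sqrt (s' ∪ (T1_sM K b β \ s').erase j).card ≤
          3 * (1 / q) := by
        have : (1 / (1 / 2 : ℝ) + 1) / Real.sqrt (s' ∪ (T1_sM K b β \ s').erase j).card =
          3 * (1 / Real.sqrt (s' ∪ (T1_sM K b β \ s').erase j).card) := by ring
        rw [this]; linarith
      calc 20 * Real.sqrt t * (2 ^ Fintype.card (WI K b β) *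
            ((1 / (1 / 2 : ℝ) + 1) / Real.sqrt (s' ∪ (T1_sM K b β \ s').erase j).card))
          ≤ 20 * Real.sqrt t * (2 ^ Fintype.card (WI K b β) * (3 * (1 / q))) := by gcongr
        _ = 60 / q * Real.sqrt t * 2 ^ Fintype.card (WI K b β) := by ring)
  -- assembly
  have e1 : ∀ z : WI K b β → Bool, R z + ∑ i ∈ T1_sB K b β, a i * sg (z i) - c =
      lin a z - c := fun z => by rw [T1_lin a z]
  simp only [e1] at hBB
  have e2 : ∀ z : WI K b β → Bool, ∑ i ∈ T1_sM K b β, W i * sg (z i) =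
      ∑ g, 2 * w g * (vsum (stt z g) : ℝ) := by
    intro z
    rw [T1_sum_sM]
    exact Finset.sum_congr rfl fun g _ => lin_block w z g
  have e3 : ∑ i ∈ T1_sM K b β, (a i ^ 2 - W i ^ 2) =
      ∑ g, ∑ p : Fin b × Bool, (a (Sum.inl (g, p.1, p.2)) ^ 2 - w g ^ 2) := by
    rw [T1_sum_sM]
  simp only [e2, e3] at hC
  have hCb : 100 * 2 ^ Fintype.card (WI K b β) * (∑ i ∈ T1_sM K b β, |a i - W i|) *
      (lam * (60 / q) + H * (60 / q) / ((16 + B / 2) * Real.sqrt (16 + B / 2)) + δ) ≤
      2 ^ Fintype.card (WI K b β) * (6000 * (lam * D / q) + 18000 * (H * D / (q * B * Real.sqrt B)) +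
        100 * (δ * D)) := by
    have hnn : 0 ≤ lam * (60 / q) + H * (60 / q) / ((16 + B / 2) * Real.sqrt (16 + B / 2)) + δ := by
      positivity
    have h1 : 100 * 2 ^ Fintype.card (WI K b β) * (∑ i ∈ T1_sM K b β, |a i - W i|) *
      (lam * (60 / q) + H * (60 / q) / ((16 + B / 2) * Real.sqrt (16 + B / 2)) + δ) ≤
      100 * 2 ^ Fintype.card (WI K b β) * D *
      (lam * (60 / q) + H * (60 / q) / ((16 + B / 2) * Real.sqrt (16 + B / 2)) + δ) := by
      gcongr
    refine h1.trans ?_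
    rcases eq_or_lt_of_le hB0 with h0 | h0
    · have : D = 0 := by linarith
      rw [this]; simp
    · have h2 : B * Real.sqrt B ≤ 3 * ((16 + B / 2) * Real.sqrt (16 + B / 2)) := by
        have h3 : Real.sqrt (4 / 9 * B) ≤ Real.sqrt (16 + B / 2) :=
          Real.sqrt_le_sqrt (by linarith)
        have h4 : Real.sqrt (4 / 9 * B) = 2 / 3 * Real.sqrt B := by
          rw [Real.sqrt_mul (by norm_num), show (4 / 9 : ℝ) = (2 / 3) ^ 2 by norm_num,
            Real.sqrt_sq (by norm_num)]
        rw [h4] at h3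
        have h5 : B / 2 * (2 / 3 * Real.sqrt B) ≤ (16 + B / 2) * Real.sqrt (16 + B / 2) := by
          apply mul_le_mul (by linarith) h3 (by positivity) (by positivity)
        linarith
      have hsB0 : 0 < Real.sqrt B := Real.sqrt_pos.2 h0
      have hT0 : 0 < (16 + B / 2) * Real.sqrt (16 + B / 2) := by positivity
      have h6 : H * (60 / q) / ((16 + B / 2) * Real.sqrt (16 + B / 2)) ≤
          180 * (H / (q * B * Real.sqrt B)) := by
        rw [div_le_iff₀ hT0]
        have h7 : 180 * (H / (q * B * Real.sqrt B)) * ((16 + B / 2) * Real.sqrt (16 + B / 2)) =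
          60 * (H / (q * B * Real.sqrt B)) * (3 * ((16 + B / 2) * Real.sqrt (16 + B / 2))) := by
          ring
        rw [h7]
        have h8 : H * (60 / q) = 60 * (H / (q * B * Real.sqrt B)) * (B * Real.sqrt B) := by
          field_simp
        rw [h8]
        exact mul_le_mul_of_nonneg_left h2 (by positivity)
      have h9 : 100 * 2 ^ Fintype.card (WI K b β) * D *
          (lam * (60 / q) + H * (60 / q) / ((16 + B / 2) * Real.sqrt (16 + B / 2)) + δ) ≤
          100 * 2 ^ Fintype.card (WI K b β) * D *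
          (lam * (60 / q) + 180 * (H / (q * B * Real.sqrt B)) + δ) := by
        gcongr
      refine h9.trans (le_of_eq ?_)
      field_simp
      ring
  rw [abs_le] at hA hBB hC ⊢
  have hAe : H * (80 / q * 2 ^ Fintype.card (WI K b β)) + δ * 2 ^ Fintype.card (WI K b β) =
    2 ^ Fintype.card (WI K b β) * (80 * (H / q) + δ) := by ring
  have hBe : 200 * 2 ^ Fintype.card (WI K b β) * (lam * (40 / q) * B + H * (40 / q) + δ * B) =
    2 ^ Fintype.card (WI K b β) * (8000 * (lam * B / q) + 8000 * (H / q) + 200 * (δ * B)) := by ring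
  rw [hAe] at hA
  rw [hBe] at hBB
  have n1 : 0 ≤ lam * B / q := by positivity
  have n2 : 0 ≤ lam * D / q := by positivity
  have n3 : 0 ≤ lam / q := by positivity
  have n4 : 0 ≤ H / q := by positivity
  have n5 : 0 ≤ H * D / (q * B * Real.sqrt B) := by positivity
  have n6 : 0 ≤ δ * B := by positivity
  have n7 : 0 ≤ δ * D := by positivity
  have hT : 2 ^ Fintype.card (WI K b β) * (80 * (H / q) + δ) +
      2 ^ Fintype.card (WI K b β) * (8000 * (lam * B / q) + 8000 * (H / q) + 200 * (δ * B)) +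
      2 ^ Fintype.card (WI K b β) * (6000 * (lam * D / q) + 18000 * (H * D / (q * B * Real.sqrt B)) +
        100 * (δ * D)) ≤
      10 ^ 6 * 2 ^ Fintype.card (WI K b β) *
        ((lam * (B + D + 1) + H) / q + H * D / (q * B * Real.sqrt B) + δ * (B + D + 1)) := by
    have e : 10 ^ 6 * 2 ^ Fintype.card (WI K b β) *
        ((lam * (B + D + 1) + H) / q + H * D / (q * B * Real.sqrt B) + δ * (B + D + 1)) =
      2 ^ Fintype.card (WI K b β) * (10 ^ 6 * (lam * B / q + lam * D / q + lam / q + H / q +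
        H * D / (q * B * Real.sqrt B) + δ * B + δ * D + δ)) := by ring
    rw [e, ← mul_add, ← mul_add]
    apply mul_le_mul_of_nonneg_left _ hN0.le
    linarith
  constructor
  · linarith [hA.1, hBB.1, hC.1]
  · linarith [hA.2, hBB.2, hC.2]

end BLP
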