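import Pool.Agent.Lib.BLP.W0
import Pool.Agent.Lib.BLP.Swap2
import Pool.Agent.Lib.BLP.Swap4
import Pool.Agent.Lib.BLP.CombC
import Pool.Agent.Lib.BLP.CombA
import Pool.Agent.Lib.BLP.W1a

/-!
# Chunk T2: the word side

Let `S° z = ∑_β a sg + ∑_g 2 w_g vsum_g + ∑_{g not frozen} μ (m_g - 1 - 2 noise_g)`; it equals `Sc`
unless some block is frozen.  (A) `Sc → S°` (error `Hm * K * ε`), `ind → phi 16` (H1,
`word_window`, `exp_of_window`).  (B) `remove_path` for the blind coordinates.
(C) `noise_one` for the blocks one after the other (good = not frozen, `Λ = 2 r lam`).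
-/

namespace BLP

open Finset

/-- Lipschitz functions and the Hamming distance -/
theorem T2_lip {ι : Type*} [Fintype ι] [DecidableEq ι] {lam : ℝ} {h : (ι → Bool) → ℝ}
    (hh : Lip lam h) (hlam : 0 ≤ lam) (x y : ι → Bool) :
    |h x - h y| ≤ lam * hammingDist x y := by
  obtain ⟨n, hn⟩ : ∃ n, hammingDist x y = n := ⟨_, rfl⟩
  induction n generalizing x with
  | zero =>
    have : x = y := hammingDist_eq_zero.1 hn
    subst this
    simp
  | succ n ih =>
    have hne : x ≠ y := by
      intro h'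
      rw [h', hammingDist_self] at hn
      omega
    obtain ⟨i, hi⟩ : ∃ i, x i ≠ y i := by
      by_contra hcon
      push Not at hcon
      exact hne (funext hcon)
    have h1 : hammingDist (flp x i) y = n := by
      have h2 : (univ.filter fun j => x j ≠ y j) =
          insert i (univ.filter fun j => flp x i j ≠ y j) := by
        ext j
        simp only [Finset.mem_filter, Finset.mem_univ, true_and, Finset.mem_insert]
        by_cases hj : j = i
        · subst hj; simp [hi]
        · rw [flp_ne x hj]; simp [hj]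
      have h3 : i ∉ (univ.filter fun j => flp x i j ≠ y j) := by
        simp only [Finset.mem_filter, Finset.mem_univ, true_and, flp_same, not_not]
        cases hx : x i <;> cases hy : y i <;> simp_all
      have h4 : hammingDist x y = hammingDist (flp x i) y + 1 := by
        unfold hammingDist
        rw [h2, Finset.card_insert_of_notMem h3]
      omega
    have h5 := ih (flp x i) h1
    have h6 := hh x i
    rw [hn, ← sub_add_sub_cancel (h x) (h (flp x i)) (h y)]
    refine (abs_add_le _ _).trans ?_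
    rw [h1] at h5
    rw [abs_sub_comm] at h6
    push_cast
    linarith

set_option linter.unusedSectionVars false

variable {K b : ℕ} {β : Type*} [Fintype β] [DecidableEq β]

theorem T2_unst_stt (z : WI K b β → Bool) : unst (stt z) (fun j => z (Sum.inr j)) = z :=
  (sttE K b β).left_inv z

theorem T2_stt_unst (x : Fin K → BS b) (y : β → Bool) : stt (unst x y) = x :=
  congrArg Prod.fst ((sttE K b β).right_inv (x, y))

theorem T2_sum_stt (F : (Fin K → BS b) → (β → Bool) → ℝ) :
    ∑ z : WI K b β → Bool, F (stt z) (fun j => z (Sum.inr j)) = ∑ y, ∑ x, F x y := by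
  rw [← Fintype.sum_prod_type_right (fun p : (Fin K → BS b) × (β → Bool) => F p.1 p.2)]
  exact (sttE K b β).sum_comp (fun p => F p.1 p.2)

theorem T2_pow : (2 : ℝ) ^ Fintype.card (WI K b β) = 4 ^ (K * b) * 2 ^ Fintype.card β := by
  have : Fintype.card (WI K b β) = 2 * (K * b) + Fintype.card β := by
    simp only [WI, Fintype.card_sum, Fintype.card_prod, Fintype.card_fin, Fintype.card_bool]
    ring
  rw [this, pow_add, pow_mul]
  norm_num

/-- functions of the types and of the values of the `PM` letters -/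
def T2Hyp (Nf : (Fin K → BS b) → ℝ) : Prop :=
  ∀ x x' : Fin K → BS b, (∀ g k, (x g k).1 = (x' g k).1) →
      (∀ g k, (x g k).1 = false → x g k = x' g k) → Nf x = Nf x'

/-- anticoncentration in the form that is used -/
theorem T2_ac (hK : 0 < K) (hb : 0 < b) (w : Fin K → ℝ) (hw : ∀ g, 1 / 2 ≤ w g)
    (Nf : (Fin K → BS b) → ℝ) (hN : T2Hyp Nf) (Y : (β → Bool) → ℝ) (c t : ℝ) (ht : 1 ≤ t) :
    ∑ z : WI K b β → Bool, Real.exp (-((∑ g, 2 * w g * (vsum (stt z g) : ℝ) + Nf (stt z) +
      Y (fun j => z (Sum.inr j)) - c) ^ 2 / (8 * t))) ≤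
      80 / Real.sqrt (K * b) * Real.sqrt t * 2 ^ Fintype.card (WI K b β) := by
  refine (exp_of_window (fun z : WI K b β → Bool => ∑ g, 2 * w g * (vsum (stt z g) : ℝ) +
    Nf (stt z) + Y (fun j => z (Sum.inr j))) (2 ^ Fintype.card β * (4 ^ (K * b) *
    (4 / Real.sqrt (K * b)))) ?_ c t ht).trans (le_of_eq ?_)
  · intro c'
    have h1 := T2_sum_stt (fun (x : Fin K → BS b) (y : β → Bool) =>
      ind (|∑ g, 2 * w g * (vsum (x g) : ℝ) + Nf x + Y y - c'| ≤ 1))
    rw [h1]
    have h2 : ∀ y : β → Bool, ∑ x : Fin K → BS b,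
        ind (|∑ g, 2 * w g * (vsum (x g) : ℝ) + Nf x + Y y - c'| ≤ 1) ≤
        4 ^ (K * b) * (4 / Real.sqrt (K * b)) := by
      intro y
      have h3 := word_window hK hb w hw Nf hN (c' - Y y)
      refine le_trans (le_of_eq ?_) h3
      refine Finset.sum_congr rfl fun x _ => ?_
      congr 3
      ring
    refine (Finset.sum_le_sum fun y _ => h2 y).trans (le_of_eq ?_)
    rw [Finset.sum_const, nsmul_eq_mul]
    congr 1
    simp
  · rw [T2_pow]; ring

/-- the number of points with a frozen block -/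
theorem T2_count (g : Fin K) (P : BS b → Prop) [DecidablePred P] {ε : ℝ}
    (hP : ((univ.filter P).card : ℝ) ≤ 4 ^ b * ε) :
    ∑ z : WI K b β → Bool, ind (P (stt z g)) ≤ 2 ^ Fintype.card (WI K b β) * ε := by
  have h1 := T2_sum_stt (K := K) (b := b) (β := β) (fun x _ => ind (P (x g)))
  rw [h1]
  have h2 : ∑ x : Fin K → BS b, ind (P (x g)) ≤ 4 ^ (K * b) * ε := by
    rw [sum_ind]
    have h3 : (univ.filter fun x : Fin K → BS b => P (x g)) =
        Fintype.piFinset (fun g' => if g' = g then univ.filter P else univ) := by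
      ext x
      simp only [Finset.mem_filter, Finset.mem_univ, true_and, Fintype.mem_piFinset]
      constructor
      · intro h g'
        by_cases hg : g' = g
        · subst hg; simp [h]
        · simp [hg]
      · intro h
        have := h g
        simpa using this
    rw [h3, Fintype.card_piFinset, ← Finset.mul_prod_erase _ _ (Finset.mem_univ g)]
    have h4 : ∏ x ∈ univ.erase g, (if x = g then univ.filter P else univ : Finset (BS b)).card =
        (4 ^ b) ^ (K - 1) := by
      rw [Finset.prod_congr rfl (g := fun _ => 4 ^ b) (fun x hx => by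
        rw [if_neg (Finset.ne_of_mem_erase hx)]
        simp [BS])]
      rw [Finset.prod_const, Finset.card_erase_of_mem (Finset.mem_univ g)]
      simp
    rw [h4]
    simp only [if_true]
    have hK : 0 < K := Fin.pos g
    push_cast
    calc ((univ.filter P).card : ℝ) * (4 ^ b) ^ (K - 1) ≤ (4 ^ b * ε) * (4 ^ b) ^ (K - 1) := by
          gcongr
      _ = ((4 ^ b) ^ (K - 1) * 4 ^ b) * ε := by ring
      _ = 4 ^ (K * b) * ε := by
          rw [← pow_succ, Nat.sub_add_cancel hK, ← pow_mul, mul_comm b K]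
  refine (Finset.sum_le_sum fun y _ => h2).trans (le_of_eq ?_)
  rw [Finset.sum_const, nsmul_eq_mul, T2_pow]
  have h5 : ((univ : Finset (β → Bool)).card : ℝ) = 2 ^ Fintype.card β := by simp
  rw [h5]
  ring

theorem T2_congr {m r : ℕ} {x x' : BS b} (h1 : ∀ k, (x k).1 = (x' k).1)
    (h2 : ∀ k, (x k).1 = false → x k = x' k) :
    (frozen m r x ↔ frozen m r x') ∧ noise m r x = noise m r x' := by
  have h3 := hash_congr r x x' h1 h2
  have h4 : npm x = npm x' := by
    unfold npm
    simp only [h1]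
  unfold frozen noise
  rw [h3, h4]
  exact ⟨Iff.rfl, rfl⟩

/-- the noise of the blocks `≥ G` -/
noncomputable def T2nz (μ : ℝ) (m : ℕ → ℕ) (r G : ℕ) (x : Fin K → BS b) : ℝ :=
  ∑ g : Fin K, if (g : ℕ) < G ∨ frozen (m g) r (x g) then 0 else
    μ * ((m g : ℝ) - 1 - 2 * (noise (m g) r (x g) : ℝ))

/-- the time of the blocks `< G` -/
noncomputable def T2tm (K : ℕ) (μ : ℝ) (m : ℕ → ℕ) (G : ℕ) : ℝ :=
  ∑ g : Fin K, if (g : ℕ) < G then μ ^ 2 * ((m g : ℝ) ^ 2 - 1) / 3 else 0

/-- the main term -/
noncomputable def T2V (μ : ℝ) (m : ℕ → ℕ) (x : Fin K → BS b) : ℝ :=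
  ∑ g : Fin K, 2 * wg μ m g * (vsum (x g) : ℝ)

theorem T2nz_hyp (μ : ℝ) (m : ℕ → ℕ) (r G : ℕ) :
    T2Hyp (T2nz μ m r G : (Fin K → BS b) → ℝ) := by
  intro x x' h1 h2
  unfold T2nz
  refine Finset.sum_congr rfl fun g _ => ?_
  obtain ⟨h3, h4⟩ := T2_congr (m := m g) (r := r) (h1 g) (h2 g)
  rw [h4]
  simp only [h3]

theorem T2nz_split (μ : ℝ) (m : ℕ → ℕ) (r G : ℕ) (hG : G < K) (x : Fin K → BS b) :
    T2nz μ m r G x = (if frozen (m G) r (x ⟨G, hG⟩) then 0 else
      μ * ((m G : ℝ) - 1 - 2 * (noise (m G) r (x ⟨G, hG⟩) : ℝ))) + T2nz μ m r (G + 1) x := by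
  unfold T2nz
  have h1 : ∀ g : Fin K, (if (g : ℕ) < G ∨ frozen (m g) r (x g) then 0 else
      μ * ((m g : ℝ) - 1 - 2 * (noise (m g) r (x g) : ℝ))) =
      (if (⟨G, hG⟩ : Fin K) = g then (if frozen (m G) r (x ⟨G, hG⟩) then 0 else
      μ * ((m G : ℝ) - 1 - 2 * (noise (m G) r (x ⟨G, hG⟩) : ℝ))) else 0) +
      (if (g : ℕ) < G + 1 ∨ frozen (m g) r (x g) then 0 else
      μ * ((m g : ℝ) - 1 - 2 * (noise (m g) r (x g) : ℝ))) := by
    intro g
    by_cases hg : (⟨G, hG⟩ : Fin K) = g
    · subst hg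
      simp
    · have hne : (g : ℕ) ≠ G := fun h => hg (Fin.ext h.symm)
      rw [if_neg hg, zero_add]
      have : ((g : ℕ) < G ∨ frozen (m g) r (x g)) ↔ ((g : ℕ) < G + 1 ∨ frozen (m g) r (x g)) := by
        constructor
        · rintro (h | h)
          · left; omega
          · right; exact h
        · rintro (h | h)
          · left; omega
          · right; exact h
      simp only [this]
  rw [Finset.sum_congr rfl (fun g _ => h1 g), Finset.sum_add_distrib, Finset.sum_ite_eq]
  simp

theorem T2tm_split (μ : ℝ) (m : ℕ → ℕ) (G : ℕ) (hG : G < K) :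
    T2tm K μ m (G + 1) = T2tm K μ m G + μ ^ 2 * ((m G : ℝ) ^ 2 - 1) / 3 := by
  unfold T2tm
  have h1 : ∀ g : Fin K, (if (g : ℕ) < G + 1 then μ ^ 2 * ((m g : ℝ) ^ 2 - 1) / 3 else 0) =
      (if (g : ℕ) < G then μ ^ 2 * ((m g : ℝ) ^ 2 - 1) / 3 else 0) +
      (if (⟨G, hG⟩ : Fin K) = g then μ ^ 2 * ((m G : ℝ) ^ 2 - 1) / 3 else 0) := by
    intro g
    by_cases hg : (⟨G, hG⟩ : Fin K) = g
    · subst hg
      simp
    · have hne : (g : ℕ) ≠ G := fun h => hg (Fin.ext h.symm)
      rw [if_neg hg, add_zero]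
      have : ((g : ℕ) < G + 1) ↔ ((g : ℕ) < G) := by omega
      simp only [this]
  rw [Finset.sum_congr rfl (fun g _ => h1 g), Finset.sum_add_distrib, Finset.sum_ite_eq]
  simp

theorem T2_vsum_setNoise {m r t : ℕ} {x : BS b} (h1 : ∀ k, (setNoise m r t x k).1 = (x k).1)
    (h2 : ∀ k, (x k).1 = true → setNoise m r t x k = x k) :
    vsum (setNoise m r t x) = vsum x := by
  unfold vsum
  refine Finset.sum_congr rfl fun k _ => ?_
  rw [h1 k]
  by_cases h : (x k).1 = true
  · rw [h2 k h]
  · simp [h]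

/-- change of the noise of one block -/
def T2set (mm r : ℕ) (g : Fin K) (z : WI K b β → Bool) (t : ℕ) : WI K b β → Bool :=
  unst (Function.update (stt z) g (setNoise mm r t (stt z g))) (fun j => z (Sum.inr j))

theorem T2_step {r M : ℕ} {m : ℕ → ℕ} {C : ℕ → Chain (BS b)} {ε : ℝ}
    (hW : WordData K b r M m C ε) (μ : ℝ) (hμ : 0 ≤ μ) (hw : ∀ g < K, 1 ≤ μ * m g ∧ μ * m g ≤ 4)
    (h : (WI K b β → Bool) → ℝ)
    (lam H δ Hm : ℝ) (hh : HH h lam H δ) (hHm : ∀ z, |h z| ≤ Hm) (c SB : ℝ)
    (hSB : (Fintype.card β : ℝ) ≤ SB) (G : ℕ) (hG : G < K) :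
    |∑ z, h z * phi (16 + SB + T2tm K μ m G) (T2V μ m (stt z) + T2nz μ m r G (stt z) - c) -
      ∑ z, h z * phi (16 + SB + T2tm K μ m (G + 1))
        (T2V μ m (stt z) + T2nz μ m r (G + 1) (stt z) - c)| ≤
      2 ^ Fintype.card (WI K b β) * (160000 * (r * lam / Real.sqrt (K * b)) +
        80000 * (H / (Real.sqrt (K * b) * (Fintype.card β + 1) *
          Real.sqrt (Fintype.card β + 1))) + 1000 * δ + Hm * ε) := by
  have hlam := hh.lam0
  have hH := hh.H0
  have hδ := hh.δ0
  have hK := hW.hK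
  have hb : 0 < b := lt_of_lt_of_le hW.hK hW.hKb
  have hq0 := (T1_sqrt_le hK hb (K * b) le_rfl).1
  set q : ℝ := Real.sqrt (K * b) with hq
  set B : ℝ := (Fintype.card β : ℝ) with hB
  have hB0 : 0 ≤ B := by positivity
  have hN0 : (0 : ℝ) < 2 ^ Fintype.card (WI K b β) := by positivity
  have hmpos : ∀ g < K, 0 < m g := fun g hg => lt_of_lt_of_le hW.hM (hW.hm g hg).1
  have hsq : ∀ g < K, 0 ≤ μ ^ 2 * ((m g : ℝ) ^ 2 - 1) / 3 := by
    intro g hg
    have : (1 : ℝ) ≤ m g := by exact_mod_cast hmpos g hg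
    have : 0 ≤ (m g : ℝ) ^ 2 - 1 := by nlinarith
    positivity
  have htm : 0 ≤ T2tm K μ m G := by
    unfold T2tm
    refine Finset.sum_nonneg fun g _ => ?_
    split_ifs
    · exact hsq g g.2
    · exact le_rfl
  rw [T2tm_split μ m G hG, ← add_assoc]
  set t : ℝ := 16 + SB + T2tm K μ m G with ht
  have ht16 : 16 + B ≤ t := by linarith
  set g0 : Fin K := ⟨G, hG⟩ with hg0
  set A : (WI K b β → Bool) → ℝ := fun z => T2V μ m (stt z) + T2nz μ m r (G + 1) (stt z) - c
    with hA
  set t' : ℝ := t + μ ^ 2 * ((m G : ℝ) ^ 2 - 1) / 3 with ht'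
  have hHm0 : 0 ≤ Hm := (abs_nonneg _).trans (hHm fun _ => true)
  have hmm := hmpos G hG
  -- the noise exchange
  have hset : ∀ z : WI K b β → Bool, ∀ k, stt (T2set (m G) r g0 z k) =
      Function.update (stt z) g0 (setNoise (m G) r k (stt z g0)) := fun z k =>
    T2_stt_unst _ _
  have hset2 : ∀ z : WI K b β → Bool, ∀ k j, T2set (m G) r g0 z k (Sum.inr j) = z (Sum.inr j) :=
    fun z k j => rfl
  have hn := noise_one (Ω := WI K b β → Bool) (fun z => ¬ frozen (m G) r (stt z g0)) (m G) hmm
    (fun z => noise (m G) r (stt z g0)) (T2set (m G) r g0)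
    (fun z _ => Nat.mod_lt _ hmm)
    (by
      intro z hz k hk
      obtain ⟨h1, h2, h3, h4, h5, h6, h7⟩ := noise_spec b (m G) r hmm (stt z g0) hz k hk
      refine ⟨?_, ?_, ?_⟩
      · rw [hset, Function.update_self]; exact h1
      · simp only [hset, Function.update_self]; exact h2
      · intro k' hk'
        have h8 := h3 k' hk'
        unfold T2set
        rw [T2_stt_unst, Function.update_self, h8, Function.update_idem]
        rfl)
    (by
      intro z hz
      have h4 := (noise_spec b (m G) r hmm (stt z g0) hz 0 hmm).2.2.2.1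
      unfold T2set
      simp only [h4, Function.update_eq_self]
      exact T2_unst_stt z)
    h A (2 * r * lam)
    (by
      intro z hz k hk
      obtain ⟨h1, h2, h3, h4, h5, h6, h7⟩ := noise_spec b (m G) r hmm (stt z g0) hz k hk
      refine (T2_lip hh.lip hlam _ _).trans ?_
      have h8 : hammingDist (T2set (m G) r g0 z k) z ≤ 2 * r := by
        have h9 := hamming_unst (K := K) (b := b) (β := β)
          (Function.update (stt z) g0 (setNoise (m G) r k (stt z g0))) (stt z)
          (fun j => z (Sum.inr j)) (fun j => z (Sum.inr j))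
        rw [T2_unst_stt, hammingDist_self, add_zero] at h9
        refine h9.trans (Nat.mul_le_mul_left 2 ?_)
        refine le_trans ?_ h7
        unfold pdist
        refine Finset.card_le_card_of_injOn (fun p => p.2) ?_ ?_
        · intro p hp
          simp only [Finset.coe_filter, Finset.mem_univ, true_and, Set.mem_ofPred_eq] at hp ⊢
          by_cases hpg : p.1 = g0
          · rw [hpg, Function.update_self] at hp; exact hp
          · rw [Function.update_of_ne hpg] at hp; exact absurd rfl hp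
        · intro p hp p' hp' hpp
          simp only [Finset.coe_filter, Finset.mem_univ, true_and, Set.mem_ofPred_eq] at hp hp'
          have e1 : p.1 = g0 := by
            by_contra hpg
            rw [Function.update_of_ne hpg] at hp; exact absurd rfl hp
          have e2 : p'.1 = g0 := by
            by_contra hpg
            rw [Function.update_of_ne hpg] at hp'; exact absurd rfl hp'
          exact Prod.ext (e1.trans e2.symm) hpp
      have h10 : (hammingDist (T2set (m G) r g0 z k) z : ℝ) ≤ 2 * r := by exact_mod_cast h8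
      have := mul_le_mul_of_nonneg_left h10 hlam
      linarith)
    (by
      intro z hz k hk
      obtain ⟨h1, h2, h3, h4, h5, h6, h7⟩ := noise_spec b (m G) r hmm (stt z g0) hz k hk
      simp only [hA, hset]
      congr 2
      · unfold T2V
        refine Finset.sum_congr rfl fun g _ => ?_
        by_cases hg : g = g0
        · subst hg
          rw [Function.update_self, T2_vsum_setNoise h5 h6]
        · rw [Function.update_of_ne hg]
      · unfold T2nz
        refine Finset.sum_congr rfl fun g _ => ?_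
        by_cases hg : g = g0
        · have hg' : (g : ℕ) < G + 1 := by rw [hg, hg0]; exact Nat.lt_succ_self G
          rw [if_pos (Or.inl hg'), if_pos (Or.inl hg')]
        · rw [Function.update_of_ne hg])
    μ t hμ (hw G hG).2 (by linarith)
  -- anticoncentration
  have hac : ∑ z : WI K b β → Bool, Real.exp (-((A z) ^ 2 / (8 * t))) ≤
      80 / q * Real.sqrt t * 2 ^ Fintype.card (WI K b β) := by
    have h1 := T2_ac (β := β) hK hb (fun g => wg μ m g) (fun g => by
      have := (hw g g.2).1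
      unfold wg; linarith) (T2nz μ m r (G + 1)) (T2nz_hyp μ m r (G + 1)) (fun _ => 0) c t
      (by linarith)
    simp only [add_zero] at h1
    exact h1
  have hbound : ∑ z ∈ univ.filter (fun z : WI K b β → Bool => ¬ frozen (m G) r (stt z g0)),
      (1000 * (2 * r * lam) / Real.sqrt t + 1000 * |h z| / t ^ 2) *
        Real.exp (-((A z) ^ 2 / (8 * t))) ≤
      2 ^ Fintype.card (WI K b β) * (160000 * (r * lam / q) +
        80000 * (H / (q * (B + 1) * Real.sqrt (B + 1))) + 1000 * δ) := by
    have ht0 : 0 < t := by linarith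
    have hst : 0 < Real.sqrt t := Real.sqrt_pos.2 ht0
    refine (Finset.sum_le_sum_of_subset_of_nonneg (Finset.filter_subset _ _)
      (fun z _ _ => by positivity)).trans ?_
    have h1 : ∀ z : WI K b β → Bool, (1000 * (2 * r * lam) / Real.sqrt t + 1000 * |h z| / t ^ 2) *
        Real.exp (-((A z) ^ 2 / (8 * t))) = 1000 * (2 * r * lam) / Real.sqrt t *
        Real.exp (-((A z) ^ 2 / (8 * t))) + 1000 / t ^ 2 * (|h z| *
        Real.exp (-((A z) ^ 2 / (8 * t)))) := fun z => by ring
    rw [Finset.sum_congr rfl (fun z _ => h1 z), Finset.sum_add_distrib, ← Finset.mul_sum,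
      ← Finset.mul_sum]
    have h2 := hh.hZ (fun z => Real.exp (-((A z) ^ 2 / (8 * t)))) (fun z => by
      refine ⟨(Real.exp_pos _).le, ?_⟩
      rw [Real.exp_le_one_iff]
      have : 0 ≤ (A z) ^ 2 / (8 * t) := by positivity
      linarith)
    have h3 : 1000 * (2 * r * lam) / Real.sqrt t *
        ∑ z : WI K b β → Bool, Real.exp (-((A z) ^ 2 / (8 * t))) ≤
        1000 * (2 * r * lam) / Real.sqrt t *
        (80 / q * Real.sqrt t * 2 ^ Fintype.card (WI K b β)) := by gcongr
    have h4 : 1000 / t ^ 2 * ∑ z : WI K b β → Bool, |h z| * Real.exp (-((A z) ^ 2 / (8 * t))) ≤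
        1000 / t ^ 2 * (H * (80 / q * Real.sqrt t * 2 ^ Fintype.card (WI K b β)) +
          δ * 2 ^ Fintype.card (WI K b β)) := by
      refine mul_le_mul_of_nonneg_left (h2.trans ?_) (by positivity)
      gcongr
    refine (add_le_add h3 h4).trans ?_
    have h5 : 1000 * (2 * r * lam) / Real.sqrt t *
        (80 / q * Real.sqrt t * 2 ^ Fintype.card (WI K b β)) =
        2 ^ Fintype.card (WI K b β) * (160000 * (r * lam / q)) := by
      field_simp
      ring
    have h6 : Real.sqrt t / t ^ 2 ≤ 1 / ((B + 1) * Real.sqrt (B + 1)) := by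
      have h7 : Real.sqrt t / t ^ 2 = 1 / (t * Real.sqrt t) := by
        have h8 : Real.sqrt t * Real.sqrt t = t := Real.mul_self_sqrt ht0.le
        rw [div_eq_div_iff (by positivity) (by positivity)]
        calc Real.sqrt t * (t * Real.sqrt t) = (Real.sqrt t * Real.sqrt t) * t := by ring
          _ = 1 * t ^ 2 := by rw [h8]; ring
      rw [h7]
      apply one_div_le_one_div_of_le (by positivity)
      apply mul_le_mul (by linarith) (Real.sqrt_le_sqrt (by linarith)) (by positivity) (by positivity)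
    have h9 : 1 / t ^ 2 ≤ 1 := by
      rw [div_le_one (by positivity)]
      nlinarith
    have h10 : 1000 / t ^ 2 * (H * (80 / q * Real.sqrt t * 2 ^ Fintype.card (WI K b β)) +
          δ * 2 ^ Fintype.card (WI K b β)) =
        2 ^ Fintype.card (WI K b β) * (80000 * (H / q) * (Real.sqrt t / t ^ 2) +
          1000 * δ * (1 / t ^ 2)) := by
      field_simp
      ring
    rw [h5, h10, ← mul_add]
    apply mul_le_mul_of_nonneg_left _ hN0.le
    have h11 : 80000 * (H / q) * (Real.sqrt t / t ^ 2) ≤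
        80000 * (H / q) * (1 / ((B + 1) * Real.sqrt (B + 1))) := by gcongr
    have h12 : 80000 * (H / q) * (1 / ((B + 1) * Real.sqrt (B + 1))) =
        80000 * (H / (q * (B + 1) * Real.sqrt (B + 1))) := by
      field_simp
    have h13 : 1000 * δ * (1 / t ^ 2) ≤ 1000 * δ * 1 := by gcongr
    linarith
  -- the frozen points
  have hbad := T2_count (β := β) g0 (fun x : BS b => frozen (m G) r x) (hW.froz G hG)
  -- conclusion
  rw [← Finset.sum_sub_distrib,
    ← Finset.sum_filter_add_sum_filter_not univ (fun z : WI K b β → Bool =>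
      ¬ frozen (m G) r (stt z g0))]
  have hgood : ∑ z ∈ univ.filter (fun z : WI K b β → Bool => ¬ frozen (m G) r (stt z g0)),
      (h z * phi t (T2V μ m (stt z) + T2nz μ m r G (stt z) - c) -
      h z * phi t' (T2V μ m (stt z) + T2nz μ m r (G + 1) (stt z) - c)) =
      ∑ z ∈ univ.filter (fun z : WI K b β → Bool => ¬ frozen (m G) r (stt z g0)),
      h z * (phi t (A z + μ * (m G - 1 - 2 * (noise (m G) r (stt z g0) : ℝ))) -
        phi (t + μ ^ 2 * ((m G : ℝ) ^ 2 - 1) / 3) (A z)) := by
    refine Finset.sum_congr rfl fun z hz => ?_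
    rw [Finset.mem_filter] at hz
    have e : T2V μ m (stt z) + T2nz μ m r G (stt z) - c =
        A z + μ * (m G - 1 - 2 * (noise (m G) r (stt z g0) : ℝ)) := by
      rw [T2nz_split μ m r G hG (stt z), if_neg hz.2]
      simp only [hA]
      ring
    rw [e]
    exact (mul_sub _ _ _).symm
  rw [hgood]
  have hfin : |∑ z ∈ univ.filter (fun z : WI K b β → Bool => ¬ ¬ frozen (m G) r (stt z g0)),
      (h z * phi t (T2V μ m (stt z) + T2nz μ m r G (stt z) - c) -
      h z * phi t' (T2V μ m (stt z) + T2nz μ m r (G + 1) (stt z) - c))| ≤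
      2 ^ Fintype.card (WI K b β) * (Hm * ε) := by
    refine (Finset.abs_sum_le_sum_abs _ _).trans ?_
    have h1 : ∀ z ∈ univ.filter (fun z : WI K b β → Bool => ¬ ¬ frozen (m G) r (stt z g0)),
        |h z * phi t (T2V μ m (stt z) + T2nz μ m r G (stt z) - c) -
      h z * phi t' (T2V μ m (stt z) + T2nz μ m r (G + 1) (stt z) - c)| ≤ Hm := by
      intro z _
      rw [← mul_sub, abs_mul]
      have h2 := phi_nonneg t (T2V μ m (stt z) + T2nz μ m r G (stt z) - c)
      have h3 := phi_le_one t (T2V μ m (stt z) + T2nz μ m r G (stt z) - c)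
      have h4 := phi_nonneg t' (T2V μ m (stt z) + T2nz μ m r (G + 1) (stt z) - c)
      have h5 := phi_le_one t' (T2V μ m (stt z) + T2nz μ m r (G + 1) (stt z) - c)
      have h6 : |phi t (T2V μ m (stt z) + T2nz μ m r G (stt z) - c) -
          phi t' (T2V μ m (stt z) + T2nz μ m r (G + 1) (stt z) - c)| ≤ 1 := by
        rw [abs_le]; constructor <;> linarith
      calc |h z| * |phi t (T2V μ m (stt z) + T2nz μ m r G (stt z) - c) -
          phi t' (T2V μ m (stt z) + T2nz μ m r (G + 1) (stt z) - c)| ≤ Hm * 1 :=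
            mul_le_mul (hHm z) h6 (abs_nonneg _) hHm0
        _ = Hm := mul_one _
    refine (Finset.sum_le_sum h1).trans ?_
    rw [Finset.sum_const, nsmul_eq_mul]
    have h7 : ((univ.filter (fun z : WI K b β → Bool =>
        ¬ ¬ frozen (m G) r (stt z g0))).card : ℝ) =
        ∑ z : WI K b β → Bool, ind (frozen (m G) r (stt z g0)) := by
      rw [sum_ind]
      simp only [not_not]
    rw [h7]
    have := mul_le_mul_of_nonneg_right hbad hHm0
    linarith
  refine (abs_add_le _ _).trans ?_
  have := hn.trans hbound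
  calc _ ≤ 2 ^ Fintype.card (WI K b β) * (160000 * (r * lam / q) +
        80000 * (H / (q * (B + 1) * Real.sqrt (B + 1))) + 1000 * δ) +
        2 ^ Fintype.card (WI K b β) * (Hm * ε) := add_le_add this hfin
    _ = _ := by ring

theorem T2_steps {r M : ℕ} {m : ℕ → ℕ} {C : ℕ → Chain (BS b)} {ε : ℝ}
    (hW : WordData K b r M m C ε) (μ : ℝ) (hμ : 0 ≤ μ) (hw : ∀ g < K, 1 ≤ μ * m g ∧ μ * m g ≤ 4)
    (h : (WI K b β → Bool) → ℝ)
    (lam H δ Hm : ℝ) (hh : HH h lam H δ) (hHm : ∀ z, |h z| ≤ Hm) (c SB : ℝ)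
    (hSB : (Fintype.card β : ℝ) ≤ SB) (G : ℕ) (hG : G ≤ K) :
    |∑ z, h z * phi (16 + SB + T2tm K μ m 0) (T2V μ m (stt z) + T2nz μ m r 0 (stt z) - c) -
      ∑ z, h z * phi (16 + SB + T2tm K μ m G)
        (T2V μ m (stt z) + T2nz μ m r G (stt z) - c)| ≤
      G * (2 ^ Fintype.card (WI K b β) * (160000 * (r * lam / Real.sqrt (K * b)) +
        80000 * (H / (Real.sqrt (K * b) * (Fintype.card β + 1) *
          Real.sqrt (Fintype.card β + 1))) + 1000 * δ + Hm * ε)) := by
  induction G with
  | zero => simp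
  | succ G ih =>
    have h1 := ih (by omega)
    have h2 := T2_step hW μ hμ hw h lam H δ Hm hh hHm c SB hSB G (by omega)
    refine (abs_sub_le _ (∑ z, h z * phi (16 + SB + T2tm K μ m G)
        (T2V μ m (stt z) + T2nz μ m r G (stt z) - c)) _).trans ?_
    push_cast
    linarith

/-- T2 (word side) -/
theorem word_side {r M : ℕ} {m : ℕ → ℕ} {C : ℕ → Chain (BS b)} {ε : ℝ}
    (hW : WordData K b r M m C ε) (μ : ℝ) (hμ : 0 ≤ μ) (hw : ∀ g < K, 1 ≤ μ * m g ∧ μ * m g ≤ 4)
    (a : WI K b β → ℝ) (ha : ∀ i, 1 ≤ a i ∧ a i ≤ 2) (h : (WI K b β → Bool) → ℝ)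
    (lam H δ Hm : ℝ) (hh : HH h lam H δ) (hHm : ∀ z, |h z| ≤ Hm) (c : ℝ) :
    |∑ z, h z * ind (c < Sc C μ a z) - ∑ z, h z *
        phi (16 + ∑ j : β, a (Sum.inr j) ^ 2 + ∑ g : Fin K, μ ^ 2 * ((m g : ℝ) ^ 2 - 1) / 3)
          (∑ g : Fin K, 2 * wg μ m g * (vsum (stt z g) : ℝ) - c)| ≤
      10 ^ 6 * 2 ^ Fintype.card (WI K b β) *
        ((lam * (Fintype.card β + (r + 1) * K) + H) / Real.sqrt (K * b) +
          H * K / (Real.sqrt (K * b) * (Fintype.card β + 1) * Real.sqrt (Fintype.card β + 1)) +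
          δ * (Fintype.card β + K + 1) + Hm * K * ε) := by
  have hlam := hh.lam0
  have hH := hh.H0
  have hδ := hh.δ0
  have hε := hW.hε
  have hK := hW.hK
  have hb : 0 < b := lt_of_lt_of_le hW.hK hW.hKb
  have hq0 := (T1_sqrt_le hK hb (K * b) le_rfl).1
  have hHm0 : 0 ≤ Hm := (abs_nonneg _).trans (hHm fun _ => true)
  have hN0 : (0 : ℝ) < 2 ^ Fintype.card (WI K b β) := by positivity
  have hwg : ∀ g : Fin K, 1 / 2 ≤ wg μ m g := fun g => by
    have := (hw g g.2).1
    unfold wg; linarith
  set q : ℝ := Real.sqrt (K * b) with hq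
  set B : ℝ := (Fintype.card β : ℝ) with hB
  have hB0 : 0 ≤ B := by positivity
  set SB : ℝ := ∑ j : β, a (Sum.inr j) ^ 2 with hSBdef
  have hSB : B ≤ SB := by
    have : B = ∑ _j : β, (1 : ℝ) := by simp [hB]
    rw [this]
    refine Finset.sum_le_sum fun j _ => ?_
    have := (ha (Sum.inr j)).1
    nlinarith
  -- the function `S°`
  set S0 : (WI K b β → Bool) → ℝ := fun z => T2V μ m (stt z) + T2nz μ m r 0 (stt z) +
    ∑ j : β, a (Sum.inr j) * sg (z (Sum.inr j)) with hS0
  have hS : ∀ z : WI K b β → Bool, (∀ g : Fin K, ¬ frozen (m g) r (stt z g)) →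
      Sc C μ a z = S0 z := by
    intro z hz
    simp only [Sc, hS0, zz_word hW, T2V, T2nz, wg]
    push_cast
    rw [add_comm, Finset.mul_sum, ← Finset.sum_add_distrib]
    congr 1
    refine Finset.sum_congr rfl fun g _ => ?_
    rw [if_neg (hz g), if_neg (by
      rintro (h' | h')
      · omega
      · exact hz g h')]
    push_cast
    ring
  -- step 1
  have h1 : |∑ z, h z * ind (c < Sc C μ a z) - ∑ z, h z * ind (c < S0 z)| ≤
      2 ^ Fintype.card (WI K b β) * (Hm * K * ε) := by
    rw [← Finset.sum_sub_distrib]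
    refine (Finset.abs_sum_le_sum_abs _ _).trans ?_
    have e1 : ∀ z, |h z * ind (c < Sc C μ a z) - h z * ind (c < S0 z)| ≤
        Hm * ∑ g : Fin K, ind (frozen (m g) r (stt z g)) := by
      intro z
      by_cases hz : ∀ g : Fin K, ¬ frozen (m g) r (stt z g)
      · rw [hS z hz, sub_self, abs_zero]
        exact mul_nonneg hHm0 (Finset.sum_nonneg fun g _ => ind_nonneg _)
      · push Not at hz
        obtain ⟨g, hg⟩ := hz
        rw [← mul_sub, abs_mul]
        refine mul_le_mul (hHm z) ?_ (abs_nonneg _) hHm0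
        have e2 : ind (frozen (m g) r (stt z g)) ≤
            ∑ g : Fin K, ind (frozen (m g) r (stt z g)) :=
          Finset.single_le_sum (f := fun g : Fin K => ind (frozen (m g) r (stt z g)))
            (fun g _ => ind_nonneg _) (Finset.mem_univ g)
        rw [ind_true hg] at e2
        refine le_trans ?_ e2
        have := ind_nonneg (c < Sc C μ a z)
        have := ind_nonneg (c < S0 z)
        have := ind_le_one (c < Sc C μ a z)
        have := ind_le_one (c < S0 z)
        rw [abs_le]; constructor <;> linarith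
    refine (Finset.sum_le_sum fun z _ => e1 z).trans ?_
    rw [← Finset.mul_sum, Finset.sum_comm]
    have e3 : ∀ g : Fin K, ∑ z : WI K b β → Bool, ind (frozen (m g) r (stt z g)) ≤
        2 ^ Fintype.card (WI K b β) * ε := fun g =>
      T2_count (β := β) g (fun x : BS b => frozen (m g) r x) (hW.froz g g.2)
    have e4 := Finset.sum_le_sum fun (g : Fin K) (_ : g ∈ univ) => e3 g
    rw [Finset.sum_const, Finset.card_univ, Fintype.card_fin, nsmul_eq_mul] at e4
    have := mul_le_mul_of_nonneg_left e4 hHm0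
    linarith
  -- step 2
  have h2 := T1_ind h lam H δ hh S0 c (160 / q * 2 ^ Fintype.card (WI K b β)) (by
    have e1 := T2_ac (β := β) hK hb (fun g => wg μ m g) hwg (T2nz μ m r 0) (T2nz_hyp μ m r 0)
      (fun y => ∑ j : β, a (Sum.inr j) * sg (y j)) c 4 (by norm_num)
    refine e1.trans (le_of_eq ?_)
    rw [show (4 : ℝ) = 2 ^ 2 by norm_num, Real.sqrt_sq (by norm_num)]; ring)
  -- step 3
  have h3 := remove_path h lam H δ (80 / q) hlam hH hδ (by positivity) hh.lip hh.hZ
    (T1_sB K b β) a (fun i _ => ha i) (fun z => T2V μ m (stt z) + T2nz μ m r 0 (stt z))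
    (by
      intro x i hi
      have e1 : stt (flp x i) = stt x := by
        simp only [T1_sB, Finset.mem_map, Finset.mem_univ, true_and,
          Function.Embedding.coeFn_mk] at hi
        obtain ⟨j, rfl⟩ := hi
        funext g k
        simp only [stt]
        rw [flp_ne x (by simp), flp_ne x (by simp)]
      simp only [e1])
    (by
      intro s' hs' c' t ht
      have e1 := T2_ac (β := β) hK hb (fun g => wg μ m g) hwg (T2nz μ m r 0) (T2nz_hyp μ m r 0)
        (fun y => ∑ i ∈ s', a i * sg (unst (fun _ _ => (true, true)) y i)) c' t (by linarith)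
      refine le_trans (le_of_eq ?_) e1
      refine Finset.sum_congr rfl fun z _ => ?_
      have e2 : ∑ i ∈ s', a i * sg (z i) = ∑ i ∈ s', a i *
          sg (unst (K := K) (b := b) (fun _ _ => (true, true)) (fun j => z (Sum.inr j)) i) := by
        refine Finset.sum_congr rfl fun i hi => ?_
        have hi' := hs' hi
        simp only [T1_sB, Finset.mem_map, Finset.mem_univ, true_and,
          Function.Embedding.coeFn_mk] at hi'
        obtain ⟨j, rfl⟩ := hi'
        rfl
      rw [e2]
      rfl) c 16 le_rfl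
  rw [T1_sum_sB, T1_card_sB] at h3
  have e4 : ∀ z : WI K b β → Bool, T2V μ m (stt z) + T2nz μ m r 0 (stt z) +
      ∑ i ∈ T1_sB K b β, a i * sg (z i) = S0 z := by
    intro z
    simp only [hS0]
    rw [T1_sum_sB (fun i => a i * sg (z i))]
  simp only [e4] at h3
  -- step 4
  have h4 := T2_steps hW μ hμ hw h lam H δ Hm hh hHm c SB hSB K le_rfl
  have e5 : T2tm K μ m 0 = 0 := by simp [T2tm]
  have e6 : T2tm K μ m K = ∑ g : Fin K, μ ^ 2 * ((m g : ℝ) ^ 2 - 1) / 3 := by
    unfold T2tm
    refine Finset.sum_congr rfl fun g _ => ?_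
    rw [if_pos g.2]
  have e7 : ∀ x : Fin K → BS b, T2nz μ m r K x = 0 := by
    intro x
    unfold T2nz
    refine Finset.sum_eq_zero fun g _ => ?_
    rw [if_pos (Or.inl g.2)]
  simp only [e5, e6, e7, add_zero] at h4
  simp only [← hSBdef] at h3
  have e8 : ∀ z : WI K b β → Bool, ∑ g : Fin K, 2 * wg μ m g * (vsum (stt z g) : ℝ) =
      T2V μ m (stt z) := fun z => rfl
  simp only [e8]
  rw [abs_le] at h1 h2 h3 h4 ⊢
  set P : ℝ := 2 ^ Fintype.card (WI K b β) with hP
  have f2 : H * (160 / q * P) + δ * P = P * (160 * (H / q) + δ) := by ring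
  have f3 : 200 * P * (lam * (80 / q) * B + H * (80 / q) + δ * B) =
    P * (16000 * (lam * B / q) + 16000 * (H / q) + 200 * (δ * B)) := by ring
  have f4 : (K : ℝ) * (P * (160000 * (r * lam / q) +
        80000 * (H / (q * (B + 1) * Real.sqrt (B + 1))) + 1000 * δ + Hm * ε)) =
      P * (160000 * (lam * r * K / q) + 80000 * (H * K / (q * (B + 1) * Real.sqrt (B + 1))) +
        1000 * (δ * K) + Hm * K * ε) := by ring
  rw [f2] at h2
  rw [f3] at h3
  rw [f4] at h4
  have n1 : 0 ≤ lam * B / q := by positivity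
  have n2 : 0 ≤ lam * r * K / q := by positivity
  have n3 : 0 ≤ lam * K / q := by positivity
  have n4 : 0 ≤ H / q := by positivity
  have n5 : 0 ≤ H * K / (q * (B + 1) * Real.sqrt (B + 1)) := by positivity
  have n6 : 0 ≤ δ * B := by positivity
  have n7 : 0 ≤ δ * K := by positivity
  have n8 : 0 ≤ Hm * K * ε := by positivity
  have hT : P * (Hm * K * ε) + P * (160 * (H / q) + δ) +
      P * (16000 * (lam * B / q) + 16000 * (H / q) + 200 * (δ * B)) +
      P * (160000 * (lam * r * K / q) + 80000 * (H * K / (q * (B + 1) * Real.sqrt (B + 1))) +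
        1000 * (δ * K) + Hm * K * ε) ≤
      10 ^ 6 * P * ((lam * (B + (r + 1) * K) + H) / q +
          H * K / (q * (B + 1) * Real.sqrt (B + 1)) + δ * (B + K + 1) + Hm * K * ε) := by
    have e : 10 ^ 6 * P * ((lam * (B + (r + 1) * K) + H) / q +
          H * K / (q * (B + 1) * Real.sqrt (B + 1)) + δ * (B + K + 1) + Hm * K * ε) =
      P * (10 ^ 6 * (lam * B / q + lam * r * K / q + lam * K / q + H / q +
        H * K / (q * (B + 1) * Real.sqrt (B + 1)) + δ * B + δ * K + δ + Hm * K * ε)) := by ring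
    rw [e, ← mul_add, ← mul_add, ← mul_add]
    apply mul_le_mul_of_nonneg_left _ hN0.le
    linarith
  constructor
  · linarith [h1.1, h2.1, h3.1, h4.1]
  · linarith [h1.2, h2.2, h3.2, h4.2]

end BLP
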