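import Pool.Agent.Lib.BLP.W1a
import Pool.Agent.Lib.BLP.W1b

/-!
# Chunk T3: the transport estimate
-/

namespace BLP

open Finset

variable {K b : ℕ} {β : Type*} [Fintype β] [DecidableEq β]

/-- T3: combination of T1, T2 and `phi_time` -/
theorem w1_word {r M : ℕ} {m : ℕ → ℕ} {C : ℕ → Chain (BS b)} {ε : ℝ}
    (hW : WordData K b r M m C ε) (μ : ℝ) (hμ : 0 ≤ μ) (hw : ∀ g < K, 1 ≤ μ * m g ∧ μ * m g ≤ 4)
    (a : WI K b β → ℝ) (ha : ∀ i, 1 ≤ a i ∧ a i ≤ 2) (D : ℝ)
    (hD : ∑ g, ∑ p : Fin b × Bool, |a (Sum.inl (g, p.1, p.2)) - wg μ m g| ≤ D)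
    (hDb : D ≤ 8 * b) (hβ1 : 64 * b ≤ Fintype.card β) (hβ2 : Fintype.card β ≤ 100 * b)
    (hbK : b ≤ 4 * K) (τ : ℝ) (hτ : |(∑ g, ∑ p : Fin b × Bool, (a (Sum.inl (g, p.1, p.2)) ^ 2 -
      wg μ m g ^ 2)) - ∑ g : Fin K, μ ^ 2 * ((m g : ℝ) ^ 2 - 1) / 3| ≤ τ)
    (hτ1 : τ * b ≤ 1) (h : (WI K b β → Bool) → ℝ)
    (lam H δ Hm : ℝ) (hh : HH h lam H δ) (hHm : ∀ z, |h z| ≤ Hm) (c : ℝ) :
    |∑ z, h z * (ind (c < lin a z) - ind (c < Sc C μ a z))| ≤
      10 ^ 9 * 2 ^ Fintype.card (WI K b β) *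
        (lam * (r + 1) + H / b + δ * b + Hm * K * ε) := by
  have hK : 0 < K := hW.hK
  have hb : 0 < b := lt_of_lt_of_le hK hW.hKb
  have hb1 : (1 : ℝ) ≤ b := by exact_mod_cast hb
  have hb0 : (0 : ℝ) < b := by linarith
  have hKb' : (K : ℝ) ≤ b := by exact_mod_cast hW.hKb
  have hbK' : (b : ℝ) ≤ 4 * K := by exact_mod_cast hbK
  have hK1 : (1 : ℝ) ≤ K := by exact_mod_cast hK
  have hβ1' : (64 : ℝ) * b ≤ Fintype.card β := by exact_mod_cast hβ1
  have hβ2' : (Fintype.card β : ℝ) ≤ 100 * b := by exact_mod_cast hβ2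
  have hlam := hh.lam0
  have hH := hh.H0
  have hδ := hh.δ0
  have hHm0 : 0 ≤ Hm := (abs_nonneg _).trans (hHm fun _ => false)
  have hε := hW.hε
  have hD0 : 0 ≤ D := le_trans (Finset.sum_nonneg fun g _ => Finset.sum_nonneg fun p _ =>
    abs_nonneg _) hD
  have hr : (0 : ℝ) ≤ r := Nat.cast_nonneg r
  have hN : (0 : ℝ) < 2 ^ Fintype.card (WI K b β) := by positivity
  -- the square root
  have hsq : (b : ℝ) / 2 ≤ Real.sqrt (K * b) := by
    apply Real.le_sqrt_of_sq_le
    nlinarith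
  have hsq0 : 0 < Real.sqrt ((K : ℝ) * b) := lt_of_lt_of_le (by positivity) hsq
  have hwg : ∀ g : Fin K, 1 / 2 ≤ wg μ m g ∧ wg μ m g ≤ 2 := by
    intro g
    have := hw g g.2
    unfold wg
    constructor <;> linarith [this.1, this.2]
  have T1 := lin_side a ha hK hb (wg μ m) hwg D hD (by linarith) h lam H δ hh c
  have T2 := word_side hW μ hμ hw a ha h lam H δ Hm hh hHm c
  -- the two times
  set t1 : ℝ := 16 + ∑ j : β, a (Sum.inr j) ^ 2 +
          ∑ g, ∑ p : Fin b × Bool, (a (Sum.inl (g, p.1, p.2)) ^ 2 - wg μ m g ^ 2) with ht1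
  set t2 : ℝ := 16 + ∑ j : β, a (Sum.inr j) ^ 2 +
      ∑ g : Fin K, μ ^ 2 * ((m g : ℝ) ^ 2 - 1) / 3 with ht2
  have htt : |t1 - t2| ≤ τ := by
    have e : t1 - t2 = (∑ g, ∑ p : Fin b × Bool, (a (Sum.inl (g, p.1, p.2)) ^ 2 -
      wg μ m g ^ 2)) - ∑ g : Fin K, μ ^ 2 * ((m g : ℝ) ^ 2 - 1) / 3 := by
      rw [ht1, ht2]; ring
    rw [e]
    exact hτ
  have hτ0 : 0 ≤ τ := (abs_nonneg _).trans htt
  have hτ2 : τ ≤ 1 / b := by
    rw [le_div_iff₀ hb0]
    exact hτ1
  have hτ3 : τ ≤ 1 := by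
    refine hτ2.trans ?_
    rw [div_le_one hb0]
    exact hb1
  have hs1 : (Fintype.card β : ℝ) ≤ ∑ j : β, a (Sum.inr j) ^ 2 := by
    have : (Fintype.card β : ℝ) = ∑ _j : β, (1 : ℝ) := by simp
    rw [this]
    refine Finset.sum_le_sum fun j _ => ?_
    have := (ha (Sum.inr j)).1
    nlinarith
  have hs2 : 0 ≤ ∑ g : Fin K, μ ^ 2 * ((m g : ℝ) ^ 2 - 1) / 3 := by
    refine Finset.sum_nonneg fun g _ => ?_
    have h1 := (hW.hm g g.2).1
    have h2 := hW.hM
    have h3 : (1 : ℝ) ≤ m g := by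
      have : 1 ≤ m g := by omega
      exact_mod_cast this
    have : (0 : ℝ) ≤ (m g : ℝ) ^ 2 - 1 := by nlinarith
    positivity
  have ht2b : 16 + (64 : ℝ) * b ≤ t2 := by
    rw [ht2]; linarith
  have ht1b : 15 + (64 : ℝ) * b ≤ t1 := by
    have := (abs_le.1 htt).1
    linarith
  have hphi : ∀ v, |phi t1 v - phi t2 v| ≤ 1 / b := by
    intro v
    have key : ∀ s s' : ℝ, (b : ℝ) ≤ s → s ≤ s' → s' - s ≤ τ → |phi s' v - phi s v| ≤ 1 / b := by
      intro s s' h1 h2 h3
      have hs : 0 < s := by linarith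
      refine (phi_time s s' v hs h2).trans ?_
      rw [div_le_div_iff₀ hs hb0]
      nlinarith
    rcases le_total t1 t2 with h1 | h1
    · rw [abs_sub_comm]
      refine key t1 t2 (by linarith) h1 ?_
      have := (abs_le.1 htt).1
      linarith
    · refine key t2 t1 (by linarith) h1 ?_
      have := (abs_le.1 htt).2
      linarith
  have hsumh : ∑ z, |h z| ≤ (H + δ) * 2 ^ Fintype.card (WI K b β) := by
    have h1 := hh.hZ (fun _ => 1) (fun _ => ⟨by norm_num, le_rfl⟩)
    simp only [mul_one, Finset.sum_const, Finset.card_univ, nsmul_eq_mul] at h1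
    have h2 : ((Fintype.card (WI K b β → Bool) : ℕ) : ℝ) = 2 ^ Fintype.card (WI K b β) := by
      rw [Fintype.card_fun, Fintype.card_bool]
      push_cast
      rfl
    rw [h2] at h1
    linarith
  -- the difference of the two Gaussian sums
  have T3 : |∑ z, h z * phi t1 (∑ g, 2 * wg μ m g * (vsum (stt z g) : ℝ) - c) -
      ∑ z, h z * phi t2 (∑ g : Fin K, 2 * wg μ m g * (vsum (stt z g) : ℝ) - c)| ≤
      (H + δ) * 2 ^ Fintype.card (WI K b β) * (1 / b) := by
    rw [← Finset.sum_sub_distrib]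
    calc |∑ z, (h z * phi t1 (∑ g, 2 * wg μ m g * (vsum (stt z g) : ℝ) - c) -
          h z * phi t2 (∑ g : Fin K, 2 * wg μ m g * (vsum (stt z g) : ℝ) - c))|
        ≤ ∑ z, |h z * phi t1 (∑ g, 2 * wg μ m g * (vsum (stt z g) : ℝ) - c) -
          h z * phi t2 (∑ g : Fin K, 2 * wg μ m g * (vsum (stt z g) : ℝ) - c)| :=
          Finset.abs_sum_le_sum_abs _ _
      _ ≤ ∑ z, |h z| * (1 / b) := by
          refine Finset.sum_le_sum fun z _ => ?_
          rw [← mul_sub, abs_mul]
          exact mul_le_mul_of_nonneg_left (hphi _) (abs_nonneg _)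
      _ = (∑ z, |h z|) * (1 / b) := by rw [Finset.sum_mul]
      _ ≤ _ := mul_le_mul_of_nonneg_right hsumh (by positivity)
  have hsplit : ∑ z, h z * (ind (c < lin a z) - ind (c < Sc C μ a z)) =
      (∑ z, h z * ind (c < lin a z) - ∑ z, h z *
        phi t1 (∑ g, 2 * wg μ m g * (vsum (stt z g) : ℝ) - c)) +
      (∑ z, h z * phi t1 (∑ g, 2 * wg μ m g * (vsum (stt z g) : ℝ) - c) -
        ∑ z, h z * phi t2 (∑ g : Fin K, 2 * wg μ m g * (vsum (stt z g) : ℝ) - c)) -
      (∑ z, h z * ind (c < Sc C μ a z) - ∑ z, h z *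
        phi t2 (∑ g : Fin K, 2 * wg μ m g * (vsum (stt z g) : ℝ) - c)) := by
    have : ∑ z, h z * (ind (c < lin a z) - ind (c < Sc C μ a z)) =
        ∑ z, h z * ind (c < lin a z) - ∑ z, h z * ind (c < Sc C μ a z) := by
      rw [← Finset.sum_sub_distrib]
      exact Finset.sum_congr rfl fun z _ => by ring
    rw [this]
    ring
  -- the bounds of the errors
  have hdiv : ∀ A B : ℝ, 0 ≤ A → A ≤ B * b → A / Real.sqrt (K * b) ≤ 2 * B := by
    intro A B hA hAB
    rw [div_le_iff₀ hsq0]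
    have hB : 0 ≤ B := by
      by_contra hcon
      push Not at hcon
      nlinarith
    nlinarith
  have E1 : (lam * (Fintype.card β + D + 1) + H) / Real.sqrt (K * b) ≤
      218 * lam + 2 * (H / b) := by
    have h1 := hdiv (lam * (Fintype.card β + D + 1) + H) (109 * lam + H / b)
      (by positivity) (by
        rw [add_mul, div_mul_cancel₀ _ hb0.ne']
        have : lam * (Fintype.card β + D + 1) ≤ lam * (109 * b) :=
          mul_le_mul_of_nonneg_left (by linarith) hlam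
        linarith)
    linarith
  have hcβ : (0 : ℝ) < Fintype.card β := by linarith
  have hsβ : 1 ≤ Real.sqrt (Fintype.card β) := by
    rw [Real.one_le_sqrt]
    linarith
  have hsβ' : 1 ≤ Real.sqrt ((Fintype.card β : ℝ) + 1) := by
    rw [Real.one_le_sqrt]
    linarith
  have E2 : H * D / (Real.sqrt (K * b) * Fintype.card β * Real.sqrt (Fintype.card β)) ≤ H / b := by
    rw [div_le_div_iff₀ (by positivity) hb0]
    have h1 : D * b ≤ Real.sqrt (K * b) * Fintype.card β * Real.sqrt (Fintype.card β) := by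
      have h2 : (b : ℝ) / 2 * (64 * b) * 1 ≤
          Real.sqrt (K * b) * Fintype.card β * Real.sqrt (Fintype.card β) := by
        gcongr
      nlinarith
    calc H * D * b = H * (D * b) := by ring
      _ ≤ H * _ := mul_le_mul_of_nonneg_left h1 hH
  have E3 : δ * (Fintype.card β + D + 1) ≤ 109 * (δ * b) := by
    have : δ * (Fintype.card β + D + 1) ≤ δ * (109 * b) :=
      mul_le_mul_of_nonneg_left (by linarith) hδ
    linarith
  have F1 : (lam * (Fintype.card β + (r + 1) * K) + H) / Real.sqrt (K * b) ≤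
      202 * (lam * (r + 1)) + 2 * (H / b) := by
    have h1 := hdiv (lam * (Fintype.card β + (r + 1) * K) + H) (101 * (lam * (r + 1)) + H / b)
      (by positivity) (by
        have e : (101 * (lam * (r + 1)) + H / b) * b = 101 * (lam * (r + 1)) * b + H := by
          field_simp
        rw [e]
        have h3 : ((r : ℝ) + 1) * K ≤ (r + 1) * b := mul_le_mul_of_nonneg_left hKb' (by linarith)
        have h4 : 100 * (b : ℝ) ≤ 100 * ((r + 1) * b) := by nlinarith
        have : lam * (Fintype.card β + (r + 1) * K) ≤ lam * (101 * ((r + 1) * b)) :=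
          mul_le_mul_of_nonneg_left (by linarith) hlam
        linarith)
    linarith
  have F2 : H * K / (Real.sqrt (K * b) * (Fintype.card β + 1) *
      Real.sqrt (Fintype.card β + 1)) ≤ H / b := by
    rw [div_le_div_iff₀ (by positivity) hb0]
    have h1 : K * b ≤ Real.sqrt (K * b) * (Fintype.card β + 1) *
        Real.sqrt (Fintype.card β + 1) := by
      have h2 : (b : ℝ) / 2 * (64 * b) * 1 ≤
          Real.sqrt (K * b) * (Fintype.card β + 1) * Real.sqrt (Fintype.card β + 1) := by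
        gcongr
        linarith
      nlinarith
    calc H * K * b = H * (K * b) := by ring
      _ ≤ H * _ := mul_le_mul_of_nonneg_left h1 hH
  have F3 : δ * (Fintype.card β + K + 1) ≤ 102 * (δ * b) := by
    have : δ * (Fintype.card β + K + 1) ≤ δ * (102 * b) :=
      mul_le_mul_of_nonneg_left (by linarith) hδ
    linarith
  have G1 : (H + δ) * (1 / b) ≤ H / b + δ * b := by
    have : δ * (1 / b) ≤ δ * b := by
      apply mul_le_mul_of_nonneg_left _ hδ
      rw [div_le_iff₀ hb0]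
      nlinarith
    calc (H + δ) * (1 / b) = H / b + δ * (1 / b) := by ring
      _ ≤ _ := by linarith
  have hlr : lam ≤ lam * (r + 1) := by nlinarith
  rw [hsplit]
  set N2 : ℝ := 2 ^ Fintype.card (WI K b β) with hN2
  have B1 : (lam * (Fintype.card β + D + 1) + H) / Real.sqrt (K * b) +
          H * D / (Real.sqrt (K * b) * Fintype.card β * Real.sqrt (Fintype.card β)) +
          δ * (Fintype.card β + D + 1) ≤
      218 * (lam * (r + 1)) + 3 * (H / b) + 109 * (δ * b) := by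
    linarith
  have B2 : (lam * (Fintype.card β + (r + 1) * K) + H) / Real.sqrt (K * b) +
          H * K / (Real.sqrt (K * b) * (Fintype.card β + 1) * Real.sqrt (Fintype.card β + 1)) +
          δ * (Fintype.card β + K + 1) + Hm * K * ε ≤
      202 * (lam * (r + 1)) + 3 * (H / b) + 102 * (δ * b) + Hm * K * ε := by
    linarith
  have T1' := T1.trans (mul_le_mul_of_nonneg_left B1 (by positivity))
  have T2' := T2.trans (mul_le_mul_of_nonneg_left B2 (by positivity))
  have T3' : (H + δ) * N2 * (1 / b) ≤ N2 * (H / b + δ * b) := by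
    have := mul_le_mul_of_nonneg_left G1 hN.le
    linarith
  have hfin : ∀ X Y Z x y z : ℝ, |X| ≤ x → |Y| ≤ y → |Z| ≤ z → |X + Y - Z| ≤ x + y + z := by
    intro X Y Z x y z h1 h2 h3
    rw [abs_le] at *
    constructor <;> linarith [h1.1, h1.2, h2.1, h2.2, h3.1, h3.2]
  refine (hfin _ _ _ _ _ _ T1' (T3.trans T3') T2').trans ?_
  have u1 : 0 ≤ lam * (r + 1) := by positivity
  have u2 : 0 ≤ H / b := by positivity
  have u3 : 0 ≤ δ * b := by positivity
  have u4 : 0 ≤ Hm * K * ε := by positivity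
  have v1 := mul_nonneg hN.le u1
  have v2 := mul_nonneg hN.le u2
  have v3 := mul_nonneg hN.le u3
  have v4 := mul_nonneg hN.le u4
  linarith

end BLP
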