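import Pool.Agent.Lib.BLP.W0

/-!
# Common lemmas for the chunks WC1, WC3, WC4
-/

namespace BLP

open Finset

variable {K b : ℕ} {β : Type*} [Fintype β] [DecidableEq β]

omit [Fintype β] [DecidableEq β] in
theorem wca_stt_unst (x : Fin K → BS b) (y : β → Bool) : stt (unst x y) = x :=
  congrArg Prod.fst ((sttE K b β).right_inv (x, y))

omit [Fintype β] [DecidableEq β] in
theorem wca_unst_stt (z : WI K b β → Bool) : unst (stt z) (fun j => z (Sum.inr j)) = z :=
  (sttE K b β).left_inv z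

theorem wca_sum (F : (Fin K → BS b) → (β → Bool) → ℝ) :
    ∑ z : WI K b β → Bool, F (stt z) (fun j => z (Sum.inr j)) = ∑ y, ∑ x, F x y := by
  rw [Finset.sum_comm, ← Fintype.sum_prod_type' (f := F)]
  exact Equiv.sum_comp (sttE K b β) (fun p => F p.1 p.2)

omit [DecidableEq β] in
theorem wca_card : (2 : ℝ) ^ Fintype.card (WI K b β) = 4 ^ (K * b) * 2 ^ Fintype.card β := by
  have h : Fintype.card (WI K b β) = 2 * (K * b) + Fintype.card β := by
    simp [WI, Fintype.card_sum, Fintype.card_prod]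
    ring
  rw [h, pow_add, pow_mul]
  norm_num

theorem wca_card_BS : Fintype.card (BS b) = 4 ^ b := by
  simp [BS, Fintype.card_prod]

theorem wca_block (g : Fin K) (F : BS b → ℝ) :
    (4 : ℝ) ^ b * ∑ x : Fin K → BS b, F (x g) = 4 ^ (K * b) * ∑ s, F s := by
  have h1 : ∑ x : Fin K → BS b, F (x g) =
      ∑ p : BS b × ({j : Fin K // j ≠ g} → BS b), F p.1 := by
    rw [← Equiv.sum_comp (Equiv.funSplitAt g (BS b)) (fun p => F p.1)]
    rfl
  have h2 : Fintype.card ({j : Fin K // j ≠ g} → BS b) = (4 ^ b) ^ (K - 1) := by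
    rw [Fintype.card_fun, wca_card_BS]
    congr 1
    rw [Fintype.card_subtype_compl, Fintype.card_fin, Fintype.card_subtype_eq]
  rw [h1, Fintype.sum_prod_type]
  simp only [Finset.sum_const, Finset.card_univ, h2]
  rw [← Finset.smul_sum, nsmul_eq_mul, ← mul_assoc]
  congr 1
  have hK : 0 < K := lt_of_le_of_lt (Nat.zero_le _) g.2
  push_cast
  rw [← pow_succ']
  rw [show K - 1 + 1 = K by omega, ← pow_mul, mul_comm b K]

theorem wca_frozen {r M : ℕ} {m : ℕ → ℕ} {C : ℕ → Chain (BS b)} {ε : ℝ}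
    (hW : WordData K b r M m C ε) (g : Fin K) :
    ∑ z : WI K b β → Bool, ind (frozen (m g) r (stt z g)) ≤
      2 ^ Fintype.card (WI K b β) * ε := by
  have h1 := wca_sum (K := K) (b := b) (β := β) (fun x _ => ind (frozen (m g) r (x g)))
  rw [h1, Finset.sum_const, Finset.card_univ, nsmul_eq_mul]
  have h2 := wca_block g (fun s : BS b => ind (frozen (m g) r s))
  have h3 : ∑ s : BS b, ind (frozen (m g) r s) ≤ 4 ^ b * ε := by
    rw [sum_ind]
    exact hW.froz g g.2
  have h4 : ∑ x : Fin K → BS b, ind (frozen (m g) r (x g)) ≤ 4 ^ (K * b) * ε := by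
    have hp : (0 : ℝ) < 4 ^ b := by positivity
    have hq : (0 : ℝ) < 4 ^ (K * b) := by positivity
    have h5 : (4 : ℝ) ^ b * ∑ x : Fin K → BS b, ind (frozen (m g) r (x g)) ≤
        4 ^ b * (4 ^ (K * b) * ε) := by
      rw [h2]
      calc _ ≤ (4 : ℝ) ^ (K * b) * (4 ^ b * ε) := mul_le_mul_of_nonneg_left h3 hq.le
        _ = _ := by ring
    exact le_of_mul_le_mul_left h5 hp
  rw [wca_card]
  have h5 : ((Fintype.card (β → Bool) : ℕ) : ℝ) = 2 ^ Fintype.card β := by simp
  rw [h5]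
  calc _ ≤ (2 : ℝ) ^ Fintype.card β * (4 ^ (K * b) * ε) :=
        mul_le_mul_of_nonneg_left h4 (by positivity)
    _ = _ := by ring

/-- if the sum over `x` is bounded for all blind coordinates then so is the sum over the cube -/
theorem wca_sum_le (F : (Fin K → BS b) → (β → Bool) → ℝ) (R : ℝ)
    (h : ∀ y, ∑ x, F x y ≤ 4 ^ (K * b) * R) :
    ∑ z : WI K b β → Bool, F (stt z) (fun j => z (Sum.inr j)) ≤
      2 ^ Fintype.card (WI K b β) * R := by
  rw [wca_sum, wca_card]
  refine (Finset.sum_le_sum fun y _ => h y).trans ?_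
  rw [Finset.sum_const, Finset.card_univ, nsmul_eq_mul]
  have h5 : ((Fintype.card (β → Bool) : ℕ) : ℝ) = 2 ^ Fintype.card β := by simp
  rw [h5]
  apply le_of_eq
  ring

end BLP
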