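import Pool.Agent.Lib.BLP.W0
import Pool.Agent.Lib.BLP.WCA
import Pool.Agent.Lib.BLP.Comb

/-!
# Chunk WC1, WC2: the involution of the cube
-/

namespace BLP

open Finset

variable {K b : ℕ} {β : Type*} [Fintype β] [DecidableEq β]

/-- the involution of the cube -/
def rho (C : ℕ → Chain (BS b)) (z : WI K b β → Bool) : WI K b β → Bool :=
  unst (rev C (stt z)) (fun j => !(z (Sum.inr j)))

/-- WC1 -/
theorem rho_rho (C : ℕ → Chain (BS b)) (z : WI K b β → Bool) : rho C (rho C z) = z := by
  unfold rho
  rw [wca_stt_unst, rev_rev]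
  have h : (fun j => !(unst (rev C (stt z)) (fun j => !(z (Sum.inr j))) (Sum.inr j))) =
      fun j => z (Sum.inr j) := by
    funext j
    show (!(!(z (Sum.inr j)))) = _
    rw [Bool.not_not]
  rw [h, wca_unst_stt]

theorem rho_ne (C : ℕ → Chain (BS b)) (hβ : 0 < Fintype.card β) (z : WI K b β → Bool) :
    rho C z ≠ z := by
  intro h
  obtain ⟨j⟩ := Fintype.card_pos_iff.mp hβ
  have h1 := congrFun h (Sum.inr j)
  have h2 : rho C z (Sum.inr j) = !(z (Sum.inr j)) := rfl
  rw [h2] at h1
  cases h3 : z (Sum.inr j) <;> simp [h3] at h1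

theorem Sc_rho (C : ℕ → Chain (BS b)) (μ : ℝ) (a : WI K b β → ℝ) (z : WI K b β → Bool) :
    Sc C μ a (rho C z) = - Sc C μ a z := by
  unfold Sc
  have h1 : stt (rho C z) = rev C (stt z) := wca_stt_unst _ _
  have h2 : ∀ j, rho C z (Sum.inr j) = !(z (Sum.inr j)) := fun j => rfl
  have h3 : ∀ c : Bool, sg (!c) = - sg c := by
    intro c
    cases c <;> simp [sg]
  rw [h1, zz_rev]
  simp only [h2, h3]
  push_cast
  simp only [mul_neg, Finset.sum_neg_distrib]
  ring

theorem wc1_f (x : Fin K → BS b) (y : β → Bool) (g : Fin K) (k : Fin b)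
    (C : ℕ → Chain (BS b)) (f : Bool × Bool → Bool × Bool) :
    hammingDist (unst (rev C x) (fun j => !(y j))) (unst (rev C (upd x g k f)) (fun j => !(y j))) ≤
      2 * pdist (rev C x) (rev C (upd x g k f)) := by
  refine (hamming_unst _ _ _ _).trans ?_
  rw [hammingDist_self, add_zero]

/-- WC2: average distortion of `rho` (from `rev_lip`) -/
theorem rho_lip {r M : ℕ} {m : ℕ → ℕ} {C : ℕ → Chain (BS b)} {ε : ℝ}
    (hW : WordData K b r M m C ε) :
    (∑ z : WI K b β → Bool, ∑ i, (hammingDist (rho C z) (rho C (flp z i)) : ℝ)) ≤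
      2 ^ Fintype.card (WI K b β) * (Fintype.card β +
        4 * (10 ^ 12 * (r + 1) * (K * b) * (1 + K ^ 2 * M * ε) + 2 * ε * (K * b) ^ 2)) := by
  set R : ℝ := 10 ^ 12 * (r + 1) * (K * b) * (1 + K ^ 2 * M * ε) + 2 * ε * (K * b) ^ 2 with hR
  -- the blind coordinates
  have hblind : ∀ (z : WI K b β → Bool) (j : β),
      (hammingDist (rho C z) (rho C (flp z (Sum.inr j))) : ℝ) ≤ 1 := by
    intro z j
    have h1 : stt (flp z (Sum.inr j)) = stt z := by
      funext g k
      unfold stt
      rw [flp_ne _ (by simp), flp_ne _ (by simp)]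
    have h2 : rho C (flp z (Sum.inr j)) = Function.update (rho C z) (Sum.inr j)
        (z (Sum.inr j)) := by
      funext i
      rcases i with ⟨g, k, s⟩ | j'
      · rw [Function.update_of_ne (by simp)]
        unfold rho
        rw [h1]
        cases s <;> rfl
      · by_cases hj : j' = j
        · subst hj
          rw [Function.update_self]
          show (!(flp z (Sum.inr j') (Sum.inr j'))) = _
          rw [flp_same, Bool.not_not]
        · rw [Function.update_of_ne (by simpa using hj)]
          show (!(flp z (Sum.inr j) (Sum.inr j'))) = !(z (Sum.inr j'))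
          rw [flp_ne _ (by simpa using hj)]
    have h3 : hammingDist (rho C z) (rho C (flp z (Sum.inr j))) ≤ 1 := by
      rw [h2]
      unfold hammingDist
      have : (univ.filter fun i => rho C z i ≠ Function.update (rho C z) (Sum.inr j)
          (z (Sum.inr j)) i) ⊆ {Sum.inr j} := by
        intro i hi
        rw [Finset.mem_filter] at hi
        rw [Finset.mem_singleton]
        by_contra hne
        apply hi.2
        rw [Function.update_of_ne hne]
      exact (Finset.card_le_card this).trans (by simp)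
    exact_mod_cast h3
  have hpair : ∀ (f : Bool × Bool → Bool × Bool), (∀ p, f (f p) = p) →
      ∑ z : WI K b β → Bool, ∑ g : Fin K, ∑ k : Fin b,
        (2 * (pdist (rev C (stt z)) (rev C (upd (stt z) g k f)) : ℝ)) ≤
      2 ^ Fintype.card (WI K b β) * (2 * R) := by
    intro f hf
    refine wca_sum_le (fun x _ => ∑ g : Fin K, ∑ k : Fin b,
        (2 * (pdist (rev C x) (rev C (upd x g k f)) : ℝ))) (2 * R) ?_
    intro _
    have h1 := rev_lip hW f hf
    have h2 : ∑ x : Fin K → BS b, ∑ g : Fin K, ∑ k : Fin b,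
        (2 * (pdist (rev C x) (rev C (upd x g k f)) : ℝ)) =
        2 * ∑ x : Fin K → BS b, ∑ g : Fin K, ∑ k : Fin b,
          (pdist (rev C x) (rev C (upd x g k f)) : ℝ) := by
      simp only [Finset.mul_sum]
    rw [h2]
    calc _ ≤ 2 * (4 ^ (K * b) * (10 ^ 12 * (r + 1) * (K * b) * (1 + K ^ 2 * M * ε)) +
        4 ^ (K * b) * (2 * ε * (K * b) ^ 2)) := by linarith
      _ = _ := by rw [hR]; ring
  have hz : ∀ z : WI K b β → Bool, ∑ i, (hammingDist (rho C z) (rho C (flp z i)) : ℝ) ≤
      Fintype.card β +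
      (∑ g : Fin K, ∑ k : Fin b, (2 * (pdist (rev C (stt z))
        (rev C (upd (stt z) g k (fun p => (!p.1, !p.2)))) : ℝ)) +
      ∑ g : Fin K, ∑ k : Fin b, (2 * (pdist (rev C (stt z))
        (rev C (upd (stt z) g k (fun p => (!p.1, p.2)))) : ℝ))) := by
    intro z
    rw [Fintype.sum_sum_type, add_comm]
    refine add_le_add ?_ ?_
    · refine (Finset.sum_le_sum fun j _ => hblind z j).trans ?_
      simp
    · rw [Fintype.sum_prod_type, ← Finset.sum_add_distrib]
      refine Finset.sum_le_sum fun g _ => ?_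
      rw [Fintype.sum_prod_type, ← Finset.sum_add_distrib]
      refine Finset.sum_le_sum fun k _ => ?_
      rw [Fintype.sum_bool, add_comm]
      have key : ∀ (s : Bool) (f : Bool × Bool → Bool × Bool),
          stt (flp z (Sum.inl (g, k, s))) = upd (stt z) g k f →
          (hammingDist (rho C z) (rho C (flp z (Sum.inl (g, k, s)))) : ℝ) ≤
          2 * (pdist (rev C (stt z)) (rev C (upd (stt z) g k f)) : ℝ) := by
        intro s f hf
        have h1 : rho C (flp z (Sum.inl (g, k, s))) =
            unst (rev C (upd (stt z) g k f)) (fun j => !(z (Sum.inr j))) := by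
          unfold rho
          rw [hf]
          congr 1
        rw [h1]
        have h2 := wc1_f (stt z) (fun j => z (Sum.inr j)) g k C f
        unfold rho
        exact_mod_cast h2
      obtain ⟨h1, h2⟩ := stt_flip z g k
      exact add_le_add (key false _ h1) (key true _ h2)
  refine (Finset.sum_le_sum fun z _ => hz z).trans ?_
  rw [Finset.sum_add_distrib, Finset.sum_add_distrib, Finset.sum_const, Finset.card_univ,
    nsmul_eq_mul]
  have h5 : ((Fintype.card (WI K b β → Bool) : ℕ) : ℝ) = 2 ^ Fintype.card (WI K b β) := by simp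
  rw [h5]
  have h6 := hpair (fun p => (!p.1, !p.2)) (by rintro ⟨a, c⟩; simp)
  have h7 := hpair (fun p => (!p.1, p.2)) (by rintro ⟨a, c⟩; simp)
  calc _ ≤ 2 ^ Fintype.card (WI K b β) * (Fintype.card β : ℝ) +
        (2 ^ Fintype.card (WI K b β) * (2 * R) + 2 ^ Fintype.card (WI K b β) * (2 * R)) := by
        linarith
    _ = _ := by ring

end BLP
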