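import Pool.Agent.Lib.BLP.WC1
import Pool.Agent.Lib.BLP.WCA
import Pool.Agent.Lib.BLP.CombA
import Pool.Agent.Lib.BLP.Conc1

/-!
# Chunk WC3: displacement
-/

namespace BLP

open Finset

variable {K b : ℕ} {β : Type*} [Fintype β] [DecidableEq β]

/-- WC3: displacement of `rho` (from `rev_disp`, `lin_tail`) -/
theorem rho_disp {r M : ℕ} {m : ℕ → ℕ} {C : ℕ → Chain (BS b)} {ε : ℝ}
    (hW : WordData K b r M m C ε) (μ : ℝ) (hμ : μ * M = 1) (s : ℝ) (hs : 0 ≤ s) :
    (∑ z : WI K b β → Bool, ind (2 * 100000 * (s + 4 * K + (r + 1) * K) + Fintype.card β <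
      hammingDist z (rho C z))) ≤
      2 ^ Fintype.card (WI K b β) *
        (2 * Real.exp (-(s ^ 2 / (8 * (Fintype.card (WI K b β) + 1)))) + K * ε) := by
  have hM : (0 : ℝ) < M := by exact_mod_cast hW.hM
  -- the weights of the blocks
  let w : Fin K → ℝ := fun g => (m g : ℝ) / (2 * M)
  let a : WI K b β → ℝ := fun i => match i with
    | Sum.inl (g, _, _) => w g
    | Sum.inr _ => 0
  have hw : ∀ g : Fin K, 0 ≤ w g ∧ w g ≤ 2 := by
    intro g
    have h1 : ((m g : ℕ) : ℝ) ≤ 4 * M := by exact_mod_cast (hW.hm g g.2).2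
    refine ⟨by positivity, ?_⟩
    show (m g : ℝ) / (2 * M) ≤ 2
    rw [div_le_iff₀ (by positivity)]
    linarith
  have ha : ∀ i, |a i| ≤ 2 := by
    rintro (⟨g, k, s⟩ | j)
    · show |w g| ≤ 2
      rw [abs_of_nonneg (hw g).1]
      exact (hw g).2
    · show |(0 : ℝ)| ≤ 2
      simp
  have hlin : ∀ z : WI K b β → Bool, lin a z = ∑ g : Fin K, (m g : ℝ) / M * (vsum (stt z g) : ℝ) := by
    intro z
    unfold lin
    rw [Fintype.sum_sum_type]
    have h1 : ∑ j : β, a (Sum.inr j) * sg (z (Sum.inr j)) = 0 := by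
      apply Finset.sum_eq_zero
      intro j _
      show (0 : ℝ) * _ = 0
      ring
    rw [h1, add_zero, Fintype.sum_prod_type]
    refine Finset.sum_congr rfl fun g _ => ?_
    have h2 := lin_block w z g
    have h3 : ∑ p : Fin b × Bool, a (Sum.inl (g, p)) * sg (z (Sum.inl (g, p))) =
        ∑ p : Fin b × Bool, w g * sg (z (Sum.inl (g, p.1, p.2))) := rfl
    rw [h3, h2]
    show 2 * ((m g : ℝ) / (2 * M)) * _ = _
    field_simp
  have key : ∀ z : WI K b β → Bool,
      ind (2 * 100000 * (s + 4 * K + (r + 1) * K) + Fintype.card β < hammingDist z (rho C z)) ≤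
        ind (s ≤ |lin a z|) + ∑ g : Fin K, ind (frozen (m g) r (stt z g)) := by
    intro z
    by_cases hfz : ∃ g : Fin K, frozen (m g) r (stt z g)
    · obtain ⟨g, hg⟩ := hfz
      have h1 : (1 : ℝ) ≤ ∑ g : Fin K, ind (frozen (m g) r (stt z g)) := by
        have h2 := Finset.single_le_sum (s := univ)
          (f := fun g : Fin K => ind (frozen (m g) r (stt z g)))
          (fun g _ => ind_nonneg _) (Finset.mem_univ g)
        have h3 : ind (frozen (m g) r (stt z g)) = 1 := ind_true hg
        linarith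
      have h4 := ind_le_one (2 * 100000 * (s + 4 * K + (r + 1) * K) + Fintype.card β <
        (hammingDist z (rho C z) : ℝ))
      have h5 := ind_nonneg (s ≤ |lin a z|)
      linarith
    · push Not at hfz
      have h0 : 0 ≤ ∑ g : Fin K, ind (frozen (m g) r (stt z g)) :=
        Finset.sum_nonneg fun g _ => ind_nonneg _
      suffices h : ind (2 * 100000 * (s + 4 * K + (r + 1) * K) + Fintype.card β <
          (hammingDist z (rho C z) : ℝ)) ≤ ind (s ≤ |lin a z|) by linarith
      apply ind_mono
      intro hlt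
      by_contra hs'
      push Not at hs'
      -- the value of the word
      have h1 := zz_word hW (stt z)
      have h2 : (zz C (stt z) : ℝ) = M * lin a z +
          ∑ g : Fin K, ((m g : ℝ) - 1 - 2 * (noise (m g) r (stt z g) : ℝ)) := by
        rw [h1, hlin, Finset.mul_sum, ← Finset.sum_add_distrib]
        push_cast
        refine Finset.sum_congr rfl fun g _ => ?_
        rw [if_neg (hfz g)]
        push_cast
        field_simp
      have h3 : |∑ g : Fin K, ((m g : ℝ) - 1 - 2 * (noise (m g) r (stt z g) : ℝ))| ≤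
          K * (4 * M) := by
        refine (Finset.abs_sum_le_sum_abs _ _).trans ?_
        have h4 : ∀ g : Fin K, |(m g : ℝ) - 1 - 2 * (noise (m g) r (stt z g) : ℝ)| ≤ 4 * M := by
          intro g
          have hm0 : 0 < m g := lt_of_lt_of_le hW.hM (hW.hm g g.2).1
          have h5 : noise (m g) r (stt z g) < m g := Nat.mod_lt _ hm0
          have h6 : (noise (m g) r (stt z g) : ℝ) + 1 ≤ m g := by exact_mod_cast h5
          have h7 : (0 : ℝ) ≤ noise (m g) r (stt z g) := by positivity
          have h8 : ((m g : ℕ) : ℝ) ≤ 4 * M := by exact_mod_cast (hW.hm g g.2).2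
          rw [abs_le]
          constructor <;> linarith
        refine (Finset.sum_le_sum fun g _ => h4 g).trans ?_
        simp
      have h4 : |(zz C (stt z) : ℝ)| ≤ M * (s + 4 * K) := by
        rw [h2]
        refine (abs_add_le _ _).trans ?_
        rw [abs_mul, abs_of_pos hM]
        nlinarith
      have h5 := rev_disp hW (stt z)
      have h6 : |(zz C (stt z) : ℝ)| / M ≤ s + 4 * K := by
        rw [div_le_iff₀ hM]
        linarith
      have h7 : (hammingDist z (rho C z) : ℝ) ≤
          2 * (pdist (stt z) (rev C (stt z)) : ℝ) + Fintype.card β := by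
        have h8 := hamming_unst (stt z) (rev C (stt z)) (fun j => z (Sum.inr j))
          (fun j => !(z (Sum.inr j)))
        rw [wca_unst_stt] at h8
        have h9 : hammingDist (fun j => z (Sum.inr j)) (fun j : β => !(z (Sum.inr j))) ≤
            Fintype.card β := hammingDist_le_card_fintype
        have h10 : hammingDist z (rho C z) ≤
            2 * pdist (stt z) (rev C (stt z)) + Fintype.card β := h8.trans (by omega)
        exact_mod_cast h10
      linarith
  refine (Finset.sum_le_sum fun z _ => key z).trans ?_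
  rw [Finset.sum_add_distrib, Finset.sum_comm (s := (univ : Finset (WI K b β → Bool)))]
  have h1 := lin_tail a ha s hs
  have h2 : ∑ g : Fin K, ∑ z : WI K b β → Bool, ind (frozen (m g) r (stt z g)) ≤
      ∑ g : Fin K, 2 ^ Fintype.card (WI K b β) * ε :=
    Finset.sum_le_sum fun g _ => wca_frozen hW g
  have h3 : ∑ g : Fin K, (2 : ℝ) ^ Fintype.card (WI K b β) * ε =
      2 ^ Fintype.card (WI K b β) * (K * ε) := by
    rw [Finset.sum_const, Finset.card_univ, Fintype.card_fin, nsmul_eq_mul]
    ring
  rw [h3] at h2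
  calc _ ≤ 2 * Real.exp (-(s ^ 2 / (8 * (Fintype.card (WI K b β) + 1)))) *
        2 ^ Fintype.card (WI K b β) + 2 ^ Fintype.card (WI K b β) * (K * ε) := add_le_add h1 h2
    _ = _ := by ring

end BLP
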