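import Pool.Agent.Lib.BLP.W0
import Pool.Agent.Lib.BLP.WCA
import Pool.Agent.Lib.BLP.CombA
import Pool.Agent.Lib.BLP.CombC

/-!
# Chunk WC4: influence

If the block `g` is frozen neither in `z` nor in `flp z i`, then `Sc` changes by at most `240`
(`BlockSpec.pert`); windows by `word_window`.
-/

namespace BLP

open Finset

variable {K b : ℕ} {β : Type*} [Fintype β] [DecidableEq β]

/-- WC4: windows of length `480` -/
theorem wc4_cover (v c : ℝ) :
    ind (|v - c| ≤ 240) ≤ ∑ j ∈ range 241, ind (|v - (c - 240 + 2 * j)| ≤ 1) := by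
  by_cases h : |v - c| ≤ 240
  · rw [ind_true h, abs_le] at *
    have h1 : 0 ≤ (v - c + 240 + 1) / 2 := by linarith
    set j := ⌊(v - c + 240 + 1) / 2⌋₊ with hj
    have h2 : (j : ℝ) ≤ (v - c + 240 + 1) / 2 := Nat.floor_le h1
    have h3 : (v - c + 240 + 1) / 2 < j + 1 := Nat.lt_floor_add_one _
    have h4 : j < 241 := by
      have : (j : ℝ) < 241 := by linarith
      exact_mod_cast this
    have h5 : ind (|v - (c - 240 + 2 * j)| ≤ 1) = 1 := by
      apply ind_true
      rw [abs_le]
      constructor <;> linarith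
    have h6 := Finset.single_le_sum (s := range 241)
      (f := fun j : ℕ => ind (|v - (c - 240 + 2 * j)| ≤ 1))
      (fun j _ => ind_nonneg _) (Finset.mem_range.2 h4)
    rw [h5] at h6
    exact h6
  · rw [ind_false h]
    exact Finset.sum_nonneg fun j _ => ind_nonneg _

/-- WC4: anticoncentration of the approximate form -/
theorem wc4_window {r M : ℕ} {m : ℕ → ℕ} {C : ℕ → Chain (BS b)} {ε : ℝ}
    (hW : WordData K b r M m C ε) (μ : ℝ) (hμ : μ * M = 1) (a : WI K b β → ℝ) (c : ℝ) :
    ∑ z : WI K b β → Bool, ind (|Sc C μ a z - c| ≤ 240) ≤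
      2 ^ Fintype.card (WI K b β) * (964 / Real.sqrt (K * b) + K * ε) := by
  have hM : (0 : ℝ) < M := by exact_mod_cast hW.hM
  have hb : 0 < b := lt_of_lt_of_le hW.hK hW.hKb
  have hμ0 : 0 < μ := by
    by_contra hne
    push Not at hne
    have : μ * M ≤ 0 := mul_nonpos_of_nonpos_of_nonneg hne hM.le
    linarith
  let w : Fin K → ℝ := fun g => μ * m g / 2
  have hw : ∀ g, 1 / 2 ≤ w g := by
    intro g
    have h1 : (M : ℝ) ≤ m g := by exact_mod_cast (hW.hm g g.2).1
    show 1 / 2 ≤ μ * m g / 2
    have : μ * M ≤ μ * m g := mul_le_mul_of_nonneg_left h1 hμ0.le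
    linarith
  let N : (Fin K → BS b) → ℝ := fun x =>
    ∑ g : Fin K, μ * ((m g : ℝ) - 1 - 2 * (noise (m g) r (x g) : ℝ))
  have hN : ∀ x x' : Fin K → BS b, (∀ g k, (x g k).1 = (x' g k).1) →
      (∀ g k, (x g k).1 = false → x g k = x' g k) → N x = N x' := by
    intro x x' h1 h2
    refine Finset.sum_congr rfl fun g _ => ?_
    unfold noise
    rw [hash_congr r (x g) (x' g) (h1 g) (h2 g)]
  have hlow : ∑ z : WI K b β → Bool, ∑ g : Fin K, ind (frozen (m g) r (stt z g)) ≤
      2 ^ Fintype.card (WI K b β) * (K * ε) := by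
    rw [Finset.sum_comm]
    refine (Finset.sum_le_sum fun g _ => wca_frozen hW g).trans ?_
    rw [Finset.sum_const, Finset.card_univ, Fintype.card_fin, nsmul_eq_mul]
    apply le_of_eq
    ring
  have hmain : ∑ z : WI K b β → Bool, ∑ j ∈ range 241,
      ind (|∑ g, 2 * w g * (vsum (stt z g) : ℝ) + N (stt z) -
        ((c - 240 + 2 * j) - ∑ i : β, a (Sum.inr i) * sg (z (Sum.inr i)))| ≤ 1) ≤
      2 ^ Fintype.card (WI K b β) * (964 / Real.sqrt (K * b)) := by
    refine wca_sum_le (fun x y => ∑ j ∈ range 241,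
      ind (|∑ g, 2 * w g * (vsum (x g) : ℝ) + N x -
        ((c - 240 + 2 * j) - ∑ i : β, a (Sum.inr i) * sg (y i))| ≤ 1)) _ ?_
    intro y
    rw [Finset.sum_comm]
    refine (Finset.sum_le_sum fun j _ => word_window hW.hK hb w hw N hN _).trans ?_
    rw [Finset.sum_const, Finset.card_range, nsmul_eq_mul]
    apply le_of_eq
    push_cast
    ring
  have hz : ∀ z : WI K b β → Bool, ind (|Sc C μ a z - c| ≤ 240) ≤
      ∑ j ∈ range 241,
      ind (|∑ g, 2 * w g * (vsum (stt z g) : ℝ) + N (stt z) -
        ((c - 240 + 2 * j) - ∑ i : β, a (Sum.inr i) * sg (z (Sum.inr i)))| ≤ 1) +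
      ∑ g : Fin K, ind (frozen (m g) r (stt z g)) := by
    intro z
    by_cases hfz : ∃ g : Fin K, frozen (m g) r (stt z g)
    · obtain ⟨g, hg⟩ := hfz
      have h2 := Finset.single_le_sum (s := univ)
        (f := fun g : Fin K => ind (frozen (m g) r (stt z g)))
        (fun g _ => ind_nonneg _) (Finset.mem_univ g)
      have h3 : ind (frozen (m g) r (stt z g)) = 1 := ind_true hg
      have h4 := ind_le_one (|Sc C μ a z - c| ≤ 240)
      have h5 : 0 ≤ ∑ j ∈ range 241,
          ind (|∑ g, 2 * w g * (vsum (stt z g) : ℝ) + N (stt z) -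
        ((c - 240 + 2 * j) - ∑ i : β, a (Sum.inr i) * sg (z (Sum.inr i)))| ≤ 1) :=
        Finset.sum_nonneg fun j _ => ind_nonneg _
      rw [h3] at h2
      linarith
    · push Not at hfz
      have h0 : 0 ≤ ∑ g : Fin K, ind (frozen (m g) r (stt z g)) :=
        Finset.sum_nonneg fun g _ => ind_nonneg _
      have h1 := zz_word hW (stt z)
      have h2 : Sc C μ a z = ∑ j : β, a (Sum.inr j) * sg (z (Sum.inr j)) +
          (∑ g, 2 * w g * (vsum (stt z g) : ℝ) + N (stt z)) := by
        unfold Sc
        rw [h1]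
        push_cast
        rw [Finset.mul_sum, ← Finset.sum_add_distrib]
        congr 1
        refine Finset.sum_congr rfl fun g _ => ?_
        rw [if_neg (hfz g)]
        show _ = 2 * (μ * m g / 2) * _ + _
        push_cast
        ring
      have h3 := wc4_cover (Sc C μ a z) c
      have h4 : ∑ j ∈ range 241, ind (|Sc C μ a z - (c - 240 + 2 * j)| ≤ 1) =
          ∑ j ∈ range 241,
          ind (|∑ g, 2 * w g * (vsum (stt z g) : ℝ) + N (stt z) -
        ((c - 240 + 2 * j) - ∑ i : β, a (Sum.inr i) * sg (z (Sum.inr i)))| ≤ 1) := by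
        refine Finset.sum_congr rfl fun j _ => ?_
        rw [h2]
        congr 3
        ring
      rw [h4] at h3
      linarith
  refine (Finset.sum_le_sum fun z _ => hz z).trans ?_
  rw [Finset.sum_add_distrib]
  calc _ ≤ 2 ^ Fintype.card (WI K b β) * (964 / Real.sqrt (K * b)) +
        2 ^ Fintype.card (WI K b β) * (K * ε) := add_le_add hmain hlow
    _ = _ := by ring

/-- WC4: change of the value of the word, if one block changes -/
theorem wc4_zz {r M : ℕ} {m : ℕ → ℕ} {C : ℕ → Chain (BS b)} {ε : ℝ}
    (hW : WordData K b r M m C ε) (x : Fin K → BS b) (g : Fin K) (k : Fin b)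
    (f : Bool × Bool → Bool × Bool) (h1 : ¬ frozen (m g) r (x g))
    (h2 : ¬ frozen (m g) r (upd x g k f g)) :
    |(zz C (upd x g k f) : ℝ) - zz C x| ≤ 240 * M := by
  have h3 := (hW.spec g g.2).pert (x g) (upd x g k f g) k (by
    intro k' hk'
    unfold upd
    rw [Function.update_self, Function.update_of_ne hk']) h1 h2
  have h4 : zz C (upd x g k f) - zz C x =
      (((C g).l (upd x g k f g) : ℤ) - 2 * (C g).y (upd x g k f g)) -
        (((C g).l (x g) : ℤ) - 2 * (C g).y (x g)) := by
    rw [zz_eq, zz_eq, ← Finset.sum_sub_distrib]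
    rw [Finset.sum_eq_single g]
    · intro g' _ hg'
      have : upd x g k f g' = x g' := by
        unfold upd
        rw [Function.update_of_ne hg']
      rw [this]
      ring
    · intro h
      exact absurd (Finset.mem_univ g) h
  have h5 : ((m g : ℕ) : ℝ) ≤ 4 * M := by exact_mod_cast (hW.hm g g.2).2
  obtain ⟨h6, h7⟩ := h3
  have h8 : |zz C (upd x g k f) - zz C x| ≤ 60 * m g := by
    rw [h4]
    rw [abs_le] at *
    constructor <;> omega
  have h9 : |(zz C (upd x g k f) : ℝ) - zz C x| ≤ 60 * m g := by exact_mod_cast h8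
  linarith

/-- WC4: total influence of the sets `{θ < S'}` -/
theorem infl {r M : ℕ} {m : ℕ → ℕ} {C : ℕ → Chain (BS b)} {ε : ℝ}
    (hW : WordData K b r M m C ε) (μ : ℝ) (hμ : μ * M = 1) (a : WI K b β → ℝ)
    (ha : ∀ i, 1 ≤ a i ∧ a i ≤ 2) (S' : (WI K b β → Bool) → ℝ)
    (hS : ∀ θ, ∃ c', ∀ x y, θ < S' x → ¬ θ < S' y → Sc C μ a y ≤ c' ∧ c' ≤ Sc C μ a x) (θ : ℝ) :
    (∑ z, ∑ i, |ind (θ < S' z) - ind (θ < S' (flp z i))|) ≤
      2 ^ Fintype.card (WI K b β) * (Fintype.card (WI K b β) *
        (10 ^ 4 / Real.sqrt (K * b) + 4 * K * ε)) := by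
  have hM : (0 : ℝ) < M := by exact_mod_cast hW.hM
  have hb : 0 < b := lt_of_lt_of_le hW.hK hW.hKb
  have hK1 : (1 : ℝ) ≤ K := by exact_mod_cast hW.hK
  have hμ0 : 0 < μ := by
    by_contra hne
    push Not at hne
    have : μ * M ≤ 0 := mul_nonpos_of_nonpos_of_nonneg hne hM.le
    linarith
  have hε := hW.hε
  obtain ⟨c', hc'⟩ := hS θ
  have h964 : (964 : ℝ) / Real.sqrt (K * b) ≤ 10 ^ 4 / Real.sqrt (K * b) := by
    apply div_le_div_of_nonneg_right (by norm_num) (Real.sqrt_nonneg _)
  -- one coordinate
  have key : ∀ i : WI K b β, ∑ z, |ind (θ < S' z) - ind (θ < S' (flp z i))| ≤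
      2 ^ Fintype.card (WI K b β) * (10 ^ 4 / Real.sqrt (K * b) + 4 * K * ε) := by
    intro i
    have hwin := wc4_window hW μ hμ a c' (β := β)
    have hpow : (0 : ℝ) < 2 ^ Fintype.card (WI K b β) := by positivity
    -- comparison of the values
    have hcmp : ∀ z, (θ < S' z ∧ ¬ θ < S' (flp z i)) ∨ (¬ θ < S' z ∧ θ < S' (flp z i)) →
        |Sc C μ a z - Sc C μ a (flp z i)| ≤ 240 → |Sc C μ a z - c'| ≤ 240 := by
      rintro z (⟨h1, h2⟩ | ⟨h1, h2⟩) h3
      · obtain ⟨h4, h5⟩ := hc' z (flp z i) h1 h2
        rw [abs_le] at *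
        constructor <;> linarith
      · obtain ⟨h4, h5⟩ := hc' (flp z i) z h2 h1
        rw [abs_le] at *
        constructor <;> linarith
    have hzero : ∀ z, ¬ ((θ < S' z ∧ ¬ θ < S' (flp z i)) ∨ (¬ θ < S' z ∧ θ < S' (flp z i))) →
        |ind (θ < S' z) - ind (θ < S' (flp z i))| = 0 := by
      intro z hz
      have : (θ < S' z) ↔ (θ < S' (flp z i)) := by tauto
      rw [ind_congr this, sub_self, abs_zero]
    have hone : ∀ z, |ind (θ < S' z) - ind (θ < S' (flp z i))| ≤ 1 := by
      intro z
      have h1 := ind_nonneg (θ < S' z)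
      have h2 := ind_le_one (θ < S' z)
      have h3 := ind_nonneg (θ < S' (flp z i))
      have h4 := ind_le_one (θ < S' (flp z i))
      rw [abs_le]
      constructor <;> linarith
    rcases i with ⟨g, k, s⟩ | j
    · -- a coordinate of the word
      obtain ⟨f, hf⟩ : ∃ f : Bool × Bool → Bool × Bool, ∀ z : WI K b β → Bool,
          stt (flp z (Sum.inl (g, k, s))) = upd (stt z) g k f := by
        cases s
        · exact ⟨_, fun z => (stt_flip z g k).1⟩
        · exact ⟨_, fun z => (stt_flip z g k).2⟩
      have hz : ∀ z, |ind (θ < S' z) - ind (θ < S' (flp z (Sum.inl (g, k, s))))| ≤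
          ind (|Sc C μ a z - c'| ≤ 240) + (ind (frozen (m g) r (stt z g)) +
            ind (frozen (m g) r (stt (flp z (Sum.inl (g, k, s))) g))) := by
        intro z
        have n1 := ind_nonneg (|Sc C μ a z - c'| ≤ 240)
        have n2 := ind_nonneg (frozen (m g) r (stt z g))
        have n3 := ind_nonneg (frozen (m g) r (stt (flp z (Sum.inl (g, k, s))) g))
        by_cases h0 : (θ < S' z ∧ ¬ θ < S' (flp z (Sum.inl (g, k, s)))) ∨
            (¬ θ < S' z ∧ θ < S' (flp z (Sum.inl (g, k, s))))
        · refine (hone z).trans ?_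
          by_cases h1 : frozen (m g) r (stt z g)
          · rw [ind_true h1]
            linarith
          · by_cases h2 : frozen (m g) r (stt (flp z (Sum.inl (g, k, s))) g)
            · rw [ind_true h2]
              linarith
            · have h3 : |Sc C μ a z - Sc C μ a (flp z (Sum.inl (g, k, s)))| ≤ 240 := by
                rw [hf] at h2
                have h4 := wc4_zz hW (stt z) g k f h1 h2
                have h5 : Sc C μ a z - Sc C μ a (flp z (Sum.inl (g, k, s))) =
                    -(μ * ((zz C (upd (stt z) g k f) : ℝ) - zz C (stt z))) := by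
                  unfold Sc
                  rw [hf]
                  have h6 : ∀ j : β, flp z (Sum.inl (g, k, s)) (Sum.inr j) = z (Sum.inr j) :=
                    fun j => flp_ne _ (by simp)
                  simp only [h6]
                  ring
                rw [h5, abs_neg, abs_mul, abs_of_pos hμ0]
                calc _ ≤ μ * (240 * M) := mul_le_mul_of_nonneg_left h4 hμ0.le
                  _ = 240 * (μ * M) := by ring
                  _ = 240 := by rw [hμ]; ring
              rw [ind_true (hcmp z h0 h3)]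
              linarith
        · rw [hzero z h0]
          linarith
      refine (Finset.sum_le_sum fun z _ => hz z).trans ?_
      rw [Finset.sum_add_distrib, Finset.sum_add_distrib]
      have h1 := wca_frozen (β := β) hW g
      have h2 : ∑ z : WI K b β → Bool, ind (frozen (m g) r (stt (flp z (Sum.inl (g, k, s))) g)) =
          ∑ z : WI K b β → Bool, ind (frozen (m g) r (stt z g)) := by
        let E : (WI K b β → Bool) ≃ (WI K b β → Bool) :=
          ⟨fun z => flp z (Sum.inl (g, k, s)), fun z => flp z (Sum.inl (g, k, s)),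
            fun z => flp_flp z _, fun z => flp_flp z _⟩
        exact Equiv.sum_comp E (fun z => ind (frozen (m g) r (stt z g)))
      rw [h2]
      calc _ ≤ 2 ^ Fintype.card (WI K b β) * (964 / Real.sqrt (K * b) + K * ε) +
            (2 ^ Fintype.card (WI K b β) * ε + 2 ^ Fintype.card (WI K b β) * ε) :=
            add_le_add hwin (add_le_add h1 h1)
        _ = 2 ^ Fintype.card (WI K b β) * (964 / Real.sqrt (K * b) + K * ε + 2 * ε) := by ring
        _ ≤ _ := by
          apply mul_le_mul_of_nonneg_left _ hpow.le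
          nlinarith
    · -- a blind coordinate
      have hz : ∀ z, |ind (θ < S' z) - ind (θ < S' (flp z (Sum.inr j)))| ≤
          ind (|Sc C μ a z - c'| ≤ 240) := by
        intro z
        by_cases h0 : (θ < S' z ∧ ¬ θ < S' (flp z (Sum.inr j))) ∨
            (¬ θ < S' z ∧ θ < S' (flp z (Sum.inr j)))
        · refine (hone z).trans ?_
          have h3 : |Sc C μ a z - Sc C μ a (flp z (Sum.inr j))| ≤ 240 := by
            have h4 : stt (flp z (Sum.inr j)) = stt z := by
              funext g k
              unfold stt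
              rw [flp_ne _ (by simp), flp_ne _ (by simp)]
            have h5 : Sc C μ a z - Sc C μ a (flp z (Sum.inr j)) =
                a (Sum.inr j) * (sg (z (Sum.inr j)) - sg (!(z (Sum.inr j)))) := by
              unfold Sc
              rw [h4, add_sub_add_right_eq_sub, ← Finset.sum_sub_distrib,
                Finset.sum_eq_single j]
              · rw [flp_same]
                ring
              · intro j' _ hj'
                rw [flp_ne _ (by simpa using hj')]
                ring
              · intro h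
                exact absurd (Finset.mem_univ j) h
            rw [h5]
            obtain ⟨h6, h7⟩ := ha (Sum.inr j)
            have h8 : |sg (z (Sum.inr j)) - sg (!(z (Sum.inr j)))| ≤ 2 := by
              cases z (Sum.inr j) <;> simp [sg] <;> norm_num
            rw [abs_mul, abs_of_nonneg (by linarith)]
            nlinarith [abs_nonneg (sg (z (Sum.inr j)) - sg (!(z (Sum.inr j))))]
          rw [ind_true (hcmp z h0 h3)]
        · rw [hzero z h0]
          exact ind_nonneg _
      refine (Finset.sum_le_sum fun z _ => hz z).trans (hwin.trans ?_)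
      apply mul_le_mul_of_nonneg_left _ hpow.le
      nlinarith
  rw [Finset.sum_comm]
  refine (Finset.sum_le_sum fun i _ => key i).trans ?_
  rw [Finset.sum_const, Finset.card_univ, nsmul_eq_mul]
  apply le_of_eq
  ring

end BLP
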