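import Pool.Agent.Lib.BLP.W0

/-!
# Chunk WC5: parameters

`M = (n + 1) ^ 4`, `μ = 1 / M`, `r = 17 * Nat.clog 2 (n + 1) + 2`, `m g = ⌊2 * w M⌋` with
`w ^ 2 * (2 * b + 4 / 3) = ∑_{i in block g} a_i ^ 2`; `ε = exp (-(b/16)) + 4 M / 2 ^ r`.
-/

namespace BLP

open Finset

variable {K b : ℕ} {β : Type*} [Fintype β] [DecidableEq β]

/-- facts on the exact weight `w` of one block -/
theorem wc5_block (b : ℕ) (hb : 1 ≤ b) (a : Fin b × Bool → ℝ) (ha : ∀ p, 1 ≤ a p ∧ a p ≤ 2)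
    (lo hi : ℝ) (hl : ∀ p, lo ≤ a p ∧ a p ≤ hi) (w : ℝ) (hw0 : 0 ≤ w)
    (hw : w ^ 2 * (2 * b + 4 / 3) = ∑ p, a p ^ 2) :
    1 / 2 ≤ w ∧ w ≤ 2 ∧ ∀ p, |a p - w| ≤ (hi - lo) + 4 / (3 * b) := by
  have hb' : (1 : ℝ) ≤ b := by exact_mod_cast hb
  have hcard : (Fintype.card (Fin b × Bool) : ℝ) = 2 * b := by
    rw [Fintype.card_prod, Fintype.card_fin, Fintype.card_bool]; push_cast; ring
  have hpos : (0 : ℝ) < 2 * b + 4 / 3 := by positivity
  have hlow : (2 * b : ℝ) ≤ ∑ p, a p ^ 2 := by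
    have h : ∑ _p : Fin b × Bool, (1 : ℝ) ≤ ∑ p, a p ^ 2 := by
      apply sum_le_sum
      intro p _
      have := (ha p).1
      nlinarith
    rw [sum_const, card_univ, nsmul_eq_mul, mul_one, hcard] at h
    exact h
  have hupp : ∑ p, a p ^ 2 ≤ (2 * b : ℝ) * 4 := by
    have h : ∑ p, a p ^ 2 ≤ ∑ _p : Fin b × Bool, (4 : ℝ) := by
      apply sum_le_sum
      intro p _
      have h1 := (ha p).1
      have h2 := (ha p).2
      nlinarith
    rw [sum_const, card_univ, nsmul_eq_mul, hcard] at h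
    exact h
  have p0 : Fin b × Bool := (⟨0, hb⟩, true)
  have hhi1 : 1 ≤ hi := (ha p0).1.trans (hl p0).2
  have hlo2 : lo ≤ 2 := (hl p0).1.trans (ha p0).2
  have hlohi : lo ≤ hi := (hl p0).1.trans (hl p0).2
  have hw1 : 1 / 2 ≤ w := by
    by_contra hcon
    push Not at hcon
    have h1 : w ^ 2 < 1 / 4 := by nlinarith
    have h2 : w ^ 2 * (2 * b + 4 / 3) < 1 / 4 * (2 * b + 4 / 3) :=
      mul_lt_mul_of_pos_right h1 hpos
    nlinarith
  have hw2 : w ≤ 2 := by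
    by_contra hcon
    push Not at hcon
    have h1 : 4 < w ^ 2 := by nlinarith
    have h2 : 4 * (2 * b + 4 / 3) < w ^ 2 * (2 * b + 4 / 3) := mul_lt_mul_of_pos_right h1 hpos
    nlinarith
  have hwhi : w ≤ hi := by
    by_contra hcon
    push Not at hcon
    have h1 : ∑ p, a p ^ 2 ≤ (2 * b : ℝ) * hi ^ 2 := by
      have h : ∑ p, a p ^ 2 ≤ ∑ _p : Fin b × Bool, hi ^ 2 := by
        apply sum_le_sum
        intro p _
        have h1 := (ha p).1
        have h2 := (hl p).2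
        nlinarith
      rw [sum_const, card_univ, nsmul_eq_mul, hcard] at h
      exact h
    have h2 : hi ^ 2 < w ^ 2 := by nlinarith
    have h3 : hi ^ 2 * (2 * b + 4 / 3) < w ^ 2 * (2 * b + 4 / 3) := mul_lt_mul_of_pos_right h2 hpos
    have h4 : 0 < hi ^ 2 := by positivity
    nlinarith
  have hwlo : lo - w ≤ 4 / (3 * b) := by
    by_cases hlo0 : lo ≤ w
    · have : (0 : ℝ) ≤ 4 / (3 * b) := by positivity
      linarith
    · push Not at hlo0
      have h1 : (2 * b : ℝ) * lo ^ 2 ≤ ∑ p, a p ^ 2 := by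
        have h : ∑ _p : Fin b × Bool, lo ^ 2 ≤ ∑ p, a p ^ 2 := by
          apply sum_le_sum
          intro p _
          have h2 := (hl p).1
          nlinarith
        rw [sum_const, card_univ, nsmul_eq_mul, hcard] at h
        exact h
      rw [← hw] at h1
      -- 2b (lo^2 - w^2) ≤ 4/3 w^2
      have h2 : (2 * b : ℝ) * ((lo - w) * (lo + w)) ≤ 4 / 3 * w ^ 2 := by nlinarith
      have h3 : (2 * b : ℝ) * ((lo - w) * (2 * w)) ≤ 4 / 3 * w ^ 2 := by
        refine le_trans ?_ h2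
        apply mul_le_mul_of_nonneg_left _ (by positivity)
        apply mul_le_mul_of_nonneg_left _ (by linarith)
        linarith
      have h4 : (b : ℝ) * (lo - w) * 4 ≤ 4 / 3 * w := by
        have hwp : 0 < w := by linarith
        have : ((b : ℝ) * (lo - w) * 4) * w ≤ (4 / 3 * w) * w := by nlinarith
        exact le_of_mul_le_mul_right this hwp
      rw [le_div_iff₀ (by positivity)]
      nlinarith
  refine ⟨hw1, hw2, ?_⟩
  intro p
  have h1 := (hl p).1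
  have h2 := (hl p).2
  have h3 : (0 : ℝ) ≤ 4 / (3 * b) := by positivity
  rw [abs_le]
  constructor <;> linarith

/-- the logarithm -/
theorem wc5_clog (n : ℕ) (hn : 1 ≤ n) :
    (Nat.clog 2 (n + 1) : ℝ) ≤ 2 * Real.log (n + 1) + 1 := by
  have h1 := Nat.pow_pred_clog_lt_self (b := 2) (by norm_num) (x := n + 1) (by omega)
  have h2 : ((2 : ℝ) ^ (Nat.clog 2 (n + 1)).pred) < (n : ℝ) + 1 := by exact_mod_cast h1
  have h3 : ((Nat.clog 2 (n + 1)).pred : ℝ) * Real.log 2 < Real.log (n + 1) := by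
    rw [← Real.log_pow]
    exact Real.log_lt_log (by positivity) h2
  have h4 : (1 : ℝ) / 2 < Real.log 2 := by
    have := Real.log_two_gt_d9
    linarith
  have h5 : (Nat.clog 2 (n + 1) : ℝ) ≤ (Nat.clog 2 (n + 1)).pred + 1 := by
    have : Nat.clog 2 (n + 1) ≤ (Nat.clog 2 (n + 1)).pred + 1 := by
      rw [Nat.pred_eq_sub_one]; omega
    exact_mod_cast this
  have h6 : (0 : ℝ) ≤ ((Nat.clog 2 (n + 1)).pred : ℝ) := Nat.cast_nonneg _
  nlinarith

/-- WC5: existence of the parameters: chain decompositions and integer weights -/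
theorem exists_data : ∃ C0 : ℝ, 0 < C0 ∧ ∀ (n K b : ℕ) (β : Type) [Fintype β] [DecidableEq β]
    (a : WI K b β → ℝ), 0 < K → K ≤ b → Fintype.card (WI K b β) ≤ n →
    C0 * (1 + Real.log (n + 1)) ≤ b → (∀ i, 1 ≤ a i ∧ a i ≤ 2) →
    (∃ lo hi : Fin K → ℝ, (∀ g k s, lo g ≤ a (Sum.inl (g, k, s)) ∧ a (Sum.inl (g, k, s)) ≤ hi g) ∧
      ∑ g, (hi g - lo g) ≤ 1) →
    ∃ (m : ℕ → ℕ) (C : ℕ → Chain (BS b)) (r : ℕ) (ε : ℝ), WordData K b r ((n + 1) ^ 4) m C ε ∧
      ε ≤ 1 / (n + 1) ^ 12 ∧ (r : ℝ) + 1 ≤ C0 * (1 + Real.log (n + 1)) ∧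
      (∑ g, ∑ p : Fin b × Bool, |a (Sum.inl (g, p.1, p.2)) - wg (1 / (n + 1) ^ 4) m g| ≤ 8 * b) ∧
      |(∑ g, ∑ p : Fin b × Bool, (a (Sum.inl (g, p.1, p.2)) ^ 2 - wg (1 / (n + 1) ^ 4) m g ^ 2)) -
        ∑ g : Fin K, (1 / ((n : ℝ) + 1) ^ 4) ^ 2 * ((m g : ℝ) ^ 2 - 1) / 3| ≤ 1 / (n + 1) := by
  refine ⟨1000, by norm_num, ?_⟩
  intro n K b β _ _ a hK hKb hn hbL ha hvar
  obtain ⟨lo, hi, hl, hsum⟩ := hvar
  have hb1 : 1 ≤ b := by omega
  have hb' : (1 : ℝ) ≤ b := by exact_mod_cast hb1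
  have hK' : (1 : ℝ) ≤ K := by exact_mod_cast hK
  have hKb' : (K : ℝ) ≤ b := by exact_mod_cast hKb
  have hcardn : K * (b * 2) ≤ n := by
    have : Fintype.card (WI K b β) = K * (b * 2) + Fintype.card β := by
      simp [WI]
    omega
  have hn1 : 1 ≤ n := by nlinarith
  have hn1' : (1 : ℝ) ≤ n := by exact_mod_cast hn1
  have hKbn : (K : ℝ) * (b * 2) ≤ n := by exact_mod_cast hcardn
  obtain ⟨M, hM⟩ : ∃ M : ℝ, M = ((n : ℝ) + 1) ^ 4 := ⟨_, rfl⟩
  have hM0 : 0 < M := by rw [hM]; positivity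
  have hMn : M = (((n + 1) ^ 4 : ℕ) : ℝ) := by rw [hM]; push_cast; ring
  have hM16 : 8 * ((n : ℝ) + 1) ≤ M := by
    rw [hM]
    have h1 : (8 : ℝ) ≤ ((n : ℝ) + 1) ^ 3 := by nlinarith [sq_nonneg (n : ℝ)]
    nlinarith
  have hbnn : (0 : ℝ) < 2 * b + 4 / 3 := by positivity
  -- exact weights
  have hex : ∀ g : Fin K, ∃ w : ℝ, 0 ≤ w ∧ w ^ 2 * (2 * b + 4 / 3) =
      ∑ p : Fin b × Bool, a (Sum.inl (g, p.1, p.2)) ^ 2 := by
    intro g
    refine ⟨Real.sqrt ((∑ p : Fin b × Bool, a (Sum.inl (g, p.1, p.2)) ^ 2) / (2 * b + 4 / 3)),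
      Real.sqrt_nonneg _, ?_⟩
    rw [Real.sq_sqrt (by positivity)]
    field_simp
  choose w hw0 hw using hex
  have hblock := fun g : Fin K => wc5_block b hb1 (fun p => a (Sum.inl (g, p.1, p.2)))
    (fun p => ha _) (lo g) (hi g) (fun p => hl g p.1 p.2) (w g) (hw0 g) (hw g)
  -- integer weights
  obtain ⟨m, hm⟩ : ∃ m : ℕ → ℕ, m = fun g => if h : g < K then ⌊2 * w ⟨g, h⟩ * M⌋₊ else
    (n + 1) ^ 4 := ⟨_, rfl⟩
  have hmg : ∀ g : Fin K, m g = ⌊2 * w g * M⌋₊ := by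
    intro g
    rw [hm]
    simp
  have hm1 : ∀ g : Fin K, (m g : ℝ) ≤ 2 * w g * M := by
    intro g
    rw [hmg]
    exact Nat.floor_le (by have := hw0 g; positivity)
  have hm2 : ∀ g : Fin K, 2 * w g * M - 1 ≤ (m g : ℝ) := by
    intro g
    rw [hmg]
    have := Nat.lt_floor_add_one (2 * w g * M)
    linarith
  have hmM : ∀ g : Fin K, (n + 1) ^ 4 ≤ m g ∧ m g ≤ 4 * (n + 1) ^ 4 := by
    intro g
    obtain ⟨h1, h2, _⟩ := hblock g
    constructor
    · rw [hmg]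
      apply Nat.le_floor
      rw [← hMn]
      nlinarith
    · have h3 : (m g : ℝ) ≤ ((4 * (n + 1) ^ 4 : ℕ) : ℝ) := by
        have h4 := hm1 g
        have h5 : ((4 * (n + 1) ^ 4 : ℕ) : ℝ) = 4 * M := by rw [hM]; push_cast; ring
        rw [h5]
        nlinarith
      exact_mod_cast h3
  -- `r`
  obtain ⟨c, hc⟩ : ∃ c, c = Nat.clog 2 (n + 1) := ⟨_, rfl⟩
  have hc1 : n + 1 ≤ 2 ^ c := by rw [hc]; exact Nat.le_pow_clog (by norm_num) _
  have hc2 : (c : ℝ) ≤ 2 * Real.log (n + 1) + 1 := by rw [hc]; exact wc5_clog n hn1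
  obtain ⟨r, hr⟩ : ∃ r, r = 17 * c + 2 := ⟨_, rfl⟩
  have hr2 : 4 * (n + 1) ^ 17 ≤ 2 ^ r := by
    rw [hr, pow_add, mul_comm 17 c, pow_mul, mul_comm]
    apply Nat.mul_le_mul _ (by norm_num)
    exact Nat.pow_le_pow_left hc1 _
  have hlog0 : 0 ≤ Real.log ((n : ℝ) + 1) := Real.log_nonneg (by linarith)
  have hrreal : (r : ℝ) ≤ 34 * Real.log (n + 1) + 19 := by
    rw [hr]; push_cast; linarith
  have h8r : 8 * r ≤ b := by
    have : (8 : ℝ) * r ≤ b := by nlinarith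
    exact_mod_cast this
  have h4M : 4 * (n + 1) ^ 4 ≤ 2 ^ r := by
    refine le_trans ?_ hr2
    apply Nat.mul_le_mul_left
    exact Nat.pow_le_pow_right (by omega) (by norm_num)
  -- chains
  have hchain : ∀ g : ℕ, ∃ C : Chain (BS b), g < K → BlockSpec b (m g) r C := by
    intro g
    by_cases hg : g < K
    · obtain ⟨h1, h2⟩ := hmM ⟨g, hg⟩
      obtain ⟨C, hC⟩ := exists_block b (m g) r (lt_of_lt_of_le (by positivity) h1)
        (h2.trans h4M)
      exact ⟨C, fun _ => hC⟩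
    · obtain ⟨C, _⟩ := exists_block b 1 r (by norm_num) Nat.one_le_two_pow
      exact ⟨C, fun h => absurd h hg⟩
  choose C hC using hchain
  obtain ⟨ε, hε⟩ : ∃ ε : ℝ, ε = Real.exp (-(b / 16 : ℝ)) + 4 * M / 2 ^ r := ⟨_, rfl⟩
  have hN : (1 : ℝ) ≤ (n : ℝ) + 1 := by linarith
  refine ⟨m, C, r, ε, ?_, ?_, ?_, ?_, ?_⟩
  · refine ⟨hK, hKb, by positivity, fun g hg => hmM ⟨g, hg⟩, fun g hg => hC g hg, ?_, ?_⟩
    · rw [hε]; positivity
    · intro g hg
      obtain ⟨h1, h2⟩ := hmM ⟨g, hg⟩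
      have h3 := card_frozen b (m g) r (lt_of_lt_of_le (by positivity) h1) h8r
      refine h3.trans ?_
      apply mul_le_mul_of_nonneg_left _ (by positivity)
      rw [hε]
      apply add_le_add le_rfl
      apply div_le_div_of_nonneg_right _ (by positivity)
      have h5 : ((4 * (n + 1) ^ 4 : ℕ) : ℝ) = 4 * M := by rw [hM]; push_cast; ring
      rw [← h5]
      exact_mod_cast h2
  · -- `ε`
    have h1 : 4 * M / 2 ^ r ≤ 1 / ((n : ℝ) + 1) ^ 13 := by
      rw [div_le_div_iff₀ (by positivity) (by positivity), hM]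
      have h2 : (4 : ℝ) * ((n : ℝ) + 1) ^ 17 ≤ 2 ^ r := by exact_mod_cast hr2
      nlinarith
    have h2 : (1 : ℝ) / ((n : ℝ) + 1) ^ 13 ≤ 1 / 2 * (1 / ((n : ℝ) + 1) ^ 12) := by
      rw [pow_succ, ← div_div]
      rw [mul_comm (1 / 2 : ℝ), mul_one_div]
      apply div_le_div_of_nonneg_left (by positivity) (by norm_num)
      linarith
    have h3 : Real.exp (-(b / 16 : ℝ)) ≤ 1 / 2 * (1 / ((n : ℝ) + 1) ^ 12) := by
      have h4 : -(b / 16 : ℝ) ≤ -(12 * Real.log (n + 1)) + (-1) := by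
        nlinarith
      refine (Real.exp_le_exp.2 h4).trans ?_
      rw [Real.exp_add, mul_comm]
      have h5 : Real.exp (-(12 * Real.log ((n : ℝ) + 1))) = 1 / ((n : ℝ) + 1) ^ 12 := by
        rw [Real.exp_neg, mul_comm, Real.exp_mul, Real.exp_log (by positivity)]
        norm_num
      rw [h5]
      apply mul_le_mul_of_nonneg_right _ (by positivity)
      rw [Real.exp_neg]
      have h6 : (2 : ℝ) ≤ Real.exp 1 := by
        have := Real.add_one_le_exp (1 : ℝ)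
        linarith
      rw [inv_le_comm₀ (Real.exp_pos _) (by norm_num)]
      linarith
    rw [hε]
    linarith
  · nlinarith
  · -- distances
    have hwg : ∀ g : Fin K, |w g - wg (1 / ((n : ℝ) + 1) ^ 4) m g| ≤ 1 / (2 * M) := by
      intro g
      have h1 := hm1 g
      have h2 := hm2 g
      unfold wg
      rw [← hM]
      have e : w g - 1 / M * (m g : ℝ) / 2 = (2 * w g * M - m g) / (2 * M) := by
        field_simp
      rw [e, abs_div, abs_of_pos (by positivity : (0 : ℝ) < 2 * M)]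
      apply div_le_div_of_nonneg_right _ (by positivity)
      rw [abs_le]
      constructor <;> linarith
    have h1 : ∀ g : Fin K, ∑ p : Fin b × Bool,
        |a (Sum.inl (g, p.1, p.2)) - wg (1 / ((n : ℝ) + 1) ^ 4) m g| ≤
        2 * b * ((hi g - lo g) + 4 / (3 * b) + 1 / (2 * M)) := by
      intro g
      have h2 : ∑ p : Fin b × Bool,
          |a (Sum.inl (g, p.1, p.2)) - wg (1 / ((n : ℝ) + 1) ^ 4) m g| ≤
          ∑ _p : Fin b × Bool, ((hi g - lo g) + 4 / (3 * b) + 1 / (2 * M)) := by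
        apply sum_le_sum
        intro p _
        have h3 := (hblock g).2.2 p
        have h4 := hwg g
        have h5 := abs_add_le (a (Sum.inl (g, p.1, p.2)) - w g)
          (w g - wg (1 / ((n : ℝ) + 1) ^ 4) m g)
        have e : a (Sum.inl (g, p.1, p.2)) - w g + (w g - wg (1 / ((n : ℝ) + 1) ^ 4) m g) =
            a (Sum.inl (g, p.1, p.2)) - wg (1 / ((n : ℝ) + 1) ^ 4) m g := by ring
        rw [e] at h5
        linarith
      refine h2.trans (le_of_eq ?_)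
      rw [sum_const, card_univ, nsmul_eq_mul, Fintype.card_prod, Fintype.card_fin,
        Fintype.card_bool]
      push_cast
      ring
    refine (sum_le_sum fun g _ => h1 g).trans ?_
    rw [← mul_sum, sum_add_distrib, sum_add_distrib]
    simp only [sum_const, card_univ, Fintype.card_fin, nsmul_eq_mul]
    have h3 : (K : ℝ) * (4 / (3 * b)) ≤ 4 / 3 := by
      rw [mul_div_assoc', div_le_div_iff₀ (by positivity) (by norm_num)]
      nlinarith
    have h4 : (K : ℝ) * (1 / (2 * M)) ≤ 1 / 2 := by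
      rw [mul_one_div, div_le_div_iff₀ (by positivity) (by norm_num)]
      nlinarith
    have h5 : ∑ g, (hi g - lo g) + (K : ℝ) * (4 / (3 * b)) + (K : ℝ) * (1 / (2 * M)) ≤ 4 := by
      linarith
    calc 2 * (b : ℝ) * (∑ g, (hi g - lo g) + (K : ℝ) * (4 / (3 * b)) + (K : ℝ) * (1 / (2 * M)))
        ≤ 2 * b * 4 := mul_le_mul_of_nonneg_left h5 (by positivity)
      _ = 8 * b := by ring
  · -- variances
    have h1 : ∀ g : Fin K, ∑ p : Fin b × Bool,
        (a (Sum.inl (g, p.1, p.2)) ^ 2 - wg (1 / ((n : ℝ) + 1) ^ 4) m g ^ 2) -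
        (1 / ((n : ℝ) + 1) ^ 4) ^ 2 * ((m g : ℝ) ^ 2 - 1) / 3 =
        (2 * b + 4 / 3) * (w g ^ 2 - wg (1 / ((n : ℝ) + 1) ^ 4) m g ^ 2) + (1 / M) ^ 2 / 3 := by
      intro g
      rw [sum_sub_distrib, ← hw g, sum_const, card_univ, nsmul_eq_mul, Fintype.card_prod,
        Fintype.card_fin, Fintype.card_bool]
      unfold wg
      rw [← hM]
      push_cast
      ring
    have h2 : ∀ g : Fin K, 0 ≤ w g ^ 2 - wg (1 / ((n : ℝ) + 1) ^ 4) m g ^ 2 ∧
        w g ^ 2 - wg (1 / ((n : ℝ) + 1) ^ 4) m g ^ 2 ≤ 2 / M := by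
      intro g
      have h3 := hm1 g
      have h4 := hm2 g
      obtain ⟨_, h5, _⟩ := hblock g
      have h6 := hw0 g
      have hm0 : (0 : ℝ) ≤ m g := Nat.cast_nonneg _
      have e : wg (1 / ((n : ℝ) + 1) ^ 4) m g = m g / (2 * M) := by
        unfold wg
        rw [← hM]
        field_simp
      have h7 : (m g : ℝ) / (2 * M) ≤ w g := by
        rw [div_le_iff₀ (by positivity)]
        linarith
      have h8 : w g - 1 / (2 * M) ≤ (m g : ℝ) / (2 * M) := by
        rw [sub_le_iff_le_add, ← add_div, le_div_iff₀ (by positivity)]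
        linarith
      have h9 : (0 : ℝ) ≤ (m g : ℝ) / (2 * M) := by positivity
      rw [e]
      constructor
      · nlinarith
      · have h10 : w g ^ 2 - ((m g : ℝ) / (2 * M)) ^ 2 =
            (w g - (m g : ℝ) / (2 * M)) * (w g + (m g : ℝ) / (2 * M)) := by ring
        rw [h10]
        calc (w g - (m g : ℝ) / (2 * M)) * (w g + (m g : ℝ) / (2 * M))
            ≤ (1 / (2 * M)) * 4 := by
              apply mul_le_mul _ _ (by positivity) (by positivity)
              · linarith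
              · linarith
          _ = 2 / M := by field_simp; norm_num
    rw [← sum_sub_distrib]
    rw [sum_congr rfl fun g _ => h1 g]
    have h3 : ∀ g : Fin K, 0 ≤ (2 * b + 4 / 3) * (w g ^ 2 - wg (1 / ((n : ℝ) + 1) ^ 4) m g ^ 2) +
        (1 / M) ^ 2 / 3 ∧ (2 * b + 4 / 3) * (w g ^ 2 - wg (1 / ((n : ℝ) + 1) ^ 4) m g ^ 2) +
        (1 / M) ^ 2 / 3 ≤ (8 * b) / M := by
      intro g
      obtain ⟨h4, h5⟩ := h2 g
      constructor
      · positivity
      · have h6 : (2 * (b : ℝ) + 4 / 3) * (w g ^ 2 - wg (1 / ((n : ℝ) + 1) ^ 4) m g ^ 2) ≤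
            (2 * b + 4 / 3) * (2 / M) := mul_le_mul_of_nonneg_left h5 hbnn.le
        have h7 : (1 / M) ^ 2 / 3 ≤ (1 / 3) / M := by
          rw [div_pow, one_pow, div_div, div_div, div_le_div_iff₀ (by positivity) (by positivity)]
          nlinarith
        have h8 : (2 * (b : ℝ) + 4 / 3) * (2 / M) + (1 / 3) / M ≤ 8 * b / M := by
          rw [mul_div_assoc', ← add_div]
          apply div_le_div_of_nonneg_right _ hM0.le
          linarith
        linarith
    rw [abs_of_nonneg (sum_nonneg fun g _ => (h3 g).1)]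
    refine (sum_le_sum fun g _ => (h3 g).2).trans ?_
    rw [sum_const, card_univ, Fintype.card_fin, nsmul_eq_mul, mul_div_assoc',
      div_le_div_iff₀ hM0 (by positivity), hM]
    have h4 : (K : ℝ) * (8 * b) ≤ 4 * n := by linarith
    have h5 : (K : ℝ) * (8 * b) * ((n : ℝ) + 1) ≤ 4 * n * ((n : ℝ) + 1) :=
      mul_le_mul_of_nonneg_right h4 (by positivity)
    refine h5.trans ?_
    have h6 : 4 * (n : ℝ) ≤ ((n : ℝ) + 1) ^ 3 := by nlinarith [sq_nonneg ((n : ℝ) - 1)]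
    have h7 : 4 * (n : ℝ) * ((n : ℝ) + 1) ≤ ((n : ℝ) + 1) ^ 3 * ((n : ℝ) + 1) :=
      mul_le_mul_of_nonneg_right h6 (by positivity)
    linarith [h7, (by ring : ((n : ℝ) + 1) ^ 3 * ((n : ℝ) + 1) = 1 * ((n : ℝ) + 1) ^ 4)]

end BLP
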