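import Pool.Agent.Lib.BLP.W1
import Pool.Agent.Lib.BLP.WC3
import Pool.Agent.Lib.BLP.WC4
import Pool.Agent.Lib.BLP.WC5
import Pool.Agent.Lib.BLP.Rank
import Pool.Agent.Lib.BLP.Ops

/-!
# Chunk WC6: the component predicate for one word

`S'` from `law_matching` with `F = Sc`, `G = lin a`, `ρ = rho`, `σ = ` negation.
Transport: `h - h z0` with `lip_conc`, `H = √(20 |ι| (1 + log (n+1)))`; `w1_word` for `lam = 1`, and
for the constant function `1` (`lam = 0, H = 1, δ = 0`).
-/

namespace BLP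

open Finset

variable {K b : ℕ} {β : Type*} [Fintype β] [DecidableEq β]

/-- WC6: the centred function -/
theorem wc6_hh {ι : Type*} [Fintype ι] [DecidableEq ι] (h : (ι → Bool) → ℝ) (hh : Lip 1 h) (H : ℝ)
    (hH : 0 ≤ H) : ∃ z0, HH (fun x => h x - h z0) 1 H
      (Fintype.card ι * (4 * Real.exp (-(H ^ 2 / Fintype.card ι)))) ∧
      ∀ x, |h x - h z0| ≤ Fintype.card ι := by
  obtain ⟨z, hz, hz2⟩ := lip_conc h hh
  refine ⟨z, ⟨?_, by norm_num, hH, by positivity, ?_⟩, hz2⟩
  · intro x i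
    have := hh x i
    have e : h (flp x i) - h z - (h x - h z) = h (flp x i) - h x := by ring
    rw [e]
    exact this
  · intro Z hZ
    have h1 : ∀ x, |h x - h z| * Z x ≤ H * Z x + Fintype.card ι * ind (H ≤ |h x - h z|) := by
      intro x
      by_cases hx : H ≤ |h x - h z|
      · rw [ind_true hx, mul_one]
        have h2 := mul_nonneg hH (hZ x).1
        have h3 : |h x - h z| * Z x ≤ Fintype.card ι * 1 :=
          mul_le_mul (hz2 x) (hZ x).2 (hZ x).1 (by positivity)
        linarith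
      · rw [ind_false hx, mul_zero, add_zero]
        push Not at hx
        exact mul_le_mul_of_nonneg_right hx.le (hZ x).1
    calc ∑ x, |h x - h z| * Z x ≤ ∑ x, (H * Z x + Fintype.card ι * ind (H ≤ |h x - h z|)) :=
          Finset.sum_le_sum fun x _ => h1 x
      _ = H * ∑ x, Z x + Fintype.card ι * ∑ x, ind (H ≤ |h x - h z|) := by
          rw [Finset.sum_add_distrib, Finset.mul_sum, Finset.mul_sum]
      _ ≤ H * ∑ x, Z x + Fintype.card ι *
          (4 * Real.exp (-(H ^ 2 / Fintype.card ι)) * 2 ^ Fintype.card ι) := by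
          have := mul_le_mul_of_nonneg_left (hz H hH) (Nat.cast_nonneg (Fintype.card ι) : (0:ℝ) ≤ _)
          linarith
      _ = _ := by ring

/-- WC6: exchange of the sums of `h` and of the centred function -/
theorem wc6_split {Ω : Type*} [Fintype Ω] (h F G S : Ω → ℝ) (k : ℝ) (c : ℝ)
    (hlaw : ∑ x, ind (c < S x) = ∑ x, ind (c < G x)) :
    |∑ x, h x * (ind (c < G x) - ind (c < S x))| ≤
      |∑ x, (h x - k) * (ind (c < G x) - ind (c < F x))| +
      ∑ x, |h x - k| * |ind (c < S x) - ind (c < F x)| := by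
  have e : ∑ x, h x * (ind (c < G x) - ind (c < S x)) =
      ∑ x, (h x - k) * (ind (c < G x) - ind (c < F x)) -
      ∑ x, (h x - k) * (ind (c < S x) - ind (c < F x)) := by
    have e1 : ∑ x, (h x - k) * (ind (c < G x) - ind (c < F x)) -
      ∑ x, (h x - k) * (ind (c < S x) - ind (c < F x)) =
      ∑ x, h x * (ind (c < G x) - ind (c < S x)) - k * (∑ x, ind (c < G x) - ∑ x, ind (c < S x)) := by
      rw [← Finset.sum_sub_distrib, ← Finset.sum_sub_distrib, Finset.mul_sum,
        ← Finset.sum_sub_distrib]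
      exact Finset.sum_congr rfl fun x _ => by ring
    rw [e1, hlaw]
    ring
  rw [e]
  refine (abs_sub _ _).trans ?_
  refine add_le_add le_rfl ?_
  refine (Finset.abs_sum_le_sum_abs _ _).trans (le_of_eq ?_)
  exact Finset.sum_congr rfl fun x _ => abs_mul _ _

/-- WC6: average distortion, arithmetic -/
theorem wc6_A (N B K b r M ε L C5 q : ℝ) (hB : B ≤ N) (hN : 1 ≤ N) (hK : 0 ≤ K) (hKq : K ≤ q)
    (hKb : 0 ≤ K * b) (hKbN : K * b ≤ N) (hNq : N ≤ q) (hr : r + 1 ≤ C5 * L) (hr0 : 0 ≤ r) (hL : 1 ≤ L)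
    (hC5 : 0 ≤ C5)
    (hM : M = q ^ 4) (hε : ε ≤ 1 / q ^ 12) (hε0 : 0 ≤ ε) :
    B + 4 * (10 ^ 12 * (r + 1) * (K * b) * (1 + K ^ 2 * M * ε) + 2 * ε * (K * b) ^ 2) ≤
      10 ^ 14 * (C5 + 1) * N * L := by
  have hq : 1 ≤ q := hN.trans hNq
  have hq0 : 0 < q := by linarith
  have h1 : K ^ 2 * M * ε ≤ 1 := by
    calc K ^ 2 * M * ε ≤ q ^ 2 * q ^ 4 * (1 / q ^ 12) := by
          rw [hM]; gcongr
      _ = 1 / q ^ 6 := by field_simp
      _ ≤ 1 := by
          rw [div_le_one (by positivity)]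
          exact one_le_pow₀ hq
  have h1' : 0 ≤ K ^ 2 * M * ε := by rw [hM]; positivity
  have h2 : ε * (K * b) ^ 2 ≤ 1 := by
    calc ε * (K * b) ^ 2 ≤ (1 / q ^ 12) * q ^ 2 := by
          gcongr; exact hKbN.trans hNq
      _ = 1 / q ^ 10 := by field_simp
      _ ≤ 1 := by
          rw [div_le_one (by positivity)]
          exact one_le_pow₀ hq
  have h3 : (r + 1) * (K * b) * (1 + K ^ 2 * M * ε) ≤ C5 * L * N * 2 := by
    have : 1 + K ^ 2 * M * ε ≤ 2 := by linarith
    gcongr
  have h4 : 0 ≤ C5 * L * N := by positivity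
  have h5 : N ≤ N * L := by nlinarith
  nlinarith

/-- WC6: the square root of the number of coordinates -/
theorem wc6_sqrt (N K b : ℝ) (hK : 0 < K) (hKb : K ≤ b) (hbK : b ≤ 4 * K) (hN1 : 2 * (K * b) ≤ N)
    (hN2 : N ≤ 2 * (K * b) + 100 * b) (hb1 : 1 ≤ b) :
    b ≤ 3 / 2 * Real.sqrt N ∧ Real.sqrt N ≤ 11 * b ∧ b / 2 ≤ Real.sqrt (K * b) := by
  have hb0 : 0 < b := by linarith
  have hN0 : 0 ≤ N := by nlinarith [mul_pos hK hb0]
  refine ⟨?_, ?_, ?_⟩
  · have : b * (2 / 3) ≤ Real.sqrt N := by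
      apply Real.le_sqrt_of_sq_le
      nlinarith
    linarith
  · rw [Real.sqrt_le_left (by positivity)]
    nlinarith
  · apply Real.le_sqrt_of_sq_le
    nlinarith

/-- WC6: the component predicate for a word -/
theorem word_comp : ∃ C0 : ℝ, 0 < C0 ∧ ∀ (n K b : ℕ) (β : Type) [Fintype β] [DecidableEq β]
    (a : WI K b β → ℝ), 0 < K → K ≤ b → b ≤ 4 * K → Fintype.card (WI K b β) ≤ n →
    64 * b ≤ Fintype.card β → Fintype.card β ≤ 100 * b →
    C0 * (1 + Real.log (n + 1)) ≤ b → (∀ i, 1 ≤ a i ∧ a i ≤ 2) →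
    (∃ lo hi : Fin K → ℝ, (∀ g k s, lo g ≤ a (Sum.inl (g, k, s)) ∧ a (Sum.inl (g, k, s)) ≤ hi g) ∧
      ∑ g, (hi g - lo g) ≤ 1) →
    Comp a (C0 * Fintype.card (WI K b β) * (1 + Real.log (n + 1))) (C0 * (1 + Real.log (n + 1)))
      (C0 * Real.sqrt (Fintype.card (WI K b β)))
      (C0 * Real.sqrt (Fintype.card (WI K b β)) * (1 + Real.log (n + 1))) (C0 / (n + 1) ^ 3) := by
  obtain ⟨C5, hC5, hdata⟩ := exists_data
  refine ⟨10 ^ 14 * (C5 + 1), by positivity, ?_⟩
  intro n K b β _ _ a hK hKb hbK hn hβ1 hβ2 hCb ha hlohi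
  have hcard : Fintype.card (WI K b β) = 2 * (K * b) + Fintype.card β := by
    simp only [Fintype.card_sum, Fintype.card_prod, Fintype.card_fin, Fintype.card_bool]
    ring
  have hL : 1 ≤ 1 + Real.log ((n : ℝ) + 1) := by
    have : 0 ≤ Real.log ((n : ℝ) + 1) := Real.log_nonneg (by
      have : (0 : ℝ) ≤ n := Nat.cast_nonneg n
      linarith)
    linarith
  set L : ℝ := 1 + Real.log ((n : ℝ) + 1) with hLdef
  have hb : 0 < b := lt_of_lt_of_le hK hKb
  have hb1 : (1 : ℝ) ≤ b := by exact_mod_cast hb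
  have hK1 : (1 : ℝ) ≤ K := by exact_mod_cast hK
  have hKb' : (K : ℝ) ≤ b := by exact_mod_cast hKb
  have hbK' : (b : ℝ) ≤ 4 * K := by exact_mod_cast hbK
  have hβ0 : 0 < Fintype.card β := by omega
  obtain ⟨m, C, r, ε, hW, hε, hr, hD, hτ⟩ := hdata n K b β a hK hKb hn (by
    refine le_trans ?_ hCb
    apply mul_le_mul_of_nonneg_right _ (by linarith)
    linarith) ha hlohi
  have hε0 := hW.hε
  set N : ℝ := (Fintype.card (WI K b β) : ℝ) with hN
  have hNn : N ≤ n := by rw [hN]; exact_mod_cast hn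
  have hNe : N = 2 * ((K : ℝ) * b) + Fintype.card β := by rw [hN, hcard]; push_cast; ring
  have hβ1' : (64 : ℝ) * b ≤ Fintype.card β := by exact_mod_cast hβ1
  have hβ2' : (Fintype.card β : ℝ) ≤ 100 * b := by exact_mod_cast hβ2
  have hKb0 : (0 : ℝ) < (K : ℝ) * b := by positivity
  have hN1 : 1 ≤ N := by rw [hNe]; linarith
  set q : ℝ := (n : ℝ) + 1 with hq
  have hNq : N ≤ q := by rw [hq]; linarith
  have hq1 : 1 ≤ q := hN1.trans hNq
  have hq0 : 0 < q := by linarith
  have hbN : (b : ℝ) ≤ N := by rw [hNe]; linarith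
  have hKN : (K : ℝ) ≤ N := by linarith
  have hKbN : (K : ℝ) * b ≤ N := by rw [hNe]; linarith
  obtain ⟨hs1, hs2, hs3⟩ := wc6_sqrt N K b (by linarith) hKb' hbK' (by rw [hNe]; linarith)
    (by rw [hNe]; linarith) hb1
  have hsN1 : 1 ≤ Real.sqrt N := by rw [Real.one_le_sqrt]; exact hN1
  have hr0 : (0 : ℝ) ≤ r := Nat.cast_nonneg r
  have hp2 : (0 : ℝ) < 2 ^ Fintype.card (WI K b β) := by positivity
  have hMc : (((n + 1) ^ 4 : ℕ) : ℝ) = q ^ 4 := by rw [hq]; push_cast; ring
  have hεK : K * ε ≤ 1 / q ^ 3 := by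
    calc K * ε ≤ q * (1 / q ^ 12) := by
          gcongr; linarith
      _ = 1 / q ^ 11 := by field_simp
      _ ≤ 1 / q ^ 3 := by
          apply one_div_le_one_div_of_le (by positivity)
          exact pow_le_pow_right₀ hq1 (by norm_num)
  have hμm : ∀ g < K, 1 ≤ (1 / q ^ 4) * (m g : ℝ) ∧ (1 / q ^ 4) * (m g : ℝ) ≤ 4 := by
    intro g hg
    have h1 := hW.hm g hg
    have h2 : q ^ 4 ≤ m g := by rw [← hMc]; exact_mod_cast h1.1
    have h3 : (m g : ℝ) ≤ 4 * q ^ 4 := by rw [← hMc]; exact_mod_cast h1.2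
    have hq4 : 0 < q ^ 4 := by positivity
    constructor
    · rw [one_div, inv_mul_eq_div, le_div_iff₀ hq4]; linarith
    · rw [one_div, inv_mul_eq_div, div_le_iff₀ hq4]; linarith
  have hτb : (1 / q) * (b : ℝ) ≤ 1 := by
    rw [one_div, inv_mul_eq_div, div_le_one hq0]
    linarith
  -- the transport estimate for `Sc`
  have hw1 : ∀ (h : (WI K b β → Bool) → ℝ) (lam H δ Hm : ℝ), HH h lam H δ → (∀ z, |h z| ≤ Hm) →
      ∀ c : ℝ, |∑ z, h z * (ind (c < lin a z) - ind (c < Sc C (1 / q ^ 4) a z))| ≤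
      10 ^ 9 * 2 ^ Fintype.card (WI K b β) *
        (lam * (r + 1) + H / b + δ * b + Hm * K * ε) := by
    intro h lam H δ Hm hh hHm c
    exact w1_word hW (1 / q ^ 4) (by positivity) hμm a ha (8 * b) hD le_rfl hβ1 hβ2 hbK (1 / q)
      hτ hτb h lam H δ Hm hh hHm c
  -- the matching of the ranks
  obtain ⟨S', hS1, hS2, hS3, hS4⟩ := law_matching (Sc C (1 / q ^ 4) a) (lin a) (rho C)
    (fun x i => !(x i)) (rho_rho C) (rho_ne C hβ0) (Sc_rho C (1 / q ^ 4) a)
    (fun x => by funext i; simp) (fun x hx => by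
      have := congrFun hx (Sum.inr (Classical.choice (Fintype.card_pos_iff.1 hβ0)))
      simp at this) (fun x => by
      simp only [lin, ← Finset.sum_neg_distrib]
      refine Finset.sum_congr rfl fun i _ => ?_
      cases x i <;> simp [sg])
  refine ⟨S', rho C, rho_rho C, hS1, ?_, ?_, ?_, ?_⟩
  · -- distortion
    refine (rho_lip hW).trans ?_
    rw [mul_comm, hMc]
    exact mul_le_mul_of_nonneg_right (wc6_A N (Fintype.card β) K b r (q ^ 4) ε L C5 q
      (by rw [hNe]; linarith) hN1 (by linarith) (by linarith) hKb0.le hKbN hNq hr hr0 hL hC5.le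
      rfl hε hε0) hp2.le
  · -- transport
    intro h hh c
    have hH0 : 0 ≤ Real.sqrt (20 * N * L) := Real.sqrt_nonneg _
    set H : ℝ := Real.sqrt (20 * N * L) with hHdef
    have hHsq : H ^ 2 = 20 * N * L := Real.sq_sqrt (by positivity)
    obtain ⟨z0, hz0, hz1⟩ := wc6_hh h hh H hH0
    have hexp : Real.exp (-(H ^ 2 / N)) ≤ 1 / q ^ 3 := by
      rw [hHsq]
      have e : 20 * N * L / N = 20 * L := by field_simp
      rw [e, hLdef]
      calc Real.exp (-(20 * (1 + Real.log q))) ≤ Real.exp (-(3 * Real.log q)) := by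
            apply Real.exp_le_exp.2
            have : 0 ≤ Real.log q := Real.log_nonneg hq1
            linarith
        _ = 1 / q ^ 3 := by
            rw [Real.exp_neg, mul_comm, ← Real.rpow_def_of_pos hq0]
            rw [one_div]
            congr 1
            exact_mod_cast Real.rpow_natCast q 3
    have hHb : H / b ≤ 50 * L := by
      rw [div_le_iff₀ (by linarith), hHdef, Real.sqrt_le_left (by positivity)]
      have h1 : N ≤ 121 * b ^ 2 := by
        have h2 := mul_self_le_mul_self (Real.sqrt_nonneg N) hs2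
        rw [Real.mul_self_sqrt (by linarith)] at h2
        nlinarith
      have h2 : L ≤ L ^ 2 := by nlinarith
      calc 20 * N * L ≤ 20 * (121 * b ^ 2) * L ^ 2 := by gcongr
        _ ≤ (50 * L * b) ^ 2 := by nlinarith [sq_nonneg (L * b)]
    have hδ : (N * (4 * Real.exp (-(H ^ 2 / N)))) * b ≤ 4 := by
      calc (N * (4 * Real.exp (-(H ^ 2 / N)))) * b ≤ (q * (4 * (1 / q ^ 3))) * q := by
            gcongr
            linarith
        _ = 4 / q := by field_simp
        _ ≤ 4 := by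
            rw [div_le_iff₀ hq0]
            linarith
    have hδ0 : 0 ≤ N * (4 * Real.exp (-(H ^ 2 / N))) := by positivity
    have hKε0 : 0 ≤ K * ε := by positivity
    have hNKε : N * K * ε ≤ 1 := by
      calc N * K * ε = N * (K * ε) := by ring
        _ ≤ q * (1 / q ^ 3) := by gcongr
        _ = 1 / q ^ 2 := by field_simp
        _ ≤ 1 := by
            rw [div_le_one (by positivity)]
            exact one_le_pow₀ hq1
    have T1 := hw1 (fun x => h x - h z0) 1 H _ N hz0 hz1 c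
    have hone : HH (fun _ : WI K b β → Bool => (1 : ℝ)) 0 1 0 := by
      refine ⟨fun x i => by simp, le_rfl, by norm_num, le_rfl, fun Z _ => by simp⟩
    have T2 := hw1 (fun _ => 1) 0 1 0 1 hone (fun _ => by simp) c
    have T3 := hz0.hZ (fun x => |ind (c < S' x) - ind (c < Sc C (1 / q ^ 4) a x)|) (fun x =>
      ⟨abs_nonneg _, by
        rw [abs_le]
        have h1 := ind_nonneg (c < S' x)
        have h2 := ind_le_one (c < S' x)
        have h3 := ind_nonneg (c < Sc C (1 / q ^ 4) a x)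
        have h4 := ind_le_one (c < Sc C (1 / q ^ 4) a x)
        constructor <;> linarith⟩)
    rw [hS3 c] at T3
    have T2' : |∑ x, ind (c < lin a x) - ∑ x, ind (c < Sc C (1 / q ^ 4) a x)| ≤
        10 ^ 9 * 2 ^ Fintype.card (WI K b β) * (1 / b + K * ε) := by
      refine le_trans (le_of_eq ?_) (T2.trans (le_of_eq (by ring)))
      rw [← Finset.sum_sub_distrib]
      simp
    have hHKε : H * (K * ε) ≤ 50 * L := by
      have h1 : H ≤ 50 * L * b := by rwa [div_le_iff₀ (by linarith)] at hHb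
      calc H * (K * ε) ≤ (50 * L * b) * (K * ε) := by gcongr
        _ ≤ (50 * L * N) * (K * ε) := by gcongr
        _ = 50 * L * (N * K * ε) := by ring
        _ ≤ 50 * L * 1 := by gcongr
        _ = 50 * L := by ring
    have T3' : ∑ x, |h x - h z0| * |ind (c < S' x) - ind (c < Sc C (1 / q ^ 4) a x)| ≤
        10 ^ 9 * 2 ^ Fintype.card (WI K b β) * (100 * L) + 4 * 2 ^ Fintype.card (WI K b β) := by
      refine T3.trans ?_
      have h1 := mul_le_mul_of_nonneg_left T2' hH0
      have h2 : H * (10 ^ 9 * 2 ^ Fintype.card (WI K b β) * (1 / b + K * ε)) ≤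
          10 ^ 9 * 2 ^ Fintype.card (WI K b β) * (100 * L) := by
        have h3 : H * (1 / b + K * ε) ≤ 100 * L := by
          have : H * (1 / b + K * ε) = H / b + H * (K * ε) := by ring
          rw [this]; linarith
        have := mul_le_mul_of_nonneg_left h3
          (by positivity : (0:ℝ) ≤ 10 ^ 9 * 2 ^ Fintype.card (WI K b β))
        linarith
      have h4 : N * (4 * Real.exp (-(H ^ 2 / N))) ≤ 4 := by
        refine le_trans ?_ hδ
        nlinarith
      have h5 := mul_le_mul_of_nonneg_right h4 hp2.le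
      linarith
    refine (wc6_split h (Sc C (1 / q ^ 4) a) (lin a) S' (h z0) c (hS2 c)).trans ?_
    have hB1 : 1 * ((r : ℝ) + 1) + H / b + N * (4 * Real.exp (-(H ^ 2 / N))) * b + N * K * ε ≤
        (C5 + 55) * L := by
      nlinarith
    have T1' := T1.trans (mul_le_mul_of_nonneg_left hB1
      (by positivity : (0:ℝ) ≤ 10 ^ 9 * 2 ^ Fintype.card (WI K b β)))
    refine (add_le_add T1' T3').trans ?_
    have hfin : 10 ^ 9 * ((C5 + 55) * L) + (10 ^ 9 * (100 * L) + 4) ≤
        10 ^ 14 * (C5 + 1) * L := by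
      nlinarith [mul_nonneg hC5.le (by linarith : (0:ℝ) ≤ L)]
    have := mul_le_mul_of_nonneg_right hfin hp2.le
    linarith
  · -- influence
    intro θ
    have hμM : 1 / q ^ 4 * (((n + 1) ^ 4 : ℕ) : ℝ) = 1 := by
      rw [hMc]; field_simp
    refine (infl hW (1 / q ^ 4) hμM a ha S' hS4 θ).trans ?_
    rw [mul_comm]
    apply mul_le_mul_of_nonneg_right _ hp2.le
    have hsKb : 0 < Real.sqrt ((K : ℝ) * b) := Real.sqrt_pos.2 hKb0
    have h1 : N * (10 ^ 4 / Real.sqrt (K * b)) ≤ 22 * 10 ^ 4 * Real.sqrt N := by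
      rw [mul_div_assoc', div_le_iff₀ hsKb]
      have h2 : N = Real.sqrt N * Real.sqrt N := (Real.mul_self_sqrt (by linarith)).symm
      have h3 : Real.sqrt N ≤ 22 * Real.sqrt (K * b) := by linarith
      have h4 : Real.sqrt N * Real.sqrt N ≤ Real.sqrt N * (22 * Real.sqrt (K * b)) :=
        mul_le_mul_of_nonneg_left h3 (by linarith)
      linarith
    have h2 : N * (4 * K * ε) ≤ 4 := by
      calc N * (4 * K * ε) = 4 * (N * (K * ε)) := by ring
        _ ≤ 4 * (q * (1 / q ^ 3)) := by gcongr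
        _ = 4 * (1 / q ^ 2) := by field_simp
        _ ≤ 4 * 1 := by
            gcongr
            rw [div_le_one (by positivity)]
            exact one_le_pow₀ hq1
        _ = 4 := by norm_num
    calc N * (10 ^ 4 / Real.sqrt (K * b) + 4 * K * ε) =
        N * (10 ^ 4 / Real.sqrt (K * b)) + N * (4 * K * ε) := by ring
      _ ≤ 22 * 10 ^ 4 * Real.sqrt N + 4 * Real.sqrt N := by linarith
      _ ≤ 10 ^ 14 * (C5 + 1) * Real.sqrt N := by
          have := mul_nonneg hC5.le (by linarith : (0:ℝ) ≤ Real.sqrt N)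
          nlinarith
  · -- displacement
    have hμM : 1 / q ^ 4 * (((n + 1) ^ 4 : ℕ) : ℝ) = 1 := by
      rw [hMc]; field_simp
    set s : ℝ := Real.sqrt (24 * (N + 1) * L) with hs
    have hs0 : 0 ≤ s := Real.sqrt_nonneg _
    have hssq : s ^ 2 = 24 * (N + 1) * L := Real.sq_sqrt (by positivity)
    have hexp : Real.exp (-(s ^ 2 / (8 * (N + 1)))) ≤ 1 / q ^ 3 := by
      rw [hssq]
      have e : 24 * (N + 1) * L / (8 * (N + 1)) = 3 * L := by
        field_simp
        ring
      rw [e, hLdef]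
      calc Real.exp (-(3 * (1 + Real.log q))) ≤ Real.exp (-(3 * Real.log q)) := by
            apply Real.exp_le_exp.2
            linarith
        _ = 1 / q ^ 3 := by
            rw [Real.exp_neg, mul_comm, ← Real.rpow_def_of_pos hq0]
            rw [one_div]
            congr 1
            exact_mod_cast Real.rpow_natCast q 3
    have hsb : s ≤ 7 * (Real.sqrt N * L) := by
      rw [hs, Real.sqrt_le_left (by positivity), mul_pow, mul_pow, Real.sq_sqrt (by linarith)]
      have h2 : L ≤ L ^ 2 := by nlinarith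
      calc 24 * (N + 1) * L ≤ 24 * (2 * N) * L ^ 2 := by gcongr; linarith
        _ ≤ 7 ^ 2 * (N * L ^ 2) := by nlinarith [mul_nonneg (by linarith : (0:ℝ) ≤ N) (sq_nonneg L)]
    have hthr : 2 * 100000 * (s + 4 * K + (r + 1) * K) + Fintype.card β ≤
        10 ^ 14 * (C5 + 1) * Real.sqrt N * L := by
      have hx : 0 ≤ Real.sqrt N * L := by positivity
      have h0 : Real.sqrt N ≤ Real.sqrt N * L := by nlinarith
      have h1 : (K : ℝ) ≤ 3 / 2 * (Real.sqrt N * L) := by linarith
      have h2 : ((r : ℝ) + 1) * K ≤ C5 * L * (3 / 2 * Real.sqrt N) := by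
        gcongr
        linarith
      have h3 : (Fintype.card β : ℝ) ≤ 150 * (Real.sqrt N * L) := by linarith
      have h4 : 0 ≤ C5 * (Real.sqrt N * L) := by positivity
      nlinarith
    calc (∑ x, ind (10 ^ 14 * (C5 + 1) * Real.sqrt N * L < hammingDist x (rho C x)))
        ≤ ∑ z : WI K b β → Bool, ind (2 * 100000 * (s + 4 * K + (r + 1) * K) + Fintype.card β <
            hammingDist z (rho C z)) :=
          Finset.sum_le_sum fun x _ => ind_mono fun hx => lt_of_le_of_lt hthr hx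
      _ ≤ 2 ^ Fintype.card (WI K b β) *
        (2 * Real.exp (-(s ^ 2 / (8 * (Fintype.card (WI K b β) + 1)))) + K * ε) :=
          rho_disp hW (1 / q ^ 4) hμM s hs0
      _ ≤ 2 ^ Fintype.card (WI K b β) * (2 * (1 / q ^ 3) + 1 / q ^ 3) := by
          gcongr
      _ ≤ 10 ^ 14 * (C5 + 1) / q ^ 3 * 2 ^ Fintype.card (WI K b β) := by
          rw [mul_comm]
          apply mul_le_mul_of_nonneg_right _ hp2.le
          have h1 : 2 * (1 / q ^ 3) + 1 / q ^ 3 = 3 / q ^ 3 := by ring
          rw [h1]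
          apply div_le_div_of_nonneg_right _ (by positivity)
          nlinarith

end BLP
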